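import Pool.Agent.Lib.MP_a52643_an.YS.Defs

/-!
Integral identities for the conjugated operator.
-/

namespace Pool.Agent.Lib.MP_a52643_an.YS

open Complex Filter Topology Metric MeasureTheory Set QS YA
open scoped ContDiff

variable {F V g X₁ X₂ : ℂ → ℝ}

/-- A pointwise divergence identity can be integrated. -/
theorem car_eq {L R Y₁ Y₂ : ℂ → ℝ} (hR : Integrable R) (h1 : Sm Y₁) (h2 : Sm Y₂)
    (z1 : ∀ z, 1 ≤ ‖z‖ → Y₁ z = 0) (z2 : ∀ z, 1 ≤ ‖z‖ → Y₂ z = 0)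
    (e : ∀ z, L z = R z + (D 1 Y₁ z + D I Y₂ z)) : ∫ z, L z = ∫ z, R z := by
  have i1 : Integrable (D 1 Y₁) := int_out (smD h1 1).continuous (D_out h1 z1 1)
  have i2 : Integrable (D I Y₂) := int_out (smD h2 I).continuous (D_out h2 z2 I)
  have i3 : Integrable fun z => D 1 Y₁ z + D I Y₂ z := i1.add i2
  simp_rw [e]
  rw [integral_add hR i3, integral_add i1 i2, int_D h1 z1, int_D h2 z2, add_zero, add_zero]

/-- The components of the affine field. -/
theorem car_w (b : ℂ) (N : ℝ) : ∃ w₁ w₂ : ℂ → ℝ, ContDiff ℝ ∞ w₁ ∧ ContDiff ℝ ∞ w₂ ∧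
    (∀ z, D 1 w₁ z = N) ∧ (∀ z, D I w₁ z = 0) ∧ (∀ z, D 1 w₂ z = 0) ∧ (∀ z, D I w₂ z = N) ∧
    (∀ z, ‖b + N • z‖ ^ 2 = w₁ z * w₁ z + w₂ z * w₂ z) ∧
    ∀ (G : ℂ → ℝ) (z : ℂ), D (b + N • z) G z = w₁ z * D 1 G z + w₂ z * D I G z := by
  have k : ∀ (l : ℂ →L[ℝ] ℝ) (v z : ℂ), D v (fun z => l (b + N • z)) z = N * l v := fun l v z => by
    have h1 : HasFDerivAt (fun s : ℂ => b + N • s) (N • ContinuousLinearMap.id ℝ ℂ) z :=
      ((hasFDerivAt_id z).const_smul N).const_add b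
    have h2 := (l.hasFDerivAt.comp z h1).fderiv
    have h3 : fderiv ℝ (fun z => l (b + N • z)) z = _ := h2
    rw [D, h3]
    simp [-Complex.real_smul]
  have s : ∀ l : ℂ →L[ℝ] ℝ, ContDiff ℝ ∞ fun z => l (b + N • z) := fun l =>
    l.contDiff.comp (contDiff_const.add (contDiff_id.const_smul N))
  refine ⟨fun z => reCLM (b + N • z), fun z => imCLM (b + N • z), s _, s _, fun z => ?_,
    fun z => ?_, fun z => ?_, fun z => ?_, fun z => ?_, fun G z => D_lin G _ z⟩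
  · rw [k]; simp
  · rw [k]; simp
  · rw [k]; simp
  · rw [k]; simp
  · rw [Complex.sq_norm, Complex.normSq_apply]; rfl

theorem car (hF : Sm F) (hV : Sm V) (h0 : ∀ z, 1 ≤ ‖z‖ → F z = 0) (b : ℂ) (N : ℝ) :
    ∫ z, So b N V F z * Ao b N F z = -2 * N * (∫ z, Gr F z) -
      2 * N * (∫ z, ‖b + N • z‖ ^ 2 * F z ^ 2) - ∫ z, D (b + N • z) V z * F z ^ 2 := by
  obtain ⟨w₁, w₂, s1, s2, d11, d12, d21, d22, hn, hd⟩ := car_w b N
  have f1 := smD hF 1
  have f2 := smD hF I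
  have v1 := smD hV 1
  have v2 := smD hV I
  have f0 : ContDiff ℝ ∞ F := hF
  have v0 : ContDiff ℝ ∞ V := hV
  have o1 := D_out hF h0 1
  have o2 := D_out hF h0 I
  have i1 : Integrable (Gr F) := int_out (r := 1) (smGr hF).continuous fun z hz => by
    simp [Gr, o1 z hz, o2 z hz]
  have i2 : Integrable fun z => ‖b + N • z‖ ^ 2 * F z ^ 2 := by
    simp_rw [hn]
    exact int_out (r := 1) (ContDiff.continuous (𝕜 := ℝ) (n := ∞) (by fun_prop)) fun z hz => by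
      simp [h0 z hz]
  have i3 : Integrable fun z => D (b + N • z) V z * F z ^ 2 := by
    simp_rw [hd]
    exact int_out (r := 1) (ContDiff.continuous (𝕜 := ℝ) (n := ∞) (by fun_prop)) fun z hz => by
      simp [h0 z hz]
  have j1 := i1.const_mul (-2 * N)
  have j2 := i2.const_mul (2 * N)
  have j3 : Integrable fun z => -2 * N * Gr F z - 2 * N * (‖b + N • z‖ ^ 2 * F z ^ 2) := j1.sub j2
  rw [← integral_const_mul, ← integral_const_mul, ← integral_sub j1 j2, ← integral_sub j3 i3]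
  refine car_eq (j3.sub i3)
    (Y₁ := fun z => 2 * ((w₁ z * D 1 F z + w₂ z * D I F z) * D 1 F z) +
      -1 * ((D 1 F z * D 1 F z + D I F z * D I F z) * w₁ z) + 2 * N * (F z * D 1 F z) +
      (w₁ z * w₁ z + w₂ z * w₂ z + V z) * (F z * F z) * w₁ z)
    (Y₂ := fun z => 2 * ((w₁ z * D 1 F z + w₂ z * D I F z) * D I F z) +
      -1 * ((D 1 F z * D 1 F z + D I F z * D I F z) * w₂ z) + 2 * N * (F z * D I F z) +
      (w₁ z * w₁ z + w₂ z * w₂ z + V z) * (F z * F z) * w₂ z)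
    (by show ContDiff ℝ ∞ _; fun_prop) (by show ContDiff ℝ ∞ _; fun_prop)
    (fun z hz => by simp [h0 z hz, o1 z hz, o2 z hz])
    (fun z hz => by simp [h0 z hz, o1 z hz, o2 z hz]) fun z => ?_
  simp (disch := fun_prop) only [D_add, D_cmul, D_mul]
  simp only [So, Ao, Lap, Gr, hn, hd, d11, d12, d21, d22, D_comm hF I 1]
  ring

theorem en (hF : Sm F) (hV : Sm V) (hg : Sm g)
    (h0 : (∀ z, 1 ≤ ‖z‖ → F z = 0) ∨ ∀ z, 1 ≤ ‖z‖ → g z = 0) (b : ℂ) (N : ℝ) :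
    ∫ z, g z * F z * (So b N V F z + Ao b N F z) = -(∫ z, g z * Gr F z) +
      ∫ z, (g z * (‖b + N • z‖ ^ 2 + V z) + Lap g z / 2 - D (b + N • z) g z) * F z ^ 2 := by
  obtain ⟨w₁, w₂, s1, s2, d11, d12, d21, d22, hn, hd⟩ := car_w b N
  have f1 := smD hF 1
  have f2 := smD hF I
  have g1 := smD hg 1
  have g2 := smD hg I
  have g3 : ContDiff ℝ ∞ (Lap g) := smLap hg
  have f3 : ContDiff ℝ ∞ (Gr F) := smGr hF
  have f0 : ContDiff ℝ ∞ F := hF
  have v0 : ContDiff ℝ ∞ V := hV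
  have g0 : ContDiff ℝ ∞ g := hg
  have o : ∀ z, 1 ≤ ‖z‖ → (F z = 0 ∧ D 1 F z = 0 ∧ D I F z = 0) ∨
      (g z = 0 ∧ D 1 g z = 0 ∧ D I g z = 0 ∧ Lap g z = 0) := fun z hz => by
    rcases h0 with h | h
    · exact Or.inl ⟨h z hz, D_out hF h 1 z hz, D_out hF h I z hz⟩
    · refine Or.inr ⟨h z hz, D_out hg h 1 z hz, D_out hg h I z hz, ?_⟩
      rw [Lap, D_out g1 (D_out hg h 1) 1 z hz, D_out g2 (D_out hg h I) I z hz, add_zero]
  have i1 : Integrable fun z => g z * Gr F z :=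
    int_out (r := 1) (ContDiff.continuous (𝕜 := ℝ) (n := ∞) (by fun_prop)) fun z hz => by
      rcases o z hz with h | h <;> simp [Gr, h]
  have i2 : Integrable fun z =>
      (g z * (‖b + N • z‖ ^ 2 + V z) + Lap g z / 2 - D (b + N • z) g z) * F z ^ 2 := by
    simp_rw [hn, hd]
    exact int_out (r := 1) (ContDiff.continuous (𝕜 := ℝ) (n := ∞) (by fun_prop)) fun z hz => by
      rcases o z hz with h | h <;> simp [h]
  have j1 : Integrable fun z => -(g z * Gr F z) := i1.neg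
  rw [← integral_neg, ← integral_add j1 i2]
  refine car_eq (j1.add i2)
    (Y₁ := fun z => g z * (F z * D 1 F z) + -1 / 2 * (F z * F z * D 1 g z) +
      g z * (F z * F z) * w₁ z)
    (Y₂ := fun z => g z * (F z * D I F z) + -1 / 2 * (F z * F z * D I g z) +
      g z * (F z * F z) * w₂ z)
    (by show ContDiff ℝ ∞ _; fun_prop) (by show ContDiff ℝ ∞ _; fun_prop)
    (fun z hz => by rcases o z hz with h | h <;> simp [h])
    (fun z hz => by rcases o z hz with h | h <;> simp [h]) fun z => ?_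
  simp (disch := fun_prop) only [D_add, D_cmul, D_mul]
  simp only [So, Ao, Lap, Gr, hn, hd, d11, d22]
  ring

theorem tra (hF : Sm F) (h1 : Sm X₁) (h2 : Sm X₂) (h0 : ∀ z, 1 ≤ ‖z‖ → F z = 0) :
    2 * ∫ z, F z * (X₁ z * D 1 F z + X₂ z * D I F z) = -∫ z, dv X₁ X₂ z * F z ^ 2 := by
  have f0 : ContDiff ℝ ∞ F := hF
  have x1 : ContDiff ℝ ∞ X₁ := h1
  have x2 : ContDiff ℝ ∞ X₂ := h2
  have y1 := smD h1 1
  have y2 := smD h2 I
  have i1 : Integrable fun z => dv X₁ X₂ z * F z ^ 2 := by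
    simp only [dv]
    exact int_out (r := 1) (ContDiff.continuous (𝕜 := ℝ) (n := ∞) (by fun_prop)) fun z hz => by
      simp [h0 z hz]
  rw [← integral_neg, ← integral_const_mul]
  refine car_eq i1.neg (Y₁ := fun z => F z * F z * X₁ z) (Y₂ := fun z => F z * F z * X₂ z)
    (by show ContDiff ℝ ∞ _; fun_prop) (by show ContDiff ℝ ∞ _; fun_prop)
    (fun z hz => by simp [h0 z hz]) (fun z hz => by simp [h0 z hz]) fun z => ?_
  simp (disch := fun_prop) only [D_mul]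
  simp only [dv]
  ring

end Pool.Agent.Lib.MP_a52643_an.YS
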