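import Pool.Agent.Lib.MP_a52643_an.YS.Defs

/-!
The logarithmic cut in the space of gradients.
-/

namespace Pool.Agent.Lib.MP_a52643_an.YS

open Complex Filter Topology Metric MeasureTheory Set QS YA
open scoped ContDiff

theorem cut_log {R r C : ℝ} (hR : 0 < R) (hr : 0 ≤ r) (hrC : r ≤ C) (hC : 1 ≤ C) :
    |Real.log (R + r ^ 2) - Real.log (R + 1)| * r ≤ 2 * C ^ 2 := by
  rcases hr.eq_or_lt with rfl | hr0
  · simp; positivity
  have l2 : Real.log (r ^ 2) = 2 * Real.log r := by rw [Real.log_pow]; norm_num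
  rcases le_total r 1 with h1 | h1
  · have a0 : r ^ 2 ≤ 1 := by nlinarith
    have a1 : Real.log (R + r ^ 2) ≤ Real.log (R + 1) :=
      Real.log_le_log (by positivity) (by linarith)
    have a2 : Real.log ((R + 1) * r ^ 2) ≤ Real.log (R + r ^ 2) :=
      Real.log_le_log (by positivity) (by nlinarith)
    rw [Real.log_mul (by positivity) (by positivity), l2] at a2
    have a3 := Real.log_le_sub_one_of_pos (inv_pos.2 hr0)
    rw [Real.log_inv] at a3
    have a4 : -Real.log r * r ≤ 1 := by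
      have := mul_le_mul_of_nonneg_right a3 hr0.le
      rw [sub_mul, inv_mul_cancel₀ hr0.ne'] at this
      linarith
    rw [abs_of_nonpos (by linarith)]
    nlinarith
  · have a0 : 1 ≤ r ^ 2 := by nlinarith
    have a1 : Real.log (R + 1) ≤ Real.log (R + r ^ 2) :=
      Real.log_le_log (by positivity) (by linarith)
    have a2 : Real.log (R + r ^ 2) ≤ Real.log ((R + 1) * r ^ 2) :=
      Real.log_le_log (by positivity) (by nlinarith)
    rw [Real.log_mul (by positivity) (by positivity), l2] at a2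
    have a3 := Real.log_le_sub_one_of_pos hr0
    rw [abs_of_nonneg (by linarith)]
    have a4 : Real.log (R + r ^ 2) - Real.log (R + 1) ≤ 2 * C := by linarith
    have := mul_le_mul a4 hrC hr0.le (by linarith)
    linarith

theorem cut_const (c : ℝ) (v z : ℂ) : D v (fun _ => c) z = 0 := by simp [D]

theorem cut_DD {Φ : ℂ → ℝ} (hΦ : Sm Φ) (v z : ℂ) :
    D v (D v Φ) z = v.re ^ 2 * D 1 (D 1 Φ) z + 2 * v.re * v.im * D 1 (D I Φ) z +
      v.im ^ 2 * D I (D I Φ) z := by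
  rw [D_lin (D v Φ), D_comm hΦ 1 v, D_comm hΦ I v, D_lin (D 1 Φ), D_lin (D I Φ), D_comm hΦ I 1]
  ring

theorem cut {M₃ C₃ ε : ℝ} (hM : 1 ≤ M₃) (hC : 1 ≤ C₃) (hε : 0 < ε) : ∃ ρ δ : ℝ, 0 < ρ ∧ 0 < δ ∧
    ∀ (Φ : ℂ → ℝ) (p : ℂ) (ν : ℝ), 0 < ν → Sm Φ →
      (∀ y : ℂ, ‖y‖ < 30 → (∀ v, -(2 * (M₃ * ν) * ‖v‖ ^ 2) ≤ D v (D v Φ) y) ∧
        ‖p + (1 / 2 : ℝ) • gr Φ y‖ ≤ C₃ * ν ∧
        (ρ * ν ≤ ‖p + (1 / 2 : ℝ) • gr Φ y‖ → -(δ * ν) ≤ Lap Φ y)) →
      ∃ X₁ X₂, NS Φ X₁ X₂ (ε * ν) 30 := by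
  obtain ⟨θ, θ0, θ1, θ2⟩ : ∃ θ : ℝ, 0 < θ ∧ θ ≤ 1 ∧ θ * (16 * M₃ * C₃ ^ 2) ≤ ε := by
    have h0 : 0 < 16 * M₃ * C₃ ^ 2 := by positivity
    refine ⟨ε / (16 * M₃ * C₃ ^ 2 + ε), by positivity, ?_, ?_⟩
    · rw [div_le_one (by positivity)]; linarith
    · rw [div_mul_eq_mul_div, div_le_iff₀ (by positivity)]; nlinarith
  have C2 : 1 ≤ C₃ ^ 2 := by nlinarith
  have θM : θ * (16 * M₃) ≤ ε := by
    have : θ * (16 * M₃) * 1 ≤ θ * (16 * M₃) * C₃ ^ 2 := by gcongr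
    linarith
  have θC : θ * (16 * C₃ ^ 2) ≤ ε := by
    have : θ * (16 * C₃ ^ 2) * 1 ≤ θ * (16 * C₃ ^ 2) * M₃ := by gcongr
    linarith
  obtain ⟨R, R0, hR⟩ : ∃ R : ℝ, 0 < R ∧ θ * (Real.log (R + 1) - Real.log R) = 1 := by
    have h1 : 0 < Real.exp θ⁻¹ - 1 := by
      have := Real.add_one_lt_exp (inv_pos.2 θ0).ne'
      have := inv_pos.2 θ0
      linarith
    refine ⟨(Real.exp θ⁻¹ - 1)⁻¹, by positivity, ?_⟩
    rw [← Real.log_div (by positivity) (by positivity),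
      show ((Real.exp θ⁻¹ - 1)⁻¹ + 1) / (Real.exp θ⁻¹ - 1)⁻¹ = Real.exp θ⁻¹ by
        rw [div_inv_eq_mul, add_mul, inv_mul_cancel₀ h1.ne']; ring,
      Real.log_exp, mul_inv_cancel₀ θ0.ne']
  refine ⟨√R, ε / (2 * (1 + 2 * C₃)), Real.sqrt_pos.2 R0, by positivity, fun Φ p ν hν hΦ h => ?_⟩
  obtain ⟨b1, e1⟩ : ∃ b1 : ℂ → ℝ, b1 = fun z => p.re + 1 / 2 * D 1 Φ z := ⟨_, rfl⟩
  obtain ⟨b2, e2⟩ : ∃ b2 : ℂ → ℝ, b2 = fun z => p.im + 1 / 2 * D I Φ z := ⟨_, rfl⟩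
  have s1 : Sm b1 := by rw [e1]; exact contDiff_const.add (contDiff_const.mul (smD hΦ 1))
  have s2 : Sm b2 := by rw [e2]; exact contDiff_const.add (contDiff_const.mul (smD hΦ I))
  have d1 : ∀ v z, D v b1 z = 1 / 2 * D v (D 1 Φ) z := fun v z => by
    rw [e1, D_add contDiff_const (contDiff_const.mul (smD hΦ 1)), D_cmul (smD hΦ 1)]
    simp [cut_const]
  have d2 : ∀ v z, D v b2 z = 1 / 2 * D v (D I Φ) z := fun v z => by
    rw [e2, D_add contDiff_const (contDiff_const.mul (smD hΦ I)), D_cmul (smD hΦ I)]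
    simp [cut_const]
  obtain ⟨S, eS⟩ : ∃ S : ℂ → ℝ, S = fun z => R + (ν ^ 2)⁻¹ * (b1 z * b1 z + b2 z * b2 z) := ⟨_, rfl⟩
  have sQ : Sm fun z => b1 z * b1 z + b2 z * b2 z := (s1.mul s1).add (s2.mul s2)
  have sS : Sm S := by rw [eS]; exact contDiff_const.add (contDiff_const.mul sQ)
  have S0 : ∀ z, 0 < S z := fun z => by
    have := mul_self_nonneg (b1 z)
    have := mul_self_nonneg (b2 z)
    rw [eS]; positivity
  have dS : ∀ v z, D v S z = (ν ^ 2)⁻¹ * (b1 z * D v (D 1 Φ) z + b2 z * D v (D I Φ) z) :=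
    fun v z => by
      rw [eS, D_add contDiff_const (contDiff_const.mul sQ), D_cmul sQ, D_add (s1.mul s1) (s2.mul s2),
        D_mul s1 s1, D_mul s2 s2]
      simp only [cut_const, d1, d2]
      ring
  obtain ⟨G, eG⟩ : ∃ G : ℂ → ℝ, G = fun z => 2 * θ * (Real.log (S z) - Real.log (R + 1)) :=
    ⟨_, rfl⟩
  have sG : Sm G := by
    rw [eG]; exact contDiff_const.mul ((sS.log fun z => (S0 z).ne').sub contDiff_const)
  have dG : ∀ v z, D v G z = 2 * θ * (S z)⁻¹ * D v S z := fun v z => by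
    rw [eG]
    exact D_comp (g := fun t => 2 * θ * (Real.log t - Real.log (R + 1)))
      (((Real.hasDerivAt_log (S0 z).ne').sub_const _).const_mul _) (dif sS z) v
  refine ⟨fun z => G z * b1 z, fun z => G z * b2 z, hΦ, sG.mul s1, sG.mul s2, fun z hz => ?_⟩
  obtain ⟨h1, h2, h3⟩ := h z hz
  obtain ⟨b, eb⟩ : ∃ b, b = p + (1 / 2 : ℝ) • gr Φ z := ⟨_, rfl⟩
  rw [← eb] at h2 h3
  have bre : b.re = b1 z := by rw [eb, e1]; simp [gr]
  have bim : b.im = b2 z := by rw [eb, e2]; simp [gr]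
  obtain ⟨r, er⟩ : ∃ r, r = ‖b‖ / ν := ⟨_, rfl⟩
  have r0 : 0 ≤ r := by rw [er]; positivity
  have rb : ‖b‖ = r * ν := by rw [er]; field_simp
  have rC : r ≤ C₃ := by rw [rb] at h2; exact le_of_mul_le_mul_right h2 hν
  have Sz : S z = R + r ^ 2 := by
    have : b1 z * b1 z + b2 z * b2 z = (r * ν) ^ 2 := by
      rw [← rb, Complex.sq_norm, Complex.normSq_apply, bre, bim]
    rw [eS]; simp only [this]; field_simp
  have Gz : G z = 2 * θ * (Real.log (R + r ^ 2) - Real.log (R + 1)) := by rw [eG]; simp only [Sz]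
  have hX : ∀ t : ℝ, |t| ≤ ‖b‖ → |G z * t| ≤ ε * ν := fun t ht => by
    have a1 := cut_log R0 r0 rC hC
    rw [abs_mul, Gz, abs_mul, abs_of_pos (by positivity : 0 < 2 * θ)]
    calc _ ≤ 2 * θ * |Real.log (R + r ^ 2) - Real.log (R + 1)| * (r * ν) := by rw [← rb]; gcongr
      _ = 2 * θ * (|Real.log (R + r ^ 2) - Real.log (R + 1)| * r) * ν := by ring
      _ ≤ 2 * θ * (2 * C₃ ^ 2) * ν := by gcongr
      _ ≤ ε * ν := by gcongr; nlinarith
  refine ⟨?_, hX _ (bre ▸ abs_re_le_norm b), hX _ (bim ▸ abs_im_le_norm b)⟩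
  have key : Lap Φ z + dv (fun z => G z * b1 z) (fun z => G z * b2 z) z =
      θ * (Real.log (R + r ^ 2) - Real.log R) * Lap Φ z +
        2 * θ * (R + r ^ 2)⁻¹ * ((ν ^ 2)⁻¹ * D b (D b Φ) z) := by
    have : θ * (Real.log (R + r ^ 2) - Real.log R) = 1 + G z / 2 := by rw [Gz]; linarith
    rw [this, cut_DD hΦ, bre, bim]
    simp only [dv, Lap, D_mul sG s1, D_mul sG s2, dG, dS, d1, d2, Sz, D_comm hΦ I 1]
    ring
  have t2 : -(4 * θ * M₃ * ν) ≤ 2 * θ * (R + r ^ 2)⁻¹ * ((ν ^ 2)⁻¹ * D b (D b Φ) z) := by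
    have a1 := h1 b
    rw [rb] at a1
    have a2 : -(2 * (M₃ * ν) * r ^ 2) ≤ (ν ^ 2)⁻¹ * D b (D b Φ) z := by
      rw [le_inv_mul_iff₀ (by positivity)]; linarith
    have a3 : (R + r ^ 2)⁻¹ * r ^ 2 ≤ 1 := by
      rw [inv_mul_le_iff₀ (by positivity)]; linarith
    have a4 := mul_le_mul_of_nonneg_left a2 (by positivity : 0 ≤ 2 * θ * (R + r ^ 2)⁻¹)
    have a5 := mul_le_mul_of_nonneg_left a3 (by positivity : 0 ≤ 4 * θ * M₃ * ν)
    linarith
  have g0 : 0 ≤ Real.log (R + r ^ 2) - Real.log R :=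
    sub_nonneg.2 (Real.log_le_log R0 (by nlinarith))
  have θν := mul_le_mul_of_nonneg_right θM hν.le
  have εν : 0 < ε * ν := by positivity
  have t1 : -(ε * ν / 2) ≤ θ * (Real.log (R + r ^ 2) - Real.log R) * Lap Φ z := by
    rcases le_total (√R) r with hr | hr
    · have a1 := h3 (by rw [rb]; gcongr)
      have a2 : Real.log (R + r ^ 2) ≤ Real.log ((R + 1) * C₃ ^ 2) :=
        Real.log_le_log (by positivity) (by nlinarith)
      rw [Real.log_mul (by positivity) (by positivity), Real.log_pow] at a2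
      have a3 := Real.log_le_sub_one_of_pos (by linarith : 0 < C₃)
      have a4 : θ * (Real.log (R + r ^ 2) - Real.log R) ≤ 1 + 2 * C₃ := by
        have : θ * (Real.log (R + r ^ 2) - Real.log (R + 1)) ≤ θ * (2 * C₃) := by
          gcongr; push_cast at a2; linarith
        nlinarith
      have a5 := mul_le_mul_of_nonneg_left a1 (mul_nonneg θ0.le g0)
      have a6 := mul_le_mul_of_nonneg_right a4 (by positivity : 0 ≤ ε / (2 * (1 + 2 * C₃)) * ν)
      have a7 : (1 + 2 * C₃) * (ε / (2 * (1 + 2 * C₃)) * ν) = ε * ν / 2 := by field_simp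
      linarith
    · have a0 : r ^ 2 ≤ R := by
        have := pow_le_pow_left₀ r0 hr 2
        rwa [Real.sq_sqrt R0.le] at this
      have a1 := h1 1
      have a2 := h1 I
      simp only [norm_one, norm_I, one_pow, mul_one] at a1 a2
      have a3 : -(4 * (M₃ * ν)) ≤ Lap Φ z := by unfold Lap; linarith
      have a4 : Real.log (R + r ^ 2) - Real.log R ≤ 1 := by
        rw [← Real.log_div (by positivity) R0.ne']
        refine (Real.log_le_sub_one_of_pos (by positivity)).trans ?_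
        rw [sub_le_iff_le_add, div_le_iff₀ R0]; linarith
      have a5 := mul_le_mul_of_nonneg_left a3 (mul_nonneg θ0.le g0)
      have a6 := mul_le_mul_of_nonneg_left a4 (by positivity : 0 ≤ θ * (4 * (M₃ * ν)))
      linarith
  rw [key]
  linarith

end Pool.Agent.Lib.MP_a52643_an.YS
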