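import Pool.Agent.Lib.MP_a52643_an.YA.Glob

/-!
Definitions for the sharp bound on the length of the nodal set.
-/

namespace Pool.Agent.Lib.MP_a52643_an.YS

open Complex Filter Topology Metric MeasureTheory Set QS YA
open scoped ContDiff

/-- The Euclidean product. -/
def dt (p z : ℂ) : ℝ := p.re * z.re + p.im * z.im

/-- The gradient. -/
noncomputable def gr (F : ℂ → ℝ) (z : ℂ) : ℂ := ⟨D 1 F z, D I F z⟩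

/-- The symmetric part of the conjugated operator. -/
noncomputable def So (b : ℂ) (N : ℝ) (V F : ℂ → ℝ) (z : ℂ) : ℝ :=
  Lap F z + (‖b + N • z‖ ^ 2 + V z) * F z

/-- The antisymmetric part of the conjugated operator. -/
noncomputable def Ao (b : ℂ) (N : ℝ) (F : ℂ → ℝ) (z : ℂ) : ℝ :=
  2 * D (b + N • z) F z + 2 * N * F z

/-- A rescaled solution of `Δ u + V u = 0`. -/
structure Sk (u V : ℂ → ℝ) (κ x R : ℝ) : Prop where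
  hu : Sm u
  hV : Sm V
  eq : ∀ z, ‖z‖ < R → Lap u z = -(V z * u z)
  bd : ∀ z, ‖z‖ < R → |V z| ≤ κ ^ 2 ∧ gn V z ≤ κ * x

/-- The tilted mass of a disc. -/
noncomputable def Ms (u : ℂ → ℝ) (p c : ℂ) (r : ℝ) : ℝ :=
  ∫ z in ball c r, u z ^ 2 * Real.exp (-2 * dt p z)

/-- The tilted doubling index. -/
noncomputable def nn (u : ℂ → ℝ) (p c : ℂ) (s : ℝ) : ℝ :=
  Real.log (Ms u p c (210 * s)) - Real.log (Ms u p c (2 * s))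

/-- The Gaussian weight. -/
noncomputable def Wt (u : ℂ → ℝ) (p : ℂ) (N : ℝ) (x z : ℂ) : ℝ :=
  u z ^ 2 * Real.exp (-2 * dt p z) * Real.exp (-N * ‖z - x‖ ^ 2)

/-- The Gaussian mass. -/
noncomputable def Lm (u : ℂ → ℝ) (p : ℂ) (N : ℝ) (x : ℂ) : ℝ :=
  ∫ z in ball (0 : ℂ) 210, Wt u p N x z

/-- Its logarithm. -/
noncomputable def Ph (u : ℂ → ℝ) (p : ℂ) (N : ℝ) (x : ℂ) : ℝ := Real.log (Lm u p N x)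

/-- Nearly subharmonic functions. -/
structure NS (Φ X₁ X₂ : ℂ → ℝ) (om R : ℝ) : Prop where
  hΦ : Sm Φ
  h1 : Sm X₁
  h2 : Sm X₂
  bd : ∀ z, ‖z‖ < R → -om ≤ Lap Φ z + dv X₁ X₂ z ∧ |X₁ z| ≤ om ∧ |X₂ z| ≤ om

/-- The normalised average. -/
noncomputable def Fr (r : ℝ) (Φ : ℂ → ℝ) (z : ℂ) : ℝ := av 3 r Φ z / cP 3

/-- Lattice points. -/
def lp (s : ℝ) (i : ℤ × ℤ) : ℂ := ⟨s * i.1, s * i.2⟩

/-- A closed box of indices. -/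
noncomputable def sq (R : ℤ) : Finset (ℤ × ℤ) := Finset.Icc (-R) R ×ˢ Finset.Icc (-R) R

/-- A half open box of indices. -/
noncomputable def bx (R : ℤ) : Finset (ℤ × ℤ) := Finset.Ico (-R) R ×ˢ Finset.Ico (-R) R

/-- Close indices. -/
def near (D : ℤ) (i j : ℤ × ℤ) : Prop := |i.1 - j.1| ≤ D ∧ |i.2 - j.2| ≤ D

/-- The ancestor. -/
def up (M r : ℕ) (i : ℤ × ℤ) : ℤ × ℤ := (i.1 / (M : ℤ) ^ r, i.2 / (M : ℤ) ^ r)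

/-- The corner descendant. -/
def sc (M r : ℕ) (i : ℤ × ℤ) : ℤ × ℤ := ((M : ℤ) ^ r * i.1, (M : ℤ) ^ r * i.2)

/-- The descendants. -/
noncomputable def kids (M r : ℕ) (i : ℤ × ℤ) : Finset (ℤ × ℤ) :=
  Finset.Ico ((M : ℤ) ^ r * i.1) ((M : ℤ) ^ r * i.1 + (M : ℤ) ^ r) ×ˢ
    Finset.Ico ((M : ℤ) ^ r * i.2) ((M : ℤ) ^ r * i.2 + (M : ℤ) ^ r)

/-- One step in the tree: the excess contracts, and the neighbours are controlled. -/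
def StepC (M J n : ℕ) (T K : ℝ) (f : ℕ → ℤ × ℤ → ℂ → ℝ) (fl : ℕ → ℝ) : Prop :=
  ∀ (j : ℕ) (i : ℤ × ℤ) (σ : ℂ) (a : ℝ), j < J → i ∈ bx (n * (M : ℤ) ^ j) → f j i σ ≤ a →
    fl j ≤ a → (K ≤ a ∨ K ≤ ‖σ‖) →
    (∃ (σ' : ℤ × ℤ → ℂ) (a' : ℤ × ℤ → ℝ),
      (∀ i' ∈ kids M 1 i, f (j + 1) i' (σ' i') ≤ a' i' ∧ ‖σ' i' - σ‖ ≤ T * a ∧ 0 ≤ a' i') ∧
      ∑ i' ∈ kids M 1 i, a' i' ^ (3 / 2 : ℝ) ≤ (M : ℝ) ^ 2 * (a / 2) ^ (3 / 2 : ℝ) ∧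
      ∑ i' ∈ kids M 1 i, a' i' ≤ (M : ℝ) ^ 2 * (a / 2)) ∧
    ∀ i', near (4 * M) i' (sc M 1 i) →
      ‖σ‖ - T * a ≤ f (j + 1) i' 0 ∧ f (j + 1) i' 0 ≤ T * (a + ‖σ‖)

/-- A jump of the index creates many steep squares. -/
def LaunchC (M J n m : ℕ) (c θ β t₁ : ℝ) (f : ℕ → ℤ × ℤ → ℂ → ℝ) : Prop :=
  ∀ (j : ℕ) (i L : ℤ × ℤ) (t : ℝ), j + m ≤ J → i ∈ bx (n * (M : ℤ) ^ j) → t₁ ≤ t →
    f j i 0 ≤ t → near (3 * M) L (sc M 1 i) → t < f (j + 1) L 0 →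
    ∃ S : Finset (ℤ × ℤ), θ * (M : ℝ) ^ (2 * m) ≤ S.card ∧ ∀ i' ∈ S,
      near ((M : ℤ) ^ m) i' (sc M (m - 1) L) ∧ ∃ σ, c * t ≤ ‖σ‖ ∧ f (j + m) i' σ ≤ β * c * t

/-- The data of the tree. -/
structure Tr (M J n m : ℕ) (T K c θ t₁ : ℝ) (f : ℕ → ℤ × ℤ → ℂ → ℝ) (fl : ℕ → ℝ) : Prop where
  hM : 4 ≤ M
  hm : 1 ≤ m
  hT : 1 ≤ T
  hK : 1 ≤ K
  c0 : 0 < c
  c1 : c ≤ 1
  θ0 : 0 < θ
  fl0 : ∀ j, 0 ≤ fl j
  fls : ∑ j ∈ Finset.range J, fl j ≤ K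
  pos : ∀ j i, j ≤ J → i ∈ bx (n * (M : ℤ) ^ j) → 0 ≤ f j i 0
  root : ∀ i ∈ bx n, f 0 i 0 ≤ K
  tilt : ∀ j i σ, j ≤ J → i ∈ bx (n * (M : ℤ) ^ j) → f j i 0 ≤ f j i σ + T * ‖σ‖
  step : StepC M J n T K f fl
  launch : LaunchC M J n m c θ (1 / (32 * T)) t₁ f

/-- Steep squares. -/
def St (T s : ℝ) (f : ℕ → ℤ × ℤ → ℂ → ℝ) (fl : ℕ → ℝ) (g : ℕ) (i : ℤ × ℤ) : Prop :=
  ∃ (σ : ℂ) (a : ℝ), f g i σ ≤ a ∧ fl g ≤ a ∧ s ≤ ‖σ‖ ∧ 4 * T * a ≤ ‖σ‖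

/-- The squares where an excursion is launched. -/
def LL (M J m : ℕ) (t t₀ : ℝ) (f : ℕ → ℤ × ℤ → ℂ → ℝ) (j : ℕ) (P : ℤ × ℤ) : Prop :=
  j + m < J ∧ f j P 0 ≤ t ∧ (∃ L, near (3 * M) L (sc M 1 P) ∧ t < f (j + 1) L 0) ∧
    ∃ j₀, j₀ ≤ j ∧ f j₀ (up M (j - j₀) P) 0 ≤ t₀ ∧
      ∀ g, j₀ < g → g ≤ j → ∀ L, near (2 * M) L (up M (j - g) P) → f g L 0 ≤ t

/-- The mesh of a generation. -/
noncomputable def el (M j : ℕ) : ℝ := 1 / (128 * (M : ℝ) ^ j)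

/-- The normalised index of a square. -/
noncomputable def fN (u : ℂ → ℝ) (k : ℝ) (M j : ℕ) (i : ℤ × ℤ) (σ : ℂ) : ℝ :=
  nn u (k • σ) (lp (el M j) i) (el M j) / (k * el M j)

theorem D_dt (F : ℂ → ℝ) (v z : ℂ) : D v F z = dt v (gr F z) := D_lin F v z

theorem abs_dt_le (p z : ℂ) : |dt p z| ≤ ‖p‖ * ‖z‖ := by
  have h := abs_real_inner_le_norm p z
  rw [Complex.inner] at h
  simpa [dt, mul_comm] using h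

theorem dt_self (p : ℂ) : dt p p = ‖p‖ ^ 2 := by
  rw [dt, Complex.sq_norm, Complex.normSq_apply]

theorem sm_dt (p : ℂ) : Sm (dt p) :=
  (contDiff_const.mul reCLM.contDiff).add (contDiff_const.mul imCLM.contDiff)

end Pool.Agent.Lib.MP_a52643_an.YS
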