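import Pool.Agent.Lib.MP_a52643_an.YS.Mas

/-!
The nodal set at the scale of the wave length.
-/

namespace Pool.Agent.Lib.MP_a52643_an.YS

open Complex Filter Topology Metric MeasureTheory Set QS YA
open scoped ContDiff

theorem leaf_Ms (u : ℂ → ℝ) (c : ℂ) (r : ℝ) : Ms u 0 c r = ∫ z in ball c r, u z * u z := by
  simp only [Ms, dt, zero_re, zero_im, zero_mul, add_zero, mul_zero, Real.exp_zero, mul_one,
    pow_two]

theorem leaf_sl {u V : ℂ → ℝ} {l r L : ℝ} {c : ℂ} (h : Sl u V l 100) (hr : 0 < r)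
    (hr1 : r ≤ 1 / 64) (hl : l * r ^ 2 ≤ L) (hc : ‖c‖ ≤ 1) :
    Sl (Af c r u) (fun z => r ^ 2 * Af c r V z) L 105 := by
  have hn : ∀ z : ℂ, ‖z‖ < 105 → ‖c + r • z‖ < 100 := fun z hz => by
    have h1 := norm_add_le c (r • z)
    rw [norm_smul, Real.norm_of_nonneg hr.le] at h1
    nlinarith [norm_nonneg z]
  have sV := smAf h.hV c r
  have r2 : 0 < r ^ 2 := by positivity
  refine ⟨smAf h.hu c r, contDiff_const.mul sV, fun z hz => ?_, fun z hz => ?_⟩
  · rw [Lap_Af h.hu, h.eq _ (hn z hz)]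
    simp only [Af]
    ring
  · obtain ⟨b1, b2⟩ := h.bd _ (hn z hz)
    have l0 : 0 ≤ l := (abs_nonneg _).trans b1
    constructor
    · rw [abs_mul, abs_of_pos r2]
      simp only [Af]
      nlinarith
    · have e : gn (fun z => r ^ 2 * Af c r V z) z = r ^ 2 * (r * gn V (c + r • z)) := by
        simp only [gn, D_cmul sV, D_Af h.hV, abs_mul, abs_of_pos r2, abs_of_pos hr]
        simp only [Af]
        ring
      rw [e]
      have g0 := gn_nonneg V (c + r • z)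
      have : r * gn V (c + r • z) ≤ l := by nlinarith
      nlinarith

theorem leaf_sup {U V : ℂ → ℝ} {L : ℝ} (h : Sl U V L 105) {z : ℂ} (hz : ‖z‖ < 100) :
    cP 1 * (U z * U z) ≤ Real.exp (L / 4) * Ms U 0 0 105 := by
  have hU := h.hu
  have hw : Sm fun y => U y * U y := hU.mul hU
  have cw := hw.continuous
  have cL := (smLap hw).continuous
  have L0 : 0 ≤ L := (abs_nonneg _).trans (h.bd 0 (by simp)).1
  have hd : ∀ t : ℝ, HasDerivAt
      (fun t : ℝ => av 1 t (fun y => U y * U y) z * Real.exp (L * t ^ 2 / 4))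
      ((t / 4 * av 2 t (Lap fun y => U y * U y) z + L * t / 2 * av 1 t (fun y => U y * U y) z) *
        Real.exp (L * t ^ 2 / 4)) t := fun t => by
    have h1 := (av_deriv hw 0 z t).mul
      ((((hasDerivAt_pow 2 t).const_mul L).div_const 4).exp)
    refine HasDerivAt.congr_deriv h1 ?_
    norm_num
    ring
  have hp : ∀ t : ℝ, 0 < t → t < 1 →
      0 ≤ av 2 t (Lap fun y => U y * U y) z + 2 * L * av 1 t (fun y => U y * U y) z :=
    fun t t0 t1 => by
    simp only [av]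
    rw [← integral_const_mul, ← integral_add (intP (f := fun s => Lap (fun y => U y * U y)
      (z + t • s)) (by fun_prop) 1) ((intP (f := fun s => U (z + t • s) * U (z + t • s))
        (by have := hU.continuous; fun_prop) 0).const_mul _)]
    refine integral_nonneg fun s => ?_
    rcases le_total ‖s‖ 1 with h1 | h1
    · have hn : ‖z + t • s‖ < 105 := by
        have h2 := norm_add_le z (t • s)
        rw [norm_smul, Real.norm_of_nonneg t0.le] at h2
        nlinarith [norm_nonneg s]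
      have b1 := (abs_le.1 (h.bd _ hn).1).2
      have p1 := P_succ_le 1 s
      have p2 := P_nonneg 2 s
      have q := mul_self_nonneg (U (z + t • s))
      show 0 ≤ Lap (fun y => U y * U y) (z + t • s) * P 2 s +
        2 * L * (U (z + t • s) * U (z + t • s) * P 1 s)
      rw [jet_Lap_mul hU hU, h.eq _ hn]
      have a1 := mul_nonneg (add_nonneg (mul_self_nonneg (D 1 U (z + t • s)))
        (mul_self_nonneg (D I U (z + t • s)))) p2
      have a2 := mul_nonneg (mul_nonneg (sub_nonneg.2 b1) q) p2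
      have a3 := mul_nonneg (mul_nonneg L0 q) (sub_nonneg.2 p1)
      nlinarith
    · show 0 ≤ Lap (fun y => U y * U y) (z + t • s) * P 2 s +
        2 * L * (U (z + t • s) * U (z + t • s) * P 1 s)
      simp [P_out h1]
  obtain ⟨t, ⟨t0, t1⟩, ht⟩ := exists_hasDerivAt_eq_slope _ _ one_pos
    (fun t _ => (hd t).continuousAt.continuousWithinAt) fun t _ => hd t
  have h2 : 0 ≤ (t / 4 * av 2 t (Lap fun y => U y * U y) z +
      L * t / 2 * av 1 t (fun y => U y * U y) z) * Real.exp (L * t ^ 2 / 4) := by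
    refine mul_nonneg ?_ (Real.exp_pos _).le
    have := mul_nonneg (show 0 ≤ t / 4 by linarith) (hp t t0 t1)
    linarith
  rw [ht, av_zero] at h2
  have h3 := av_le_ball cw 0 one_pos z
  have h4 : ∫ y in ball z 1, |U y * U y| ≤ Ms U 0 0 105 := by
    simp only [abs_mul_self]
    rw [← leaf_Ms]
    exact Ms_mono hU 0 (by rw [sub_zero]; linarith)
  have h5 := le_abs_self (av 1 1 (fun y => U y * U y) z)
  have h6 : av 1 1 (fun y => U y * U y) z ≤ Ms U 0 0 105 := by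
    simp only [zero_add] at h3
    linarith
  have h7 := mul_le_mul_of_nonneg_left h6 (Real.exp_pos (L / 4)).le
  norm_num at h2
  linarith

theorem leaf_pt {U : ℂ → ℝ} (hU : Sm U) : ∃ z : ℂ, ‖z‖ ≤ 1 ∧ Ms U 0 0 1 ≤ 4 * (U z * U z) := by
  have cw : Continuous fun y => U y * U y := (hU.mul hU).continuous
  obtain ⟨z, hz, hm⟩ := (isCompact_closedBall (0 : ℂ) 1).exists_isMaxOn
    ⟨0, mem_closedBall_self zero_le_one⟩ cw.continuousOn
  refine ⟨z, mem_closedBall_zero_iff.1 hz, ?_⟩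
  have h := norm_setIntegral_le_of_norm_le_const (μ := volume) (s := ball (0 : ℂ) 1)
    (f := fun y => U y * U y) (C := U z * U z) measure_ball_lt_top fun s hs => by
      rw [Real.norm_of_nonneg (mul_self_nonneg _)]
      exact hm (ball_subset_closedBall hs)
  rw [leaf_Ms]
  refine ((le_abs_self _).trans h).trans ?_
  rw [mul_comm]
  refine mul_le_mul_of_nonneg_right ?_ (mul_self_nonneg _)
  simp [Measure.real, Real.pi_le_four]

theorem leaf_num {L K n : ℝ} (hL : 3 ≤ L) (hK : 0 ≤ K) (hn : 0 ≤ n) :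
    n + K + √L * (Real.log (L + (n + K)) ^ 2 * √(Real.log (L + (n + K)))) ≤
      (K + 1 + √L * (6 * (L + K))) * (1 + n) := by
  obtain ⟨h1, -, -, -⟩ := loc_log hL (add_nonneg hn hK)
  have x0 : 0 < L + (n + K) := by linarith
  have e := Real.exp_log x0
  obtain ⟨y, hy⟩ : ∃ y, y = Real.log (L + (n + K)) := ⟨_, rfl⟩
  rw [← hy] at h1 e ⊢
  have s1 : √y ≤ y := by
    rw [Real.sqrt_le_left (by linarith)]; nlinarith
  have h2 := Real.pow_div_factorial_le_exp y (by linarith) 3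
  have h3 : y ^ 2 * √y ≤ 6 * (L + K) * (1 + n) := by
    have a1 := mul_le_mul_of_nonneg_left s1 (sq_nonneg y)
    norm_num [Nat.factorial] at h2
    nlinarith [mul_nonneg hn hK]
  have h4 := mul_le_mul_of_nonneg_left h3 (Real.sqrt_nonneg L)
  nlinarith [mul_nonneg hn hK]

theorem leaf_nm {U V : ℂ → ℝ} {L n : ℝ} (h : Sl U V L 105) (hL : 3 ≤ L) (hn : 0 ≤ n)
    (h1 : 0 < Ms U 0 0 1) (h2 : Ms U 0 0 105 = Real.exp n * Ms U 0 0 1) : ∃ S : ℝ, 0 < S ∧
      Nm (fun z => S * U z) V L (n + 4 * (Real.exp (L / 4) / cP 1)) := by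
  have c0 : 0 < cP 1 := cP_pos 0
  have E0 := Real.exp_pos n
  obtain ⟨K, hK⟩ : ∃ K, K = Real.exp (L / 4) / cP 1 := ⟨_, rfl⟩
  have K0 : 0 < K := by rw [hK]; positivity
  obtain ⟨m, hm⟩ : ∃ m, m = Ms U 0 0 1 := ⟨_, rfl⟩
  rw [← hm] at h1 h2
  have X0 : 0 < K * (Real.exp n * m) := by positivity
  obtain ⟨S, hS⟩ : ∃ S, S = (√(K * (Real.exp n * m)))⁻¹ := ⟨_, rfl⟩
  have S0 : 0 < S := by rw [hS]; positivity
  have S2 : S * S * (K * (Real.exp n * m)) = 1 := by
    rw [hS, ← mul_inv, Real.mul_self_sqrt X0.le, inv_mul_cancel₀ X0.ne']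
  rw [← hK]
  refine ⟨S, S0, ⟨contDiff_const.mul h.hu, h.hV, fun z hz => ?_,
    fun z hz => h.bd z (by linarith)⟩, hL, by positivity, fun z hz => ?_, ?_⟩
  · rw [Lap_cmul h.hu, h.eq z (by linarith)]
    ring
  · have a1 := leaf_sup h hz
    have a2 : U z * U z ≤ K * (Real.exp n * m) := by
      rw [hK, ← h2, div_mul_eq_mul_div, le_div_iff₀' c0]
      exact a1
    have a3 := mul_le_mul_of_nonneg_left a2 (mul_self_nonneg S)
    rw [← sq_le_one_iff_abs_le_one]
    nlinarith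
  · obtain ⟨z, hz, hp⟩ := leaf_pt h.hu
    rw [← hm] at hp
    refine ⟨z, hz, (Real.le_sqrt_of_sq_le (x := Real.exp (-(n + 4 * K)))
      (y := (S * U z) ^ 2) ?_).trans (Real.sqrt_sq_eq_abs _).le⟩
    have a1 : 1 ≤ 4 * K * Real.exp n * (S * U z) ^ 2 := by
      have := mul_le_mul_of_nonneg_left hp (show 0 ≤ S * S * (K * Real.exp n) by positivity)
      nlinarith
    have a2 : 4 * K * Real.exp n ≤ Real.exp (n + 4 * K) := by
      rw [Real.exp_add, mul_comm]
      exact mul_le_mul_of_nonneg_left (by linarith [Real.add_one_le_exp (4 * K)]) E0.le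
    have a3 : 1 ≤ Real.exp (n + 4 * K) := Real.one_le_exp (by positivity)
    have a4 := mul_le_mul_of_nonneg_right a2 (sq_nonneg (S * U z))
    rw [Real.exp_neg, inv_pow, inv_le_iff_one_le_mul₀ (by positivity)]
    nlinarith [mul_nonneg (sub_nonneg.2 a3) (mul_nonneg (Real.exp_pos (n + 4 * K)).le
      (sq_nonneg (S * U z)))]

theorem leaf {L : ℝ} (hL : 1 ≤ L) : ∃ C : ℝ, 0 ≤ C ∧ ∀ (u V : ℂ → ℝ) (l s : ℝ) (c : ℂ),
    Sl u V l 100 → 0 < s → s ≤ 1 / 128 → l * s ^ 2 ≤ L → ‖c‖ ≤ 1 → 0 < Ms u 0 c (2 * s) →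
    μH[1] {z : ℂ | ‖z - c‖ ≤ s ∧ u z = 0} ≤ ENNReal.ofReal (C * s * (1 + nn u 0 c s)) ∧
    ∀ δ, 0 < δ → volume {z : ℂ | ‖z - c‖ ≤ s ∧ u z ^ 2 ≤ δ ^ 2 * Gr u z} ≤
      ENNReal.ofReal (C * s * (1 + nn u 0 c s) * δ) := by
  obtain ⟨C0, hC0, H0⟩ := loc_len
  have c0 : 0 < cP 1 := cP_pos 0
  obtain ⟨K, hK⟩ : ∃ K, K = 4 * (Real.exp (4 * L / 4) / cP 1) := ⟨_, rfl⟩
  have K0 : 0 ≤ K := by rw [hK]; positivity
  obtain ⟨C1, hC1⟩ : ∃ C1, C1 = K + 1 + √(4 * L) * (6 * (4 * L + K)) := ⟨_, rfl⟩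
  have C10 : 0 ≤ C1 := by rw [hC1]; positivity
  refine ⟨2 * (C0 * C1), by positivity, fun u V l s c h hs hs1 hl hc hM => ?_⟩
  obtain ⟨r, hr⟩ : ∃ r, r = 2 * s := ⟨_, rfl⟩
  have r0 : 0 < r := by rw [hr]; positivity
  have hsl := leaf_sl (L := 4 * L) h r0 (by linarith) (by rw [hr]; linarith) hc
  have n0 := nn_nonneg h.hu hs hM
  have m1 := Ms_Af r0 u 0 c 0 1
  have m2 := Ms_Af r0 u 0 c 0 105
  simp only [smul_zero, add_zero, mul_one, dt, zero_re, zero_im, zero_mul, mul_zero,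
    Real.exp_zero, one_mul] at m1 m2
  have r2 : 0 < r ^ 2 := by positivity
  have m3 : 0 < Ms u 0 c (210 * s) :=
    hM.trans_le (Ms_mono h.hu 0 (by rw [sub_self, norm_zero]; linarith))
  have m4 : Ms u 0 c (210 * s) = Real.exp (nn u 0 c s) * Ms u 0 c (2 * s) := by
    rw [nn, Real.exp_sub, Real.exp_log m3, Real.exp_log hM, div_mul_cancel₀ _ hM.ne']
  rw [show r * 105 = 210 * s by rw [hr]; ring, m4, ← hr, ← m1] at m2
  rw [← hr, ← m1] at hM
  obtain ⟨S, S0, hN⟩ := leaf_nm hsl (by linarith) n0 ((mul_pos_iff_of_pos_left r2).1 hM)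
    (mul_left_cancel₀ r2.ne' (by rw [m2]; ring))
  rw [← hK] at hN
  obtain ⟨G1, G2⟩ := H0 _ _ _ _ hN
  have H2 := leaf_num (L := 4 * L) (by linarith) K0 n0
  rw [← hC1] at H2
  obtain ⟨n, hn⟩ : ∃ n, n = nn u 0 c s := ⟨_, rfl⟩
  rw [← hn] at H2 G1 G2 n0 ⊢
  obtain ⟨B, hB⟩ : ∃ B, B = n + K + √(4 * L) *
      (Real.log (4 * L + (n + K)) ^ 2 * √(Real.log (4 * L + (n + K)))) := ⟨_, rfl⟩
  rw [← hB] at H2 G1 G2
  have H3 : C0 * B ≤ C0 * (C1 * (1 + n)) := mul_le_mul_of_nonneg_left H2 (by linarith)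
  have back : ∀ z : ℂ, c + r • (r⁻¹ • (z - c)) = z := fun z => by
    rw [smul_inv_smul₀ r0.ne', add_sub_cancel]
  have nb : ∀ z : ℂ, ‖z - c‖ ≤ s → ‖r⁻¹ • (z - c)‖ ≤ 1 / 2 := fun z hz => by
    rw [norm_smul, Real.norm_of_nonneg (by positivity), inv_mul_le_iff₀ r0]
    linarith
  refine ⟨?_, fun δ hδ => ?_⟩
  · refine (measure_mono (t := (fun w : ℂ => c + r • w) ''
      {z : ℂ | ‖z‖ ≤ 1 / 2 ∧ S * Af c r u z = 0}) fun z hz => ?_).trans
      ((glob_len c r0 _).trans ?_)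
    · refine ⟨r⁻¹ • (z - c), ⟨nb z hz.1, ?_⟩, back z⟩
      rw [Af, back, hz.2, mul_zero]
    · refine (mul_le_mul_right G1 _).trans ?_
      rw [← ENNReal.ofReal_mul r0.le]
      refine ENNReal.ofReal_le_ofReal ?_
      calc _ ≤ r * (C0 * (C1 * (1 + n))) := mul_le_mul_of_nonneg_left H3 r0.le
        _ = _ := by rw [hr]; ring
  · refine (measure_mono (t := (fun w : ℂ => c + r • w) ''
      {z : ℂ | ‖z‖ ≤ 1 ∧ (S * Af c r u z) ^ 2 ≤ (δ / r) ^ 2 * Gr (fun z => S * Af c r u z) z})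
      fun z hz => ?_).trans ?_
    · refine ⟨r⁻¹ • (z - c), ⟨(nb z hz.1).trans (by norm_num), ?_⟩, back z⟩
      have a1 := mul_le_mul_of_nonneg_left hz.2 (sq_nonneg S)
      simp only [Gr, D_cmul (smAf h.hu c r), D_Af h.hu] at a1 ⊢
      simp only [Af, back]
      calc _ = S ^ 2 * u z ^ 2 := by ring
        _ ≤ _ := a1
        _ = _ := by field_simp
    · rw [glob_vol c r0]
      refine (mul_le_mul_right (G2 (δ / r) (by positivity)) _).trans ?_
      rw [← ENNReal.ofReal_mul (by positivity)]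
      refine ENNReal.ofReal_le_ofReal ?_
      calc _ = r * δ * (C0 * B) := by field_simp
        _ ≤ r * δ * (C0 * (C1 * (1 + n))) := mul_le_mul_of_nonneg_left H3 (by positivity)
        _ = _ := by rw [hr]; ring

end Pool.Agent.Lib.MP_a52643_an.YS
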