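import Pool.Agent.Lib.MP_a52643_an.YS.Inst4
import Pool.Agent.Lib.MP_a52643_an.YS.Leaf

/-!
The sharp local bound.
-/

namespace Pool.Agent.Lib.MP_a52643_an.YS

open Complex Filter Topology Metric MeasureTheory Set QS YA
open scoped ContDiff

private theorem fin_idx {s x : ℝ} {R : ℕ} {k : ℤ} (hs : 0 < s) (hs1 : s ≤ 1 / 128)
    (hR : R * s = 65 / 128) (hx : |x| ≤ 1 / 2) (hk : |s * k - x| ≤ s / 2) :
    k ∈ Finset.Ico (-(R : ℤ)) R := by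
  have h1 := abs_le.1 hx
  have h2 := abs_le.1 hk
  have h3 : (-(R : ℝ)) * s < k * s := by linarith
  have h4 : (k : ℝ) * s < R * s := by linarith
  have h5 : (-(R : ℝ)) < k := lt_of_mul_lt_mul_right h3 hs.le
  have h6 : (k : ℝ) < R := lt_of_mul_lt_mul_right h4 hs.le
  exact Finset.mem_Ico.2 ⟨by exact_mod_cast h5.le, by exact_mod_cast h6⟩

private theorem fin_sq {s : ℝ} {R : ℕ} {k : ℤ} (hs : 0 < s) (hR : R * s = 65 / 128)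
    (hk : k ∈ Finset.Ico (-(R : ℤ)) R) : (s * k) * (s * k) ≤ 1 / 2 := by
  obtain ⟨h1, h2⟩ := Finset.mem_Ico.1 hk
  have h3 : (-(R : ℝ)) ≤ k := by exact_mod_cast h1
  have h4 : (k : ℝ) ≤ R := by exact_mod_cast h2.le
  have h5 := mul_le_mul_of_nonneg_right h3 hs.le
  have h6 := mul_le_mul_of_nonneg_right h4 hs.le
  nlinarith

private theorem fin_norm {s : ℝ} {R : ℕ} {i : ℤ × ℤ} (hs : 0 < s) (hR : R * s = 65 / 128)
    (hi : i ∈ bx R) : ‖lp s i‖ ≤ 1 := by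
  obtain ⟨h1, h2⟩ := Finset.mem_product.1 hi
  have h3 := fin_sq hs hR h1
  have h4 := fin_sq hs hR h2
  have h5 : ‖lp s i‖ ^ 2 ≤ 1 := by
    rw [Complex.sq_norm, Complex.normSq_apply]
    show s * i.1 * (s * i.1) + s * i.2 * (s * i.2) ≤ 1
    linarith
  exact (sq_le_one_iff₀ (norm_nonneg _)).1 h5

private theorem fin_cov (μ : Measure ℂ) (P : ℂ → Prop) {s B : ℝ} {R : ℕ} (hs : 0 < s)
    (hs1 : s ≤ 1 / 128) (hR : R * s = 65 / 128) (g : ℤ × ℤ → ℝ) (hg : ∀ i ∈ bx R, 0 ≤ g i)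
    (h : ∀ i ∈ bx R, μ {z : ℂ | ‖z - lp s i‖ ≤ s ∧ P z} ≤ ENNReal.ofReal (g i))
    (hB : ∑ i ∈ bx R, g i ≤ B) : μ {z : ℂ | ‖z‖ ≤ 1 / 2 ∧ P z} ≤ ENNReal.ofReal B := by
  have h1 : {z : ℂ | ‖z‖ ≤ 1 / 2 ∧ P z} ⊆ ⋃ i ∈ bx R, {z : ℂ | ‖z - lp s i‖ ≤ s ∧ P z} := by
    rintro z ⟨hz, hP⟩
    obtain ⟨i, h1, h2, h3⟩ := lat_cov hs z
    exact mem_iUnion₂.2 ⟨i, Finset.mem_product.2
      ⟨fin_idx hs hs1 hR ((abs_re_le_norm z).trans hz) h1,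
        fin_idx hs hs1 hR ((abs_im_le_norm z).trans hz) h2⟩, h3.le, hP⟩
  refine (measure_mono h1).trans ((measure_biUnion_finset_le _ _).trans
    ((Finset.sum_le_sum h).trans ?_))
  rw [← ENNReal.ofReal_sum_of_nonneg hg]
  exact ENNReal.ofReal_le_ofReal hB

theorem loc_sharp : ∃ C : ℝ, 1 ≤ C ∧ ∀ (u V : ℂ → ℝ) (l A : ℝ), Nm u V l A →
    μH[1] {z : ℂ | ‖z‖ ≤ 1 / 2 ∧ u z = 0} ≤ ENNReal.ofReal (C * (A + √l)) ∧
    ∀ δ, 0 < δ → volume {z : ℂ | ‖z‖ ≤ 1 / 2 ∧ u z ^ 2 ≤ δ ^ 2 * Gr u z} ≤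
      ENNReal.ofReal (C * (A + √l) * δ) := by
  obtain ⟨C, L, hC, hL, hav⟩ := avg
  obtain ⟨K, hK, hlf⟩ := leaf hL
  refine ⟨128 * K * C + 1, by nlinarith [mul_nonneg hK hC], fun u V l A h => ?_⟩
  obtain ⟨s, R, hs, hs1, hl, hA, hR, hS⟩ := hav u V l A h
  have hp : ∀ i ∈ bx R, 0 < Ms u 0 (lp s i) (2 * s) := fun i hi =>
    nm_pos h (fin_norm hs hR hi) (by linarith) 0
  have hf := fun i (hi : i ∈ bx R) =>
    hlf u V l s (lp s i) h.sl hs hs1 hl (fin_norm hs hR hi) (hp i hi)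
  have h0 : ∀ i ∈ bx R, 0 ≤ K * s * (1 + nn u 0 (lp s i) s) := fun i hi =>
    mul_nonneg (mul_nonneg hK hs.le) (by linarith [nn_nonneg h.sl.hu hs (hp i hi)])
  have hB : ∑ i ∈ bx R, K * s * (1 + nn u 0 (lp s i) s) ≤ (128 * K * C + 1) * (A + √l) := by
    rw [← Finset.mul_sum]
    have h1 := mul_le_mul_of_nonneg_left hS (mul_nonneg hK hs.le)
    have h2 : K * s * (C / s ^ 2) = K * C * (1 / s) := by field_simp
    have h3 := mul_le_mul_of_nonneg_left hA (mul_nonneg hK hC)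
    have h4 : 0 ≤ A + √l := add_nonneg h.hA (Real.sqrt_nonneg l)
    linarith
  refine ⟨fin_cov _ (fun z => u z = 0) hs hs1 hR _ h0 (fun i hi => (hf i hi).1) hB,
    fun δ hδ => fin_cov _ (fun z => u z ^ 2 ≤ δ ^ 2 * Gr u z) hs hs1 hR
      (fun i => K * s * (1 + nn u 0 (lp s i) s) * δ) (fun i hi => mul_nonneg (h0 i hi) hδ.le)
      (fun i hi => (hf i hi).2 δ hδ) ?_⟩
  rw [← Finset.sum_mul]
  exact mul_le_mul_of_nonneg_right hB hδ.le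

end Pool.Agent.Lib.MP_a52643_an.YS
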