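import Pool.Agent.Lib.MP_a52643_an.YS.Defs

/-!
Calculus for the Gaussian mass.
-/

namespace Pool.Agent.Lib.MP_a52643_an.YS

open Complex Filter Topology Metric MeasureTheory Set QS YA
open scoped ContDiff

variable {u : ℂ → ℝ} {p : ℂ} {N : ℝ}

theorem Wt_nonneg (u : ℂ → ℝ) (p : ℂ) (N : ℝ) (x z : ℂ) : 0 ≤ Wt u p N x z := by
  unfold Wt; positivity

private theorem gau_g (hu : Sm u) (p : ℂ) :
    Continuous fun z => u z ^ 2 * Real.exp (-2 * dt p z) :=
  (hu.continuous.pow 2).mul (Real.continuous_exp.comp (continuous_const.mul (sm_dt p).continuous))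

theorem Wt_cont (hu : Sm u) (p : ℂ) (N : ℝ) (x : ℂ) : Continuous (Wt u p N x) :=
  (gau_g hu p).mul (Real.continuous_exp.comp
    (continuous_const.mul ((continuous_id.sub continuous_const).norm.pow 2)))

theorem Lm_pos (hu : Sm u) (h : 0 < Ms u p 0 2) (N : ℝ) (x : ℂ) : 0 < Lm u p N x := by
  have h1 : Real.exp (-(|N| * (2 + ‖x‖) ^ 2)) * Ms u p 0 2 ≤
      ∫ z in ball (0 : ℂ) 2, Wt u p N x z := by
    rw [Ms, ← integral_const_mul]
    refine setIntegral_mono_on ((intB (gau_g hu p) 0 2).const_mul _) (intB (Wt_cont hu p N x) 0 2)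
      measurableSet_ball fun z hz => ?_
    have a1 : ‖z - x‖ ≤ 2 + ‖x‖ :=
      (norm_sub_le z x).trans (by linarith [mem_ball_zero_iff.1 hz])
    have a2 : N * ‖z - x‖ ^ 2 ≤ |N| * (2 + ‖x‖) ^ 2 :=
      (mul_le_mul_of_nonneg_right (le_abs_self N) (sq_nonneg _)).trans (by gcongr)
    rw [Wt, mul_comm]
    exact mul_le_mul_of_nonneg_left (Real.exp_le_exp.2 (by linarith)) (by positivity)
  have h2 : ∫ z in ball (0 : ℂ) 2, Wt u p N x z ≤ Lm u p N x :=
    setIntegral_mono_set (intB (Wt_cont hu p N x) 0 210)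
      (Eventually.of_forall (Wt_nonneg u p N x))
      (ball_subset_ball (by norm_num)).eventuallyLE
  exact (mul_pos (Real.exp_pos _) h).trans_le (h1.trans h2)

private theorem gau_bd (hu : Sm u) (p : ℂ) : ∃ m, Bd ((ball (0 : ℂ) 210).indicator
    fun z => u z ^ 2 * Real.exp (-2 * dt p z)) m 210 := by
  obtain ⟨K, hK⟩ := (isCompact_closedBall (0 : ℂ) 210).exists_bound_of_continuousOn
    (gau_g hu p).continuousOn
  refine ⟨|K|, (gau_g hu p).measurable.indicator measurableSet_ball, fun y => ?_, fun y hy => ?_⟩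
  · by_cases hy : y ∈ ball (0 : ℂ) 210
    · rw [indicator_of_mem hy]
      exact (hK y (ball_subset_closedBall hy)).trans (le_abs_self K)
    · rw [indicator_of_notMem hy, abs_zero]
      exact abs_nonneg K
  · exact indicator_of_notMem (fun h => (mem_ball_zero_iff.1 h).not_gt hy) _

private theorem gau_IK (u : ℂ → ℝ) (p : ℂ) (N : ℝ) (q : ℂ → ℂ → ℝ) (x : ℂ) :
    IK (fun x z => q x z * Real.exp (-N * ‖z - x‖ ^ 2)) ((ball (0 : ℂ) 210).indicator
      fun z => u z ^ 2 * Real.exp (-2 * dt p z)) x =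
      ∫ z in ball (0 : ℂ) 210, q x z * Wt u p N x z := by
  rw [IK, ← integral_indicator measurableSet_ball]
  refine integral_congr_ae (Eventually.of_forall fun y => ?_)
  by_cases hy : y ∈ ball (0 : ℂ) 210
  · simp only [indicator_of_mem hy, Wt]
    ring
  · simp only [indicator_of_notMem hy, mul_zero]

private theorem gau_k (N : ℝ) : SmK fun x z => Real.exp (-N * ‖z - x‖ ^ 2) :=
  Real.contDiff_exp.comp
    (contDiff_const.mul ((contDiff_norm_sq ℝ).comp (contDiff_snd.sub contDiff_fst)))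

private theorem gau_q (v : ℂ) : SmK fun x z => dt v (z - x) :=
  (sm_dt v).comp (contDiff_snd.sub contDiff_fst)

private theorem gau_Lm (u : ℂ → ℝ) (p : ℂ) (N : ℝ) :
    Lm u p N = IK (fun x z => 1 * Real.exp (-N * ‖z - x‖ ^ 2)) ((ball (0 : ℂ) 210).indicator
      fun z => u z ^ 2 * Real.exp (-2 * dt p z)) := by
  funext x
  rw [gau_IK u p N (fun _ _ => 1) x, Lm]
  simp only [one_mul]

theorem sm_Lm (hu : Sm u) (p : ℂ) (N : ℝ) : Sm (Lm u p N) := by
  obtain ⟨m, hm⟩ := gau_bd hu p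
  rw [gau_Lm]
  exact sm_IK (contDiff_const.mul (gau_k N)) hm

theorem sm_Ph (hu : Sm u) (h : 0 < Ms u p 0 2) (N : ℝ) : Sm (Ph u p N) :=
  (sm_Lm hu p N).log fun x => (Lm_pos hu h N x).ne'

theorem Ph_le (hu : Sm u) (h : 0 < Ms u p 0 2) (hN : 0 ≤ N) (x : ℂ) :
    Ph u p N x ≤ Real.log (Ms u p 0 210) := by
  refine Real.log_le_log (Lm_pos hu h N x) ?_
  refine setIntegral_mono_on (intB (Wt_cont hu p N x) 0 210) (intB (gau_g hu p) 0 210)
    measurableSet_ball fun z _ => ?_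
  exact mul_le_of_le_one_right (by positivity)
    (Real.exp_le_one_iff.2 (by nlinarith [mul_nonneg hN (sq_nonneg ‖z - x‖)]))

private theorem gau_Dq (v w z x : ℂ) : D w (fun x => dt v (z - x)) x = -dt v w := by
  have h1 := line (ker1_fst (gau_q v) z) x w 0
  have h2 : HasDerivAt (fun t : ℝ => dt v (z - x) - t * dt v w) (-dt v w) 0 := by
    simpa using ((hasDerivAt_id (0 : ℝ)).mul_const (dt v w)).const_sub (dt v (z - x))
  have e : (fun t : ℝ => dt v (z - (x + t • w))) = fun t : ℝ => dt v (z - x) - t * dt v w := by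
    funext t
    simp only [dt, sub_re, sub_im, add_re, add_im, smul_re, smul_im, smul_eq_mul]
    ring
  rw [e] at h1
  simpa using h1.unique h2

private theorem gau_Dk (N : ℝ) (v z x : ℂ) : D v (fun x => Real.exp (-N * ‖z - x‖ ^ 2)) x =
    2 * N * dt v (z - x) * Real.exp (-N * ‖z - x‖ ^ 2) := by
  have s1 : Sm fun x => ‖z - x‖ ^ 2 := (contDiff_norm_sq ℝ).comp (contDiff_const.sub contDiff_id)
  have e1 := congrFun (ker1_D 1 z (-1) v) x
  simp only [neg_mul, one_mul, one_pow, div_one, ← sub_eq_add_neg] at e1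
  rw [D_comp (g := Real.exp) (F := fun x => -N * ‖z - x‖ ^ 2) (Real.hasDerivAt_exp _)
    (dif (contDiff_const.mul s1) x), D_cmul_at (dif s1 x), e1]
  simp only [dt, mul_re, conj_re, conj_im, neg_re, neg_im]
  ring

private theorem gau_D1 (hu : Sm u) (p : ℂ) (N : ℝ) (v : ℂ) : D v (Lm u p N) =
    IK (fun x z => 2 * N * dt v (z - x) * Real.exp (-N * ‖z - x‖ ^ 2))
      ((ball (0 : ℂ) 210).indicator fun z => u z ^ 2 * Real.exp (-2 * dt p z)) := by
  obtain ⟨m, hm⟩ := gau_bd hu p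
  rw [gau_Lm, D_IK (contDiff_const.mul (gau_k N)) hm]
  simp only [one_mul, gau_Dk]

private theorem gau_i {φ W : ℂ → ℝ} (hφ : Continuous φ) (hW : Continuous W) :
    IntegrableOn (fun z => φ z * W z) (ball 0 210) := intB (hφ.mul hW) 0 210

private theorem gau_D2 (hu : Sm u) (p : ℂ) (N : ℝ) (v x : ℂ) : D v (D v (Lm u p N)) x =
    4 * N ^ 2 * (∫ z in ball (0 : ℂ) 210, dt v (z - x) ^ 2 * Wt u p N x z) -
      2 * N * ‖v‖ ^ 2 * Lm u p N x := by
  obtain ⟨m, hm⟩ := gau_bd hu p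
  have e : ∀ x z, D v (fun x => 2 * N * dt v (z - x) * Real.exp (-N * ‖z - x‖ ^ 2)) x =
      (4 * N ^ 2 * dt v (z - x) ^ 2 - 2 * N * ‖v‖ ^ 2) * Real.exp (-N * ‖z - x‖ ^ 2) := by
    intro x z
    rw [D_mul_at (dif (contDiff_const.mul (ker1_fst (gau_q v) z)) x)
      (dif (ker1_fst (gau_k N) z) x), D_cmul_at (dif (ker1_fst (gau_q v) z) x), gau_Dq, gau_Dk,
      dt_self]
    ring
  have c1 : Continuous fun z => dt v (z - x) := ker1_snd (gau_q v) x
  rw [gau_D1 hu, D_IK ((contDiff_const.mul (gau_q v)).mul (gau_k N)) hm]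
  simp only [e]
  rw [gau_IK u p N (fun x z => 4 * N ^ 2 * dt v (z - x) ^ 2 - 2 * N * ‖v‖ ^ 2) x, Lm,
    ← integral_const_mul, ← integral_const_mul, ← integral_sub
      ((gau_i (φ := fun z => dt v (z - x) ^ 2) (c1.pow 2) (Wt_cont hu p N x)).const_mul _)
      ((intB (Wt_cont hu p N x) 0 210).const_mul _)]
  refine integral_congr_ae (Eventually.of_forall fun z => ?_)
  simp only
  ring

private theorem gau_var {φ W : ℂ → ℝ} (hφ : Continuous φ) (hW : Continuous W) (m : ℝ) :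
    ∫ z in ball (0 : ℂ) 210, (φ z - m) ^ 2 * W z =
      (∫ z in ball (0 : ℂ) 210, φ z ^ 2 * W z) - 2 * m * (∫ z in ball (0 : ℂ) 210, φ z * W z) +
        m ^ 2 * ∫ z in ball (0 : ℂ) 210, W z := by
  have i1 := gau_i (φ := fun z => φ z ^ 2) (hφ.pow 2) hW
  have i2 := (gau_i hφ hW).const_mul (2 * m)
  have i3 := (intB hW 0 210).const_mul (m ^ 2)
  have i4 : Integrable (fun z => φ z ^ 2 * W z - 2 * m * (φ z * W z))
      (volume.restrict (ball (0 : ℂ) 210)) := i1.sub i2
  rw [← integral_const_mul, ← integral_const_mul, ← integral_sub i1 i2, ← integral_add i4 i3]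
  refine integral_congr_ae (Eventually.of_forall fun z => ?_)
  simp only
  ring

theorem gau (hu : Sm u) (h : 0 < Ms u p 0 2) (hN : 0 < N) (x : ℂ) : ∃ c : ℂ,
    gr (Ph u p N) x = (2 * N) • (c - x) ∧
    (∀ v, -(2 * N * ‖v‖ ^ 2) ≤ D v (D v (Ph u p N)) x) ∧
    Lap (Ph u p N) x * Lm u p N x =
      4 * N ^ 2 * (∫ z in ball (0 : ℂ) 210, ‖z - c‖ ^ 2 * Wt u p N x z) - 4 * N * Lm u p N x ∧
    ‖c - x‖ * Lm u p N x ≤ ∫ z in ball (0 : ℂ) 210, ‖z - x‖ * Wt u p N x z := by
  have hL := Lm_pos hu h N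
  have sL := sm_Lm hu p N
  have cW := Wt_cont hu p N x
  have c1 : ∀ v, Continuous fun z => dt v (z - x) := fun v => ker1_snd (gau_q v) x
  obtain ⟨a, ha⟩ : ∃ a : ℂ → ℝ, ∀ v,
      a v * Lm u p N x = ∫ z in ball (0 : ℂ) 210, dt v (z - x) * Wt u p N x z :=
    ⟨fun v => _ / Lm u p N x, fun v => div_mul_cancel₀ _ (hL x).ne'⟩
  have d1 : ∀ v, D v (Lm u p N) x = 2 * N * a v * Lm u p N x := fun v => by
    rw [gau_D1 hu, gau_IK u p N (fun x z => 2 * N * dt v (z - x)) x, mul_assoc _ (a v), ha,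
      ← integral_const_mul]
    simp only [mul_assoc]
  have p1 : ∀ v, D v (Ph u p N) = fun y => (Lm u p N y)⁻¹ * D v (Lm u p N) y := fun v =>
    funext fun y => D_comp (Real.hasDerivAt_log (hL y).ne') (dif sL y) v
  have p2 : ∀ v, D v (D v (Ph u p N)) x * Lm u p N x =
      4 * N ^ 2 * (∫ z in ball (0 : ℂ) 210, (dt v (z - x) - a v) ^ 2 * Wt u p N x z) -
        2 * N * ‖v‖ ^ 2 * Lm u p N x := fun v => by
    have := hL x
    rw [p1, D_mul_at (F := fun y => (Lm u p N y)⁻¹) (dif (sL.inv fun y => (hL y).ne') x)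
      (dif (smD sL v) x),
      D_comp (g := fun t => t⁻¹) (hasDerivAt_inv (hL x).ne') (dif sL x), gau_D2 hu, d1,
      gau_var (c1 v) cW, ← ha, ← Lm]
    field_simp
    ring
  have hc : x + (⟨a 1, a I⟩ : ℂ) - x = ⟨a 1, a I⟩ := add_sub_cancel_left _ _
  refine ⟨x + ⟨a 1, a I⟩, ?_, fun v => ?_, ?_, ?_⟩
  · have := hL x
    rw [hc, gr, p1, p1]
    simp only [d1]
    apply Complex.ext <;> simp only [smul_re, smul_im, smul_eq_mul] <;> field_simp
  · refine le_of_mul_le_mul_right ?_ (hL x)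
    have : 0 ≤ ∫ z in ball (0 : ℂ) 210, (dt v (z - x) - a v) ^ 2 * Wt u p N x z :=
      integral_nonneg fun z => mul_nonneg (sq_nonneg _) (Wt_nonneg u p N x z)
    rw [p2]
    nlinarith [mul_nonneg (sq_nonneg N) this]
  · have e : ∫ z in ball (0 : ℂ) 210, ‖z - (x + ⟨a 1, a I⟩)‖ ^ 2 * Wt u p N x z =
        (∫ z in ball (0 : ℂ) 210, (dt 1 (z - x) - a 1) ^ 2 * Wt u p N x z) +
          ∫ z in ball (0 : ℂ) 210, (dt I (z - x) - a I) ^ 2 * Wt u p N x z := by
      have c2 : ∀ v, Continuous fun z => (dt v (z - x) - a v) ^ 2 := fun v =>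
        ((c1 v).sub continuous_const).pow 2
      rw [← integral_add (gau_i (c2 1) cW) (gau_i (c2 I) cW)]
      refine integral_congr_ae (Eventually.of_forall fun z => ?_)
      simp only [Complex.sq_norm, normSq_apply, dt, sub_re, sub_im, add_re, add_im, one_re, one_im,
        I_re, I_im]
      ring
    rw [Lap, add_mul, p2, p2, e, norm_one, norm_I]
    ring
  · rw [hc]
    generalize he : (⟨a 1, a I⟩ : ℂ) = e
    have i0 : 0 ≤ ∫ z in ball (0 : ℂ) 210, ‖z - x‖ * Wt u p N x z :=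
      integral_nonneg fun z => mul_nonneg (norm_nonneg _) (Wt_nonneg u p N x z)
    rcases eq_or_ne e 0 with h0 | h0
    · rwa [h0, norm_zero, zero_mul]
    refine le_of_mul_le_mul_left ?_ (norm_pos_iff.2 h0)
    have e1 : ‖e‖ * (‖e‖ * Lm u p N x) =
        ∫ z in ball (0 : ℂ) 210, dt e (z - x) * Wt u p N x z := by
      have e2 : ‖e‖ * (‖e‖ * Lm u p N x) =
          e.re * (a 1 * Lm u p N x) + e.im * (a I * Lm u p N x) := by
        rw [← mul_assoc, ← pow_two, ← dt_self, ← he, dt]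
        ring
      rw [e2, ha, ha, ← integral_const_mul, ← integral_const_mul, ← integral_add
        ((gau_i (c1 1) cW).const_mul _) ((gau_i (c1 I) cW).const_mul _)]
      refine integral_congr_ae (Eventually.of_forall fun z => ?_)
      simp only [dt, one_re, one_im, I_re, I_im]
      ring
    rw [e1, ← integral_const_mul]
    refine setIntegral_mono_on (intB ((c1 e).mul cW) 0 210)
      ((intB ((continuous_id.sub continuous_const).norm.mul cW) 0 210).const_mul _)
      measurableSet_ball fun z _ => ?_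
    rw [← mul_assoc]
    exact mul_le_mul_of_nonneg_right ((le_abs_self _).trans (abs_dt_le e _))
      (Wt_nonneg u p N x z)

end Pool.Agent.Lib.MP_a52643_an.YS
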