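import Pool.Agent.Lib.MP_a52643_an.YS.Unc1

/-!
The uncertainty inequality for solutions.
-/

namespace Pool.Agent.Lib.MP_a52643_an.YS

open Complex Filter Topology Metric MeasureTheory Set QS YA
open scoped ContDiff

/-- The exponent of the weight. -/
noncomputable def unc_ps (b : ℂ) (N : ℝ) (z : ℂ) : ℝ :=
  -(b.re * z.re + b.im * z.im + N / 2 * (z.re * z.re + z.im * z.im))

/-- The conjugated solution. -/
noncomputable def unc_f (u : ℂ → ℝ) (b : ℂ) (N : ℝ) (z : ℂ) : ℝ := u z * Real.exp (unc_ps b N z)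

theorem unc_sm_re : ContDiff ℝ ∞ fun z : ℂ => z.re := reCLM.contDiff

theorem unc_sm_im : ContDiff ℝ ∞ fun z : ℂ => z.im := imCLM.contDiff

theorem unc_sm_ps (b : ℂ) (N : ℝ) : ContDiff ℝ ∞ (unc_ps b N) := by
  have h1 := unc_sm_re
  have h2 := unc_sm_im
  unfold unc_ps
  fun_prop

theorem unc_sm_f {u : ℂ → ℝ} (hu : Sm u) (b : ℂ) (N : ℝ) : Sm (unc_f u b N) :=
  hu.mul (unc_sm_ps b N).exp

theorem unc_D_ps (b : ℂ) (N : ℝ) (v : ℂ) :
    D v (unc_ps b N) = fun z => -(v.re * (b.re + N * z.re) + v.im * (b.im + N * z.im)) := by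
  funext z
  have h1 : HasFDerivAt (fun z : ℂ => z.re) reCLM z := reCLM.hasFDerivAt
  have h2 : HasFDerivAt (fun z : ℂ => z.im) imCLM z := imCLM.hasFDerivAt
  have h3 := (((h1.const_mul b.re).add (h2.const_mul b.im)).add
    (((h1.mul h1).add (h2.mul h2)).const_mul (N / 2))).neg
  have h4 : fderiv ℝ (unc_ps b N) z = _ := h3.fderiv
  unfold D
  rw [h4]
  simp
  ring

theorem unc_DD_ps (b : ℂ) (N : ℝ) (v z : ℂ) :
    D v (D v (unc_ps b N)) z = -(N * (v.re ^ 2 + v.im ^ 2)) := by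
  rw [unc_D_ps]
  have h1 : HasFDerivAt (fun z : ℂ => z.re) reCLM z := reCLM.hasFDerivAt
  have h2 : HasFDerivAt (fun z : ℂ => z.im) imCLM z := imCLM.hasFDerivAt
  have h3 := ((((h1.const_mul N).const_add b.re).const_mul v.re).add
    (((h2.const_mul N).const_add b.im).const_mul v.im)).neg
  have h4 : fderiv ℝ (fun z : ℂ => -(v.re * (b.re + N * z.re) + v.im * (b.im + N * z.im))) z = _ :=
    h3.fderiv
  unfold D
  rw [h4]
  simp
  ring

theorem unc_norm (b : ℂ) (N : ℝ) (z : ℂ) :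
    ‖b + N • z‖ ^ 2 = (b.re + N * z.re) ^ 2 + (b.im + N * z.im) ^ 2 := by
  rw [Complex.sq_norm, Complex.normSq_apply]
  simp
  ring

theorem unc_conj {u : ℂ → ℝ} (hu : Sm u) (V : ℂ → ℝ) (b : ℂ) (N : ℝ) (z : ℂ) :
    So b N V (unc_f u b N) z + Ao b N (unc_f u b N) z =
      Real.exp (unc_ps b N z) * (Lap u z + V z * u z) := by
  have hp := unc_sm_ps b N
  have he : ContDiff ℝ ∞ fun s => Real.exp (unc_ps b N s) := hp.exp
  have d1 : ∀ v, D v (fun s => Real.exp (unc_ps b N s)) z =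
      Real.exp (unc_ps b N z) * D v (unc_ps b N) z := fun v =>
    D_comp (Real.hasDerivAt_exp _) (dif hp z) v
  have d2 : Lap (fun s => Real.exp (unc_ps b N s)) z =
      Real.exp (unc_ps b N z) * Gr (unc_ps b N) z + Real.exp (unc_ps b N z) * Lap (unc_ps b N) z :=
    Lap_comp Real.hasDerivAt_exp Real.hasDerivAt_exp hp z
  have d3 : Lap (unc_ps b N) z = -(2 * N) := by
    unfold Lap
    rw [unc_DD_ps, unc_DD_ps]
    simp
    ring
  have d4 : D 1 (unc_ps b N) z = -(b.re + N * z.re) := by rw [unc_D_ps]; simp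
  have d5 : D I (unc_ps b N) z = -(b.im + N * z.im) := by rw [unc_D_ps]; simp
  have e : unc_f u b N = fun s => u s * Real.exp (unc_ps b N s) := rfl
  have r1 : (b + N • z).re = b.re + N * z.re := by simp
  have r2 : (b + N • z).im = b.im + N * z.im := by simp
  unfold So Ao
  rw [unc_norm, D_lin, r1, r2, e, jet_Lap_mul hu he, D_mul hu he, D_mul hu he]
  simp only []
  rw [d1, d1, d2, d3, Gr, d4, d5]
  ring

theorem unc_sq (u : ℂ → ℝ) (b : ℂ) (N : ℝ) (z : ℂ) : Wt u b N 0 z = unc_f u b N z ^ 2 := by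
  unfold Wt unc_f unc_ps dt
  rw [mul_pow, ← Real.exp_nat_mul, mul_assoc, ← Real.exp_add, sub_zero, Complex.sq_norm,
    Complex.normSq_apply]
  congr 2
  push_cast
  ring

theorem unc_cut {χ f : ℂ → ℝ} (hχ : Sm χ) (hf : Sm f) (V : ℂ → ℝ) (b : ℂ) (N : ℝ) (z : ℂ) :
    So b N V (fun s => χ s * f s) z + Ao b N (fun s => χ s * f s) z =
      χ z * (So b N V f z + Ao b N f z) + (2 * (D 1 χ z * D 1 f z + D I χ z * D I f z) +
        (Lap χ z + 2 * D (b + N • z) χ z) * f z) := by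
  unfold So Ao
  rw [jet_Lap_mul hχ hf, D_mul hχ hf]
  ring

theorem unc_int {H G : ℂ → ℝ} (hH : Continuous H) (hG : Continuous G) (c : ℝ)
    (h0 : ∀ z, 1 ≤ ‖z‖ → H z = 0) (h : ∀ z, ‖z‖ < 1 → H z ≤ c * G z) :
    ∫ z, H z ≤ c * ∫ z in ball (0 : ℂ) 1, G z := by
  rw [← setIntegral_eq_integral_of_forall_compl_eq_zero (s := ball (0 : ℂ) 1)
    (fun z hz => h0 z (by rwa [mem_ball_zero_iff, not_lt] at hz)), ← integral_const_mul]
  exact setIntegral_mono_on (intB hH 0 1) ((intB hG 0 1).const_mul c) measurableSet_ball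
    fun z hz => h z (mem_ball_zero_iff.1 hz)

theorem unc_D_le (χ : ℂ → ℝ) (v z : ℂ) : |D v χ z| ≤ ‖v‖ * gn χ z := by
  rw [D_lin]
  refine (abs_add_le _ _).trans ?_
  rw [abs_mul, abs_mul, gn, mul_add]
  exact add_le_add (mul_le_mul_of_nonneg_right (abs_re_le_norm v) (abs_nonneg _))
    (mul_le_mul_of_nonneg_right (abs_im_le_norm v) (abs_nonneg _))

theorem unc_Lap_out {χ : ℂ → ℝ} (hχ : Sm χ) {r : ℝ} (h : ∀ z, r ≤ ‖z‖ → χ z = 0) (z : ℂ)
    (hz : r ≤ ‖z‖) : Lap χ z = 0 := by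
  unfold Lap
  rw [D_out (smD hχ 1) (D_out hχ h 1) 1 z hz, D_out (smD hχ I) (D_out hχ h I) I z hz, add_zero]

theorem unc_contD {χ : ℂ → ℝ} (hχ : Sm χ) (b : ℂ) (N : ℝ) :
    Continuous fun z => D (b + N • z) χ z := by
  have h1 := (smD hχ 1).continuous
  have h2 := (smD hχ I).continuous
  have e : (fun z => D (b + N • z) χ z) =
      fun z => (b + N • z).re * D 1 χ z + (b + N • z).im * D I χ z := funext fun z => D_lin _ _ _
  rw [e]
  fun_prop

/-- The error made by the cut-off. -/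
theorem unc_err : ∃ (χ : ℂ → ℝ) (C : ℝ), Sm χ ∧ 0 ≤ C ∧ (∀ z, ‖z‖ ≤ 1 / 2 → χ z = 1) ∧
    (∀ z, 1 ≤ ‖z‖ → χ z = 0) ∧ (∀ z, 0 ≤ χ z ∧ χ z ≤ 1) ∧
    ∀ (f V : ℂ → ℝ) (b : ℂ) (N : ℝ), Sm f → Sm V → 1 ≤ N → N ≤ ‖b‖ →
      (∀ z, ‖z‖ < 1 → So b N V f z + Ao b N f z = 0) → (∀ z, ‖z‖ < 1 → |V z| ≤ ‖b‖ ^ 2) →
      ∫ z, (So b N V (fun s => χ s * f s) z + Ao b N (fun s => χ s * f s) z) ^ 2 ≤
        C * ‖b‖ ^ 2 * ∫ z in ball (0 : ℂ) 1, f z ^ 2 := by
  obtain ⟨χ, C₁, s1, c1, o1, z1, b1⟩ := exists_cut (a := 1 / 2) (b := 3 / 4) (by norm_num)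
    (by norm_num)
  obtain ⟨g, C₂, s2, c2, o2, z2, b2⟩ := exists_cut (a := 3 / 4) (b := 1) (by norm_num)
    (by norm_num)
  refine ⟨χ, 8 * C₁ ^ 2 * (5 + 3 * C₂) + 50 * C₁ ^ 2, s1, by positivity, o1,
    fun z hz => z1 z (by linarith), fun z => ⟨(b1 z).1, (b1 z).2.1⟩,
    fun f V b N hf hV hN hb h0 hV0 => ?_⟩
  obtain ⟨β, hβ⟩ : ∃ β, β = ‖b‖ := ⟨_, rfl⟩
  rw [← hβ] at hb hV0 ⊢
  have β1 : 1 ≤ β := hN.trans hb
  have hw : ∀ z : ℂ, ‖z‖ < 1 → ‖b + N • z‖ ≤ 2 * β := fun z hz => by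
    refine (norm_add_le _ _).trans ?_
    rw [norm_smul, Real.norm_of_nonneg (by linarith), ← hβ]
    nlinarith [norm_nonneg z]
  have cf := hf.continuous
  have cg := s2.continuous
  have cV := hV.continuous
  have cG := (smGr hf).continuous
  have cL := (smLap s2).continuous
  have cD := unc_contD s2 b N
  have k1 : ∫ z, g z * Gr f z ≤ (5 + 3 * C₂) * β ^ 2 * ∫ z in ball (0 : ℂ) 1, f z ^ 2 := by
    have e := en hf hV s2 (Or.inr z2) b N
    have e0 : (fun z => g z * f z * (So b N V f z + Ao b N f z)) = fun _ => 0 := by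
      funext z
      rcases lt_or_ge ‖z‖ 1 with hz | hz
      · rw [h0 z hz, mul_zero]
      · rw [z2 z hz, zero_mul, zero_mul]
    rw [e0, integral_zero, eq_neg_add_iff_add_eq, add_zero] at e
    rw [e]
    refine unc_int (by fun_prop) (by fun_prop) _ (fun z hz => ?_) fun z hz => ?_
    · rw [z2 z hz, unc_Lap_out s2 z2 z hz, D_out s2 z2 _ z hz]
      ring
    · refine mul_le_mul_of_nonneg_right ?_ (sq_nonneg _)
      obtain ⟨a1, a2, a3, a4⟩ := b2 z
      have a5 := pow_le_pow_left₀ (norm_nonneg _) (hw z hz) 2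
      have a6 := (abs_le.1 (hV0 z hz)).2
      have a7 : g z * (‖b + N • z‖ ^ 2 + V z) ≤ 5 * β ^ 2 := by
        have : g z * (‖b + N • z‖ ^ 2 + V z) ≤ g z * (5 * β ^ 2) :=
          mul_le_mul_of_nonneg_left (by nlinarith) a1
        nlinarith [sq_nonneg β]
      have a8 : |D (b + N • z) g z| ≤ 2 * β * C₂ :=
        (unc_D_le g _ z).trans (mul_le_mul (hw z hz) a3 (gn_nonneg _ _) (by linarith))
      have a9 := (abs_le.1 a8).1
      have a10 := (abs_le.1 a4).2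
      have a11 : C₂ * 1 ≤ C₂ * β ^ 2 := mul_le_mul_of_nonneg_left (by nlinarith) c2
      have a12 : C₂ * β ≤ C₂ * β ^ 2 := mul_le_mul_of_nonneg_left (by nlinarith) c2
      nlinarith
  obtain ⟨E, hE⟩ : ∃ E : ℂ → ℝ, E = fun z => 2 * (D 1 χ z * D 1 f z + D I χ z * D I f z) +
      (Lap χ z + 2 * D (b + N • z) χ z) * f z := ⟨_, rfl⟩
  have e1 : (fun z => (So b N V (fun s => χ s * f s) z + Ao b N (fun s => χ s * f s) z) ^ 2) =
      fun z => E z ^ 2 := by
    funext z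
    rw [unc_cut s1 hf, hE]
    rcases lt_or_ge ‖z‖ 1 with hz | hz
    · rw [h0 z hz, mul_zero, zero_add]
    · rw [z1 z (by linarith), zero_mul, zero_add]
  have E0 : ∀ z, 3 / 4 ≤ ‖z‖ → E z = 0 := fun z hz => by
    rw [hE]
    simp only []
    rw [D_out s1 z1 _ z hz, D_out s1 z1 _ z hz, D_out s1 z1 _ z hz, unc_Lap_out s1 z1 z hz]
    ring
  have cE : Continuous E := by
    have := (smD s1 1).continuous
    have := (smD s1 I).continuous
    have := (smD hf 1).continuous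
    have := (smD hf I).continuous
    have := (smLap s1).continuous
    have := unc_contD s1 b N
    rw [hE]
    fun_prop
  have k2 : ∫ z, (E z ^ 2 - 8 * C₁ ^ 2 * (g z * Gr f z)) ≤
      50 * C₁ ^ 2 * β ^ 2 * ∫ z in ball (0 : ℂ) 1, f z ^ 2 := by
    refine unc_int (by fun_prop) (by fun_prop) _ (fun z hz => ?_) fun z hz => ?_
    · rw [E0 z (by linarith), z2 z hz]
      ring
    · rcases le_total (3 / 4) ‖z‖ with h | h
      · have : 0 ≤ 8 * C₁ ^ 2 * (g z * Gr f z) := by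
          have := (b2 z).1
          have := Gr_nonneg f z
          positivity
        have : 0 ≤ 50 * C₁ ^ 2 * β ^ 2 * f z ^ 2 := by positivity
        rw [E0 z h]
        linarith
      · obtain ⟨-, -, a3, a4⟩ := b1 z
        have a5 : |D (b + N • z) χ z| ≤ 2 * β * C₁ :=
          (unc_D_le χ _ z).trans (mul_le_mul (hw z hz) a3 (gn_nonneg _ _) (by linarith))
        have a6 : C₁ * 1 ≤ C₁ * β := mul_le_mul_of_nonneg_left β1 c1
        have a7 : |Lap χ z + 2 * D (b + N • z) χ z| ≤ 5 * C₁ * β := by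
          refine (abs_add_le _ _).trans ?_
          rw [abs_mul, abs_two]
          linarith
        have a8 := pow_le_pow_left₀ (abs_nonneg _) a7 2
        rw [sq_abs] at a8
        have a9 : D 1 χ z ^ 2 + D I χ z ^ 2 ≤ C₁ ^ 2 := by
          have a10 := pow_le_pow_left₀ (gn_nonneg _ _) a3 2
          rw [gn] at a10
          rw [← sq_abs (D 1 χ z), ← sq_abs (D I χ z)]
          nlinarith [mul_nonneg (abs_nonneg (D 1 χ z)) (abs_nonneg (D I χ z))]
        have a11 : (D 1 χ z * D 1 f z + D I χ z * D I f z) ^ 2 ≤ C₁ ^ 2 * Gr f z := by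
          refine le_trans ?_ (mul_le_mul_of_nonneg_right a9 (Gr_nonneg f z))
          rw [Gr]
          nlinarith [sq_nonneg (D 1 χ z * D I f z - D I χ z * D 1 f z)]
        have a12 := mul_le_mul_of_nonneg_right a8 (sq_nonneg (f z))
        rw [o2 z h, hE]
        simp only []
        generalize D 1 χ z * D 1 f z + D I χ z * D I f z = p at a11 ⊢
        generalize Lap χ z + 2 * D (b + N • z) χ z = q at a12 ⊢
        nlinarith [sq_nonneg (2 * p - q * f z)]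
  have i1 : Integrable fun z => E z ^ 2 :=
    int_out (r := 1) (by fun_prop) fun z hz => by rw [E0 z (by linarith)]; ring
  have i2 : Integrable fun z => g z * Gr f z :=
    int_out (r := 1) (by fun_prop) fun z hz => by rw [z2 z hz, zero_mul]
  rw [integral_sub i1 (i2.const_mul _), integral_const_mul] at k2
  rw [e1]
  have k3 := mul_le_mul_of_nonneg_left k1 (show 0 ≤ 8 * C₁ ^ 2 by positivity)
  linarith

theorem unc {δ : ℝ} (hδ : 0 < δ) : ∃ N K : ℝ, 1 ≤ N ∧ 1 ≤ K ∧ ∀ (u V : ℂ → ℝ) (b : ℂ),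
    Sm u → Sm V → (∀ z, ‖z‖ < 1 → Lap u z = -(V z * u z)) → K ≤ ‖b‖ →
      (∀ z, ‖z‖ < 1 → K * |V z| ≤ ‖b‖ ^ 2 ∧ K * gn V z ≤ ‖b‖) →
      (1 - δ) * ∫ z in ball (0 : ℂ) 1, Wt u b N 0 z ≤
        N * ∫ z in ball (0 : ℂ) 1, ‖z‖ ^ 2 * Wt u b N 0 z := by
  obtain ⟨d, hd⟩ : ∃ d, d = min δ 1 / 3 := ⟨_, rfl⟩
  have d0 : 0 < d := by rw [hd]; exact div_pos (lt_min hδ one_pos) (by norm_num)
  have d1 : 3 * d ≤ δ := by linarith [min_le_left δ 1]
  have d2 : 3 * d ≤ 1 := by linarith [min_le_right δ 1]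
  obtain ⟨C, hC, H⟩ := unc1 d0
  obtain ⟨χ, C₃, s1, c3, o1, z1, b1, HE⟩ := unc_err
  obtain ⟨N, hN⟩ : ∃ N, N = (C * C₃ + 4) / d := ⟨_, rfl⟩
  have c4 : 0 ≤ C * C₃ := by positivity
  have N0 : N * d = C * C₃ + 4 := by rw [hN]; field_simp
  have N2 : 0 < N := by rw [hN]; positivity
  have N1 : 1 ≤ N := by nlinarith
  obtain ⟨K, hK, HK⟩ := H N N1
  refine ⟨N, max K N, N1, N1.trans (le_max_right _ _), fun u V b hu hV heq hb hbd => ?_⟩
  have m1 := le_max_left K N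
  have m2 := le_max_right K N
  simp only [unc_sq]
  have hf := unc_sm_f hu b N
  have h0 : ∀ z, ‖z‖ < 1 → So b N V (unc_f u b N) z + Ao b N (unc_f u b N) z = 0 := fun z hz => by
    rw [unc_conj hu, heq z hz]; ring
  generalize unc_f u b N = f at hf h0 ⊢
  have k1 := HE f V b N hf hV N1 (m2.trans hb) h0 fun z hz => by
    nlinarith [(hbd z hz).1, abs_nonneg (V z)]
  have k2 := HK (fun s => χ s * f s) V b (s1.mul hf) hV (fun z hz => by rw [z1 z hz, zero_mul])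
    (m1.trans hb) fun z hz =>
      ⟨(mul_le_mul_of_nonneg_right m1 (abs_nonneg _)).trans (hbd z hz).1,
        (mul_le_mul_of_nonneg_right m1 (gn_nonneg _ _)).trans (hbd z hz).2⟩
  have cf := hf.continuous
  have cχ := s1.continuous
  have q1 : ∀ z, (χ z * f z) ^ 2 ≤ f z ^ 2 := fun z => by
    rw [mul_pow]
    exact mul_le_of_le_one_left (sq_nonneg _) (pow_le_one₀ (b1 z).1 (b1 z).2)
  have k3 : ∫ z, ‖z‖ ^ 2 * (χ z * f z) ^ 2 ≤ 1 * ∫ z in ball (0 : ℂ) 1, ‖z‖ ^ 2 * f z ^ 2 :=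
    unc_int (by fun_prop) (by fun_prop) _ (fun z hz => by rw [z1 z hz]; ring) fun z _ => by
      rw [one_mul]
      exact mul_le_mul_of_nonneg_left (q1 z) (sq_nonneg _)
  have k4 : ∫ z, -(χ z * f z) ^ 2 ≤
      1 * ∫ z in ball (0 : ℂ) 1, (4 * (‖z‖ ^ 2 * f z ^ 2) - f z ^ 2) :=
    unc_int (by fun_prop) (by fun_prop) _ (fun z hz => by rw [z1 z hz]; ring) fun z _ => by
      rcases le_total ‖z‖ (1 / 2) with h | h
      · rw [o1 z h]
        have : 0 ≤ ‖z‖ ^ 2 * f z ^ 2 := by positivity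
        linarith
      · have a1 : 1 ≤ 4 * ‖z‖ ^ 2 := by nlinarith
        nlinarith [mul_le_mul_of_nonneg_right a1 (sq_nonneg (f z)), sq_nonneg (χ z * f z)]
  rw [integral_neg, integral_sub ((intB (by fun_prop) 0 1).const_mul 4) (intB (by fun_prop) 0 1),
    integral_const_mul] at k4
  have p0 : 0 ≤ ∫ z in ball (0 : ℂ) 1, f z ^ 2 := integral_nonneg fun z => by positivity
  have p2 : 0 ≤ ∫ z in ball (0 : ℂ) 1, ‖z‖ ^ 2 * f z ^ 2 := integral_nonneg fun z => by positivity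
  have β0 : 0 < ‖b‖ ^ 2 := pow_pos (by linarith) 2
  generalize ∫ z in ball (0 : ℂ) 1, f z ^ 2 = a0 at *
  generalize ∫ z in ball (0 : ℂ) 1, ‖z‖ ^ 2 * f z ^ 2 = a2 at *
  generalize ∫ z, (χ z * f z) ^ 2 = A0 at *
  generalize ∫ z, ‖z‖ ^ 2 * (χ z * f z) ^ 2 = A2 at *
  generalize ∫ z, (So b N V (fun s => χ s * f s) z + Ao b N (fun s => χ s * f s) z) ^ 2 = E at *
  generalize ‖b‖ ^ 2 = B at *
  have t1 : (1 - d) * N * B * (a0 - 4 * a2) ≤ (1 - d) * N * B * A0 :=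
    mul_le_mul_of_nonneg_left (by linarith) (mul_nonneg (mul_nonneg (by linarith) N2.le) β0.le)
  have t2 : N ^ 2 * B * A2 ≤ N ^ 2 * B * a2 :=
    mul_le_mul_of_nonneg_left (by linarith) (by positivity)
  have t3 : C * E ≤ C * (C₃ * B * a0) := mul_le_mul_of_nonneg_left k1 (by linarith)
  have t4 : C * C₃ * (B * a0) ≤ N * d * (B * a0) :=
    mul_le_mul_of_nonneg_right (by linarith) (by positivity)
  have t5 : (1 - d) * (a0 - 4 * a2) ≤ N * a2 + d * a0 := by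
    refine le_of_mul_le_mul_left ?_ (mul_pos N2 β0)
    nlinarith
  rcases le_total a0 (N * a2) with h | h
  · nlinarith [mul_nonneg hδ.le p0]
  · have t6 : 4 * a2 ≤ N * d * a2 := mul_le_mul_of_nonneg_right (by linarith) p2
    have t7 : d * (N * a2) ≤ d * a0 := mul_le_mul_of_nonneg_left h d0.le
    have t8 : 3 * d * a0 ≤ δ * a0 := mul_le_mul_of_nonneg_right d1 p0
    nlinarith [mul_nonneg d0.le p2]

end Pool.Agent.Lib.MP_a52643_an.YS
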