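import Pool.Agent.Lib.MP_a52643_an.YS.Gau
import Pool.Agent.Lib.MP_a52643_an.YS.Unc

/-!
The Gaussian mass is nearly subharmonic where it is steep.
-/

namespace Pool.Agent.Lib.MP_a52643_an.YS

open Complex Filter Topology Metric MeasureTheory Set QS YA
open scoped ContDiff

theorem Gau2_int {g : ℂ → ℝ} (hg : Continuous g) (c : ℂ) (r : ℝ) : IntegrableOn g (ball c r) :=
  (hg.continuousOn.integrableOn_compact (isCompact_closedBall c r)).mono_set
    ball_subset_closedBall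

theorem Gau2_cv (g : ℂ → ℝ) (c : ℂ) {ρ : ℝ} (hρ : 0 < ρ) :
    ∫ z in ball c ρ, g z = ρ ^ 2 * ∫ w in ball (0 : ℂ) 1, g (c + ρ • w) := by
  have h1 := Measure.integral_comp_smul volume (fun s => (ball c ρ).indicator g (c + s)) ρ
  rw [finrank_real_complex, abs_of_nonneg (by positivity), smul_eq_mul,
    integral_add_left_eq_self (fun s => (ball c ρ).indicator g s) c] at h1
  have h2 : (ball (0 : ℂ) 1).indicator (fun w => g (c + ρ • w)) =
      fun w => (ball c ρ).indicator g (c + ρ • w) := by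
    funext w
    have h3 : c + ρ • w ∈ ball c ρ ↔ w ∈ ball (0 : ℂ) 1 := by
      rw [mem_ball_iff_norm, mem_ball_zero_iff, add_sub_cancel_left, norm_smul,
        Real.norm_of_nonneg hρ.le, mul_lt_iff_lt_one_right hρ]
    by_cases hw : w ∈ ball (0 : ℂ) 1
    · rw [indicator_of_mem hw, indicator_of_mem (h3.2 hw)]
    · rw [indicator_of_notMem hw, indicator_of_notMem fun h => hw (h3.1 h)]
  rw [← integral_indicator measurableSet_ball, ← integral_indicator measurableSet_ball, h2, h1]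
  field_simp

theorem Gau2_fac (u : ℂ → ℝ) (p c y : ℂ) (N ρ : ℝ) (w : ℂ) :
    Wt u p N y (c + ρ • w) = Real.exp (-2 * dt p c - N * ‖c - y‖ ^ 2) *
      Wt (Af c ρ u) (ρ • (p + N • (c - y))) (N * ρ ^ 2) 0 w := by
  simp only [Wt, Af, mul_assoc, ← Real.exp_add]
  rw [mul_left_comm, ← Real.exp_add]
  congr 2
  simp only [dt, Complex.sq_norm, Complex.normSq_apply, sub_zero, add_re, add_im, sub_re, sub_im,
    smul_re, smul_im, smul_eq_mul]
  ring

theorem Gau2_near {u : ℂ → ℝ} {p y : ℂ} {N : ℝ} (hu : Sm u) (h : 0 < Ms u p 0 2)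
    (hn : nn u p 0 1 ≤ N) (hN : 1 ≤ N) (hy : ‖y‖ < 30) :
    ∫ z in ball (0 : ℂ) 210, ‖z - y‖ * Wt u p N y z ≤ 34 * Lm u p N y := by
  have hW := Wt_cont hu p N y
  have hc : Continuous fun z => u z ^ 2 * Real.exp (-2 * dt p z) :=
    (hu.continuous.pow 2).mul
      (Real.continuous_exp.comp (continuous_const.mul (sm_dt p).continuous))
  have h1 : Real.exp (-1024 * N) * Ms u p 0 2 ≤ Lm u p N y := by
    rw [Ms, ← integral_const_mul]
    refine le_trans (setIntegral_mono_on (Gau2_int (continuous_const.mul hc) _ _)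
      (Gau2_int hW _ _) measurableSet_ball fun z hz => ?_)
      (setIntegral_mono_set (Gau2_int hW _ _) (Eventually.of_forall (Wt_nonneg u p N y))
        (ball_subset_ball (by norm_num)).eventuallyLE)
    rw [mul_comm, Wt]
    refine mul_le_mul_of_nonneg_left (Real.exp_le_exp.2 ?_) (by positivity)
    have h2 : ‖z - y‖ ≤ 32 := by
      linarith [norm_sub_le z y, mem_ball_zero_iff.1 hz]
    have h3 : ‖z - y‖ ^ 2 ≤ 32 ^ 2 := pow_le_pow_left₀ (norm_nonneg _) h2 2
    nlinarith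
  have h2 : Ms u p 0 210 ≤ Real.exp N * Ms u p 0 2 := by
    simp only [nn, mul_one] at hn
    refine (Real.le_exp_log _).trans ?_
    rw [← Real.exp_log h, ← Real.exp_add]
    exact Real.exp_le_exp.2 (by linarith)
  have h3 : ∫ z in ball (0 : ℂ) 210, ‖z - y‖ * Wt u p N y z ≤
      33 * Lm u p N y + 240 * Real.exp (-1089 * N) * Ms u p 0 210 := by
    rw [Lm, Ms, ← integral_const_mul, ← integral_const_mul, ← integral_add
      ((Gau2_int hW _ _).const_mul _) ((Gau2_int hc _ _).const_mul _)]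
    refine setIntegral_mono_on (Gau2_int (by fun_prop) _ _)
      (((Gau2_int hW _ _).const_mul _).add ((Gau2_int hc _ _).const_mul _))
      measurableSet_ball fun z hz => ?_
    have h4 := Wt_nonneg u p N y z
    have h5 : 0 ≤ 240 * Real.exp (-1089 * N) * (u z ^ 2 * Real.exp (-2 * dt p z)) := by
      positivity
    rcases le_total ‖z - y‖ 33 with h6 | h6
    · nlinarith
    · have h7 : ‖z - y‖ ≤ 240 := by
        linarith [norm_sub_le z y, mem_ball_zero_iff.1 hz]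
      have h8 : 33 ^ 2 ≤ ‖z - y‖ ^ 2 := pow_le_pow_left₀ (by norm_num) h6 2
      have h9 : Wt u p N y z ≤ Real.exp (-1089 * N) * (u z ^ 2 * Real.exp (-2 * dt p z)) := by
        rw [mul_comm, Wt]
        exact mul_le_mul_of_nonneg_left (Real.exp_le_exp.2 (by nlinarith)) (by positivity)
      nlinarith
  have h4 : 240 * Real.exp (-1089 * N) * Real.exp N ≤ Real.exp (-1024 * N) := by
    have h5 : Real.exp (-1024 * N) =
        Real.exp (32 * N) ^ 2 * (Real.exp (-1089 * N) * Real.exp N) := by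
      rw [pow_two, ← Real.exp_add, ← Real.exp_add, ← Real.exp_add]
      congr 1
      ring
    have h6 : 33 ≤ Real.exp (32 * N) := by linarith [Real.add_one_le_exp (32 * N)]
    rw [h5, mul_assoc]
    exact mul_le_mul_of_nonneg_right (by nlinarith) (by positivity)
  have h5 := mul_le_mul_of_nonneg_left h2 (by positivity : 0 ≤ 240 * Real.exp (-1089 * N))
  have h6 := mul_le_mul_of_nonneg_right h4 h.le
  rw [mul_assoc _ (Real.exp N)] at h6
  linarith

theorem Gau2_out {u : ℂ → ℝ} {p c y : ℂ} {N ρ η : ℝ} (hu : Sm u) (hρ : 0 < ρ)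
    (hc : ‖c‖ + ρ ≤ 210) (hη : η ≤ N * ρ ^ 2) (hN : 0 ≤ N)
    (h : η * ∫ z in ball (0 : ℂ) 1, Wt (Af c ρ u) (ρ • (p + N • (c - y))) (N * ρ ^ 2) 0 z ≤
      N * ρ ^ 2 * ∫ z in ball (0 : ℂ) 1,
        ‖z‖ ^ 2 * Wt (Af c ρ u) (ρ • (p + N • (c - y))) (N * ρ ^ 2) 0 z) :
    η * Lm u p N y ≤ N * ∫ z in ball (0 : ℂ) 210, ‖z - c‖ ^ 2 * Wt u p N y z := by
  have hW := Wt_cont hu p N y
  have hW2 : Continuous fun z => ‖z - c‖ ^ 2 * Wt u p N y z := by fun_prop
  have hs : ball c ρ ⊆ ball (0 : ℂ) 210 :=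
    ball_subset_ball' (by rw [dist_zero_right]; linarith)
  have h1 := integral_inter_add_sdiff (t := ball c ρ) measurableSet_ball (Gau2_int hW 0 210)
  have h2 := integral_inter_add_sdiff (t := ball c ρ) measurableSet_ball (Gau2_int hW2 0 210)
  rw [inter_eq_right.2 hs] at h1 h2
  have h3 : η * ∫ z in ball c ρ, Wt u p N y z ≤
      N * ∫ z in ball c ρ, ‖z - c‖ ^ 2 * Wt u p N y z := by
    rw [Gau2_cv _ c hρ, Gau2_cv _ c hρ]
    simp only [Gau2_fac, add_sub_cancel_left, norm_smul, Real.norm_of_nonneg hρ.le, mul_pow,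
      mul_assoc, mul_left_comm _ (Real.exp _), integral_const_mul]
    refine mul_le_mul_of_nonneg_left ?_ (Real.exp_pos _).le
    have h4 := mul_le_mul_of_nonneg_left h (sq_nonneg ρ)
    linarith
  have h4 : η * ∫ z in ball (0 : ℂ) 210 \ ball c ρ, Wt u p N y z ≤
      N * ∫ z in ball (0 : ℂ) 210 \ ball c ρ, ‖z - c‖ ^ 2 * Wt u p N y z := by
    rw [← integral_const_mul, ← integral_const_mul]
    refine setIntegral_mono_on ((Gau2_int (continuous_const.mul hW) _ _).mono_set sdiff_subset)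
      ((Gau2_int (continuous_const.mul hW2) _ _).mono_set sdiff_subset)
      (measurableSet_ball.diff measurableSet_ball) fun z hz => ?_
    have h5 : ρ ≤ ‖z - c‖ := not_lt.1 fun h5 => hz.2 (mem_ball_iff_norm.2 h5)
    have h6 := mul_le_mul_of_nonneg_left (pow_le_pow_left₀ hρ.le h5 2) hN
    rw [← mul_assoc]
    exact mul_le_mul_of_nonneg_right (hη.trans h6) (Wt_nonneg u p N y z)
  rw [Lm, ← h1, ← h2]
  linarith

theorem steep {δ : ℝ} (hδ : 0 < δ) : ∃ K : ℝ, 1 ≤ K ∧ ∀ (u V : ℂ → ℝ) (κ x N : ℝ) (p : ℂ),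
    Sk u V κ x 70 → 0 ≤ κ → 0 < Ms u p 0 2 → nn u p 0 1 ≤ N → x ≤ N → K ≤ N →
    ∀ y : ℂ, ‖y‖ < 30 → ‖gr (Ph u p N) y‖ ≤ 68 * N ∧
      (K * (κ + √N) ≤ ‖p + (1 / 2 : ℝ) • gr (Ph u p N) y‖ → -(δ * N) ≤ Lap (Ph u p N) y) := by
  obtain ⟨N₀, K₀, hN₀, hK₀, H⟩ := unc (δ := δ / 4) (by positivity)
  have hK1 : N₀ ≤ K₀ * N₀ := le_mul_of_one_le_left (by linarith) hK₀
  have hK2 : K₀ ≤ K₀ * N₀ := le_mul_of_one_le_right (by linarith) hN₀
  refine ⟨K₀ * N₀, hN₀.trans hK1, fun u V κ x N p hs hκ hm hn hx hK y hy => ?_⟩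
  have hN1 : 1 ≤ N := by linarith
  have hN : 0 < N := by linarith
  obtain ⟨c, hg, -, hL, hc⟩ := gau hs.hu hm hN y
  have hL0 := Lm_pos hs.hu hm N y
  have hc1 : ‖c - y‖ ≤ 34 :=
    le_of_mul_le_mul_right (hc.trans (Gau2_near hs.hu hm hn hN1 hy)) hL0
  have hc2 : ‖c‖ < 64 := by linarith [norm_sub_norm_le c y]
  refine ⟨?_, fun hb => ?_⟩
  · rw [hg, norm_smul, Real.norm_of_nonneg (by positivity)]
    nlinarith
  rw [hg, smul_smul, show 1 / 2 * (2 * N) = N by ring] at hb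
  set b := p + N • (c - y) with hbd
  obtain ⟨ρ, hρ, hρ2⟩ : ∃ ρ : ℝ, 0 < ρ ∧ N * ρ ^ 2 = N₀ :=
    ⟨√(N₀ / N), by positivity, by rw [Real.sq_sqrt (by positivity)]; field_simp⟩
  have hρ1 : ρ ≤ 1 := by
    refine (pow_le_one_iff_of_nonneg hρ.le two_ne_zero).1 (le_of_mul_le_mul_left ?_ hN)
    linarith
  have hin : ∀ z : ℂ, ‖z‖ < 1 → ‖c + ρ • z‖ < 70 := fun z hz => by
    have h1 := norm_add_le c (ρ • z)
    rw [norm_smul, Real.norm_of_nonneg hρ.le] at h1
    nlinarith [norm_nonneg z]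
  have hsq := Real.sqrt_nonneg N
  have hb1 : K₀ * N₀ * κ ≤ ‖b‖ :=
    le_trans (mul_le_mul_of_nonneg_left (by linarith) (by linarith)) hb
  have hb2 : K₀ * N₀ * √N ≤ ‖b‖ :=
    le_trans (mul_le_mul_of_nonneg_left (by linarith) (by linarith)) hb
  have hρ3 : 1 ≤ ρ * √N := by
    refine (one_le_sq_iff₀ (by positivity)).1 ?_
    rw [mul_pow, Real.sq_sqrt hN.le]
    linarith
  have hnb : ‖ρ • b‖ = ρ * ‖b‖ := by rw [norm_smul, Real.norm_of_nonneg hρ.le]
  have key := H (Af c ρ u) (fun z => ρ ^ 2 * Af c ρ V z) (ρ • b) (smAf hs.hu c ρ)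
    (contDiff_const.mul (smAf hs.hV c ρ)) (fun z hz => by
      rw [Lap_Af hs.hu, hs.eq _ (hin z hz)]
      simp only [Af]
      ring) (by
      rw [hnb]
      have h1 := mul_le_mul_of_nonneg_left hb2 hρ.le
      have h2 := mul_le_mul_of_nonneg_left hρ3 (by linarith : 0 ≤ K₀ * N₀)
      linarith) fun z hz => by
      obtain ⟨h1, h2⟩ := hs.bd _ (hin z hz)
      rw [hnb]
      constructor
      · have h3 : K₀ * κ ^ 2 ≤ ‖b‖ ^ 2 := by
          refine le_trans ?_ (pow_le_pow_left₀ (by positivity) hb1 2)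
          rw [mul_pow]
          exact mul_le_mul_of_nonneg_right (by nlinarith) (sq_nonneg κ)
        have h4 := mul_le_mul_of_nonneg_left h1 (by linarith : 0 ≤ K₀)
        have h5 := mul_le_mul_of_nonneg_left (h4.trans h3) (sq_nonneg ρ)
        simp only [Af, abs_mul, abs_of_nonneg (sq_nonneg ρ)]
        linarith
      · have h3 : gn (fun z => ρ ^ 2 * Af c ρ V z) z = ρ ^ 3 * gn V (c + ρ • z) := by
          simp only [gn, D_cmul (smAf hs.hV c ρ), D_Af hs.hV, abs_mul,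
            abs_of_nonneg (sq_nonneg ρ), abs_of_nonneg hρ.le]
          simp only [Af]
          ring
        have h4 := h2.trans (mul_le_mul_of_nonneg_left hx hκ)
        have h5 := mul_le_mul_of_nonneg_left h4 (by positivity : 0 ≤ K₀ * ρ ^ 3)
        have h6 := mul_le_mul_of_nonneg_left hb1 hρ.le
        rw [h3]
        rw [← hρ2] at h6
        linarith
  rw [← hρ2] at key
  have h1 := Gau2_out hs.hu hρ (by linarith) (by linarith) hN.le key
  have h2 := mul_le_mul_of_nonneg_left h1 (by linarith : 0 ≤ 4 * N)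
  refine le_of_mul_le_mul_right ?_ hL0
  rw [hL]
  linarith

end Pool.Agent.Lib.MP_a52643_an.YS
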