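import Pool.Agent.Lib.MP_a52643_an.YS.Fin

/-!
The sharp bounds on a compact connected surface.
-/

namespace Pool.Agent.Lib.MP_a52643_an.YS

open Complex Filter Topology Metric MeasureTheory Set QS YA
open scoped ContDiff

theorem base3 {X : Type} [TopologicalSpace X] [ChartedSpace ℂ X] [CompactSpace X]
    [PreconnectedSpace X] {σ : X → ℂ → ℝ}
    (hσ : ∀ x, ContDiffOn ℝ ∞ (σ x) (chartAt ℂ x).target) (y : X) (N : Set X)
    (hN : N ∈ 𝓝 y) : ∃ A : ℝ, 0 ≤ A ∧ ∀ φ l, Eig σ φ l → 3 ≤ l → ∃ z ∈ N, ∀ x,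
      |φ x| ≤ Real.exp (A * √l) * |φ z| := by
  have : Nonempty X := ⟨y⟩
  have hY : ∀ l : ℝ, 3 ≤ l → 0 ≤ √l := fun l _ => Real.sqrt_nonneg _
  have mono : ∀ {a A A' l : ℝ} {b : ℝ}, 3 ≤ l → A ≤ A' →
      a ≤ Real.exp (A * √l) * |b| →
      a ≤ Real.exp (A' * √l) * |b| := fun hl hA h =>
    h.trans (mul_le_mul_of_nonneg_right
      (Real.exp_le_exp.2 (mul_le_mul_of_nonneg_right hA (hY _ hl))) (abs_nonneg _))
  obtain ⟨A, H⟩ := QSLoc.chain (ι := {p : (X → ℝ) × ℝ // Eig σ p.1 p.2 ∧ 3 ≤ p.2})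
    (fun N A i => ∃ z ∈ N, ∀ x, |i.1.1 x| ≤
      Real.exp (A * √i.1.2) * |i.1.1 z|)
    (fun N A A' i hA ⟨z, hz, h⟩ => ⟨z, hz, fun x => mono i.2.2 hA (h x)⟩)
    (fun i => by
      obtain ⟨x, -, hx⟩ := isCompact_univ.exists_isMaxOn univ_nonempty
        i.2.1.cont.abs.continuousOn
      exact ⟨x, fun N hN => ⟨x, mem_of_mem_nhds hN, fun x' => by simpa using hx (mem_univ x')⟩⟩)
    (fun x0 => by
      obtain ⟨r', r0, hr⟩ := exists_ball (chartAt ℂ x0).open_target (mem_chart_target ℂ x0)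
      obtain ⟨r, rfl⟩ : ∃ r, r' = 100 * r := ⟨r' / 100, by ring⟩
      have r1 : 0 < r := by linarith
      rw [← mul_assoc, show (3 * 100 : ℝ) = 300 by norm_num] at hr
      obtain ⟨M, M1, HM⟩ := pack2 (chartAt ℂ x0).open_target r1 hr (hσ x0)
      have hE : ∀ φ l, Eig σ φ l → ∀ S, 1 ≤ l → ∃ u V, Sl u V (M * l) 100 ∧
          ∀ z, ‖z‖ < 100 → u z = S * φ ((chartAt ℂ x0).symm (chartAt ℂ x0 x0 + r • z)) :=
        fun φ l h S hl => by
          obtain ⟨u, V, h1, h2⟩ := HM l S _ hl (h.1 x0) (h.2 x0)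
          exact ⟨u, V, h1, fun z hz => (h2 z hz).1⟩
      have hx0 : x0 ∈ (chartAt ℂ x0).source := mem_chart_source ℂ x0
      generalize chartAt ℂ x0 = e at hE hx0
      generalize hc : e x0 = c at hE
      have hVo : IsOpen (e.source ∩ e ⁻¹' ball c r) := e.isOpen_inter_preimage isOpen_ball
      have co : ∀ p ∈ e.source ∩ e ⁻¹' ball c r, ∃ z : ℂ, ‖z‖ ≤ 1 ∧ c + r • z = e p :=
        fun p hp => ⟨r⁻¹ • (e p - c), by
          have : ‖e p - c‖ < r := mem_ball_iff_norm.1 hp.2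
          rw [norm_smul, Real.norm_of_nonneg (by positivity), inv_mul_le_iff₀ r1]
          linarith, by rw [smul_inv_smul₀ r1.ne', add_sub_cancel]⟩
      refine ⟨_, hVo.mem_nhds ⟨hx0, by rw [mem_preimage, hc]; exact mem_ball_self r1⟩,
        fun x hx y hy => ⟨_, hVo.mem_nhds hx, fun Ny hNy A => ?_⟩⟩
      have hpre : e.symm ⁻¹' Ny ∈ 𝓝 (e y) := by
        apply (e.continuousAt_symm (e.map_source hy.1)).preimage_mem_nhds
        rw [e.left_inv hy.1]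
        exact hNy
      obtain ⟨ε, hε, hεN⟩ := Metric.mem_nhds_iff.1 hpre
      obtain ⟨C, C1, HC⟩ := lp1 (ρ := min (ε / (2 * r)) 1) (by positivity)
      obtain ⟨z₁, y1, y2⟩ := co y hy
      refine ⟨C * (|A| + √M), ?_⟩
      rintro ⟨⟨φ, l⟩, i1, i2⟩ ⟨p, hp, h1⟩
      simp only at i1 i2 h1 ⊢
      have h2 := fun x => mono i2 (le_abs_self A) (h1 x)
      have h3 : √(M * l) = √M * √l := Real.sqrt_mul (by linarith) _
      have h4 := hY l i2
      generalize √l = Y at h2 h3 h4 ⊢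
      by_cases h0 : φ p = 0
      · refine ⟨y, mem_of_mem_nhds hNy, fun x => (h2 x).trans ?_⟩
        rw [h0, abs_zero, mul_zero]
        positivity
      obtain ⟨S, hS⟩ : ∃ S, S = Real.exp (|A| * Y) * |φ p| := ⟨_, rfl⟩
      have S0 : 0 < S := by rw [hS]; positivity
      obtain ⟨u, V, u1, u2⟩ := hE φ l i1 S⁻¹ (by linarith)
      have u3 : ∀ z, ‖z‖ < 100 → |u z| = |φ (e.symm (c + r • z))| / S := fun z hz => by
        rw [u2 z hz, abs_mul, abs_of_pos (inv_pos.2 S0), inv_mul_eq_div]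
      obtain ⟨z₀, p1, p2⟩ := co p hp
      obtain ⟨z, z1, z2⟩ := HC u V (M * l) (|A| * Y) z₁ ⟨u1, by nlinarith, by positivity,
        fun z hz => by rw [u3 z hz, div_le_one S0, hS]; exact h2 _, z₀, p1, by
          rw [u3 z₀ (by linarith), p2, e.left_inv hp.1, hS, Real.exp_neg]
          have := abs_pos.2 h0
          exact le_of_eq (by field_simp)⟩ y1
      have z3 : ‖z‖ < 100 := by
        linarith [norm_le_norm_add_norm_sub' z z₁, min_le_right (ε / (2 * r)) 1]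
      refine ⟨e.symm (c + r • z), hεN ?_, fun x => (h2 x).trans ?_⟩
      · rw [mem_ball_iff_norm, ← y2, add_sub_add_left_eq_sub, ← smul_sub, norm_smul,
          Real.norm_of_nonneg r1.le]
        have a1 := mul_le_mul_of_nonneg_left (z1.trans (min_le_left _ _)) r1.le
        rw [show r * (ε / (2 * r)) = ε / 2 by field_simp] at a1
        linarith
      · rw [u3 z z3, le_div_iff₀ S0, Real.exp_neg, inv_mul_le_iff₀ (Real.exp_pos _)] at z2
        rw [← hS]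
        refine z2.trans (mul_le_mul_of_nonneg_right (Real.exp_le_exp.2 ?_) (abs_nonneg _))
        rw [mul_assoc C]
        exact mul_le_mul_of_nonneg_left (by linarith) (by linarith)) y N hN
  refine ⟨|A|, abs_nonneg A, fun φ l h1 h2 => ?_⟩
  obtain ⟨z, hz, h⟩ := H ⟨⟨φ, l⟩, h1, h2⟩
  exact ⟨z, hz, fun x => mono h2 (le_abs_self A) (h x)⟩

theorem glob_loc2 {X : Type} [TopologicalSpace X] [ChartedSpace ℂ X] [CompactSpace X]
    [PreconnectedSpace X] {σ : X → ℂ → ℝ}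
    (hσ : ∀ x, ContDiffOn ℝ ∞ (σ x) (chartAt ℂ x).target) (x : X) {c : ℂ} {r : ℝ} (hr : 0 < r)
    (hc : closedBall c (300 * r) ⊆ (chartAt ℂ x).target) : ∃ C : ℝ, 0 ≤ C ∧
      ∀ φ l, 3 ≤ l → φ ≠ 0 → Eig σ φ l →
        μH[1] {z ∈ closedBall c (r / 2) | φ ((chartAt ℂ x).symm z) = 0} ≤
          ENNReal.ofReal (C * √l) ∧
        ∀ δ, 0 < δ → volume {z ∈ closedBall c (r / 2) | |φ ((chartAt ℂ x).symm z)| ≤
            δ * ‖fderiv ℝ (φ ∘ (chartAt ℂ x).symm) z‖} ≤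
          ENNReal.ofReal (C * δ * √l) := by
  obtain ⟨M, hM, HM⟩ := pack2 (chartAt ℂ x).open_target hr hc (hσ x)
  have hct : c ∈ (chartAt ℂ x).target := hc (mem_closedBall_self (by positivity))
  obtain ⟨A, hA, HA⟩ := base3 hσ ((chartAt ℂ x).symm c)
    ((chartAt ℂ x).source ∩ chartAt ℂ x ⁻¹' ball c r)
    (((chartAt ℂ x).isOpen_inter_preimage isOpen_ball).mem_nhds
      ⟨(chartAt ℂ x).map_target hct, by
        rw [mem_preimage, (chartAt ℂ x).right_inv hct]; exact mem_ball_self hr⟩)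
  obtain ⟨C0, hC0, H0⟩ := loc_sharp
  obtain ⟨C1, hC1, H1⟩ : ∃ C : ℝ, 0 ≤ C ∧ ∀ l : ℝ, 3 ≤ l → A * √l + √(M * l) ≤ C * √l :=
    ⟨A + √M, by positivity, fun l _ => by
      rw [Real.sqrt_mul (by linarith)]; exact le_of_eq (by ring)⟩
  refine ⟨r * (C0 * C1), by positivity, fun φ l hl h0 h => ?_⟩
  obtain ⟨p, ⟨p1, p2⟩, p3⟩ := HA φ l h hl
  have H2 := H1 l hl
  obtain ⟨Y, hY⟩ : ∃ Y, Y = A * √l := ⟨_, rfl⟩
  have Y0 : 0 ≤ Y := by rw [hY]; positivity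
  rw [← hY] at H2 p3
  have q0 : 0 < |φ p| := by
    refine abs_pos.2 fun k => h0 (funext fun y => ?_)
    have := p3 y
    rw [k, abs_zero, mul_zero] at this
    exact abs_nonpos_iff.1 this
  obtain ⟨S, hS⟩ : ∃ S, S = 1 / (Real.exp Y * |φ p|) := ⟨_, rfl⟩
  have E0 := Real.exp_pos Y
  have S0 : 0 < S := by rw [hS]; positivity
  obtain ⟨u, V, hsl, hu⟩ := HM l S (φ ∘ (chartAt ℂ x).symm) (by linarith) (h.1 x) (h.2 x)
  have back : ∀ z : ℂ, c + r • (r⁻¹ • (z - c)) = z := fun z => by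
    rw [smul_inv_smul₀ hr.ne', add_sub_cancel]
  have nb : ∀ (z : ℂ) (t : ℝ), ‖z - c‖ ≤ r * t → ‖r⁻¹ • (z - c)‖ ≤ t := fun z t hz => by
    rw [norm_smul, Real.norm_of_nonneg (by positivity), inv_mul_le_iff₀ hr]
    exact hz
  have hN : Nm u V (M * l) Y := by
    refine ⟨hsl, by nlinarith, Y0, fun z hz => ?_, ?_⟩
    · rw [(hu z hz).1, abs_mul, abs_of_pos S0, hS, one_div, inv_mul_le_iff₀ (by positivity),
        mul_one]
      exact p3 _
    · have a1 : ‖r⁻¹ • (chartAt ℂ x p - c)‖ ≤ 1 :=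
        nb _ 1 (by rw [mul_one]; exact (mem_ball_iff_norm.1 p2).le)
      refine ⟨_, a1, le_of_eq ?_⟩
      rw [(hu _ (by linarith)).1, back, Function.comp_apply, (chartAt ℂ x).left_inv p1, abs_mul,
        abs_of_pos S0, hS, Real.exp_neg]
      field_simp
  obtain ⟨G1, G2⟩ := H0 u V (M * l) Y hN
  obtain ⟨B, hB⟩ : ∃ B, B = Y + √(M * l) := ⟨_, rfl⟩
  rw [← hB] at H2 G1 G2
  have H3 : C0 * B ≤ C0 * (C1 * √l) :=
    mul_le_mul_of_nonneg_left H2 (by linarith)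
  refine ⟨?_, fun δ hδ => ?_⟩
  · refine (measure_mono (t := (fun w : ℂ => c + r • w) '' {z : ℂ | ‖z‖ ≤ 1 / 2 ∧ u z = 0})
      fun z hz => ?_).trans ((glob_len c hr _).trans ?_)
    · have a1 : ‖r⁻¹ • (z - c)‖ ≤ 1 / 2 :=
        nb _ _ ((mem_closedBall_iff_norm.1 hz.1).trans (by linarith))
      refine ⟨r⁻¹ • (z - c), ⟨a1, ?_⟩, back z⟩
      rw [(hu _ (by linarith)).1, back, Function.comp_apply, hz.2, mul_zero]
    · refine (mul_le_mul_right G1 _).trans ?_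
      rw [← ENNReal.ofReal_mul hr.le]
      refine ENNReal.ofReal_le_ofReal ?_
      calc _ ≤ r * (C0 * (C1 * √l)) := mul_le_mul_of_nonneg_left H3 hr.le
        _ = _ := by ring
  · refine (measure_mono (t := (fun w : ℂ => c + r • w) ''
      {z : ℂ | ‖z‖ ≤ 1 / 2 ∧ u z ^ 2 ≤ (δ / r) ^ 2 * Gr u z}) fun z hz => ?_).trans ?_
    · have a1 : ‖r⁻¹ • (z - c)‖ ≤ 1 / 2 :=
        nb _ _ ((mem_closedBall_iff_norm.1 hz.1).trans (by linarith))
      refine ⟨r⁻¹ • (z - c), ⟨a1, ?_⟩, back z⟩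
      obtain ⟨a2, a3⟩ := hu (r⁻¹ • (z - c)) (by linarith)
      rw [back] at a2 a3
      have a4 := pow_le_pow_left₀ (abs_nonneg _) hz.2 2
      rw [sq_abs] at a4
      rw [a2, Function.comp_apply]
      calc _ = S ^ 2 * φ ((chartAt ℂ x).symm z) ^ 2 := by ring
        _ ≤ S ^ 2 * (δ * ‖fderiv ℝ (φ ∘ (chartAt ℂ x).symm) z‖) ^ 2 :=
          mul_le_mul_of_nonneg_left a4 (sq_nonneg _)
        _ = (δ / r) ^ 2 * ((S * r) ^ 2 * ‖fderiv ℝ (φ ∘ (chartAt ℂ x).symm) z‖ ^ 2) := by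
          field_simp
        _ ≤ _ := mul_le_mul_of_nonneg_left a3 (sq_nonneg _)
    · rw [glob_vol c hr]
      refine (mul_le_mul_right (G2 (δ / r) (by positivity)) _).trans ?_
      rw [← ENNReal.ofReal_mul (by positivity)]
      refine ENNReal.ofReal_le_ofReal ?_
      calc _ = r * δ * (C0 * B) := by field_simp
        _ ≤ r * δ * (C0 * (C1 * √l)) :=
          mul_le_mul_of_nonneg_left H3 (by positivity)
        _ = _ := by ring

theorem main4 {X : Type} [TopologicalSpace X] [ChartedSpace ℂ X] [CompactSpace X]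
    [PreconnectedSpace X] {σ : X → ℂ → ℝ}
    (hσ : ∀ x, ContDiffOn ℝ ∞ (σ x) (chartAt ℂ x).target) (x : X) (K : Set ℂ)
    (hK : IsCompact K) (hKx : K ⊆ (chartAt ℂ x).target) : ∃ C : ℝ, 0 ≤ C ∧
      ∀ φ l, 3 ≤ l → φ ≠ 0 → Eig σ φ l →
        μH[1] {z ∈ K | φ ((chartAt ℂ x).symm z) = 0} ≤ ENNReal.ofReal (C * √l) ∧
        ∀ δ, 0 < δ → volume {z ∈ K | |φ ((chartAt ℂ x).symm z)| ≤
            δ * ‖fderiv ℝ (φ ∘ (chartAt ℂ x).symm) z‖} ≤ ENNReal.ofReal (C * δ * √l) := by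
  refine hK.induction_on (p := fun K => ∃ C : ℝ, 0 ≤ C ∧
      ∀ φ l, 3 ≤ l → φ ≠ 0 → Eig σ φ l →
        μH[1] {z ∈ K | φ ((chartAt ℂ x).symm z) = 0} ≤
          ENNReal.ofReal (C * √l) ∧
        ∀ δ, 0 < δ → volume {z ∈ K | |φ ((chartAt ℂ x).symm z)| ≤
            δ * ‖fderiv ℝ (φ ∘ (chartAt ℂ x).symm) z‖} ≤
          ENNReal.ofReal (C * δ * √l)) ?_ ?_ ?_ ?_
  · exact ⟨0, le_rfl, fun φ l _ _ _ => ⟨by simp, fun δ _ => by simp⟩⟩
  · rintro s t hst ⟨C, hC, H⟩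
    refine ⟨C, hC, fun φ l hl h0 h => ?_⟩
    obtain ⟨a1, a2⟩ := H φ l hl h0 h
    exact ⟨glob_mono _ hst a1, fun δ hδ => glob_mono _ hst (a2 δ hδ)⟩
  · rintro s t ⟨C, hC, H⟩ ⟨C', hC', H'⟩
    refine ⟨C + C', by positivity, fun φ l hl h0 h => ?_⟩
    obtain ⟨a1, a2⟩ := H φ l hl h0 h
    obtain ⟨b1, b2⟩ := H' φ l hl h0 h
    refine ⟨?_, fun δ hδ => ?_⟩
    · rw [add_mul]
      exact glob_union _ (by positivity) (by positivity) a1 b1
    · rw [add_mul, add_mul]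
      exact glob_union _ (by positivity) (by positivity) (a2 δ hδ) (b2 δ hδ)
  · intro c hc
    obtain ⟨r, r0, hr⟩ := exists_ball (chartAt ℂ x).open_target (hKx hc)
    refine ⟨closedBall c (r / 100 / 2),
      mem_nhdsWithin_of_mem_nhds (closedBall_mem_nhds c (by positivity)), ?_⟩
    exact glob_loc2 hσ x (by positivity)
      ((closedBall_subset_closedBall (by linarith)).trans hr)

theorem main5 {X : Type} [MetricSpace X] [MeasurableSpace X] [BorelSpace X] [ChartedSpace ℂ X]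
    [CompactSpace X] [PreconnectedSpace X] {σ : X → ℂ → ℝ}
    (hσ : ∀ x, ContDiffOn ℝ ∞ (σ x) (chartAt ℂ x).target)
    (hL : ∀ x : X, LocallyLipschitzOn (chartAt ℂ x).target (chartAt ℂ x).symm) :
    ∃ C : ℝ, 0 ≤ C ∧ ∀ φ l, 3 ≤ l → φ ≠ 0 → Eig σ φ l →
      μH[1] {p | φ p = 0} ≤ ENNReal.ofReal (C * √l) := by
  have key : ∃ C : ℝ, 0 ≤ C ∧ ∀ φ l, 3 ≤ l → φ ≠ 0 → Eig σ φ l →
      μH[1] {p ∈ (univ : Set X) | φ p = 0} ≤ ENNReal.ofReal (C * √l) := by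
    refine isCompact_univ.induction_on (p := fun s : Set X => ∃ C : ℝ, 0 ≤ C ∧
      ∀ φ l, 3 ≤ l → φ ≠ 0 → Eig σ φ l →
        μH[1] {p ∈ s | φ p = 0} ≤ ENNReal.ofReal (C * √l)) ?_ ?_ ?_ ?_
    · exact ⟨0, le_rfl, fun φ l _ _ _ => by simp⟩
    · rintro s t hst ⟨C, hC, H⟩
      exact ⟨C, hC, fun φ l hl h0 h => glob_mono _ hst (H φ l hl h0 h)⟩
    · rintro s t ⟨C, hC, H⟩ ⟨C', hC', H'⟩
      refine ⟨C + C', by positivity, fun φ l hl h0 h => ?_⟩
      rw [add_mul]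
      exact glob_union _ (by positivity) (by positivity) (H φ l hl h0 h) (H' φ l hl h0 h)
    · intro x _
      obtain ⟨K, t, ht, hK⟩ := hL x (mem_chart_target ℂ x)
      have h1 : (chartAt ℂ x).target ∈ 𝓝 (chartAt ℂ x x) := chart_target_mem_nhds ℂ x
      rw [nhdsWithin_eq_nhds.2 h1] at ht
      obtain ⟨ρ, ρ0, hρ⟩ := Metric.nhds_basis_closedBall.mem_iff.1 (inter_mem ht h1)
      obtain ⟨C, hC, H⟩ := main4 hσ x (closedBall (chartAt ℂ x x) ρ) (isCompact_closedBall _ _)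
        (hρ.trans inter_subset_right)
      refine ⟨(chartAt ℂ x).source ∩ chartAt ℂ x ⁻¹' ball (chartAt ℂ x x) ρ,
        mem_nhdsWithin_of_mem_nhds (((chartAt ℂ x).isOpen_inter_preimage isOpen_ball).mem_nhds
          ⟨mem_chart_source ℂ x, mem_ball_self ρ0⟩), K * C, by positivity,
        fun φ l hl h0 h => ?_⟩
      have a1 := (hK.mono (s := {z ∈ closedBall (chartAt ℂ x x) ρ | φ ((chartAt ℂ x).symm z) = 0})
        fun z hz => (hρ hz.1).1).hausdorffMeasure_image_le (d := 1) zero_le_one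
      rw [ENNReal.rpow_one] at a1
      refine (measure_mono fun p hp => ?_).trans (a1.trans ?_)
      · refine ⟨chartAt ℂ x p, ⟨ball_subset_closedBall hp.1.2, ?_⟩, (chartAt ℂ x).left_inv hp.1.1⟩
        rw [(chartAt ℂ x).left_inv hp.1.1]
        exact hp.2
      · refine (mul_le_mul_right (H φ l hl h0 h).1 _).trans (le_of_eq ?_)
        rw [mul_assoc, ENNReal.ofReal_mul K.coe_nonneg, ENNReal.ofReal_coe_nnreal]
  obtain ⟨C, hC, H⟩ := key
  exact ⟨C, hC, fun φ l hl h0 h => by simpa using H φ l hl h0 h⟩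

end Pool.Agent.Lib.MP_a52643_an.YS
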