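import Pool.Agent.Lib.MP_a52643_an.YS.Step

/-!
The sharp propagation of smallness.
-/

namespace Pool.Agent.Lib.MP_a52643_an.YS

open Complex Filter Topology Metric MeasureTheory Set QS YA
open scoped ContDiff

private theorem inst1_Ms (u : ℂ → ℝ) (z : ℂ) (r : ℝ) :
    Ms u 0 z r = ∫ w in ball z r, u w ^ 2 := by
  simp [Ms, dt]

private theorem inst1_vol (z : ℂ) {r : ℝ} (hr : 0 ≤ r) :
    volume.real (ball z r) = r ^ 2 * Real.pi := by
  simp [Measure.real, hr]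

private theorem inst1_up {u : ℂ → ℝ} (hu : Sm u) {z : ℂ} {r b : ℝ} (hr : 0 ≤ r)
    (h : ∀ w, ‖w - z‖ < r → |u w| ≤ b) : Ms u 0 z r ≤ b ^ 2 * (4 * r ^ 2) := by
  have c0 := hu.continuous
  have h1 := setIntegral_mono_on (μ := volume) (intB (F := fun w => u w ^ 2) (by fun_prop) z r)
    (intB (F := fun _ => b ^ 2) continuous_const z r) measurableSet_ball fun w hw => by
      rw [← sq_abs (u w)]
      exact pow_le_pow_left₀ (abs_nonneg _) (h w (mem_ball_iff_norm.1 hw)) 2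
  rw [setIntegral_const, inst1_vol z hr, smul_eq_mul] at h1
  rw [inst1_Ms]
  have := mul_le_mul_of_nonneg_left Real.pi_le_four (mul_nonneg (sq_nonneg r) (sq_nonneg b))
  linarith

private theorem inst1_low {u : ℂ → ℝ} (hu : Sm u) {z : ℂ} {r b : ℝ} (hr : 0 ≤ r) (hb : 0 ≤ b)
    (h : ∀ w, ‖w - z‖ < r → b ≤ |u w|) : b ^ 2 * r ^ 2 ≤ Ms u 0 z r := by
  have c0 := hu.continuous
  have h1 := setIntegral_mono_on (μ := volume) (intB (F := fun _ => b ^ 2) continuous_const z r)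
    (intB (F := fun w => u w ^ 2) (by fun_prop) z r) measurableSet_ball fun w hw => by
      rw [← sq_abs (u w)]
      exact pow_le_pow_left₀ hb (h w (mem_ball_iff_norm.1 hw)) 2
  rw [setIntegral_const, inst1_vol z hr, smul_eq_mul] at h1
  rw [inst1_Ms]
  have := mul_le_mul_of_nonneg_left Real.two_le_pi (mul_nonneg (sq_nonneg r) (sq_nonneg b))
  have := mul_nonneg (sq_nonneg r) (sq_nonneg b)
  linarith

private theorem inst1_sqrt {l : ℝ} (hl : 3 ≤ l) : 1 ≤ √l :=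
  Real.one_le_sqrt.2 (by linarith)

private theorem inst1_mass : ∃ B : ℝ, 1 ≤ B ∧ ∀ (u V : ℂ → ℝ) (l A : ℝ) (z : ℂ), Nm u V l A →
    ‖z‖ ≤ 1 → Real.exp (-A) ≤ |u z| → Real.exp (-(B * (A + √l))) ≤ Ms u 0 z (1 / 3 * 2) := by
  obtain ⟨C, hC, hg⟩ := grad_est
  refine ⟨68 + 2 * C, by linarith, fun u V l A z h hz ha => ?_⟩
  have hu := h.sl.hu
  have hl := h.hl
  have hA := h.hA
  have hs := inst1_sqrt hl
  set a := Real.exp (-A) with ha'
  have a0 : 0 < a := Real.exp_pos _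
  have a1 : a ≤ 1 := Real.exp_le_one_iff.2 (by linarith)
  set L := Real.exp (C + 2 * √l) with hL
  have L1 : C * (1 + l) ≤ L := by
    have e1 := Real.add_one_le_exp C
    have e2 := Real.add_one_le_exp √l
    have e3 : 1 + l ≤ Real.exp √l * Real.exp √l := by
      nlinarith [Real.mul_self_sqrt (show 0 ≤ l by linarith)]
    rw [hL, two_mul, Real.exp_add, Real.exp_add]
    exact mul_le_mul (by linarith) e3 (by linarith) (Real.exp_pos _).le
  have L0 : 1 ≤ L := by nlinarith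
  set r := a / (4 * L) with hr
  have r0 : 0 < r := by positivity
  have r1 : r ≤ 1 / 4 := by
    rw [hr, div_le_iff₀ (by positivity)]
    linarith
  have hG : ∀ s, ‖s - z‖ ≤ r → |D 1 u s| ≤ L ∧ |D I u s| ≤ L := fun s hs' => by
    have := hg u s 1 1 l hu one_pos fun y hy => by
      have y1 : ‖y‖ < 100 := by
        have := loc1_norm hy
        have := loc1_norm hs'
        linarith
      refine ⟨h.le y y1, ?_⟩
      rw [h.sl.eq y y1, abs_neg, abs_mul]
      exact (mul_le_mul (h.sl.bd y y1).1 (h.le y y1) (abs_nonneg _) (by linarith)).trans_eq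
        (mul_one l)
    rw [div_one, one_mul, gn] at this
    constructor <;> linarith [abs_nonneg (D 1 u s), abs_nonneg (D I u s)]
  have h1 := inst1_low hu (z := z) (b := a / 2) r0.le (by positivity) fun w hw => by
    have e1 := sub_le hu hG hw.le
    have e2 : 2 * r * L = a / 2 := by
      rw [hr]
      field_simp
      ring
    have e3 := abs_sub_abs_le_abs_sub (u z) (u w)
    rw [abs_sub_comm] at e3
    linarith
  have h2 := Ms_mono hu 0 (a := z) (c := z) (r := r) (s := 1 / 3 * 2) (by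
    rw [sub_self, norm_zero]; linarith)
  refine le_trans ?_ (h1.trans h2)
  have e1 : (a / 2) ^ 2 * r ^ 2 = Real.exp (-(4 * A + 2 * (C + 2 * √l))) / 64 := by
    have e2 : Real.exp (-(4 * A + 2 * (C + 2 * √l))) = a ^ 4 / L ^ 2 := by
      rw [ha', hL, ← Real.exp_nat_mul, ← Real.exp_nat_mul, ← Real.exp_sub]
      congr 1
      push_cast
      ring
    rw [e2, hr]
    field_simp
    ring
  rw [e1, le_div_iff₀ (by norm_num)]
  have e3 : (64 : ℝ) ≤ Real.exp 64 := by linarith [Real.add_one_le_exp 64]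
  refine (mul_le_mul_of_nonneg_left e3 (Real.exp_pos _).le).trans ?_
  rw [← Real.exp_add, Real.exp_le_exp]
  nlinarith

theorem lp0 {ρ : ℝ} (hρ : 0 < ρ) : ∃ C : ℝ, 1 ≤ C ∧ ∀ (u V : ℂ → ℝ) (l A : ℝ) (y : ℂ),
    Nm u V l A → ‖y‖ ≤ 1 → Real.exp (-(C * (A + √l))) ≤ Ms u 0 y ρ := by
  obtain ⟨B, hB, hm⟩ := inst1_mass
  obtain ⟨C, -, hst⟩ := step
  obtain ⟨c₁, θ, m₀, -, -, hst⟩ := hst 9
  obtain ⟨n, hn⟩ := exists_pow_lt_of_lt_one hρ (show (1 / 2 : ℝ) < 1 by norm_num)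
  obtain ⟨T, K, hT, hK, hst⟩ := hst (n + 9) 1 (by omega) one_pos
  set B2 := 176400 + B + K + 2 * T with hB2
  have B20 : 0 ≤ T * B2 := by positivity
  refine ⟨T * B2 + B + 9, by linarith, fun u V l A y h hy => ?_⟩
  obtain ⟨z, hz, ha⟩ := h.ex
  have hu := h.sl.hu
  have hl := h.hl
  have hA := h.hA
  have hs := inst1_sqrt hl
  have s0 : (0 : ℝ) < 1 / 3 := by norm_num
  have hk := sk_Af (c := z) (k := √l) (R' := 70) h.sl
    (Real.sq_sqrt (by linarith)).ge s0 (by linarith)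
  have sU := hk.hu
  have e1 := fun y r => Ms_Af s0 u 0 z y r
  simp only [smul_zero, dt, zero_re, zero_im, zero_mul, add_zero, mul_zero, Real.exp_zero,
    one_mul] at e1
  set U := Af z (1 / 3) u with hU
  set Y := A + √l with hY
  have Y1 : 1 ≤ Y := by linarith
  have m1 := hm u V l A z h hz ha
  have m2 : Real.exp (-(B * Y)) ≤ Ms U 0 0 2 := by
    have e2 := e1 0 2
    rw [smul_zero, add_zero] at e2
    have := Ms_nonneg U 0 0 2
    linarith
  have m3 : 0 < Ms U 0 0 2 := (Real.exp_pos _).trans_le m2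
  have m4 : Ms U 0 0 2 ≤ Ms U 0 0 210 := Ms_mono sU 0 (by norm_num)
  have m5 : Ms U 0 0 210 ≤ 1 ^ 2 * (4 * 210 ^ 2) := inst1_up sU (by norm_num) fun w hw => by
    refine h.le _ ?_
    have := norm_add_le z ((1 / 3 : ℝ) • w)
    rw [norm_smul, Real.norm_of_nonneg s0.le] at this
    rw [sub_zero] at hw
    linarith
  have q1 : 0 ≤ K * Y := by positivity
  have q2 : 0 ≤ T * Y := by positivity
  have q3 : 0 ≤ B * Y := by positivity
  have n1 : nn U 0 0 1 ≤ B2 * Y := by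
    have a1 := Real.log_le_sub_one_of_pos (m3.trans_le m4)
    have a2 := Real.log_le_log (Real.exp_pos _) m2
    rw [Real.log_exp] at a2
    rw [nn, mul_one, mul_one, hB2]
    linarith
  have n2 : T * (1 + √l * (1 / 3) ^ 2) ≤ B2 * Y := by
    have := mul_le_mul_of_nonneg_left (show 1 + √l * (1 / 3) ^ 2 ≤ 2 * Y by linarith)
      (show 0 ≤ T by linarith)
    rw [hB2]
    linarith
  have n3 : K * (√l * (1 / 3)) ≤ B2 * Y := by
    have := mul_le_mul_of_nonneg_left (show √l * (1 / 3) ≤ Y by linarith)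
      (show 0 ≤ K by linarith)
    rw [hB2]
    linarith
  have h1 := (hst U _ _ _ (B2 * Y) 0 hk (by positivity) (by positivity) m3 n1 n2 (Or.inl n3)).1
    ((3 : ℝ) • (y - z)) (by
      have := norm_sub_le y z
      rw [norm_smul, Real.norm_of_nonneg (by norm_num)]
      linarith)
  have e2 := e1 ((3 : ℝ) • (y - z)) (2 / 2 ^ (n + 9))
  rw [smul_smul, show (1 / 3 : ℝ) * 3 = 1 by norm_num, one_smul, add_sub_cancel] at e2
  have h2 := Ms_mono hu 0 (a := y) (c := y) (r := 1 / 3 * (2 / 2 ^ (n + 9))) (s := ρ) (by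
    rw [sub_self, norm_zero, zero_add, pow_add]
    rw [one_div_pow] at hn
    have e3 : (1 / 3 : ℝ) * (2 / (2 ^ n * 2 ^ 9)) = 1 / 2 ^ n * (1 / 768) := by
      field_simp
      norm_num
    have : (0 : ℝ) < 1 / 2 ^ n := by positivity
    rw [e3]
    linarith)
  have h3 := mul_le_mul_of_nonneg_left (m2.trans m4) (Real.exp_pos (-(T * (B2 * Y)))).le
  rw [← Real.exp_add] at h3
  have e4 : Real.exp (-((T * B2 + B + 9) * Y)) * Real.exp (9 * Y) =
      Real.exp (-(T * (B2 * Y)) + -(B * Y)) := by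
    rw [← Real.exp_add]
    congr 1
    ring
  have e5 : 9 ≤ Real.exp (9 * Y) := by linarith [Real.add_one_le_exp (9 * Y)]
  have e6 := mul_le_mul_of_nonneg_left e5 (Real.exp_pos (-((T * B2 + B + 9) * Y))).le
  linarith

theorem lp1 {ρ : ℝ} (hρ : 0 < ρ) : ∃ C : ℝ, 1 ≤ C ∧ ∀ (u V : ℂ → ℝ) (l A : ℝ) (z₁ : ℂ),
    Nm u V l A → ‖z₁‖ ≤ 1 → ∃ z, ‖z - z₁‖ ≤ ρ ∧ Real.exp (-(C * (A + √l))) ≤ |u z| := by
  obtain ⟨C, hC, h0⟩ := lp0 hρ
  refine ⟨C + 4 * ρ ^ 2, by nlinarith [sq_nonneg ρ], fun u V l A z₁ h hz => ?_⟩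
  by_contra hn
  simp only [not_exists, not_and, not_le] at hn
  have h1 := h0 u V l A z₁ h hz
  have h2 := inst1_up h.sl.hu hρ.le fun w hw => (hn w hw.le).le
  have hs := inst1_sqrt h.hl
  have hA := h.hA
  set Y := A + √l
  have Y1 : 1 ≤ Y := by linarith
  have e1 : 4 * ρ ^ 2 < Real.exp (4 * ρ ^ 2) := by linarith [Real.add_one_le_exp (4 * ρ ^ 2)]
  have e2 := mul_lt_mul_of_pos_left e1 (pow_pos (Real.exp_pos (-((C + 4 * ρ ^ 2) * Y))) 2)
  have e3 := (h1.trans h2).trans_lt e2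
  rw [← Real.exp_nat_mul, ← Real.exp_add, Real.exp_lt_exp] at e3
  push_cast at e3
  nlinarith [mul_nonneg (sq_nonneg ρ) (sub_nonneg.2 Y1), sq_nonneg ρ]

theorem nm_pos {u V : ℂ → ℝ} {l A r : ℝ} {y : ℂ} (h : Nm u V l A) (hy : ‖y‖ ≤ 1) (hr : 0 < r)
    (p : ℂ) : 0 < Ms u p y r := by
  obtain ⟨C, -, h0⟩ := lp0 hr
  exact Ms_pos h.sl.hu ((Real.exp_pos _).trans_le (h0 u V l A y h hy)) p

end Pool.Agent.Lib.MP_a52643_an.YS
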