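import Pool.Agent.Lib.MP_a52643_an.YS.Defs

/-!
Geometry of the tree.
-/

namespace Pool.Agent.Lib.MP_a52643_an.YS

open Finset
open scoped Classical

variable {M : ℕ} {i y : ℤ × ℤ}

private theorem Tree1_pos (hM : 1 ≤ M) (r : ℕ) : (0 : ℤ) < (M : ℤ) ^ r :=
  pow_pos (by exact_mod_cast hM) r

private theorem Tree1_div_eq {N a b : ℤ} (hN : 0 < N) :
    b / N = a ↔ N * a ≤ b ∧ b < N * a + N := by
  constructor
  · rintro rfl
    have h1 := Int.emod_add_mul_ediv b N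
    have h2 := Int.emod_nonneg b hN.ne'
    have h3 := Int.emod_lt_of_pos b hN
    constructor <;> linarith
  · rintro ⟨h1, h2⟩
    have h3 : a ≤ b / N := (Int.le_ediv_iff_mul_le hN).2 (by linarith)
    have h4 : b / N < a + 1 := (Int.ediv_lt_iff_lt_mul hN).2 (by linarith)
    omega

private theorem Tree1_div_le {N a b D : ℤ} (hN : 0 < N) (h : a ≤ b + D * N) :
    a / N ≤ b / N + D := by
  have h1 := Int.ediv_le_ediv hN h
  rwa [Int.add_mul_ediv_right _ _ hN.ne'] at h1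

private theorem Tree1_abs_div {N a b D : ℤ} (hN : 0 < N) (h : |a - b| ≤ D * N) :
    |a / N - b / N| ≤ D := by
  obtain ⟨h1, h2⟩ := abs_le.1 h
  have h3 : a / N ≤ b / N + D := Tree1_div_le hN (by linarith)
  have h4 : b / N ≤ a / N + D := Tree1_div_le hN (by linarith)
  exact abs_le.2 ⟨by linarith, by linarith⟩

private theorem Tree1_mem_bx {R : ℤ} :
    y ∈ bx R ↔ (-R ≤ y.1 ∧ y.1 < R) ∧ (-R ≤ y.2 ∧ y.2 < R) := by
  simp only [bx, Finset.mem_product, Finset.mem_Ico]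

private theorem Tree1_bx1 {N R a : ℤ} (hN : 0 < N) :
    (-R ≤ a / N ∧ a / N < R) ↔ (-(R * N) ≤ a ∧ a < R * N) := by
  rw [Int.le_ediv_iff_mul_le hN, Int.ediv_lt_iff_lt_mul hN, neg_mul]

private theorem Tree1_bx2 {N R a b : ℤ} (hN : 0 < N) (h0 : -R ≤ b ∧ b < R)
    (h : |a / N - b / N| ≤ 4) : -(R + 5 * N) ≤ a ∧ a < R + 5 * N := by
  obtain ⟨h1, h2⟩ := abs_le.1 h
  obtain ⟨h3, h4⟩ := (Tree1_div_eq (a := a / N) (b := a) hN).1 rfl
  obtain ⟨h5, h6⟩ := (Tree1_div_eq (a := b / N) (b := b) hN).1 rfl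
  have h7 : N * (a / N) ≤ N * (b / N + 4) := mul_le_mul_of_nonneg_left (by linarith) hN.le
  have h8 : N * (b / N - 4) ≤ N * (a / N) := mul_le_mul_of_nonneg_left (by linarith) hN.le
  obtain ⟨h9, h10⟩ := h0
  constructor <;> nlinarith

theorem mem_kids (hM : 1 ≤ M) (r : ℕ) : y ∈ kids M r i ↔ up M r y = i := by
  have hN := Tree1_pos hM r
  simp only [kids, up, Finset.mem_product, Finset.mem_Ico, Prod.ext_iff, Tree1_div_eq hN]

theorem card_kids (M r : ℕ) (i : ℤ × ℤ) : ((kids M r i).card : ℝ) = (M : ℝ) ^ (2 * r) := by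
  have h : ((M : ℤ) ^ r).toNat = M ^ r := by
    rw [← Nat.cast_pow, Int.toNat_natCast]
  simp only [kids, Finset.card_product, Int.card_Ico, add_sub_cancel_left, h]
  push_cast
  ring

theorem up_zero (M : ℕ) (i : ℤ × ℤ) : up M 0 i = i := by
  simp [up]

theorem up_up (hM : 1 ≤ M) (r s : ℕ) (y : ℤ × ℤ) : up M r (up M s y) = up M (r + s) y := by
  have hN := Tree1_pos hM s
  simp only [up, Int.ediv_ediv_of_nonneg hN.le, pow_add, mul_comm]

theorem sum_kids (hM : 1 ≤ M) (r : ℕ) (i : ℤ × ℤ) (F : ℤ × ℤ → ℝ) :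
    ∑ y ∈ kids M (r + 1) i, F y = ∑ i' ∈ kids M 1 i, ∑ y ∈ kids M r i', F y := by
  have hmap : ∀ y ∈ kids M (r + 1) i, up M r y ∈ kids M 1 i := by
    intro y hy
    rw [mem_kids hM] at hy ⊢
    rw [up_up hM, add_comm, hy]
  rw [← Finset.sum_fiberwise_of_maps_to hmap]
  refine Finset.sum_congr rfl fun i' hi' => Finset.sum_congr ?_ fun _ _ => rfl
  ext y
  rw [Finset.mem_filter, mem_kids hM, mem_kids hM]
  refine ⟨fun h => h.2, fun h => ⟨?_, h⟩⟩
  rw [mem_kids hM] at hi'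
  rw [add_comm, ← up_up hM, h, hi']

theorem up_mem_bx (hM : 1 ≤ M) (r : ℕ) (R : ℤ) :
    up M r y ∈ bx R ↔ y ∈ bx (R * (M : ℤ) ^ r) := by
  have hN := Tree1_pos hM r
  rw [Tree1_mem_bx, Tree1_mem_bx]
  simp only [up, Tree1_bx1 hN]

theorem bx_mono {R R' : ℤ} (h : R ≤ R') : bx R ⊆ bx R' := by
  intro y hy
  rw [Tree1_mem_bx] at hy ⊢
  omega

theorem near_up (hM : 1 ≤ M) {D : ℤ} (h : near D i y) (r : ℕ) :
    near D (up M r i) (up M r y) := by
  have hN := Tree1_pos hM r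
  have hD : 0 ≤ D := (abs_nonneg _).trans h.1
  have hle : D ≤ D * (M : ℤ) ^ r := le_mul_of_one_le_right hD hN
  exact ⟨Tree1_abs_div hN (h.1.trans hle), Tree1_abs_div hN (h.2.trans hle)⟩

theorem near_up_sc (hM : 1 ≤ M) {D : ℤ} (r : ℕ) (h : near (D * (M : ℤ) ^ r) y (sc M r i)) :
    near D (up M r y) i := by
  have hN := Tree1_pos hM r
  have h1 := Tree1_abs_div hN h.1
  have h2 := Tree1_abs_div hN h.2
  simp only [sc, Int.mul_ediv_cancel_left _ hN.ne'] at h1 h2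
  exact ⟨h1, h2⟩

theorem near_sc_up (hM : 1 ≤ M) (y : ℤ × ℤ) : near M y (sc M 1 (up M 1 y)) := by
  have hN : (0 : ℤ) < M := by exact_mod_cast hM
  obtain ⟨h1, h2⟩ := (Tree1_div_eq (a := y.1 / M) (b := y.1) hN).1 rfl
  obtain ⟨h3, h4⟩ := (Tree1_div_eq (a := y.2 / M) (b := y.2) hN).1 rfl
  simp only [near, sc, up, pow_one]
  exact ⟨abs_le.2 ⟨by linarith, by linarith⟩, abs_le.2 ⟨by linarith, by linarith⟩⟩

theorem near_sc {D : ℤ} (h : near D i y) (M r : ℕ) :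
    near (D * (M : ℤ) ^ r) (sc M r i) (sc M r y) := by
  have hN : (0 : ℤ) ≤ (M : ℤ) ^ r := by positivity
  simp only [near, sc, ← mul_sub, abs_mul, abs_of_nonneg hN, mul_comm D]
  exact ⟨mul_le_mul_of_nonneg_left h.1 hN, mul_le_mul_of_nonneg_left h.2 hN⟩

theorem sc_sc (M r s : ℕ) (i : ℤ × ℤ) : sc M r (sc M s i) = sc M (r + s) i := by
  simp only [sc, pow_add, mul_assoc]

theorem near_symm {D : ℤ} (h : near D i y) : near D y i := by
  exact ⟨by rw [abs_sub_comm]; exact h.1, by rw [abs_sub_comm]; exact h.2⟩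

theorem near_trans {D D' D'' : ℤ} {w : ℤ × ℤ} (h : near D i y) (h' : near D' y w)
    (hD : D + D' ≤ D'') : near D'' i w := by
  have h1 := abs_sub_le i.1 y.1 w.1
  have h2 := abs_sub_le i.2 y.2 w.2
  exact ⟨by linarith [h.1, h'.1], by linarith [h.2, h'.2]⟩

theorem near_bx (hM : 1 ≤ M) (r : ℕ) {R : ℤ} {y₀ : ℤ × ℤ} (h0 : y₀ ∈ bx R)
    (h : near 4 (up M r y) (up M r y₀)) : y ∈ bx (R + 5 * (M : ℤ) ^ r) := by
  have hN := Tree1_pos hM r
  rw [Tree1_mem_bx] at h0 ⊢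
  exact ⟨Tree1_bx2 hN h0.1 h.1, Tree1_bx2 hN h0.2 h.2⟩

theorem card_near (S : Finset (ℤ × ℤ)) (h : ∀ P ∈ S, near 4 i P) : S.card ≤ 81 := by
  have hsub : S ⊆ Finset.Icc (i.1 - 4) (i.1 + 4) ×ˢ Finset.Icc (i.2 - 4) (i.2 + 4) := by
    intro P hP
    obtain ⟨h1, h2⟩ := h P hP
    rw [abs_le] at h1 h2
    simp only [Finset.mem_product, Finset.mem_Icc]
    omega
  refine (Finset.card_le_card hsub).trans (le_of_eq ?_)
  have e1 : i.1 + 4 + 1 - (i.1 - 4) = 9 := by ring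
  have e2 : i.2 + 4 + 1 - (i.2 - 4) = 9 := by ring
  rw [Finset.card_product, Int.card_Icc, Int.card_Icc, e1, e2]
  rfl

end Pool.Agent.Lib.MP_a52643_an.YS
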