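import Pool.Agent.Lib.MP_a52643_an.YS.Inst1
import Pool.Agent.Lib.MP_a52643_an.YS.Tree1

/-!
The step in the tree of a solution.
-/

namespace Pool.Agent.Lib.MP_a52643_an.YS

open Complex Filter Topology Metric MeasureTheory Set QS YA
open scoped ContDiff

private theorem inst2_norm {z : ℂ} {a b : ℝ} (h1 : |z.re| ≤ a) (h2 : |z.im| ≤ a) (hb : 0 ≤ b)
    (h : 2 * a ^ 2 ≤ b ^ 2) : ‖z‖ ≤ b := by
  refine (sq_le_sq₀ (norm_nonneg _) hb).1 ?_
  rw [Complex.sq_norm, Complex.normSq_apply]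
  have a1 := sq_le_sq' (abs_le.1 h1).1 (abs_le.1 h1).2
  have a2 := sq_le_sq' (abs_le.1 h2).1 (abs_le.1 h2).2
  nlinarith

private theorem inst2_nb {U : ℂ → ℝ} (hU : Sm U) {p y : ℂ} {r B : ℝ} (hr : 0 < r)
    (hr' : r ≤ 1 / 512) (hy : ‖y‖ ≤ 5.7) (h0 : 0 < Ms U p 0 210)
    (h : ∀ y : ℂ, ‖y‖ ≤ 6 → Real.exp (-B) * Ms U p 0 210 ≤ Ms U p y (2 * r)) :
    ‖p‖ * r - B ≤ nn U 0 y r ∧ nn U 0 y r ≤ B + 424 * ‖p‖ * r := by
  have pos : ∀ y : ℂ, ‖y‖ ≤ 6 → 0 < Ms U p y (2 * r) := fun y hy =>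
    (mul_pos (Real.exp_pos _) h0).trans_le (h y hy)
  have low : ∀ y : ℂ, ‖y‖ ≤ 6 → -B + Real.log (Ms U p 0 210) ≤ Real.log (Ms U p y (2 * r)) := by
    intro y hy
    have := Real.log_le_log (mul_pos (Real.exp_pos _) h0) (h y hy)
    rwa [Real.log_mul (Real.exp_pos _).ne' h0.ne', Real.log_exp] at this
  have hy6 : ‖y‖ ≤ 6 := by linarith
  have p0 := Ms_pos hU (pos y hy6) 0
  constructor
  · set y' : ℂ := y + (10 * r * ‖p‖⁻¹) • p with hy'
    have n1 : ‖y' - y‖ ≤ 10 * r := by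
      rw [hy', add_sub_cancel_left, norm_smul, Real.norm_of_nonneg (by positivity), mul_assoc]
      exact mul_le_of_le_one_right (by positivity) inv_mul_le_one
    have n2 : ‖y'‖ ≤ 6 := by
      have := norm_le_norm_add_norm_sub' y' y
      linarith
    have d1 : dt p y' = dt p y + 10 * r * ‖p‖ := by
      have e : dt p y' = dt p y + 10 * r * ‖p‖⁻¹ * dt p p := by
        simp only [hy', dt, add_re, add_im, smul_re, smul_im, smul_eq_mul]
        ring
      rw [e, dt_self]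
      by_cases hp : ‖p‖ = 0
      · simp [hp]
      · field_simp
    have t1 := Ms_tilt hU 0 p y' (2 * r)
    have t2 := Ms_tilt hU p (-p) y (2 * r)
    rw [zero_add] at t1
    rw [add_neg_cancel, norm_neg, show dt (-p) y = -dt p y by simp [dt]; ring] at t2
    have p1 := Ms_pos hU (pos y' n2) 0
    have l1 := Real.log_le_log (pos y' n2) t1
    have l2 := Real.log_le_log p0 t2
    rw [Real.log_mul (Real.exp_pos _).ne' p1.ne', Real.log_exp] at l1
    rw [Real.log_mul (Real.exp_pos _).ne' (pos y hy6).ne', Real.log_exp] at l2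
    have l3 := Real.log_le_log p1 (Ms_mono hU 0 (a := y') (c := y) (r := 2 * r) (s := 210 * r)
      (by linarith))
    have l4 := Real.log_le_log (pos y hy6) (Ms_mono hU p (a := y) (c := 0) (r := 2 * r) (s := 210)
      (by rw [sub_zero]; linarith))
    have l5 := low y' n2
    have l6 : 0 ≤ ‖p‖ * r := by positivity
    unfold nn
    rw [d1] at l1
    linarith
  · have t1 := nn_tilt hU hr p0 p
    have l1 := low y hy6
    have l2 := Real.log_le_log ((pos y hy6).trans_le (Ms_mono hU p (a := y) (c := y) (r := 2 * r)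
      (s := 210 * r) (by rw [sub_self, norm_zero]; linarith)))
      (Ms_mono hU p (a := y) (c := 0) (r := 210 * r) (s := 210) (by rw [sub_zero]; linarith))
    have : nn U p y r ≤ B := by
      unfold nn
      linarith
    linarith

private theorem inst2_rpow {x : ℝ} (hx : 0 ≤ x) : x ^ (3 / 2 : ℝ) = x * √x := by
  rw [show (3 / 2 : ℝ) = 1 + 1 / 2 by norm_num, Real.rpow_add' hx (by norm_num), Real.rpow_one,
    Real.sqrt_eq_rpow]

private theorem inst2_two {x y : ℝ} (hx : 0 ≤ x) (hxy : x ≤ y) :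
    (x + y) * √(x + y) ≤ 3 * (y * √y) := by
  have hy := hx.trans hxy
  have h1 : √(x + y) ≤ 3 / 2 * √y := by
    refine Real.sqrt_le_iff.2 ⟨by positivity, ?_⟩
    rw [mul_pow, Real.sq_sqrt hy]
    linarith
  calc (x + y) * √(x + y) ≤ (2 * y) * (3 / 2 * √y) :=
        mul_le_mul (by linarith) h1 (Real.sqrt_nonneg _) (by positivity)
    _ = 3 * (y * √y) := by ring

private theorem inst2_add {x y : ℝ} (hx : 0 ≤ x) (hy : 0 ≤ y) :
    (x + y) * √(x + y) ≤ 3 * (x * √x) + 3 * (y * √y) := by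
  have a1 : 0 ≤ x * √x := by positivity
  have a2 : 0 ≤ y * √y := by positivity
  rcases le_total x y with h | h
  · linarith [inst2_two hx h]
  · rw [add_comm x y]
    linarith [inst2_two hy h]

private theorem inst2_sum {ι : Type} (S : Finset ι) (X : ι → ℝ) {M C w a : ℝ} (hM : 0 < M)
    (hC : 1 ≤ C) (hw : 1 ≤ w) (ha : 0 ≤ a) (hS : (S.card : ℝ) = M ^ 2)
    (h0 : ∀ i ∈ S, 0 ≤ X i ∧ X i ≤ M * C * a) (h1 : ∑ i ∈ S, X i ≤ M * (C * w * a))
    (h2 : 100 * C ^ 3 * w ^ 2 ≤ M) :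
    ∑ i ∈ S, (X i + a / 16) ^ (3 / 2 : ℝ) ≤ M ^ 2 * (a / 2) ^ (3 / 2 : ℝ) ∧
      ∑ i ∈ S, (X i + a / 16) ≤ M ^ 2 * (a / 2) := by
  have hb := Real.sqrt_nonneg a
  have hbb := Real.sq_sqrt ha
  have cw : 1 ≤ C * w := one_le_mul_of_one_le_of_one_le hC hw
  have cw2 : 100 * (C * w) ≤ M := by
    have e1 : C * w ≤ (C * w) ^ 2 := by nlinarith
    have e2 : (C * w) ^ 2 ≤ C * (C * w) ^ 2 := le_mul_of_one_le_left (by positivity) hC
    nlinarith
  constructor
  · have s1 : √(a / 16) = √a / 4 := by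
      rw [Real.sqrt_div ha, show (16 : ℝ) = 4 ^ 2 by norm_num, Real.sqrt_sq (by norm_num)]
    have s2 : 0.7 * √a ≤ √(a / 2) := by
      refine Real.le_sqrt_of_sq_le ?_
      rw [mul_pow, hbb]
      linarith
    have s3 : ∀ i ∈ S, √(X i) ≤ M / (10 * (C * w)) * √a := fun i hi => by
      refine Real.sqrt_le_iff.2 ⟨by positivity, (h0 i hi).2.trans ?_⟩
      rw [mul_pow, hbb, div_pow]
      refine mul_le_mul_of_nonneg_right ?_ ha
      rw [le_div_iff₀ (by positivity)]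
      calc M * C * (10 * (C * w)) ^ 2 = M * (100 * C ^ 3 * w ^ 2) := by ring
        _ ≤ M * M := mul_le_mul_of_nonneg_left h2 hM.le
        _ = M ^ 2 := by ring
    have s4 : ∑ i ∈ S, (X i + a / 16) ^ (3 / 2 : ℝ) ≤
        ∑ i ∈ S, (3 * (M / (10 * (C * w)) * √a) * X i + 3 * (a / 16 * (√a / 4))) := by
      refine Finset.sum_le_sum fun i hi => ?_
      have a1 := (h0 i hi).1
      have a2 := inst2_add a1 (show 0 ≤ a / 16 by positivity)
      have a3 := mul_le_mul_of_nonneg_left (s3 i hi) a1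
      rw [inst2_rpow (by positivity)]
      rw [s1] at a2
      linarith
    rw [Finset.sum_add_distrib, ← Finset.mul_sum, Finset.sum_const, nsmul_eq_mul, hS] at s4
    have s5 := mul_le_mul_of_nonneg_left h1
      (show 0 ≤ 3 * (M / (10 * (C * w)) * √a) by positivity)
    have s6 : 3 * (M / (10 * (C * w)) * √a) * (M * (C * w * a)) = 0.3 * (M ^ 2 * (a * √a)) := by
      field_simp
      ring
    have s7 := mul_le_mul_of_nonneg_left s2 (show 0 ≤ M ^ 2 * (a / 2) by positivity)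
    have s8 : 0 ≤ M ^ 2 * (a * √a) := by positivity
    rw [inst2_rpow (by positivity)]
    nlinarith
  · rw [Finset.sum_add_distrib, Finset.sum_const, nsmul_eq_mul, hS]
    have := mul_le_mul_of_nonneg_left (mul_le_mul_of_nonneg_right cw2 ha) hM.le
    have : 0 ≤ M ^ 2 * a := by positivity
    nlinarith

private theorem inst2_big {C : ℝ} (hC : 1 ≤ C) :
    ∃ m₀ : ℕ, ∀ m : ℕ, m₀ ≤ m → 9 ≤ m ∧ 100 * C ^ 3 * (1 + (m : ℝ)) ^ 2 ≤ 2 ^ m := by
  have h := (tendsto_pow_const_div_const_pow_of_one_lt 2 (one_lt_two (α := ℝ))).eventually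
    (gt_mem_nhds (show (0 : ℝ) < 1 / (400 * C ^ 3) by positivity))
  obtain ⟨m₀, hm⟩ := eventually_atTop.1 h
  refine ⟨max m₀ 9, fun m h1 => ⟨le_of_max_le_right h1, ?_⟩⟩
  have a1 := hm m (le_of_max_le_left h1)
  have a2 : (9 : ℝ) ≤ m := by exact_mod_cast le_of_max_le_right h1
  rw [div_lt_div_iff₀ (by positivity) (by positivity)] at a1
  have a3 : (1 + (m : ℝ)) ^ 2 ≤ 4 * (m : ℝ) ^ 2 := by nlinarith
  have a4 := mul_le_mul_of_nonneg_left a3 (show 0 ≤ 100 * C ^ 3 by positivity)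
  linarith

theorem inst_step : ∃ m₀ : ℕ, ∀ m₁ : ℕ, m₀ ≤ m₁ → ∃ T K : ℝ, 424 ≤ T ∧ 1 ≤ K ∧
    ∀ (u V : ℂ → ℝ) (l A k : ℝ) (J : ℕ), Nm u V l A → √l ≤ k →
      StepC (2 ^ m₁) J 76 T K (fN u k (2 ^ m₁))
        fun j => T * (1 / (k * el (2 ^ m₁) j) + el (2 ^ m₁) j) := by
  obtain ⟨C, hC, hs⟩ := step
  obtain ⟨m₀, hm₀⟩ := inst2_big hC
  refine ⟨m₀, fun m hm => ?_⟩
  obtain ⟨m9, hbig⟩ := hm₀ m hm
  obtain ⟨c₁, θ, m₂, -, -, hs⟩ := hs 0
  have hM : (512 : ℝ) ≤ 2 ^ m := by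
    calc (512 : ℝ) = 2 ^ 9 := by norm_num
      _ ≤ 2 ^ m := pow_le_pow_right₀ one_le_two m9
  obtain ⟨T₀, K, hT₀, hK, hs⟩ := hs m (1 / (16 * 2 ^ m)) m9 (by positivity)
  refine ⟨max 424 (2 ^ m * T₀), K, le_max_left _ _, hK, ?_⟩
  have hT1 : (424 : ℝ) ≤ max 424 (2 ^ m * T₀) := le_max_left _ _
  have hT2 : 2 ^ m * T₀ ≤ max 424 (2 ^ m * T₀) := le_max_right _ _
  generalize max 424 (2 ^ m * T₀) = T at hT1 hT2
  have hT3 : T₀ ≤ T := (le_mul_of_one_le_left (by linarith) (by linarith)).trans hT2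
  intro u V l A k J hN hk j i σ a _ hi hf hfl hKa
  have hl := hN.hl
  have hu := hN.sl.hu
  have k0 : 0 < k := (Real.sqrt_pos.2 (by linarith)).trans_le hk
  have hlk : l ≤ k ^ 2 := by
    rw [← Real.sq_sqrt (show 0 ≤ l by linarith)]
    exact pow_le_pow_left₀ (Real.sqrt_nonneg _) hk 2
  have cM : ((2 ^ m : ℕ) : ℝ) = 2 ^ m := by push_cast; rfl
  have cZ : ((2 ^ m : ℕ) : ℤ) = 2 ^ m := by push_cast; rfl
  have hP : (1 : ℝ) ≤ ((2 : ℝ) ^ m) ^ j := one_le_pow₀ (by linarith)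
  have es : el (2 ^ m) j = 1 / (128 * ((2 : ℝ) ^ m) ^ j) := by rw [el, cM]
  have es' : el (2 ^ m) (j + 1) = el (2 ^ m) j * (1 / 2 ^ m) := by
    rw [es, el, cM, pow_succ]
    field_simp
  have s0 : 0 < el (2 ^ m) j := by rw [es]; positivity
  have s1 : el (2 ^ m) j ≤ 1 / 128 := by
    rw [es]
    exact one_div_le_one_div_of_le (by norm_num) (by linarith)
  have hc : ‖lp (el (2 ^ m) j) i‖ ≤ 0.85 := by
    simp only [bx, Finset.mem_product, Finset.mem_Ico, cZ] at hi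
    have key : ∀ n : ℤ, -(((76 : ℕ) : ℤ) * (2 ^ m) ^ j) ≤ n → n < ((76 : ℕ) : ℤ) * (2 ^ m) ^ j →
        |el (2 ^ m) j * n| ≤ 76 / 128 := fun n h1 h2 => by
      have h3 : |(n : ℝ)| ≤ 76 * ((2 : ℝ) ^ m) ^ j := by
        exact_mod_cast abs_le.2 ⟨h1, h2.le⟩
      rw [abs_mul, abs_of_pos s0, es, one_div_mul_eq_div, div_le_iff₀ (by positivity)]
      linarith
    exact inst2_norm (key _ hi.1.1 hi.1.2) (key _ hi.2.1 hi.2.2) (by norm_num) (by norm_num)
  simp only [fN] at hf hfl ⊢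
  rw [es']
  generalize el (2 ^ m) j = s at s0 s1 hc hf hfl ⊢
  have κ0 : 0 < k * s := mul_pos k0 s0
  have a0 : 0 ≤ a := le_trans (by positivity) hfl
  have hU : Sm (Af (lp s i) s u) := smAf hu _ _
  have in1 : ∀ y : ℂ, ‖y‖ ≤ 6 → ‖lp s i + s • y‖ ≤ 1 := fun y hy => by
    have h1 := norm_add_le (lp s i) (s • y)
    rw [norm_smul, Real.norm_of_nonneg s0.le] at h1
    have h2 := mul_le_mul s1 hy (norm_nonneg _) (by norm_num)
    linarith
  have p2 : 0 < Ms (Af (lp s i) s u) (s • k • σ) 0 2 := by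
    have h1 := Ms_Af s0 u (k • σ) (lp s i) 0 2
    have h2 := nm_pos hN (in1 0 (by simp)) (show 0 < s * 2 by positivity) (k • σ)
    exact (mul_pos_iff_of_pos_left (pow_pos s0 2)).1 (h1 ▸ mul_pos (Real.exp_pos _) h2)
  have np : ‖s • k • σ‖ = k * s * ‖σ‖ := by
    rw [norm_smul, norm_smul, Real.norm_of_nonneg s0.le, Real.norm_of_nonneg k0.le]
    ring
  obtain ⟨S1, q, g, S2, S3, -⟩ := hs _ _ (k * s) (k * s ^ 2) (a * (k * s)) (s • k • σ)
    (sk_Af hN.sl hlk s0 (R' := 70) (c := lp s i) (by linarith)) κ0.le (by positivity) p2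
    (by
      rw [nn_Af hu s0 one_pos (nm_pos hN (in1 0 (by simp)) (by positivity) _), smul_zero, add_zero,
        mul_one]
      exact (div_le_iff₀ κ0).1 hf)
    (by
      have h1 := mul_le_mul_of_nonneg_right hfl κ0.le
      have h2 : T * (1 / (k * s) + s) * (k * s) = T * (1 + k * s ^ 2) := by field_simp
      have h3 := mul_le_mul_of_nonneg_right hT3 (show 0 ≤ 1 + k * s ^ 2 by positivity)
      linarith)
    (hKa.imp (fun h => mul_le_mul_of_nonneg_right h κ0.le) fun h => by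
      rw [np, mul_comm K]
      exact mul_le_mul_of_nonneg_left h κ0.le)
  have hy : ∀ d : ℤ × ℤ, near (4 * 2 ^ m) d 0 → ‖lp (1 / 2 ^ m) d‖ ≤ 5.7 := fun d hd => by
    have key : ∀ n : ℤ, |n| ≤ 4 * 2 ^ m → |1 / (2 : ℝ) ^ m * n| ≤ 4 := fun n h1 => by
      have h3 : |(n : ℝ)| ≤ 4 * (2 : ℝ) ^ m := by exact_mod_cast h1
      rw [abs_mul, abs_of_pos (by positivity), one_div_mul_eq_div, div_le_iff₀ (by positivity)]
      exact h3
    exact inst2_norm (key _ (by simpa using hd.1)) (key _ (by simpa using hd.2)) (by norm_num)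
      (by norm_num)
  have tr : ∀ (i' : ℤ × ℤ) (τ : ℂ), near (4 * 2 ^ m) (i' - sc (2 ^ m) 1 i) 0 →
      nn u (k • τ) (lp (s * (1 / 2 ^ m)) i') (s * (1 / 2 ^ m)) / (k * (s * (1 / 2 ^ m))) =
        2 ^ m * nn (Af (lp s i) s u) (s • k • τ) (lp (1 / 2 ^ m) (i' - sc (2 ^ m) 1 i))
          (1 / 2 ^ m) / (k * s) := fun i' τ h => by
    have e : lp (s * (1 / 2 ^ m)) i' = lp s i + s • lp (1 / 2 ^ m) (i' - sc (2 ^ m) 1 i) := by
      apply Complex.ext <;>
        simp only [lp, sc, add_re, add_im, smul_re, smul_im, smul_eq_mul, Prod.fst_sub,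
          Prod.snd_sub, pow_one] <;> push_cast <;> field_simp <;> ring
    rw [nn_Af hu s0 (by positivity)
      (nm_pos hN (in1 _ ((hy _ h).trans (by norm_num))) (by positivity) _), e]
    field_simp
  constructor
  · have kid : ∀ i' ∈ kids (2 ^ m) 1 i, i' - sc (2 ^ m) 1 i ∈ sq (4 * 2 ^ m) ∧
        near (4 * 2 ^ m) (i' - sc (2 ^ m) 1 i) 0 := fun i' h => by
      simp only [kids, Finset.mem_product, Finset.mem_Ico, pow_one, cZ] at h
      simp only [sq, near, sc, Finset.mem_product, Finset.mem_Icc, pow_one, cZ, Prod.fst_sub,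
        Prod.snd_sub, Prod.fst_zero, Prod.snd_zero, sub_zero, abs_le]
      have : (0 : ℤ) < 2 ^ m := by positivity
      omega
    have hsum := inst2_sum (kids (2 ^ m) 1 i)
      (fun i' => 2 ^ m * g (i' - sc (2 ^ m) 1 i) / (k * s)) (M := 2 ^ m) (w := 1 + m)
      (by positivity) hC (by linarith [Nat.cast_nonneg (α := ℝ) m]) a0
      (by rw [card_kids, cM]) (fun i' h => by
        obtain ⟨-, -, b1, b2⟩ := S2 _ (kid i' h).1
        refine ⟨by positivity, (div_le_iff₀ κ0).2 ?_⟩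
        have := mul_le_mul_of_nonneg_left b2 (show (0 : ℝ) ≤ 2 ^ m by positivity)
        linarith) (by
        have b1 : ∑ i' ∈ kids (2 ^ m) 1 i, g (i' - sc (2 ^ m) 1 i) ≤ ∑ d ∈ sq (4 * 2 ^ m), g d := by
          rw [← Finset.sum_image (g := fun i' => i' - sc (2 ^ m) 1 i) (f := g)
            fun _ _ _ _ e => sub_left_injective e]
          refine Finset.sum_le_sum_of_subset_of_nonneg (fun d hd => ?_) fun d hd _ => (S2 d hd).2.2.1
          obtain ⟨i', h, rfl⟩ := Finset.mem_image.1 hd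
          exact (kid i' h).1
        rw [← Finset.sum_div, ← Finset.mul_sum, div_le_iff₀ κ0]
        have := mul_le_mul_of_nonneg_left (b1.trans S3) (show (0 : ℝ) ≤ 2 ^ m by positivity)
        linarith) hbig
    rw [cM]
    refine ⟨fun i' => σ + (k * s)⁻¹ • q (i' - sc (2 ^ m) 1 i),
      fun i' => 2 ^ m * g (i' - sc (2 ^ m) 1 i) / (k * s) + a / 16, fun i' h => ?_, hsum⟩
    obtain ⟨b1, b2, b3, -⟩ := S2 _ (kid i' h).1
    refine ⟨?_, ?_, by positivity⟩
    · have e : s • k • (σ + (k * s)⁻¹ • q (i' - sc (2 ^ m) 1 i)) =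
          s • k • σ + q (i' - sc (2 ^ m) 1 i) := by
        rw [smul_add, smul_add, smul_smul, smul_smul, smul_smul,
          show s * k * (k * s)⁻¹ = 1 by field_simp, one_smul]
      rw [tr i' _ (kid i' h).2, e, div_le_iff₀ κ0]
      have b4 := mul_le_mul_of_nonneg_left b1 (show (0 : ℝ) ≤ 2 ^ m by positivity)
      refine b4.trans_eq ?_
      field_simp
    · rw [add_sub_cancel_left, norm_smul, Real.norm_of_nonneg (by positivity), inv_mul_le_iff₀ κ0]
      have := mul_le_mul_of_nonneg_right hT3 (mul_nonneg a0 κ0.le)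
      linarith
  · intro i' h
    have h' : near (4 * 2 ^ m) (i' - sc (2 ^ m) 1 i) 0 := by simpa [near, cZ] using h
    obtain ⟨b1, b2⟩ := inst2_nb hU (p := s • k • σ) (B := T₀ * (a * (k * s))) (r := 1 / 2 ^ m)
      (by positivity) (one_div_le_one_div_of_le (by norm_num) hM) (hy _ h')
      (p2.trans_le (Ms_mono hU _ (by rw [sub_self, norm_zero]; norm_num)))
      fun y hy => by simpa only [mul_one_div] using S1 y hy
    rw [tr i' 0 h', smul_zero, smul_zero, le_div_iff₀ κ0, div_le_iff₀ κ0]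
    rw [np] at b1 b2
    have c1 := mul_le_mul_of_nonneg_left b1 (show (0 : ℝ) ≤ 2 ^ m by positivity)
    have c2 := mul_le_mul_of_nonneg_left b2 (show (0 : ℝ) ≤ 2 ^ m by positivity)
    have c3 := mul_le_mul_of_nonneg_right hT2 (mul_nonneg a0 κ0.le)
    have c4 := mul_le_mul_of_nonneg_right hT1 (mul_nonneg (norm_nonneg σ) κ0.le)
    have e1 : (2 : ℝ) ^ m * (k * s * ‖σ‖ * (1 / 2 ^ m) - T₀ * (a * (k * s))) =
        ‖σ‖ * (k * s) - 2 ^ m * T₀ * (a * (k * s)) := by field_simp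
    have e2 : (2 : ℝ) ^ m * (T₀ * (a * (k * s)) + 424 * (k * s * ‖σ‖) * (1 / 2 ^ m)) =
        2 ^ m * T₀ * (a * (k * s)) + 424 * (‖σ‖ * (k * s)) := by field_simp
    constructor <;> linarith

end Pool.Agent.Lib.MP_a52643_an.YS
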