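import Pool.Agent.Lib.MP_a52643_an.YS.Inst1
import Pool.Agent.Lib.MP_a52643_an.YS.Tree1

/-!
The launch in the tree of a solution.
-/

namespace Pool.Agent.Lib.MP_a52643_an.YS

open Complex Filter Topology Metric MeasureTheory Set QS YA
open scoped ContDiff

theorem inst3_el_pos {M : ℕ} (hM : 1 ≤ M) (j : ℕ) : 0 < el M j := by
  have : (0 : ℝ) < M := by exact_mod_cast hM
  unfold el; positivity

theorem inst3_el_add {M : ℕ} (hM : 1 ≤ M) (j r : ℕ) :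
    el M (j + r) = el M j * (1 / (M : ℝ) ^ r) := by
  have : (0 : ℝ) < M := by exact_mod_cast hM
  unfold el; rw [pow_add]; field_simp

theorem inst3_el_le {M : ℕ} (hM : 1 ≤ M) {j J : ℕ} (h : j ≤ J) : el M J ≤ el M j := by
  have h1 : (1 : ℝ) ≤ M := by exact_mod_cast hM
  unfold el
  exact one_div_le_one_div_of_le (by positivity)
    (mul_le_mul_of_nonneg_left (pow_le_pow_right₀ h1 h) (by norm_num))

theorem inst3_lp {M : ℕ} (hM : 1 ≤ M) (j r : ℕ) (i d : ℤ × ℤ) :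
    lp (el M (j + r)) (sc M r i + d) = lp (el M j) i + el M j • lp (1 / (M : ℝ) ^ r) d := by
  have : (0 : ℝ) < M := by exact_mod_cast hM
  rw [inst3_el_add hM]
  apply Complex.ext
  · simp only [lp, sc, Prod.fst_add, add_re, Complex.smul_re, smul_eq_mul]
    push_cast; field_simp
  · simp only [lp, sc, Prod.snd_add, add_im, Complex.smul_im, smul_eq_mul]
    push_cast; field_simp

theorem inst3_co {M : ℕ} (hM : 1 ≤ M) (j : ℕ) {a : ℤ} {w : ℝ}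
    (h1 : -(76 * (M : ℤ) ^ j) ≤ a) (h2 : a < 76 * (M : ℤ) ^ j) (hw : |w| ≤ 4) :
    (el M j * a + el M j * w) ^ 2 ≤ 1 / 2 := by
  have hp : (1 : ℝ) ≤ (M : ℝ) ^ j := one_le_pow₀ (by exact_mod_cast hM)
  have a1 : -(76 * (M : ℝ) ^ j) ≤ a := by exact_mod_cast h1
  have a2 : (a : ℝ) ≤ 76 * (M : ℝ) ^ j := by exact_mod_cast h2.le
  obtain ⟨w1, w2⟩ := abs_le.1 hw
  have e : el M j * a + el M j * w = (a + w) / (128 * (M : ℝ) ^ j) := by
    unfold el; field_simp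
  have b : |(a + w) / (128 * (M : ℝ) ^ j)| ≤ 80 / 128 := by
    rw [abs_div, abs_of_pos (by positivity : (0 : ℝ) < 128 * (M : ℝ) ^ j),
      div_le_iff₀ (by positivity), abs_le]
    constructor <;> linarith
  rw [e, ← sq_abs]
  exact (pow_le_pow_left₀ (abs_nonneg _) b 2).trans (by norm_num)

theorem inst3_norm {M : ℕ} (hM : 1 ≤ M) {j : ℕ} {i : ℤ × ℤ}
    (hi : i ∈ bx ((76 : ℕ) * (M : ℤ) ^ j)) {y : ℂ} (h1 : |y.re| ≤ 4) (h2 : |y.im| ≤ 4) :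
    ‖lp (el M j) i + el M j • y‖ ≤ 1 := by
  simp only [bx, Finset.mem_product, Finset.mem_Ico, Nat.cast_ofNat] at hi
  have a1 := inst3_co hM j hi.1.1 hi.1.2 h1
  have a2 := inst3_co hM j hi.2.1 hi.2.2 h2
  rw [← sq_le_one_iff₀ (norm_nonneg _), Complex.sq_norm, Complex.normSq_apply]
  simp only [lp, add_re, add_im, Complex.smul_re, Complex.smul_im, smul_eq_mul]
  nlinarith

theorem inst3_nn {u V : ℂ → ℝ} {l A k : ℝ} (h : Nm u V l A) (hk : 0 < k) {M : ℕ} (hM : 1 ≤ M)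
    {j : ℕ} {i : ℤ × ℤ} (hi : i ∈ bx ((76 : ℕ) * (M : ℤ) ^ j)) (r : ℕ) (d : ℤ × ℤ)
    (h1 : |(lp (1 / (M : ℝ) ^ r) d).re| ≤ 4) (h2 : |(lp (1 / (M : ℝ) ^ r) d).im| ≤ 4) (σ : ℂ) :
    nn (Af (lp (el M j) i) (el M j) u) ((k * el M j) • σ) (lp (1 / (M : ℝ) ^ r) d)
      (1 / (M : ℝ) ^ r) = fN u k M (j + r) (sc M r i + d) σ * (k * el M j) / (M : ℝ) ^ r := by
  have hM' : (0 : ℝ) < M := by exact_mod_cast hM
  have hs := inst3_el_pos hM j
  have e : (k * el M j) • σ = el M j • k • σ := by rw [smul_smul, mul_comm]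
  rw [e, nn_Af h.sl.hu hs (by positivity) (nm_pos h (inst3_norm hM hi h1 h2) (by positivity) _),
    fN, inst3_lp hM, inst3_el_add hM]
  field_simp

theorem inst3_m (B : ℝ) (m₁ m₀ : ℕ) (hm : 1 ≤ m₁) :
    ∃ m' : ℕ, 1 ≤ m' ∧ m₀ ≤ m₁ * m' ∧ B * (1 + (m₁ * m' : ℕ)) ≤ 2 ^ (m₁ * m') := by
  have t := tendsto_pow_const_div_const_pow_of_one_lt 1 (one_lt_two (α := ℝ))
  have t0 := tendsto_pow_const_div_const_pow_of_one_lt 0 (one_lt_two (α := ℝ))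
  have t2 := (t0.add t).const_mul B
  simp only [add_zero, mul_zero] at t2
  obtain ⟨N, hN⟩ := eventually_atTop.1 (t2.eventually (gt_mem_nhds one_pos))
  have a : N + m₀ + 1 ≤ m₁ * (N + m₀ + 1) := Nat.le_mul_of_pos_left _ hm
  refine ⟨N + m₀ + 1, by omega, by omega, ?_⟩
  have b := hN (m₁ * (N + m₀ + 1)) (by omega)
  rw [← add_div, ← mul_div_assoc, div_lt_one (by positivity), pow_zero, pow_one] at b
  exact b.le

theorem inst3_near {M r : ℕ} (hM : 1 ≤ M) {a L d : ℤ}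
    (h : |1 / (M : ℝ) ^ (r + 1) * d - 1 / (M : ℝ) ^ 1 * ((L - (M : ℤ) ^ 1 * a : ℤ) : ℝ)| ≤ 1) :
    |(M : ℤ) ^ (r + 1) * a + d - (M : ℤ) ^ r * L| ≤ (M : ℤ) ^ (r + 1) := by
  have hM' : (0 : ℝ) < M := by exact_mod_cast hM
  have e : (((M : ℤ) ^ (r + 1) * a + d - (M : ℤ) ^ r * L : ℤ) : ℝ) = (M : ℝ) ^ (r + 1) *
      (1 / (M : ℝ) ^ (r + 1) * d - 1 / (M : ℝ) ^ 1 * ((L - (M : ℤ) ^ 1 * a : ℤ) : ℝ)) := by
    push_cast; field_simp; ring
  have b : |(((M : ℤ) ^ (r + 1) * a + d - (M : ℤ) ^ r * L : ℤ) : ℝ)| ≤ (M : ℝ) ^ (r + 1) := by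
    rw [e, abs_mul, abs_of_pos (by positivity)]
    exact mul_le_of_le_one_right (by positivity) h
  exact_mod_cast b

theorem inst3_div {P : ℝ} (hP : 0 < P) {a b : ℝ} (h : |a| ≤ b * P) : |1 / P * a| ≤ b := by
  rw [abs_mul, abs_of_pos (by positivity), one_div, inv_mul_le_iff₀ hP, mul_comm]
  exact h

theorem inst_launch (m₁ : ℕ) (hm : 9 ≤ m₁) : ∃ c θ : ℝ, 0 < c ∧ c ≤ 1 ∧ 0 < θ ∧
    ∀ β : ℝ, 0 < β → ∃ (m : ℕ) (t₁ : ℝ), 1 ≤ m ∧
    ∀ (u V : ℂ → ℝ) (l A k : ℝ) (J : ℕ), Nm u V l A → √l ≤ k → 1 ≤ k * el (2 ^ m₁) J →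
      LaunchC (2 ^ m₁) J 76 m c θ β t₁ (fN u k (2 ^ m₁)) := by
  classical
  obtain ⟨C, hC, hst⟩ := step
  obtain ⟨c₁, θ, m₀, hc₁, hθ, hst⟩ := hst m₁
  have hc : 0 < min c₁ 1 := lt_min hc₁ one_pos
  refine ⟨min c₁ 1, θ / 2, hc, min_le_right _ _, by positivity, fun β hβ => ?_⟩
  have hcc : min c₁ 1 ≤ c₁ := min_le_left _ _
  generalize min c₁ 1 = c at hc hcc
  obtain ⟨m', hm', hm0, hB⟩ := inst3_m (4 * C / (β * c * θ)) m₁ m₀ (by omega)
  have hm1 : m₁ ≤ m₁ * m' := Nat.le_mul_of_pos_right _ hm'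
  obtain ⟨T, K, hT, hK, hst⟩ := hst (m₁ * m') (β * c / (2 * 2 ^ (m₁ * m'))) (by omega)
    (by positivity)
  refine ⟨m', max K (2 * T), hm', fun u V l A k J h hl hJ j i L t hj hi ht hf hL hfL => ?_⟩
  obtain ⟨r, rfl⟩ : ∃ r, m' = r + 1 := ⟨m' - 1, by omega⟩
  have hM : 1 ≤ 2 ^ m₁ := Nat.one_le_two_pow
  have eM : ∀ n : ℕ, (((2 ^ m₁ : ℕ) : ℝ)) ^ n = 2 ^ (m₁ * n) := fun n => by
    push_cast; rw [← pow_mul]
  have hs := inst3_el_pos hM j
  have hs1 : el (2 ^ m₁) j ≤ 1 / 128 := by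
    simpa [el] using inst3_el_le hM (Nat.zero_le j)
  have hk : 0 < k := (Real.sqrt_pos.2 (by linarith [h.hl])).trans_le hl
  have hκ : 1 ≤ k * el (2 ^ m₁) j :=
    hJ.trans (mul_le_mul_of_nonneg_left (inst3_el_le hM (by omega)) hk.le)
  have hlk : l ≤ k ^ 2 := by
    rw [← Real.sq_sqrt (by linarith [h.hl] : 0 ≤ l)]
    exact pow_le_pow_left₀ (Real.sqrt_nonneg _) hl 2
  have hK' : K ≤ t := (le_max_left _ _).trans ht
  have hT' : 2 * T ≤ t := (le_max_right _ _).trans ht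
  have hn0 := inst3_norm hM hi (y := 0) (by simp) (by simp)
  have hnn := inst3_nn h hk hM hi
  have hsk := sk_Af (R' := 70) (c := lp (el (2 ^ m₁) j) i) h.sl hlk hs (by
    rw [smul_zero, add_zero] at hn0; linarith)
  have hMs : 0 < Ms (Af (lp (el (2 ^ m₁) j) i) (el (2 ^ m₁) j) u) 0 0 2 := by
    have a := Ms_Af hs u 0 (lp (el (2 ^ m₁) j) i) 0 2
    rw [smul_zero (el (2 ^ m₁) j)] at a
    have b := nm_pos h hn0 (by positivity : 0 < el (2 ^ m₁) j * 2) 0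
    rw [smul_zero] at b
    exact (mul_pos_iff_of_pos_left (by positivity)).1 (a ▸ mul_pos (Real.exp_pos _) b)
  have h0 : nn (Af (lp (el (2 ^ m₁) j) i) (el (2 ^ m₁) j) u) 0 0 1 ≤ t * (k * el (2 ^ m₁) j) := by
    have e0 : lp (1 / ((2 ^ m₁ : ℕ) : ℝ) ^ 0) 0 = 0 := by simp [lp]; rfl
    have a := hnn 0 0 (by rw [e0]; simp) (by rw [e0]; simp) 0
    rw [e0, smul_zero, pow_zero, div_one, div_one, add_zero, add_zero,
      show sc (2 ^ m₁) 0 i = i by simp [sc]] at a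
    rw [a]
    exact mul_le_mul_of_nonneg_right hf (by positivity)
  have hx : T * (1 + k * el (2 ^ m₁) j ^ 2) ≤ t * (k * el (2 ^ m₁) j) := by
    have a : k * el (2 ^ m₁) j ^ 2 ≤ k * el (2 ^ m₁) j := by
      rw [pow_two, ← mul_assoc]
      exact mul_le_of_le_one_right (by positivity) (by linarith)
    calc _ ≤ T * (2 * (k * el (2 ^ m₁) j)) := mul_le_mul_of_nonneg_left (by linarith) (by linarith)
      _ = 2 * T * (k * el (2 ^ m₁) j) := by ring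
      _ ≤ _ := mul_le_mul_of_nonneg_right hT' (by positivity)
  obtain ⟨-, q, g, hq, hg, hS⟩ := hst _ _ _ _ _ 0 hsk (by positivity) (by positivity) hMs h0 hx
    (Or.inl (mul_le_mul_of_nonneg_right hK' (by positivity)))
  have ha1 : |(lp (1 / ((2 ^ m₁ : ℕ) : ℝ) ^ 1) (L - sc (2 ^ m₁) 1 i)).re| ≤ 3 :=
    inst3_div (by positivity) (by rw [pow_one]; exact_mod_cast hL.1)
  have ha2 : |(lp (1 / ((2 ^ m₁ : ℕ) : ℝ) ^ 1) (L - sc (2 ^ m₁) 1 i)).im| ≤ 3 :=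
    inst3_div (by positivity) (by rw [pow_one]; exact_mod_cast hL.2)
  have hS := hS _ hm hm1 hm0 ha1 ha2 (by
    have a := hnn 1 (L - sc (2 ^ m₁) 1 i) (by linarith) (by linarith) 0
    rw [smul_zero, add_sub_cancel] at a
    rw [← show (((2 ^ m₁ : ℕ) : ℝ)) ^ 1 = 2 ^ m₁ by rw [eM, mul_one], a]
    gcongr)
  generalize hκ' : k * el (2 ^ m₁) j = κ at *
  have ht0 : 0 < t := by linarith
  have hκ0 : 0 < κ := by linarith
  generalize hP : (2 : ℝ) ^ (m₁ * (r + 1)) = P at *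
  have hP0 : 0 < P := hP ▸ by positivity
  have h4 : (4 : ℝ) ^ (m₁ * (r + 1)) = P ^ 2 := by
    rw [← hP, pow_two, ← mul_pow]; norm_num
  set Q := sq (4 * 2 ^ (m₁ * (r + 1))) with hQ
  set S₀ := Q.filter fun d => |(lp (1 / P) d).re - (lp (1 / ((2 ^ m₁ : ℕ) : ℝ) ^ 1)
    (L - sc (2 ^ m₁) 1 i)).re| ≤ 1 ∧ |(lp (1 / P) d).im - (lp (1 / ((2 ^ m₁ : ℕ) : ℝ) ^ 1)
    (L - sc (2 ^ m₁) 1 i)).im| ≤ 1 ∧ c₁ * (t * κ) ≤ ‖q d‖ with hS₀
  set B := Q.filter fun d => β * c / (2 * P) * (t * κ) < g d with hBd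
  have hBc : (B.card : ℝ) ≤ θ / 2 * P ^ 2 := by
    have a : (B.card : ℝ) * (β * c / (2 * P) * (t * κ)) ≤ ∑ d ∈ B, g d := by
      rw [← nsmul_eq_mul]
      exact Finset.card_nsmul_le_sum _ _ _ fun d hd => (Finset.mem_filter.1 hd).2.le
    have b : ∑ d ∈ B, g d ≤ ∑ d ∈ Q, g d :=
      Finset.sum_le_sum_of_subset_of_nonneg (Finset.filter_subset _ _)
        fun d hd _ => (hq d hd).2.2.1
    have e := (a.trans b).trans hg
    rw [div_mul_eq_mul_div, div_le_iff₀ (by positivity)] at hB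
    refine le_of_mul_le_mul_right (e.trans ?_) (by positivity)
    rw [← mul_assoc (θ / 2 * P ^ 2)]
    refine mul_le_mul_of_nonneg_right ?_ (by positivity)
    have e2 : θ / 2 * P ^ 2 * (β * c / (2 * P)) = P * (β * c * θ) / 4 := by field_simp; ring
    rw [e2]; linarith
  refine ⟨(S₀ \ B).image fun d => sc (2 ^ m₁) (r + 1) i + d, ?_, ?_⟩
  · rw [Finset.card_image_of_injective _ (add_right_injective _), mul_comm 2, pow_mul, eM, hP]
    have a : (S₀.card : ℝ) ≤ (S₀ \ B).card + B.card := by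
      exact_mod_cast Finset.card_le_card_sdiff_add_card
    rw [h4] at hS
    linarith
  · intro i' hi'
    obtain ⟨d, hd, rfl⟩ := Finset.mem_image.1 hi'
    obtain ⟨hd0, hdB⟩ := Finset.mem_sdiff.1 hd
    obtain ⟨hdQ, hd1, hd2, hd3⟩ := Finset.mem_filter.1 hd0
    have hgd : g d ≤ β * c / (2 * P) * (t * κ) :=
      not_lt.1 fun hh => hdB (Finset.mem_filter.2 ⟨hdQ, hh⟩)
    have eP : (((2 ^ m₁ : ℕ) : ℝ)) ^ (r + 1) = P := by rw [eM, hP]
    refine ⟨⟨inst3_near hM (by rw [eP]; exact hd1), inst3_near hM (by rw [eP]; exact hd2)⟩,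
      κ⁻¹ • q d, ?_, ?_⟩
    · rw [norm_smul, Real.norm_eq_abs, abs_of_pos (inv_pos.2 hκ0), le_inv_mul_iff₀ hκ0]
      refine le_trans ?_ hd3
      nlinarith [mul_le_mul_of_nonneg_right hcc (mul_pos ht0 hκ0).le]
    · have hdQ' := hdQ
      simp only [hQ, sq, Finset.mem_product, Finset.mem_Icc] at hdQ'
      have a := hnn (r + 1) d
        (inst3_div (by positivity) (by rw [eM]; exact_mod_cast abs_le.2 hdQ'.1))
        (inst3_div (by positivity) (by rw [eM]; exact_mod_cast abs_le.2 hdQ'.2)) (κ⁻¹ • q d)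
      rw [smul_inv_smul₀ hκ0.ne', eP] at a
      have b := (hq d hdQ).1
      rw [zero_add, a, div_le_iff₀ hP0] at b
      refine le_of_mul_le_mul_right (b.trans ?_) hκ0
      calc _ ≤ (β * c / (2 * P) * (t * κ) + β * c / (2 * P) * (t * κ)) * P := by gcongr
        _ = _ := by field_simp; ring

end Pool.Agent.Lib.MP_a52643_an.YS
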