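import Pool.Agent.Lib.MP_a52643_an.YS.Defs

/-!
Lattices and coverings.
-/

namespace Pool.Agent.Lib.MP_a52643_an.YS

open Complex Filter Topology Metric MeasureTheory Set QS YA
open scoped ContDiff

variable {G : ℂ → ℝ} {s : ℝ}

theorem Lat_round (hs : 0 < s) (x : ℝ) : |s * (round (x / s) : ℤ) - x| ≤ s / 2 := by
  have h := mul_le_mul_of_nonneg_left (abs_sub_round (x / s)) hs.le
  rw [← abs_of_pos hs, ← abs_mul, abs_of_pos hs, mul_sub, mul_div_cancel₀ _ hs.ne',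
    abs_sub_comm] at h
  linarith

theorem lat_cov (hs : 0 < s) (z : ℂ) : ∃ i : ℤ × ℤ, |s * i.1 - z.re| ≤ s / 2 ∧
    |s * i.2 - z.im| ≤ s / 2 ∧ ‖z - lp s i‖ < s := by
  have h1 := Lat_round hs z.re
  have h2 := Lat_round hs z.im
  refine ⟨(round (z.re / s), round (z.im / s)), h1, h2, ?_⟩
  refine lt_of_pow_lt_pow_left₀ 2 hs.le ?_
  have h3 := pow_le_pow_left₀ (abs_nonneg _) h1 2
  have h4 := pow_le_pow_left₀ (abs_nonneg _) h2 2
  rw [sq_abs] at h3 h4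
  rw [Complex.sq_norm, Complex.normSq_apply]
  simp only [sub_re, sub_im, lp]
  nlinarith [sq_pos_of_pos hs]

theorem Lat_int (hG : Continuous G) (a : ℂ) (R : ℝ) : IntegrableOn G (ball a R) :=
  (hG.continuousOn.integrableOn_compact (isCompact_closedBall a R)).mono_set ball_subset_closedBall

theorem Lat_sum_ind (hG : Continuous G) (a : ℂ) (R ρ : ℝ) (S : Finset (ℤ × ℤ)) (c : ℤ × ℤ → ℂ) :
    Integrable (fun z => ∑ i ∈ S, (ball (c i) ρ).indicator G z) (volume.restrict (ball a R)) ∧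
    ∑ i ∈ S, ∫ z in ball (c i) ρ ∩ ball a R, G z =
      ∫ z in ball a R, ∑ i ∈ S, (ball (c i) ρ).indicator G z := by
  have h : ∀ i ∈ S, Integrable ((ball (c i) ρ).indicator G) (volume.restrict (ball a R)) :=
    fun i _ => (Lat_int hG a R).indicator measurableSet_ball
  refine ⟨integrable_finsetSum S h, ?_⟩
  rw [integral_finsetSum S h]
  exact Finset.sum_congr rfl fun i _ => by
    rw [setIntegral_indicator measurableSet_ball, inter_comm]

theorem Lat_cover (hG : Continuous G) (h0 : ∀ z, 0 ≤ G z) (a : ℂ) (R ρ : ℝ) (S : Finset (ℤ × ℤ))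
    (c : ℤ × ℤ → ℂ) (hS : ∀ z ∈ ball a R, ∃ i ∈ S, ‖z - c i‖ < ρ) :
    ∫ z in ball a R, G z ≤ ∑ i ∈ S, ∫ z in ball (c i) ρ ∩ ball a R, G z := by
  obtain ⟨h1, h2⟩ := Lat_sum_ind hG a R ρ S c
  rw [h2]
  refine setIntegral_mono_on (Lat_int hG a R) h1 measurableSet_ball fun z hz => ?_
  obtain ⟨i, hi, h⟩ := hS z hz
  refine le_trans ?_ (Finset.single_le_sum (fun j _ => indicator_nonneg (fun z _ => h0 z) z) hi)
  rw [indicator_of_mem (mem_ball_iff_norm.2 h)]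

theorem Lat_count (hs : 0 < s) {ρ : ℝ} (hρ : s ≤ ρ) (x : ℝ) : ∃ A : Finset ℤ,
    (A.card : ℝ) ≤ 3 * (ρ / s) ∧ ∀ n : ℤ, |x - s * n| < ρ → n ∈ A := by
  have h1 : 1 ≤ ρ / s := (one_le_div hs).2 hρ
  refine ⟨Finset.Icc ⌈(x - ρ) / s⌉ ⌊(x + ρ) / s⌋, ?_, fun n hn => ?_⟩
  · have h2 := Int.le_ceil ((x - ρ) / s)
    have h3 := Int.floor_le ((x + ρ) / s)
    rw [sub_div] at h2
    rw [add_div] at h3
    rw [Int.card_Icc, sub_div, add_div]
    rcases le_total (⌊x / s + ρ / s⌋ + 1 - ⌈x / s - ρ / s⌉) 0 with h | h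
    · rw [Int.toNat_of_nonpos h]
      push_cast
      linarith
    · rw [← Int.cast_natCast, Int.toNat_of_nonneg h]
      push_cast
      linarith
  · rw [abs_lt] at hn
    rw [Finset.mem_Icc, Int.ceil_le, Int.le_floor, div_le_iff₀' hs, le_div_iff₀' hs]
    constructor <;> linarith

theorem lat_sum (hG : Continuous G) (h0 : ∀ z, 0 ≤ G z) (hs : 0 < s) {ρ R : ℝ} (hρ : s ≤ ρ)
    (S : Finset (ℤ × ℤ)) (hS : ∀ i ∈ S, ‖lp s i‖ + ρ ≤ R) :
    ∑ i ∈ S, ∫ z in ball (lp s i) ρ, G z ≤ 9 * (ρ / s) ^ 2 * ∫ z in ball (0 : ℂ) R, G z := by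
  classical
  obtain ⟨h1, h2⟩ := Lat_sum_ind hG 0 R ρ S (lp s)
  rw [Finset.sum_congr rfl fun i hi => by
    rw [inter_eq_left.2 (ball_subset_ball' (by rw [dist_zero_right]; linarith [hS i hi]))]] at h2
  rw [h2, ← integral_const_mul]
  refine setIntegral_mono_on h1 ((Lat_int hG 0 R).const_mul _) measurableSet_ball fun z _ => ?_
  obtain ⟨A, a1, a2⟩ := Lat_count hs hρ z.re
  obtain ⟨B, b1, b2⟩ := Lat_count hs hρ z.im
  simp only [indicator_apply]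
  rw [← Finset.sum_filter, Finset.sum_const, nsmul_eq_mul]
  refine mul_le_mul_of_nonneg_right ?_ (h0 z)
  have h3 : S.filter (fun i => z ∈ ball (lp s i) ρ) ⊆ A ×ˢ B := fun i hi => by
    have h := mem_ball_iff_norm.1 (Finset.mem_filter.1 hi).2
    exact Finset.mem_product.2 ⟨a2 _ ((abs_re_le_norm (z - lp s i)).trans_lt h),
      b2 _ ((abs_im_le_norm (z - lp s i)).trans_lt h)⟩
  have h4 : ((S.filter (fun i => z ∈ ball (lp s i) ρ)).card : ℝ) ≤ A.card * B.card := by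
    exact_mod_cast (Finset.card_le_card h3).trans (Finset.card_product A B).le
  have h5 := mul_le_mul a1 b1 (Nat.cast_nonneg _) ((Nat.cast_nonneg _).trans a1)
  linarith

theorem lat_le (hG : Continuous G) (h0 : ∀ z, 0 ≤ G z) {ρ : ℝ} (a : ℂ) (S : Finset (ℤ × ℤ))
    (hS : ∀ z ∈ ball a ρ, ∃ i ∈ S, ‖z - lp s i‖ < s) :
    ∫ z in ball a ρ, G z ≤ ∑ i ∈ S, ∫ z in ball (lp s i) s, G z :=
  (Lat_cover hG h0 a ρ s S (lp s) hS).trans (Finset.sum_le_sum fun _ _ =>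
    setIntegral_mono_set (Lat_int hG _ _) (.of_forall h0) inter_subset_left.eventuallyLE)

theorem card_sq (R : ℕ) : ((sq R).card : ℝ) = (2 * R + 1) ^ 2 := by
  rw [sq, Finset.card_product, Int.card_Icc, show ((R : ℤ) + 1 - -R).toNat = 2 * R + 1 by omega]
  push_cast
  ring

theorem card_bx (R : ℕ) : ((bx R).card : ℝ) = 4 * (R : ℝ) ^ 2 := by
  rw [bx, Finset.card_product, Int.card_Ico, show ((R : ℤ) - -R).toNat = 2 * R by omega]
  push_cast
  ring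

theorem pig (hG : Continuous G) (h0 : ∀ z, 0 ≤ G z) {δ R : ℝ} (hδ : 0 < δ) (hR : δ ≤ R) (a : ℂ) :
    ∃ x, ‖x - a‖ ≤ R + δ ∧
      ∫ z in ball a R, G z ≤ 25 * (R / δ) ^ 2 * ∫ z in ball x δ ∩ ball a R, G z := by
  classical
  have h1 : 1 ≤ R / δ := (one_le_div hδ).2 hR
  obtain ⟨n, n1, n2⟩ : ∃ n : ℕ, (n : ℝ) ≤ R / δ + 1 ∧ R / δ + 1 < n + 1 :=
    ⟨⌊R / δ + 1⌋₊, Nat.floor_le (by linarith), Nat.lt_floor_add_one _⟩
  have n3 : R < δ * n := (div_lt_iff₀' hδ).1 (by linarith)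
  have key : ∀ (k : ℤ) (x : ℝ), |δ * k - x| ≤ δ / 2 → |x| < R → k ∈ Finset.Icc (-(n : ℤ)) n :=
    fun k x h h' => by
      rw [abs_le] at h
      rw [abs_lt] at h'
      have e1 : (k : ℝ) < n + 1 := lt_of_mul_lt_mul_left (by linarith) hδ.le
      have e2 : -(n : ℝ) - 1 < k := lt_of_mul_lt_mul_left (by linarith) hδ.le
      have e3 : k < n + 1 := by exact_mod_cast e1
      have e4 : -(n : ℤ) - 1 < k := by exact_mod_cast e2
      exact Finset.mem_Icc.2 ⟨by omega, by omega⟩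
  obtain ⟨S, hS⟩ : ∃ S, S = (sq n).filter fun i => ‖lp δ i‖ ≤ R + δ := ⟨_, rfl⟩
  have cov : ∀ z ∈ ball a R, ∃ i ∈ S, ‖z - (a + lp δ i)‖ < δ := fun z hz => by
    obtain ⟨i, i1, i2, i3⟩ := lat_cov hδ (z - a)
    have h := mem_ball_iff_norm.1 hz
    refine ⟨i, hS ▸ Finset.mem_filter.2 ⟨Finset.mem_product.2
      ⟨key _ _ i1 ((abs_re_le_norm _).trans_lt h), key _ _ i2 ((abs_im_le_norm _).trans_lt h)⟩, ?_⟩,
      by rwa [← sub_sub]⟩
    have := norm_sub_norm_le (lp δ i) (z - a)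
    rw [norm_sub_rev (lp δ i)] at this
    linarith
  obtain ⟨i0, hi0, -⟩ := cov a (mem_ball_self (by linarith))
  obtain ⟨i, hi, hm⟩ := S.exists_max_image
    (fun i => ∫ z in ball (a + lp δ i) δ ∩ ball a R, G z) ⟨i0, hi0⟩
  refine ⟨a + lp δ i, by rw [add_sub_cancel_left]; rw [hS, Finset.mem_filter] at hi; exact hi.2, ?_⟩
  refine ((Lat_cover hG h0 a R δ S _ cov).trans (Finset.sum_le_card_nsmul _ _ _ hm)).trans ?_
  rw [nsmul_eq_mul]
  refine mul_le_mul_of_nonneg_right ?_ (integral_nonneg h0)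
  have h2 : (S.card : ℝ) ≤ (sq n).card := by
    exact_mod_cast hS ▸ Finset.card_filter_le _ _
  rw [card_sq] at h2
  have h3 := pow_le_pow_left₀ (by positivity) (show 2 * (n : ℝ) + 1 ≤ 5 * (R / δ) by linarith) 2
  linarith

end Pool.Agent.Lib.MP_a52643_an.YS
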