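import Pool.Agent.Lib.MP_a52643_an.YS.Tree4
import Pool.Agent.Lib.MP_a52643_an.YS.Lat

/-!
The mean of the index over the leaves is bounded.
-/

namespace Pool.Agent.Lib.MP_a52643_an.YS

open Finset
open scoped Classical

theorem tree5_big (a : ℝ) {b : ℝ} (hb : 0 ≤ b) :
    ∃ Λ : ℝ, 1 < Λ ∧ a < Λ ∧ b * Λ ≤ Λ ^ (3 / 2 : ℝ) := by
  refine ⟨(|a| + b + 2) ^ 2, by nlinarith [abs_nonneg a], by
    nlinarith [abs_nonneg a, le_abs_self a], ?_⟩
  have h : 0 ≤ |a| + b + 2 := by positivity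
  rw [← Real.rpow_natCast _ 2, ← Real.rpow_mul h, show ((2 : ℕ) : ℝ) * (3 / 2) = (3 : ℕ) by
    norm_num, Real.rpow_natCast, Real.rpow_natCast, pow_succ' _ 2]
  exact mul_le_mul_of_nonneg_right (by linarith [abs_nonneg a]) (sq_nonneg _)

theorem tree5_layer {x τ G : ℝ} (hτ : 0 ≤ τ) (hG : 0 ≤ G) (I : ℕ) (h : x < τ * G ^ I) :
    x ≤ τ + ∑ i ∈ range I, if τ * G ^ i ≤ x then τ * G ^ (i + 1) else 0 := by
  induction I with
  | zero => simpa using h.le
  | succ I ih =>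
    have h0 : 0 ≤ ∑ i ∈ range I, if τ * G ^ i ≤ x then τ * G ^ (i + 1) else 0 :=
      sum_nonneg fun i _ => by split_ifs <;> positivity
    rw [sum_range_succ]
    split_ifs with h1
    · linarith
    · linarith [ih (not_le.1 h1)]

theorem tree (M m : ℕ) (T K c θ t₁ : ℝ) : ∃ C : ℝ, 0 ≤ C ∧
    ∀ (J n : ℕ) (f : ℕ → ℤ × ℤ → ℂ → ℝ) (fl : ℕ → ℝ), Tr M J (n + 11) m T K c θ t₁ f fl →
      ∑ y ∈ bx (n * (M : ℤ) ^ J), f J y 0 ≤ C * (n + 11) ^ 2 * (M : ℝ) ^ (2 * J) := by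
  by_cases hp : ¬ (1 ≤ T ∧ 1 ≤ K ∧ 0 < c ∧ c ≤ 1 ∧ 0 < θ)
  · exact ⟨0, le_rfl, fun J n f fl h => absurd ⟨h.hT, h.hK, h.c0, h.c1, h.θ0⟩ hp⟩
  obtain ⟨hT, hK, c0, c1, θ0⟩ := not_not.1 hp
  obtain ⟨B, hB⟩ : ∃ B : ℝ, B = (4 * T ^ 2) ^ (3 / 2 : ℝ) * (2 / θ * (81 * (m + 1))) := ⟨_, rfl⟩
  have B0 : 0 ≤ B := by rw [hB]; positivity
  obtain ⟨Λ, L1, L2, L3⟩ := tree5_big (T ^ m + T) (b := 8 * B / c) (by positivity)
  have Tm : 1 ≤ T ^ m := one_le_pow₀ hT
  obtain ⟨G, hG⟩ : ∃ G : ℝ, G = 4 * Λ / c := ⟨_, rfl⟩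
  have G1 : c * G = 4 * Λ := by rw [hG]; field_simp
  have G0 : 0 < G := by rw [hG]; positivity
  have G2 : T ≤ G := by nlinarith
  obtain ⟨τ, hτ⟩ : ∃ τ : ℝ, τ = |t₁| + 8 * T * K := ⟨_, rfl⟩
  have TK : K ≤ T * K := le_mul_of_one_le_left (by linarith) hT
  have τ1 : K < τ := by linarith [abs_nonneg t₁]
  have τ0 : 0 < τ := by linarith
  refine ⟨4 * (τ + 2 * (τ * G)), by positivity, fun J n f fl h => ?_⟩
  have M4 := h.hM
  have M1 : 1 ≤ M := by omega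
  have Mp : ∀ r : ℕ, (0 : ℤ) < (M : ℤ) ^ r := fun r => by positivity
  have Mm : ∀ r : ℕ, (M : ℤ) ^ (J - r) ≤ (M : ℤ) ^ J := fun r =>
    pow_le_pow_right₀ (by exact_mod_cast M1) (by omega)
  obtain ⟨N, hN⟩ : ∃ N : ℕ → ℝ, N = fun i => (((bx (n * (M : ℤ) ^ J + 10 * (M : ℤ) ^ (J - i))).filter
    fun y => τ * G ^ i ≤ f J y 0).card : ℝ) := ⟨_, rfl⟩
  obtain ⟨Z, hZ⟩ : ∃ Z : ℝ, Z = 4 * (n + 11) ^ 2 * (M : ℝ) ^ (2 * J) := ⟨_, rfl⟩
  have Z1 : ∀ S : Finset (ℤ × ℤ), S ⊆ bx (n * (M : ℤ) ^ J + 11 * (M : ℤ) ^ J) →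
      (S.card : ℝ) ≤ Z := fun S hS => by
    have := card_bx ((n + 11) * M ^ J)
    rw [hZ, mul_comm 2 J, pow_mul, mul_assoc, ← mul_pow]
    push_cast at this
    rw [← this, add_mul]
    exact_mod_cast card_le_card hS
  have N1 : ∀ i, i ≤ J → G ^ i * N i ≤ Z / 2 ^ i := by
    intro i
    induction i with
    | zero =>
      intro _
      rw [hN, pow_zero, pow_zero, one_mul, div_one]
      exact Z1 _ ((filter_subset _ _).trans (bx_mono (by linarith [Mm 0, Mp J])))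
    | succ i ih =>
      intro hi
      have g1 : T ^ i ≤ G ^ i := pow_le_pow_left₀ (by linarith) G2 i
      have g2 : 1 ≤ T ^ i := one_le_pow₀ hT
      obtain ⟨t, ht⟩ : ∃ t : ℝ, t = 4 * (τ * G ^ i) / c := ⟨_, rfl⟩
      have e1 : c * t = 4 * (τ * G ^ i) := by rw [ht]; field_simp
      have e2 : Λ * t = τ * G ^ (i + 1) := by rw [ht, hG, pow_succ]; ring
      have e3 : τ ≤ τ * G ^ i := le_mul_of_one_le_right τ0.le (by linarith)
      have e4 : 0 < t := by rw [ht]; positivity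
      have e5 : c * t ≤ t := mul_le_of_le_one_left e4.le c1
      have e6 : T ^ i * K ≤ τ * G ^ i := by
        rw [mul_comm]; exact mul_le_mul τ1.le g1 (by linarith) τ0.le
      have e7 : (M : ℤ) ^ (J - i) = M * (M : ℤ) ^ (J - (i + 1)) := by
        rw [← pow_succ']; congr 1; omega
      have e8 : 2 * (M : ℤ) ^ (J - (i + 1)) ≤ (M : ℤ) ^ (J - i) := by
        rw [e7]; exact mul_le_mul_of_nonneg_right (by omega) (Mp _).le
      have g3 := good h (t := t) (Λ := Λ) (by linarith [le_abs_self t₁])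
        (by linarith [abs_nonneg t₁]) (by linarith) (g₀ := i) (by linarith)
        (R := n * (M : ℤ) ^ J + 10 * (M : ℤ) ^ (J - (i + 1)))
        (by push_cast; linarith [Mm i, Mp J])
      rw [← hB, e2, e1, show 4 * (τ * G ^ i) / 4 = τ * G ^ i by ring] at g3
      have g4 : Λ ^ (3 / 2 : ℝ) * N (i + 1) ≤ B * N i := by
        rw [hN]
        refine g3.trans (mul_le_mul_of_nonneg_left (Nat.cast_le.2 (card_le_card
          (filter_subset_filter _ (bx_mono (by linarith))))) B0)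
      have n0 : ∀ i, 0 ≤ N i := fun i => by rw [hN]; exact Nat.cast_nonneg _
      have g5 : 2 * G * N (i + 1) ≤ N i := by
        have q0 : 0 < Λ ^ (3 / 2 : ℝ) := Real.rpow_pos_of_pos (by linarith) _
        have q1 : 2 * G * B ≤ Λ ^ (3 / 2 : ℝ) := by
          refine le_trans (le_of_eq ?_) L3
          rw [hG]; ring
        refine le_of_mul_le_mul_left ?_ q0
        nlinarith [mul_le_mul_of_nonneg_left g4 G0.le, mul_le_mul_of_nonneg_right q1 (n0 i)]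
      have g6 := mul_le_mul_of_nonneg_left g5 (by positivity : 0 ≤ G ^ i)
      have g7 := ih (by omega)
      rw [pow_succ 2, ← div_div, pow_succ]
      linarith
  have sub : bx (n * (M : ℤ) ^ J) ⊆ bx (n * (M : ℤ) ^ J + 11 * (M : ℤ) ^ J) :=
    bx_mono (by linarith [Mp J])
  have F1 : ∀ y ∈ bx (n * (M : ℤ) ^ J), f J y 0 ≤
      τ + ∑ i ∈ range (J + 1), if τ * G ^ i ≤ f J y 0 then τ * G ^ (i + 1) else 0 := by
    intro y hy
    refine tree5_layer τ0.le G0.le _ ?_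
    have h1 : up M J y ∈ bx ((n + 11 : ℕ) : ℤ) := by
      rw [up_mem_bx M1]; push_cast; rw [add_mul]; exact sub hy
    have h2 := grow h le_rfl J 0 y (by omega) (by simpa using h1) (h.root _ h1)
    have g1 : T ^ J ≤ G ^ J := pow_le_pow_left₀ (by linarith) G2 J
    have g2 : G ^ J ≤ G ^ (J + 1) := pow_le_pow_right₀ (by linarith) (by omega)
    have g3 : 0 < G ^ (J + 1) := by positivity
    rw [zero_add] at h2
    nlinarith
  have Z0 : 0 ≤ Z := by rw [hZ]; positivity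
  refine (sum_le_sum F1).trans ?_
  rw [sum_add_distrib, sum_const, nsmul_eq_mul, sum_comm]
  have s1 := mul_le_mul_of_nonneg_right (Z1 _ sub) τ0.le
  have s2 : ∑ i ∈ range (J + 1), ∑ y ∈ bx (n * (M : ℤ) ^ J),
      (if τ * G ^ i ≤ f J y 0 then τ * G ^ (i + 1) else 0) ≤
      ∑ i ∈ range (J + 1), τ * G * Z * (1 / 2) ^ i := sum_le_sum fun i hi => by
    rw [← sum_filter, sum_const, nsmul_eq_mul]
    have a1 := N1 i (Nat.lt_succ_iff.1 (mem_range.1 hi))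
    have a2 : (((bx (n * (M : ℤ) ^ J)).filter fun y => τ * G ^ i ≤ f J y 0).card : ℝ) ≤ N i := by
      rw [hN]
      exact Nat.cast_le.2 (card_le_card
        (filter_subset_filter _ (bx_mono (by linarith [Mp (J - i)]))))
    calc _ ≤ N i * (τ * G ^ (i + 1)) := mul_le_mul_of_nonneg_right a2 (by positivity)
      _ = τ * G * (G ^ i * N i) := by ring
      _ ≤ τ * G * (Z / 2 ^ i) := mul_le_mul_of_nonneg_left a1 (by positivity)
      _ = _ := by rw [one_div, inv_pow]; ring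
  rw [← mul_sum] at s2
  have s3 := mul_le_mul_of_nonneg_left (sum_geometric_two_le (J + 1))
    (by positivity : 0 ≤ τ * G * Z)
  calc _ ≤ (τ + 2 * (τ * G)) * Z := by linarith
    _ = _ := by rw [hZ]; ring

end Pool.Agent.Lib.MP_a52643_an.YS
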