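import Pool.Agent.Lib.MP_a52643_an.YS.Inst2
import Pool.Agent.Lib.MP_a52643_an.YS.Inst3
import Pool.Agent.Lib.MP_a52643_an.YS.Tree5

/-!
The mean doubling index at the scale of the wave length.
-/

namespace Pool.Agent.Lib.MP_a52643_an.YS

open Complex Filter Topology Metric MeasureTheory Set QS YA
open scoped ContDiff

theorem inst4_el {M : ℕ} (hM : 4 ≤ M) (j : ℕ) : 0 < el M j := by
  have : (0 : ℝ) < M := by exact_mod_cast (by omega : 0 < M)
  unfold el; positivity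

theorem inst4_norm' {M : ℕ} (hM : 4 ≤ M) {j : ℕ} {i : ℤ × ℤ} {R : ℤ}
    (hR : R ≤ 76 * (M : ℤ) ^ j) (hi : i ∈ bx R) : ‖lp (el M j) i‖ ≤ 1 := by
  have hM' : (0 : ℝ) < (M : ℝ) ^ j := by
    have : (0 : ℝ) < M := by exact_mod_cast (by omega : 0 < M)
    positivity
  have key : ∀ a : ℤ, a ∈ Finset.Ico (-R) R → (el M j * a) ^ 2 ≤ 1 / 2 := by
    intro a ha
    obtain ⟨h1, h2⟩ := Finset.mem_Ico.1 ha
    have h3 : -(76 * (M : ℝ) ^ j) ≤ a := by exact_mod_cast (neg_le_neg hR).trans h1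
    have h4 : (a : ℝ) ≤ 76 * (M : ℝ) ^ j := by exact_mod_cast h2.le.trans hR
    have e : el M j * a = a / (128 * (M : ℝ) ^ j) := by unfold el; ring
    have h5 : -(76 / 128) ≤ el M j * a := by rw [e, le_div_iff₀ (by positivity)]; linarith
    have h6 : el M j * a ≤ 76 / 128 := by rw [e, div_le_iff₀ (by positivity)]; linarith
    nlinarith
  obtain ⟨h1, h2⟩ := Finset.mem_product.1 hi
  have h3 := key _ h1
  have h4 := key _ h2
  have h5 : ‖lp (el M j) i‖ ^ 2 ≤ 1 := by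
    rw [Complex.sq_norm, Complex.normSq_apply]
    change el M j * i.1 * (el M j * i.1) + el M j * i.2 * (el M j * i.2) ≤ 1
    nlinarith
  nlinarith [norm_nonneg (lp (el M j) i)]

theorem inst4_norm {M : ℕ} (hM : 4 ≤ M) {j : ℕ} {i : ℤ × ℤ}
    (hi : i ∈ bx ((76 : ℕ) * (M : ℤ) ^ j)) : ‖lp (el M j) i‖ ≤ 1 :=
  inst4_norm' hM (by push_cast; exact le_rfl) hi

theorem inst4_mass {u V : ℂ → ℝ} {l A : ℝ} (h : Nm u V l A) {c : ℂ} (hc : ‖c‖ ≤ 1) {r : ℝ}
    (hr : r ≤ 2) : Ms u 0 c r ≤ 36 := by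
  have hu : ContDiff ℝ ∞ u := h.sl.hu
  refine (Ms_mono h.sl.hu 0 (c := 0) (s := 3) (by rw [sub_zero]; linarith)).trans ?_
  have h1 := loc1_int_le (F := fun z => u z ^ 2 * Real.exp (-2 * dt 0 z)) (G := fun _ => 0)
    (by simp only [dt]; fun_prop) continuous_const (R := 3) (α := 0) (β := 1) fun z hz => by
      have := abs_le.1 (h.le z (by linarith))
      simp only [dt, zero_re, zero_im, zero_mul, add_zero, mul_zero, Real.exp_zero, mul_one,
        zero_add]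
      nlinarith
  refine h1.trans ?_
  rw [zero_mul, zero_add, one_mul, Measure.real, Complex.volume_ball]
  simp only [ENNReal.toReal_mul, ENNReal.toReal_pow, ENNReal.coe_toReal, NNReal.coe_real_pi,
    ENNReal.toReal_ofReal (by norm_num : (0 : ℝ) ≤ 3)]
  nlinarith [Real.pi_le_four]

theorem inst4_fls {M : ℕ} (hM : 4 ≤ M) {k T : ℝ} (hT : 0 ≤ T) {J : ℕ}
    (hk : 128 * (M : ℝ) ^ J ≤ k) :
    ∑ j ∈ Finset.range J, T * (1 / (k * el M j) + el M j) ≤ 3 * T := by
  have hM' : (4 : ℝ) ≤ M := by exact_mod_cast hM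
  have hJ : (0 : ℝ) < (M : ℝ) ^ J := by positivity
  have hk0 : 0 < k := by linarith
  have h1 : ∀ n, ∑ j ∈ Finset.range n, (M : ℝ) ^ j ≤ (M : ℝ) ^ n := by
    intro n
    induction n with
    | zero => simp
    | succ n ih =>
      rw [Finset.sum_range_succ, pow_succ]
      have : (0 : ℝ) < (M : ℝ) ^ n := by positivity
      nlinarith
  have h2 : ∑ j ∈ Finset.range J, 1 / (k * el M j) ≤ 1 := by
    have e : ∀ j, 1 / (k * el M j) = 128 / k * (M : ℝ) ^ j := fun j => by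
      unfold el; field_simp
    simp only [e]
    rw [← Finset.mul_sum, div_mul_eq_mul_div, div_le_one hk0]
    linarith [h1 J]
  have h3 : ∑ j ∈ Finset.range J, el M j ≤ 2 := by
    refine le_trans (Finset.sum_le_sum fun j _ => ?_) (sum_geometric_two_le J)
    have h4 : (2 : ℝ) ^ j ≤ (M : ℝ) ^ j := pow_le_pow_left₀ (by norm_num) (by linarith) j
    have h5 : (0 : ℝ) < 2 ^ j := by positivity
    rw [one_div_pow, el]
    exact one_div_le_one_div_of_le h5 (by linarith)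
  rw [← Finset.mul_sum, Finset.sum_add_distrib]
  nlinarith

theorem inst4_mono {M J n : ℕ} {T K K' : ℝ} {f : ℕ → ℤ × ℤ → ℂ → ℝ} {fl : ℕ → ℝ}
    (h : StepC M J n T K f fl) (hK : K ≤ K') : StepC M J n T K' f fl :=
  fun j i σ a h1 h2 h3 h4 h5 =>
    h j i σ a h1 h2 h3 h4 (h5.imp (fun h => hK.trans h) fun h => hK.trans h)

theorem inst4_one {u V : ℂ → ℝ} {l A : ℝ} (h : Nm u V l A) : 1 ≤ A + √l := by
  have := Real.le_sqrt_of_sq_le (show (1 : ℝ) ^ 2 ≤ l by linarith [h.hl])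
  linarith [h.hA]

theorem inst4_root {u V : ℂ → ℝ} {l A C : ℝ} (h : Nm u V l A) {M : ℕ} {i : ℤ × ℤ}
    (hi : ‖lp (el M 0) i‖ ≤ 1)
    (hC : Real.exp (-(C * (A + √l))) ≤ Ms u 0 (lp (el M 0) i) (2 / 128)) :
    fN u (128 * (A + √l)) M 0 i 0 ≤ 36 + C := by
  have h1 := inst4_one h
  have e : el M 0 = 1 / 128 := by simp [el]
  have h2 := inst4_mass h hi (r := 210 * el M 0) (by rw [e]; norm_num)
  have h3 := Real.log_le_self (Ms_nonneg u 0 (lp (el M 0) i) (210 * el M 0))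
  have h4 := Real.log_le_log (Real.exp_pos _) hC
  rw [Real.log_exp] at h4
  have e2 : 2 * el M 0 = 2 / 128 := by rw [e]; norm_num
  have e3 : 128 * (A + √l) * el M 0 = A + √l := by rw [e]; ring
  rw [fN, smul_zero, nn, e2, e3, div_le_iff₀ (by linarith)]
  nlinarith

theorem inst4_root' {u V : ℂ → ℝ} {l A C K : ℝ} (h : Nm u V l A) {M n : ℕ} (hM : 4 ≤ M)
    (hn : n ≤ 76) (hK : 36 + C ≤ K)
    (hC : ∀ y : ℂ, ‖y‖ ≤ 1 → Real.exp (-(C * (A + √l))) ≤ Ms u 0 y (2 / 128)) :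
    ∀ i ∈ bx n, fN u (128 * (A + √l)) M 0 i 0 ≤ K := by
  intro i hi
  have h1 : (n : ℤ) ≤ 76 * (M : ℤ) ^ 0 := by
    rw [pow_zero, mul_one]; exact_mod_cast hn
  have hi' : ‖lp (el M 0) i‖ ≤ 1 := inst4_norm' hM h1 hi
  exact (inst4_root h hi' (hC _ hi')).trans hK

theorem avg : ∃ C L : ℝ, 0 ≤ C ∧ 1 ≤ L ∧ ∀ (u V : ℂ → ℝ) (l A : ℝ), Nm u V l A →
    ∃ (s : ℝ) (R : ℕ), 0 < s ∧ s ≤ 1 / 128 ∧ l * s ^ 2 ≤ L ∧ 1 / s ≤ 128 * (A + √l) ∧
      R * s = 65 / 128 ∧ ∑ i ∈ bx R, (1 + nn u 0 (lp s i) s) ≤ C / s ^ 2 := by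
  obtain ⟨m₀, hm₀⟩ := inst_step
  obtain ⟨T, K, hT, hK, hstep⟩ := hm₀ (max m₀ 9) (le_max_left _ _)
  obtain ⟨c, θ, c0, c1, θ0, hl⟩ := inst_launch (max m₀ 9) (le_max_right _ _)
  obtain ⟨m, t₁, hm, hlaunch⟩ := hl (1 / (32 * T)) (by positivity)
  obtain ⟨C₀, hC₀, hlp⟩ := lp0 (ρ := 2 / 128) (by norm_num)
  have hM : 4 ≤ 2 ^ max m₀ 9 :=
    le_trans (by norm_num) (Nat.pow_le_pow_right two_pos (le_max_right m₀ 9))
  generalize 2 ^ max m₀ 9 = M at hstep hlaunch hM
  have hM' : (4 : ℝ) ≤ M := by exact_mod_cast hM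
  obtain ⟨C, hC, htree⟩ := tree M m T (K + 3 * T + (36 + C₀)) c θ t₁
  refine ⟨4 * 65 ^ 2 + M * (C * 76 ^ 2), (M : ℝ) ^ 2, by positivity, by nlinarith,
    fun u V l A h => ?_⟩
  have h1 := inst4_one h
  obtain ⟨J, hJ1, hJ2⟩ := exists_nat_pow_near h1 (show (1 : ℝ) < M by linarith)
  have hJ : (1 : ℝ) ≤ (M : ℝ) ^ J := one_le_pow₀ (by linarith)
  have hs := inst4_el hM
  have hk : 0 < 128 * (A + √l) := by linarith
  have hsq : √l ≤ 128 * (A + √l) := by linarith [h.hA, Real.sqrt_nonneg l]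
  have e : 128 * (A + √l) * el M J = (A + √l) / (M : ℝ) ^ J := by unfold el; field_simp
  have hks : 1 ≤ 128 * (A + √l) * el M J := by rwa [e, le_div_iff₀ (by linarith), one_mul]
  have hks' : 128 * (A + √l) * el M J ≤ M := by
    rw [e, div_le_iff₀ (by linarith), ← pow_succ']; exact hJ2.le
  have hpos : ∀ j i, i ∈ bx ((76 : ℕ) * (M : ℤ) ^ j) → 0 ≤ fN u (128 * (A + √l)) M j i 0 :=
    fun j i hi => div_nonneg (nn_nonneg h.sl.hu (hs j)
      (nm_pos h (inst4_norm hM hi) (by linarith [hs j]) _)) (mul_pos hk (hs j)).le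
  have htr : Tr M J 76 m T (K + 3 * T + (36 + C₀)) c θ t₁ (fN u (128 * (A + √l)) M)
      fun j => T * (1 / (128 * (A + √l) * el M j) + el M j) :=
    { hM := hM
      hm := hm
      hT := by linarith
      hK := by linarith
      c0 := c0
      c1 := c1
      θ0 := θ0
      fl0 := fun j => by have := hs j; positivity
      fls := (inst4_fls hM (by linarith) (by linarith)).trans (by linarith)
      pos := fun j i _ hi => hpos j i hi
      root := inst4_root' h hM le_rfl (by linarith) fun y hy => hlp u V l A y h hy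
      tilt := fun j i σ _ hi => by
        have h2 := nn_tilt h.sl.hu (hs j)
          (nm_pos h (inst4_norm hM hi) (by linarith [hs j]) 0) ((128 * (A + √l)) • σ)
        have h3 := mul_pos hk (hs j)
        rw [norm_smul, Real.norm_of_nonneg hk.le] at h2
        rw [fN, fN, smul_zero, div_add' _ _ _ h3.ne', div_le_div_iff_of_pos_right h3]
        nlinarith [mul_nonneg (mul_nonneg (sub_nonneg.2 hT) (norm_nonneg σ)) h3.le]
      step := inst4_mono (hstep u V l A _ J h hsq) (by linarith)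
      launch := hlaunch u V l A _ J h hsq hks }
  have h2 := htree J 65 _ _ htr
  have eR : (((65 * M ^ J : ℕ) : ℤ)) = (65 : ℕ) * (M : ℤ) ^ J := by push_cast; ring
  have es : 1 / el M J = 128 * (M : ℝ) ^ J := by unfold el; rw [one_div_one_div]
  refine ⟨el M J, 65 * M ^ J, hs J, ?_, ?_, by rw [es]; linarith, ?_, ?_⟩
  · exact one_div_le_one_div_of_le (by norm_num) (by linarith)
  · have h3 : √l * el M J ≤ M := by nlinarith [hs J]
    have h4 : l * el M J ^ 2 = (√l * el M J) ^ 2 := by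
      rw [mul_pow, Real.sq_sqrt (by linarith [h.hl])]
    rw [h4]
    exact pow_le_pow_left₀ (mul_nonneg (Real.sqrt_nonneg l) (hs J).le) h3 2
  · unfold el; push_cast; field_simp
  · have h3 : ∑ i ∈ bx ((65 * M ^ J : ℕ) : ℤ), nn u 0 (lp (el M J) i) (el M J) ≤
        M * (C * 76 ^ 2 * (M : ℝ) ^ (2 * J)) := by
      rw [eR]
      refine le_trans (Finset.sum_le_sum (g := fun i => M * fN u (128 * (A + √l)) M J i 0)
        fun i hi => ?_) ?_
      · have h4 := hpos J i (bx_mono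
          (by push_cast; nlinarith [pow_nonneg (Int.natCast_nonneg M) J]) hi)
        have h5 : nn u 0 (lp (el M J) i) (el M J) =
            128 * (A + √l) * el M J * fN u (128 * (A + √l)) M J i 0 := by
          rw [fN, smul_zero, mul_div_cancel₀ _ (by linarith)]
        rw [h5]
        exact mul_le_mul_of_nonneg_right hks' h4
      · rw [← Finset.mul_sum]
        refine mul_le_mul_of_nonneg_left (h2.trans (le_of_eq ?_)) (by linarith)
        norm_num
    rw [Finset.sum_add_distrib, Finset.sum_const, nsmul_eq_mul, mul_one, card_bx,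
      div_eq_mul_one_div, ← one_div_pow, es]
    rw [pow_mul'] at h3
    refine le_trans (add_le_add le_rfl h3) ?_
    push_cast
    have h6 : 0 ≤ (M : ℝ) * (C * 76 ^ 2) * ((M : ℝ) ^ J) ^ 2 := by positivity
    nlinarith [sq_nonneg ((M : ℝ) ^ J)]

end Pool.Agent.Lib.MP_a52643_an.YS
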