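import Pool.Agent.Lib.MP_a52643_an.YS.Lat
import Pool.Agent.Lib.MP_a52643_an.YS.Gau

/-!
Tilted masses.
-/

namespace Pool.Agent.Lib.MP_a52643_an.YS

open Complex Filter Topology Metric MeasureTheory Set QS YA
open scoped ContDiff

variable {u V : ℂ → ℝ} {p q c a x : ℂ} {r s N t : ℝ}

theorem Mas_int {G : ℂ → ℝ} (hG : Continuous G) (c : ℂ) (r : ℝ) : IntegrableOn G (ball c r) :=
  (hG.continuousOn.integrableOn_compact (isCompact_closedBall c r)).mono_set ball_subset_closedBall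

theorem Mas_cont (hu : Sm u) (p : ℂ) : Continuous fun z => u z ^ 2 * Real.exp (-2 * dt p z) := by
  have h1 : Continuous u := hu.continuous
  have h2 : Continuous (dt p) := (sm_dt p).continuous
  fun_prop

theorem Mas_contW (hu : Sm u) (p : ℂ) (N : ℝ) (x : ℂ) : Continuous (Wt u p N x) :=
  (Mas_cont hu p).mul (by fun_prop)

theorem Mas_dt_add (p q z : ℂ) : dt (p + q) z = dt p z + dt q z := by
  simp only [dt, add_re, add_im]
  ring

theorem Mas_dt_neg (p z : ℂ) : dt (-p) z = -dt p z := by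
  simp only [dt, neg_re, neg_im]
  ring

theorem Mas_pt (u : ℂ → ℝ) (p q : ℂ) {z : ℂ} (hz : ‖z - c‖ ≤ r) :
    u z ^ 2 * Real.exp (-2 * dt (p + q) z) ≤
      Real.exp (-2 * dt q c + 2 * ‖q‖ * r) * (u z ^ 2 * Real.exp (-2 * dt p z)) := by
  have h1 : dt q z = dt q c + dt q (z - c) := by
    simp only [dt, sub_re, sub_im]
    ring
  have h2 := (abs_le.1 (abs_dt_le q (z - c))).1
  have h3 : ‖q‖ * ‖z - c‖ ≤ ‖q‖ * r := mul_le_mul_of_nonneg_left hz (norm_nonneg _)
  rw [mul_left_comm, ← Real.exp_add, Mas_dt_add]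
  exact mul_le_mul_of_nonneg_left (Real.exp_le_exp.2 (by linarith)) (sq_nonneg _)

theorem Ms_nonneg (u : ℂ → ℝ) (p c : ℂ) (r : ℝ) : 0 ≤ Ms u p c r :=
  integral_nonneg fun _ => by positivity

theorem Ms_mono (hu : Sm u) (p : ℂ) (h : ‖a - c‖ + r ≤ s) : Ms u p a r ≤ Ms u p c s :=
  setIntegral_mono_set (Mas_int (Mas_cont hu p) c s) (Eventually.of_forall fun _ => by positivity)
    (ball_subset_ball' (by rw [dist_eq_norm]; linarith)).eventuallyLE

theorem Ms_tilt (hu : Sm u) (p q c : ℂ) (r : ℝ) :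
    Ms u (p + q) c r ≤ Real.exp (-2 * dt q c + 2 * ‖q‖ * r) * Ms u p c r := by
  rw [Ms, Ms, ← integral_const_mul]
  exact setIntegral_mono_on (Mas_int (Mas_cont hu _) c r)
    ((Mas_int (Mas_cont hu p) c r).const_mul _) measurableSet_ball fun z hz =>
      Mas_pt u p q (mem_ball_iff_norm.1 hz).le

theorem Ms_pos (hu : Sm u) (h : 0 < Ms u p c r) (q : ℂ) : 0 < Ms u q c r := by
  have h1 := Ms_tilt hu q (p - q) c r
  rw [add_sub_cancel] at h1
  exact (mul_pos_iff_of_pos_left (Real.exp_pos _)).1 (h.trans_le h1)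

theorem Ms_Af (hs : 0 < s) (u : ℂ → ℝ) (p c y : ℂ) (r : ℝ) :
    s ^ 2 * Ms (Af c s u) (s • p) y r = Real.exp (2 * dt p c) * Ms u p (c + s • y) (s * r) := by
  set H : ℂ → ℝ := (ball (c + s • y) (s * r)).indicator
    fun w => u w ^ 2 * Real.exp (-2 * dt p w) with hH
  have h1 := Measure.integral_comp_smul volume (fun w => H (c + w)) s
  rw [finrank_real_complex, abs_of_nonneg (by positivity), smul_eq_mul,
    integral_add_left_eq_self] at h1
  have h2 : ∀ z, (ball y r).indicator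
      (fun z => Af c s u z ^ 2 * Real.exp (-2 * dt (s • p) z)) z =
      Real.exp (2 * dt p c) * H (c + s • z) := by
    intro z
    have e : c + s • z ∈ ball (c + s • y) (s * r) ↔ z ∈ ball y r := by
      rw [mem_ball, mem_ball, dist_add_left, dist_smul₀, Real.norm_of_nonneg hs.le,
        mul_lt_mul_iff_right₀ hs]
    by_cases hz : z ∈ ball y r
    · rw [hH, indicator_of_mem hz, indicator_of_mem (e.2 hz), mul_left_comm, ← Real.exp_add, Af]
      congr 2
      simp only [dt, add_re, add_im, smul_re, smul_im, smul_eq_mul]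
      ring
    · rw [hH, indicator_of_notMem hz, indicator_of_notMem (fun h => hz (e.1 h)), mul_zero]
  rw [Ms, Ms, ← integral_indicator measurableSet_ball, ← integral_indicator measurableSet_ball]
  simp only [h2]
  rw [integral_const_mul, h1, ← hH]
  field_simp

theorem nn_Af (hu : Sm u) (hs : 0 < s) (hr : 0 < r) {y : ℂ}
    (h : 0 < Ms u p (c + s • y) (2 * (s * r))) :
    nn (Af c s u) (s • p) y r = nn u p (c + s • y) (s * r) := by
  have hsr : 0 < s * r := mul_pos hs hr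
  have h' : 0 < Ms u p (c + s • y) (210 * (s * r)) :=
    h.trans_le (Ms_mono hu p (by rw [sub_self, norm_zero]; linarith))
  have key : ∀ k : ℝ, 0 < Ms u p (c + s • y) (k * (s * r)) →
      Real.log (Ms (Af c s u) (s • p) y (k * r)) =
        2 * dt p c + Real.log (Ms u p (c + s • y) (k * (s * r))) - Real.log (s ^ 2) := by
    intro k hk
    have h1 := Ms_Af hs u p c y (k * r)
    rw [mul_left_comm s k r] at h1
    have h2 : Ms (Af c s u) (s • p) y (k * r) =
        Real.exp (2 * dt p c) * Ms u p (c + s • y) (k * (s * r)) / s ^ 2 := by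
      rw [← h1]
      field_simp
    rw [h2, Real.log_div (by positivity) (by positivity),
      Real.log_mul (Real.exp_pos _).ne' hk.ne', Real.log_exp]
  rw [nn, nn, key 210 h', key 2 h]
  ring

theorem nn_nonneg (hu : Sm u) (hs : 0 < s) (h : 0 < Ms u p c (2 * s)) : 0 ≤ nn u p c s :=
  sub_nonneg.2 (Real.log_le_log h (Ms_mono hu p (by rw [sub_self, norm_zero]; linarith)))

theorem Mas_log (hu : Sm u) (q : ℂ) (h : 0 < Ms u p c r) :
    Real.log (Ms u (p + q) c r) ≤ -2 * dt q c + 2 * ‖q‖ * r + Real.log (Ms u p c r) := by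
  have h1 := Real.log_le_log (Ms_pos hu h (p + q)) (Ms_tilt hu p q c r)
  rwa [Real.log_mul (Real.exp_pos _).ne' h.ne', Real.log_exp] at h1

theorem nn_tilt (hu : Sm u) (hs : 0 < s) (h : 0 < Ms u 0 c (2 * s)) (p : ℂ) :
    nn u 0 c s ≤ nn u p c s + 424 * ‖p‖ * s := by
  have h' : 0 < Ms u 0 c (210 * s) :=
    h.trans_le (Ms_mono hu 0 (by rw [sub_self, norm_zero]; linarith))
  have h1 := Mas_log hu p h
  have h2 := Mas_log hu (-p) (Ms_pos hu h' p)
  rw [zero_add] at h1
  rw [add_neg_cancel, Mas_dt_neg, norm_neg] at h2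
  rw [nn, nn]
  linarith

theorem sk_Af {l k R R' : ℝ} (h : Sl u V l R) (hl : l ≤ k ^ 2) (hs : 0 < s)
    (hR : ‖c‖ + s * R' ≤ R) :
    Sk (Af c s u) (fun z => s ^ 2 * Af c s V z) (k * s) (k * s ^ 2) R' := by
  have hz : ∀ z : ℂ, ‖z‖ < R' → ‖c + s • z‖ < R := fun z hz => by
    have h1 := norm_add_le c (s • z)
    rw [norm_smul, Real.norm_of_nonneg hs.le] at h1
    linarith [mul_lt_mul_of_pos_left hz hs]
  refine ⟨smAf h.hu c s, contDiff_const.mul (smAf h.hV c s), fun z h1 => ?_, fun z h1 => ?_⟩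
  · rw [Lap_Af h.hu, h.eq _ (hz z h1)]
    simp only [Af]
    ring
  · obtain ⟨b1, b2⟩ := h.bd _ (hz z h1)
    constructor
    · rw [abs_mul, abs_of_nonneg (sq_nonneg s), mul_pow, mul_comm (k ^ 2)]
      exact mul_le_mul_of_nonneg_left (b1.trans hl) (sq_nonneg s)
    · have e : gn (fun z => s ^ 2 * Af c s V z) z = s ^ 3 * gn V (c + s • z) := by
        rw [gn, gn, D_cmul (smAf h.hV c s), D_cmul (smAf h.hV c s), D_Af h.hV, D_Af h.hV]
        simp only [Af, abs_mul, abs_of_nonneg (sq_nonneg s), abs_of_nonneg hs.le]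
        ring
      rw [e, show k * s * (k * s ^ 2) = s ^ 3 * k ^ 2 by ring]
      exact mul_le_mul_of_nonneg_left (b2.trans hl) (by positivity)

theorem Lm_le (hu : Sm u) (hN : 0 ≤ N) (ht : 0 ≤ t) (h : ‖x - a‖ + t ≤ r) :
    Lm u p N x ≤ Ms u p a r + Real.exp (-N * t ^ 2) * Ms u p 0 210 := by
  have i1 := Mas_int (Mas_cont hu p) 0 210
  have h1 : ∫ z in ball (0 : ℂ) 210, (ball a r).indicator
      (fun z => u z ^ 2 * Real.exp (-2 * dt p z)) z ≤ Ms u p a r := by
    rw [setIntegral_indicator measurableSet_ball]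
    exact setIntegral_mono_set (Mas_int (Mas_cont hu p) a r)
      (Eventually.of_forall fun _ => by positivity) inter_subset_right.eventuallyLE
  refine le_trans ?_ (add_le_add h1 le_rfl)
  rw [Ms, ← integral_const_mul, ← integral_add (i1.indicator measurableSet_ball) (i1.const_mul _)]
  refine setIntegral_mono_on (Mas_int (Mas_contW hu p N x) 0 210)
    ((i1.indicator measurableSet_ball).add (i1.const_mul _)) measurableSet_ball fun z _ => ?_
  have g0 : 0 ≤ u z ^ 2 * Real.exp (-2 * dt p z) := by positivity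
  by_cases hz : z ∈ ball a r
  · rw [indicator_of_mem hz, Wt]
    have h2 : Real.exp (-N * ‖z - x‖ ^ 2) ≤ 1 :=
      Real.exp_le_one_iff.2 (by nlinarith [sq_nonneg ‖z - x‖])
    exact (mul_le_of_le_one_right g0 h2).trans (le_add_of_nonneg_right (by positivity))
  · rw [indicator_of_notMem hz, zero_add, Wt, mul_comm]
    rw [mem_ball_iff_norm, not_lt] at hz
    have h2 := norm_sub_le_norm_sub_add_norm_sub z x a
    have h3 : t ^ 2 ≤ ‖z - x‖ ^ 2 := pow_le_pow_left₀ ht (by linarith) 2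
    exact mul_le_mul_of_nonneg_right (Real.exp_le_exp.2 (by nlinarith)) g0

theorem Lm_low (hu : Sm u) (hN : 0 ≤ N) (ht : 0 ≤ t)
    (h : 2 * (Real.exp (-N * t ^ 2) * Ms u p 0 210) ≤ Lm u p N x) (q : ℂ) :
    Real.exp (-2 * dt q x - 2 * ‖q‖ * t) * Lm u p N x ≤ 2 * Ms u (p + q) x t := by
  have h1 := Lm_le (p := p) (x := x) (a := x) (r := t) hu hN ht (by simp)
  have h2 := Ms_tilt hu (p + q) (-q) x t
  rw [add_neg_cancel_right, Mas_dt_neg, norm_neg] at h2
  have h3 : Lm u p N x ≤ 2 * (Real.exp (-2 * -dt q x + 2 * ‖q‖ * t) * Ms u (p + q) x t) := by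
    linarith
  refine (mul_le_mul_of_nonneg_left h3 (Real.exp_pos _).le).trans (le_of_eq ?_)
  rw [mul_left_comm, ← mul_assoc (Real.exp _), ← Real.exp_add,
    show -2 * dt q x - 2 * ‖q‖ * t + (-2 * -dt q x + 2 * ‖q‖ * t) = 0 by ring, Real.exp_zero,
    one_mul]

theorem Lm_upp (hu : Sm u) (ht : 0 < t) (hr : t ≤ r) (hN : 0 ≤ N) (hNt : N * t ^ 2 ≤ 1)
    (h : ‖a‖ + r ≤ 210) (p q : ℂ) : ∃ x, ‖x - a‖ ≤ r + t ∧ Ms u (p + q) a r ≤
      75 * (r / t) ^ 2 * Real.exp (-2 * dt q x + 2 * ‖q‖ * t) * Lm u p N x := by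
  obtain ⟨x, h1, h2⟩ := pig (Mas_cont hu (p + q)) (fun _ => by positivity) ht hr a
  refine ⟨x, h1, h2.trans ?_⟩
  have iW := Mas_int (Mas_contW hu p N x) 0 210
  have hsub : ball x t ∩ ball a r ⊆ ball (0 : ℂ) 210 :=
    inter_subset_right.trans (ball_subset_ball' (by rw [dist_zero_right]; linarith))
  have h3 : ∫ z in ball x t ∩ ball a r, Wt u p N x z ≤ Lm u p N x :=
    setIntegral_mono_set iW (Eventually.of_forall fun _ => by unfold Wt; positivity)
      hsub.eventuallyLE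
  have h4 : ∫ z in ball x t ∩ ball a r, u z ^ 2 * Real.exp (-2 * dt (p + q) z) ≤
      3 * Real.exp (-2 * dt q x + 2 * ‖q‖ * t) * ∫ z in ball x t ∩ ball a r, Wt u p N x z := by
    rw [← integral_const_mul]
    refine setIntegral_mono_on ((Mas_int (Mas_cont hu _) x t).mono_set inter_subset_left)
      ((iW.mono_set hsub).const_mul _) (measurableSet_ball.inter measurableSet_ball) fun z hz => ?_
    have z1 := (mem_ball_iff_norm.1 hz.1).le
    refine (Mas_pt u p q z1).trans ?_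
    have z2 : ‖z - x‖ ^ 2 ≤ t ^ 2 := pow_le_pow_left₀ (norm_nonneg _) z1 2
    have z3 : Real.exp (-1) ≤ Real.exp (-N * ‖z - x‖ ^ 2) := Real.exp_le_exp.2 (by nlinarith)
    have z4 : 1 ≤ 3 * Real.exp (-1) := by
      rw [Real.exp_neg, ← div_eq_mul_inv, le_div_iff₀ (Real.exp_pos _)]
      linarith [Real.exp_one_lt_d9]
    have g0 : 0 ≤ Real.exp (-2 * dt q x + 2 * ‖q‖ * t) * (u z ^ 2 * Real.exp (-2 * dt p z)) := by
      positivity
    refine (le_mul_of_one_le_right g0
      (show 1 ≤ 3 * Real.exp (-N * ‖z - x‖ ^ 2) by linarith)).trans (le_of_eq ?_)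
    rw [Wt]
    ring
  refine (mul_le_mul_of_nonneg_left (h4.trans (mul_le_mul_of_nonneg_left h3 (by positivity)))
    (by positivity)).trans (le_of_eq (by ring))

end Pool.Agent.Lib.MP_a52643_an.YS
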