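import Pool.Agent.Lib.MP_a52643_an.YS.Defs

/-!
Averages of nearly subharmonic functions.
-/

namespace Pool.Agent.Lib.MP_a52643_an.YS

open Complex Filter Topology Metric MeasureTheory Set QS YA
open scoped ContDiff

variable {Φ : ℂ → ℝ} {r : ℝ} {z : ℂ}

theorem Pot1_mono {Ψ : ℂ → ℝ} (h : Continuous Φ) (h' : Continuous Ψ) (k : ℕ) (hr : 0 ≤ r)
    (hb : ∀ y, ‖y - z‖ ≤ r → Φ y ≤ Ψ y) : av (k + 1) r Φ z ≤ av (k + 1) r Ψ z := by
  refine integral_mono (intP (by fun_prop) k) (intP (by fun_prop) k) fun s => ?_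
  rcases le_total ‖s‖ 1 with h1 | h1
  · refine mul_le_mul_of_nonneg_right (hb _ ?_) (P_nonneg _ _)
    rw [add_sub_cancel_left, norm_smul, Real.norm_of_nonneg hr]
    exact mul_le_of_le_one_right hr h1
  · simp [P_out h1]

theorem Pot1_const (k : ℕ) (r c : ℝ) (z : ℂ) : av k r (fun _ => c) z = c * cP k := by
  simp only [av, cP, integral_const_mul]

theorem Pot1_sub (h : Continuous Φ) (k : ℕ) (r c : ℝ) (z : ℂ) :
    av (k + 1) r (fun y => Φ y - c) z = av (k + 1) r Φ z - c * cP (k + 1) := by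
  have h1 := av_add h (continuous_const (y := -c)) k r z
  rw [Pot1_const] at h1
  simp only [sub_eq_add_neg, h1, neg_mul]

theorem sm_Fr (h : Sm Φ) (r : ℝ) : Sm (Fr r Φ) := (sm_av h 2 r).div_const _

theorem D_Fr (h : Sm Φ) (r : ℝ) (v : ℂ) : D v (Fr r Φ) = Fr r (D v Φ) := by
  have e : ∀ G : ℂ → ℝ, Fr r G = fun z => (cP 3)⁻¹ * av (2 + 1) r G z := fun G => by
    funext z
    rw [Fr, div_eq_inv_mul]
  rw [e, e, D_cmul (sm_av h 2 r), D_av h]

theorem Fr_le (h : Continuous Φ) (hr : 0 ≤ r) {b : ℝ} (hb : ∀ y, ‖y - z‖ ≤ r → Φ y ≤ b) :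
    Fr r Φ z ≤ b := by
  have h1 := Pot1_mono h continuous_const 2 hr hb
  rw [Pot1_const] at h1
  exact (div_le_iff₀ (cP_pos 2)).2 h1

theorem Fr_mono {Ψ : ℂ → ℝ} (h : Continuous Φ) (h' : Continuous Ψ) (hr : 0 ≤ r) {b : ℝ}
    (hb : ∀ y, ‖y - z‖ ≤ r → Φ y - b ≤ Ψ y) : Fr r Φ z - b ≤ Fr r Ψ z := by
  have h1 := Pot1_mono (Φ := fun y => Φ y - b) (by fun_prop) h' 2 hr hb
  have hP : 0 < cP 3 := cP_pos 2
  rw [Pot1_sub h] at h1
  rw [Fr, Fr, le_div_iff₀ hP, sub_mul, div_mul_cancel₀ _ hP.ne']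
  exact h1

theorem Fr_abs (h : Continuous Φ) (hr : 0 < r) (c : ℝ) (z : ℂ) :
    cP 3 * r ^ 2 * |Fr r Φ z - c| ≤ ∫ y in ball z r, |Φ y - c| := by
  have h1 := av_le_ball (G := fun y => Φ y - c) (by fun_prop) 2 hr z
  have hP : 0 < cP 3 := cP_pos 2
  rw [Pot1_sub h] at h1
  refine le_of_eq_of_le ?_ h1
  rw [mul_comm (cP 3), mul_assoc, ← abs_of_pos hP, ← abs_mul, abs_of_pos hP, Fr, mul_sub,
    mul_div_cancel₀ _ hP.ne', mul_comm (cP 3)]

theorem Pot1_odd (q z : ℂ) (r : ℝ) : av 3 r (fun y => dt q (y - z)) z = 0 := by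
  have h := ibp (F := fun _ => 1) contDiff_const 2 q
  have e : ∀ s : ℂ, dt q (z + r • s - z) * P 3 s =
      r * (1 * (s.re * q.re + s.im * q.im) * P (2 + 1) s) := fun s => by
    rw [add_sub_cancel_left, dt]
    simp
    ring
  simp only [D, fderiv_fun_const, Pi.zero_apply, zero_apply, zero_mul,
    integral_zero] at h
  simp only [av, e, integral_const_mul]
  rw [(mul_eq_zero.1 h.symm).resolve_left (by norm_num), mul_zero]

theorem Fr_pt (h : Continuous Φ) (hr : 0 ≤ r) (q z : ℂ) :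
    ∃ x, ‖x - z‖ ≤ r ∧ Fr r Φ z ≤ Φ x - dt q (x - z) := by
  have c1 : Continuous fun y => dt q (y - z) := (sm_dt q).continuous.comp (by fun_prop)
  obtain ⟨x, hx, hm⟩ := (isCompact_closedBall z r).exists_isMaxOn (nonempty_closedBall.2 hr)
    (h.sub c1).continuousOn
  refine ⟨x, mem_closedBall_iff_norm.1 hx, ?_⟩
  have h1 := Pot1_mono (z := z) (Ψ := fun y => (Φ x - dt q (x - z)) + dt q (y - z)) h
    (continuous_const.add c1) 2 hr fun y hy => by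
      have : Φ y - dt q (y - z) ≤ Φ x - dt q (x - z) := hm (mem_closedBall_iff_norm.2 hy)
      linarith
  rw [av_add continuous_const c1, Pot1_const, Pot1_odd, add_zero] at h1
  exact (div_le_iff₀ (cP_pos 2)).2 h1

theorem Pot1_om {X₁ X₂ : ℂ → ℝ} {om : ℝ} (h : NS Φ X₁ X₂ om 30) : 0 ≤ om :=
  (abs_nonneg _).trans (h.bd 0 (by simp)).2.1

theorem Pot1_lap {X₁ X₂ : ℂ → ℝ} {om : ℝ} (h : NS Φ X₁ X₂ om 30) (k : ℕ) (hr : 0 < r)
    (hz : ‖z‖ + r < 30) :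
    -((4 * r + 16 * (k + 2)) * om) ≤ r * av (k + 2) r (Lap Φ) z := by
  have h0 := Pot1_om h
  have hy : ∀ y, ‖y - z‖ ≤ r → ‖y‖ < 30 := fun y hy => by
    have := norm_add_le (y - z) z
    rw [sub_add_cancel] at this
    linarith
  have c1 := (smD h.h1 1).continuous
  have c2 := (smD h.h2 I).continuous
  have cL := (smLap h.hΦ).continuous
  have h1 := av_ge (z := z) (F := fun y => Lap Φ y + dv X₁ X₂ y)
    (cL.add (smdv h.h1 h.h2).continuous) (k + 1) hr.le h0 fun y hy' => (h.bd y (hy y hy')).1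
  have e : av (k + 1 + 1) r (fun y => Lap Φ y + dv X₁ X₂ y) z = av (k + 2) r (Lap Φ) z +
      (av (k + 2) r (D 1 X₁) z + av (k + 2) r (D I X₂) z) := by
    rw [av_add cL (smdv h.h1 h.h2).continuous]
    exact congrArg _ (av_add c1 c2 (k + 1) r z)
  have b : ∀ (X : ℂ → ℝ) (v : ℂ), Sm X → ‖v‖ ≤ 1 → (∀ y, ‖y‖ < 30 → |X y| ≤ om) →
      r * av (k + 2) r (D v X) z ≤ 8 * (k + 2) * om := fun X v hX hv hb => by
    have a1 := av_D_le hX k hr hv z
    have a2 := Pot1_mono (z := z) hX.continuous.abs continuous_const k hr.le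
      fun y hy' => hb y (hy y hy')
    rw [Pot1_const] at a2
    have a3 := mul_le_mul_of_nonneg_left (cP_le k) h0
    have a4 := mul_le_mul_of_nonneg_left (le_abs_self (av (k + 2) r (D v X) z)) hr.le
    have a5 := mul_le_mul_of_nonneg_left (a2.trans a3) (by positivity : (0 : ℝ) ≤ 2 * (k + 2))
    linarith
  have b1 := b X₁ 1 h.h1 (by simp) fun y hy => (h.bd y hy).2.1
  have b2 := b X₂ I h.h2 (by simp) fun y hy => (h.bd y hy).2.2
  rw [e] at h1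
  have h2 := mul_le_mul_of_nonneg_left h1 hr.le
  linarith

theorem Fr_sub : ∃ C : ℝ, 1 ≤ C ∧ ∀ (Φ X₁ X₂ : ℂ → ℝ) (om t : ℝ) (z : ℂ), NS Φ X₁ X₂ om 30 →
    0 ≤ t → t ≤ 1 → ‖z‖ < 29 → Φ z - C * om * t ≤ Fr t Φ z := by
  have hP : 0 < cP 3 := cP_pos 2
  refine ⟨1 + 9 / cP 3, le_add_of_nonneg_right (by positivity),
    fun Φ X₁ X₂ om t z h t0 t1 hz => ?_⟩
  have h0 := Pot1_om h
  rcases t0.eq_or_lt with rfl | ht
  · rw [Fr, av_zero, mul_zero, sub_zero, mul_div_cancel_left₀ _ hP.ne']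
  obtain ⟨r, ⟨r0, r1⟩, hr⟩ := exists_hasDerivAt_eq_slope _ _ ht
    (fun r _ => (av_deriv h.hΦ 2 z r).continuousAt.continuousWithinAt)
    fun r _ => av_deriv h.hΦ 2 z r
  rw [av_zero, sub_zero, eq_div_iff ht.ne'] at hr
  have h1 := Pot1_lap (z := z) h 2 r0 (by linarith)
  have h2 : -(68 * om) ≤ r * av (2 + 2) r (Lap Φ) z := by
    have : r * om ≤ 1 * om := mul_le_mul_of_nonneg_right (r1.le.trans t1) h0
    push_cast at h1
    linarith
  have h3 := mul_le_mul_of_nonneg_right h2 t0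
  have h4 : 0 ≤ om * t := mul_nonneg h0 t0
  have h5 : (1 + 9 / cP 3) * om * t * cP 3 = om * t * cP 3 + 9 * (om * t) := by
    field_simp
  have h6 := mul_nonneg h4 hP.le
  rw [Fr, le_div_iff₀ hP, sub_mul, h5]
  push_cast at hr
  have h7 : av 3 t Φ z - cP 3 * Φ z = r * av (2 + 2) r (Lap Φ) z * t / 8 := by
    rw [← hr]
    ring
  linarith

theorem ns_L1 : ∃ C : ℝ, 1 ≤ C ∧ ∀ (Φ X₁ X₂ : ℂ → ℝ) (om ν c : ℝ) (y₀ : ℂ), NS Φ X₁ X₂ om 30 →
    om ≤ ν → (∀ z, Φ z ≤ c) → ‖y₀‖ ≤ 3 → c - ν ≤ Φ y₀ →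
    ∫ z in ball (0 : ℂ) 10, |Φ z - c| ≤ C * ν ∧
      ∫ z in ball (0 : ℂ) 9, |Lap Φ z + dv X₁ X₂ z| ≤ C * ν := by
  obtain ⟨C, hC, hm⟩ := mass_le (R := 9) (by norm_num)
  refine ⟨C * (2 + 2 * 10 ^ 7), by nlinarith, fun Φ X₁ X₂ om ν c y₀ h hν hc hy hy' => ?_⟩
  have h0 := Pot1_om h
  have c0 := h.hΦ.continuous
  have h1 := submean (z := y₀) (t := 26) (b := 136 * om) (c := c) h.hΦ (by norm_num)
    (by positivity) (fun y _ => hc y) fun s s0 s1 => by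
      have a1 := Pot1_lap (z := y₀) h 0 s0 (by linarith)
      have a2 : s * om ≤ 26 * om := mul_le_mul_of_nonneg_right s1 h0
      rw [← neg_div, div_le_iff₀' s0]
      push_cast at a1
      linarith
  have h2 : ∫ z in ball (0 : ℂ) 10, |Φ z - c| ≤ ∫ y in ball y₀ (26 / 2), (c - Φ y) := by
    have e : (fun z => |Φ z - c|) = fun z => c - Φ z := funext fun z => by
      rw [abs_sub_comm, abs_of_nonneg (sub_nonneg.2 (hc z))]
    rw [e]
    refine setIntegral_mono_set (intB (by fun_prop) _ _)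
      (Eventually.of_forall fun z => sub_nonneg.2 (hc z)) (LE.le.eventuallyLE ?_)
    refine ball_subset_ball' ?_
    rw [dist_zero_left]
    linarith
  have h3 : ∫ z in ball (0 : ℂ) 10, |Φ z - c| ≤ 2 * 10 ^ 7 * ν := by linarith
  have h4 := hm Φ X₁ X₂ om om c (2 * 10 ^ 7 * ν) h.hΦ h.h1 h.h2 h0 h0
    (fun z hz => h.bd z (by linarith)) (by rw [show (9 : ℝ) + 1 = 10 by norm_num]; exact h3)
  have h5 : 0 ≤ ν := h0.trans hν
  have h6 : (om + 2 * 10 ^ 7 * ν + om) ≤ (2 + 2 * 10 ^ 7) * ν := by linarith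
  have h7 := mul_le_mul_of_nonneg_left h6 (zero_le_one.trans hC)
  have h8 := mul_le_mul_of_nonneg_right hC (by positivity : 0 ≤ (2 + 2 * 10 ^ 7) * ν)
  constructor <;> linarith

end Pool.Agent.Lib.MP_a52643_an.YS
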