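import Pool.Agent.Lib.MP_a52643_an.YS.Pot1

/-!
Derivatives of the averages, scale by scale.
-/

namespace Pool.Agent.Lib.MP_a52643_an.YS

open Complex Filter Topology Metric MeasureTheory Set QS YA
open scoped ContDiff

/-- Iterated directional derivatives. -/
private noncomputable def pot2DL : List ℂ → (ℂ → ℝ) → ℂ → ℝ
  | [], H => H
  | v :: l, H => D v (pot2DL l H)

private theorem pot2_sm {H : ℂ → ℝ} (h : Sm H) : ∀ l : List ℂ, Sm (pot2DL l H)
  | [] => h
  | v :: l => smD (pot2_sm h l) v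

private theorem pot2_app (H : ℂ → ℝ) (v : ℂ) :
    ∀ l : List ℂ, pot2DL (l ++ [v]) H = pot2DL l (D v H)
  | [] => rfl
  | w :: l => congrArg (D w) (pot2_app H v l)

private theorem pot2_add {F G : ℂ → ℝ} (hF : Sm F) (hG : Sm G) : ∀ l : List ℂ,
    pot2DL l (fun s => F s + G s) = fun z => pot2DL l F z + pot2DL l G z
  | [] => rfl
  | w :: l => by
    change D w (pot2DL l fun s => F s + G s) = _
    rw [pot2_add hF hG l, D_add (pot2_sm hF l) (pot2_sm hG l)]
    rfl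

private theorem pot2_Lap {F : ℂ → ℝ} (hF : Sm F) :
    ∀ l : List ℂ, Lap (pot2DL l F) = pot2DL l (Lap F)
  | [] => rfl
  | w :: l => by
    change Lap (D w (pot2DL l F)) = D w (pot2DL l (Lap F))
    rw [Lap_D (pot2_sm hF l), pot2_Lap hF l]

private theorem pot2_Af {F : ℂ → ℝ} (hF : Sm F) (z : ℂ) (t : ℝ) : ∀ l : List ℂ,
    pot2DL l (Af z t F) = fun s => t ^ l.length * Af z t (pot2DL l F) s
  | [] => by
    funext s
    simp [pot2DL]
  | w :: l => by
    change D w (pot2DL l (Af z t F)) = _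
    rw [pot2_Af hF z t l, D_cmul (smAf (pot2_sm hF l) z t), D_Af (pot2_sm hF l)]
    funext s
    simp only [List.length_cons, pot2DL]
    ring

private theorem pot2_P (k : ℕ) (s : ℂ) : P (k + 1) s ≤ P 1 s := by
  induction k with
  | zero => exact le_rfl
  | succ k ih => exact (P_succ_le _ s).trans ih

private theorem pot2_ibp : ∀ (l : List ℂ) (k : ℕ) (g : ℂ → ℝ), Sm g → ∃ C : ℝ, 0 ≤ C ∧
    ∀ H : ℂ → ℝ, Sm H →
      |∫ w, pot2DL l H w * g w * P (k + l.length + 1) w| ≤ C * ∫ w, |H w| * P 1 w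
  | [], k, g, hg => by
    obtain ⟨C, hC⟩ := (isCompact_closedBall (0 : ℂ) 1).exists_bound_of_continuousOn
      hg.continuous.continuousOn
    have C0 : 0 ≤ C := (norm_nonneg _).trans (hC 0 (by simp))
    refine ⟨C, C0, fun H hH => ?_⟩
    have c0 := hH.continuous
    rw [← integral_const_mul, ← Real.norm_eq_abs]
    refine norm_integral_le_of_norm_le ((intP (by fun_prop) 0).const_mul C)
      (Eventually.of_forall fun w => ?_)
    rcases le_total ‖w‖ 1 with h1 | h1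
    · have a1 : |g w| ≤ C := hC w (mem_closedBall_zero_iff.2 h1)
      have a2 := mul_le_mul a1 (pot2_P k w) (P_nonneg _ _) C0
      have a3 := mul_le_mul_of_nonneg_left a2 (abs_nonneg (H w))
      simp only [pot2DL, List.length_nil, add_zero]
      rw [Real.norm_eq_abs, abs_mul, abs_mul, abs_of_nonneg (P_nonneg _ _)]
      linarith
    · simp [P_out h1]
  | v :: l, k, g, hg => by
    have hg1 : Sm fun w => g w * dt w v := by
      refine hg.mul ?_
      exact (reCLM.contDiff.mul contDiff_const).add (imCLM.contDiff.mul contDiff_const)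
    obtain ⟨C1, p1, h1⟩ := pot2_ibp l k _ hg1
    obtain ⟨C2, p2, h2⟩ := pot2_ibp l (k + 1) _ (smD hg v)
    refine ⟨2 * ((k + l.length : ℕ) + 2) * C1 + C2, by positivity, fun H hH => ?_⟩
    have sG := pot2_sm hH l
    have c0 := sG.continuous
    have c1 := (smD sG v).continuous
    have c2 := hg.continuous
    have c3 := (smD hg v).continuous
    have e := ibp (sG.mul hg) (k + l.length) v
    rw [D_mul sG hg] at e
    simp only [add_mul (D v (pot2DL l H) _ * g _)] at e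
    rw [integral_add (intP (by fun_prop) _) (intP (by fun_prop) _)] at e
    have a1 := h1 H hH
    have a2 := h2 H hH
    rw [show k + 1 + l.length + 1 = k + l.length + 2 by ring] at a2
    have e1 : ∫ w, pot2DL l H w * (g w * dt w v) * P (k + l.length + 1) w =
        ∫ w, pot2DL l H w * g w * (w.re * v.re + w.im * v.im) * P (k + l.length + 1) w := by
      congr 1
      funext w
      simp only [dt]
      ring
    have k0 : (0 : ℝ) ≤ 2 * ((k + l.length : ℕ) + 2) := by positivity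
    have a3 := mul_le_mul_of_nonneg_left a1 k0
    rw [e1, ← abs_of_nonneg k0, ← abs_mul, abs_of_nonneg k0] at a3
    change |∫ w, D v (pot2DL l H) w * g w * P (k + l.length + 2) w| ≤ _
    rw [← e] at a3
    rw [abs_le] at a2 a3 ⊢
    constructor <;> linarith [a2.1, a2.2, a3.1, a3.2]

private theorem pot2_av (l : List ℂ) (k : ℕ) : ∃ C : ℝ, 0 ≤ C ∧
    ∀ (H : ℂ → ℝ) (s : ℝ) (z : ℂ), Sm H → 0 < s →
      s ^ l.length * |av (k + l.length + 1) s (pot2DL l H) z| ≤
        C * av 1 s (fun y => |H y|) z := by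
  obtain ⟨C, p, h⟩ := pot2_ibp l k (fun _ => 1) contDiff_const
  refine ⟨C, p, fun H s z hH hs => ?_⟩
  have a := h _ (smAf hH z s)
  rw [pot2_Af hH] at a
  simp only [mul_one, mul_assoc, integral_const_mul, Af] at a
  rw [abs_mul, abs_of_pos (pow_pos hs _)] at a
  exact a

private theorem pot2_ball {H : ℂ → ℝ} (hH : Continuous H) {s r : ℝ} (hs : 0 < s) (hr : s ≤ r)
    (z : ℂ) : s ^ 2 * av 1 s (fun y => |H y|) z ≤ ∫ y in ball z r, |H y| := by
  have a := av_le_ball hH.abs 0 hs z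
  simp only [abs_abs, zero_add] at a
  refine ((mul_le_mul_of_nonneg_left (le_abs_self _) (sq_nonneg s)).trans a).trans ?_
  exact setIntegral_mono_set (intB hH.abs z r) (Eventually.of_forall fun y => abs_nonneg _)
    (ball_subset_ball hr).eventuallyLE

private theorem pot2_sup {H : ℂ → ℝ} {s b : ℝ} {z : ℂ} (hs : 0 < s)
    (h : ∀ y, ‖y - z‖ ≤ s → |H y| ≤ b) : av 1 s (fun y => |H y|) z ≤ 4 * b := by
  have hb : 0 ≤ b := (abs_nonneg _).trans (h z (by simpa using hs.le))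
  have h2 := abs_int_le (f := fun w => |H (z + s • w)|) (H := b) (fun w hw => by
    rw [abs_abs]
    refine h _ ?_
    rw [add_sub_cancel_left, norm_smul, Real.norm_of_nonneg hs.le]
    nlinarith) 0
  have h3 := mul_le_mul_of_nonneg_left (cP_le 0) hb
  have h4 : av (0 + 1) s (fun y => |H y|) z ≤ b * 4 := ((le_abs_self _).trans h2).trans h3
  rw [zero_add] at h4
  linarith

private theorem pot2_step (l : List ℂ) (k : ℕ) (hk : k + l.length = 2) : ∃ C : ℝ, 0 ≤ C ∧
    ∀ (Φ X₁ X₂ : ℂ → ℝ) (om s r : ℝ) (z : ℂ), NS Φ X₁ X₂ om 30 → ‖z‖ < 29 → 0 < s → s ≤ r →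
      r ≤ 1 → s ^ l.length * (s ^ 2 * |av 4 s (Lap (pot2DL l Φ)) z|) ≤
        C * (∫ y in ball z r, |Lap Φ y + dv X₁ X₂ y|) + C * om * s := by
  obtain ⟨C0, p0, h0⟩ := pot2_av l (k + 1)
  obtain ⟨C1, p1, h1⟩ := pot2_av (l ++ [1]) k
  obtain ⟨C2, p2, h2⟩ := pot2_av (l ++ [I]) k
  refine ⟨C0 + 4 * C1 + 4 * C2, by positivity, fun Φ X₁ X₂ om s r z h hz hs hr hr1 => ?_⟩
  have sL := smLap h.hΦ
  have s1 := smD h.h1 1
  have s2 := smD h.h2 I
  have sT : Sm fun y => Lap Φ y + dv X₁ X₂ y := sL.add (smdv h.h1 h.h2)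
  have hb : ∀ y, ‖y - z‖ ≤ s → ‖y‖ < 30 := fun y hy => by
    have := norm_add_le (y - z) z
    rw [sub_add_cancel] at this
    linarith
  have om0 : 0 ≤ om := (abs_nonneg _).trans (h.bd 0 (by simp)).2.1
  have a0 := h0 _ s z sT hs
  have a1 := h1 _ s z h.h1 hs
  have a2 := h2 _ s z h.h2 hs
  have b0 := pot2_ball sT.continuous hs hr z
  have b1 := pot2_sup hs fun y hy => (h.bd y (hb y hy)).2.1
  have b2 := pot2_sup hs fun y hy => (h.bd y (hb y hy)).2.2
  simp only [List.length_append, List.length_cons, List.length_nil, zero_add, pot2_app] at a1 a2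
  rw [show k + 1 + l.length + 1 = 4 by omega] at a0
  rw [show k + (l.length + 1) + 1 = 4 by omega] at a1 a2
  have e : av 4 s (pot2DL l fun y => Lap Φ y + dv X₁ X₂ y) z =
      av 4 s (Lap (pot2DL l Φ)) z + (av 4 s (pot2DL l (D 1 X₁)) z +
        av 4 s (pot2DL l (D I X₂)) z) := by
    have e1 : pot2DL l (dv X₁ X₂) = _ := pot2_add s1 s2 l
    have e2 := av_add (pot2_sm sL l).continuous (pot2_sm (smdv h.h1 h.h2) l).continuous 3 s z
    have e3 := av_add (pot2_sm s1 l).continuous (pot2_sm s2 l).continuous 3 s z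
    rw [← e1] at e3
    rw [pot2_add sL (smdv h.h1 h.h2), pot2_Lap h.hΦ]
    exact e2.trans (congrArg _ e3)
  set A := av 4 s (Lap (pot2DL l Φ)) z
  set B := av 4 s (pot2DL l (D 1 X₁)) z
  set E := av 4 s (pot2DL l (D I X₂)) z
  set W := ∫ y in ball z r, |Lap Φ y + dv X₁ X₂ y|
  have W0 : 0 ≤ W := integral_nonneg fun y => abs_nonneg _
  rw [e] at a0
  have t1 : |A| ≤ |A + (B + E)| + |B| + |E| := by
    have u1 := abs_sub (A + (B + E)) (B + E)
    have u2 := abs_add_le B E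
    rw [add_sub_cancel_right] at u1
    linarith
  have q0 : 0 < s ^ l.length := pow_pos hs _
  rw [pow_succ] at a1 a2
  set q := s ^ l.length
  have d0 : q * (s ^ 2 * |A + (B + E)|) ≤ C0 * W := by
    have u1 := mul_le_mul_of_nonneg_left a0 (sq_nonneg s)
    have u2 := mul_le_mul_of_nonneg_left b0 p0
    linarith
  have d1 : q * (s ^ 2 * |B|) ≤ 4 * C1 * om * s := by
    have u1 := mul_le_mul_of_nonneg_left (a1.trans (mul_le_mul_of_nonneg_left b1 p1)) hs.le
    linarith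
  have d2 : q * (s ^ 2 * |E|) ≤ 4 * C2 * om * s := by
    have u1 := mul_le_mul_of_nonneg_left (a2.trans (mul_le_mul_of_nonneg_left b2 p2)) hs.le
    linarith
  have d3 := mul_le_mul_of_nonneg_left t1 (mul_nonneg q0.le (sq_nonneg s))
  have d4 : 0 ≤ C0 * om * s := by positivity
  have d5 : 0 ≤ C1 * W := by positivity
  have d6 : 0 ≤ C2 * W := by positivity
  linarith

private theorem pot2_gen (l : List ℂ) (v : ℂ) (k : ℕ) (hk : k + l.length = 1) :
    ∃ C : ℝ, 0 ≤ C ∧ ∀ (Φ X₁ X₂ : ℂ → ℝ) (om c : ℝ) (m : ℕ) (z : ℂ),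
      NS Φ X₁ X₂ om 30 → ‖z‖ < 29 →
      |Fr (1 / 2 ^ m) (pot2DL l (D v Φ)) z| ≤ C * ((∫ y in ball z 1, |Φ y - c|) +
        ∑ j ∈ Finset.range m, ((2 ^ j) ^ (l.length + 1) *
          (∫ y in ball z (1 / 2 ^ j), |Lap Φ y + dv X₁ X₂ y|) + (2 ^ j) ^ l.length * om)) := by
  have hl : (l ++ [v]).length = l.length + 1 := by simp
  obtain ⟨C0, p0, h0⟩ := pot2_av (l ++ [v]) k
  obtain ⟨C1, p1, h1⟩ := pot2_step (l ++ [v]) k (by omega)
  have p3 := cP_pos 2
  refine ⟨(C0 + 4 * C1) / cP 3, by positivity, fun Φ X₁ X₂ om c m z h hz => ?_⟩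
  have om0 : 0 ≤ om := (abs_nonneg _).trans (h.bd 0 (by simp)).2.1
  have sG := pot2_sm (smD h.hΦ v) l
  have I0 : 0 ≤ ∫ y in ball z 1, |Φ y - c| := integral_nonneg fun y => abs_nonneg _
  rw [Fr, abs_div, abs_of_pos p3, div_mul_eq_mul_div]
  refine div_le_div_of_nonneg_right ?_ p3.le
  induction m with
  | zero =>
    have sc : Sm fun y => Φ y - c := h.hΦ.sub contDiff_const
    have a := h0 _ 1 z sc one_pos
    have b := pot2_ball sc.continuous one_pos le_rfl z
    have e : D v (fun y => Φ y - c) = D v Φ := by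
      funext y
      simp only [D, fderiv_sub_const]
    rw [pot2_app, e, hl, show k + (l.length + 1) + 1 = 3 by omega] at a
    simp only [one_pow, one_mul] at a b
    simp only [pow_zero, div_one, Finset.range_zero, Finset.sum_empty, add_zero]
    have u1 := mul_le_mul_of_nonneg_left b p0
    have u2 := mul_nonneg p1 I0
    linarith
  | succ m ih =>
    set a : ℝ := 2 ^ m with ha
    have a1 : 1 ≤ a := one_le_pow₀ one_le_two
    have lt : 1 / (2 : ℝ) ^ (m + 1) < 1 / a := by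
      rw [pow_succ]
      exact one_div_lt_one_div_of_lt (by linarith) (by linarith)
    obtain ⟨s, ⟨s0, s1⟩, hs⟩ := exists_hasDerivAt_eq_slope _ _ lt
      (fun t _ => (av_deriv sG 2 z t).continuousAt.continuousWithinAt) fun t _ => av_deriv sG 2 z t
    have q0 : (0 : ℝ) < 1 / 2 ^ (m + 1) := by positivity
    have sp : 0 < s := q0.trans s0
    have b := h1 Φ X₁ X₂ om s (1 / a) z h hz sp s1.le (by
      rw [div_le_one (by linarith)]; exact a1)
    rw [pot2_app, hl] at b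
    have e1 : 1 / a - 1 / (2 : ℝ) ^ (m + 1) = 1 / 2 ^ (m + 1) := by
      rw [pow_succ, ← ha]
      field_simp
      ring
    rw [e1, eq_div_iff q0.ne'] at hs
    norm_num only at hs
    set W := ∫ y in ball z (1 / a), |Lap Φ y + dv X₁ X₂ y|
    have W0 : 0 ≤ W := integral_nonneg fun y => abs_nonneg _
    set A := av 4 s (Lap (pot2DL l (D v Φ))) z
    have u1 : s⁻¹ ≤ 2 * a := by
      rw [inv_le_comm₀ sp (by linarith), inv_eq_one_div, mul_comm, ha, ← pow_succ]
      exact s0.le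
    have si : 0 ≤ s⁻¹ := inv_nonneg.2 sp.le
    have u2 : s ^ 2 * |A| ≤ (2 * a) ^ (l.length + 1) * (C1 * W) +
        (2 * a) ^ l.length * (C1 * om) := by
      have w1 := mul_le_mul_of_nonneg_left b (pow_nonneg si (l.length + 1))
      rw [← mul_assoc, ← mul_pow, inv_mul_cancel₀ sp.ne', one_pow, one_mul, mul_add] at w1
      have w2 : s⁻¹ ^ (l.length + 1) * (C1 * om * s) = s⁻¹ ^ l.length * (C1 * om) := by
        rw [pow_succ]
        field_simp
      rw [w2] at w1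
      have w3 := mul_le_mul_of_nonneg_right (pow_le_pow_left₀ si u1 (l.length + 1))
        (mul_nonneg p1 W0)
      have w4 := mul_le_mul_of_nonneg_right (pow_le_pow_left₀ si u1 l.length)
        (mul_nonneg p1 om0)
      linarith
    have u3 : (2 : ℝ) ^ l.length ≤ 2 := by
      calc (2 : ℝ) ^ l.length ≤ 2 ^ 1 := pow_le_pow_right₀ one_le_two (by omega)
        _ = 2 := pow_one 2
    have ap : 0 ≤ a ^ l.length := by positivity
    have u4 : s ^ 2 * |A| ≤ 4 * (C1 * (a ^ (l.length + 1) * W + a ^ l.length * om)) := by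
      rw [mul_pow, mul_pow, pow_succ 2, pow_succ a] at u2
      have w1 := mul_le_mul_of_nonneg_right u3
        (show 0 ≤ 2 * (a ^ l.length * a) * (C1 * W) by positivity)
      have w2 := mul_le_mul_of_nonneg_right u3
        (show 0 ≤ a ^ l.length * (C1 * om) by positivity)
      have w3 : 0 ≤ a ^ l.length * (C1 * om) := by positivity
      rw [pow_succ a]
      linarith
    have u5 : |av 3 (1 / a) (pot2DL l (D v Φ)) z - av 3 (1 / 2 ^ (m + 1)) (pot2DL l (D v Φ)) z| ≤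
        s ^ 2 * |A| := by
      rw [← hs, abs_mul, abs_mul, abs_of_pos q0, abs_of_pos (by positivity : 0 < s / 8)]
      have w1 := mul_le_mul_of_nonneg_left s0.le
        (show 0 ≤ s / 8 * |A| by positivity)
      have w2 : 0 ≤ s ^ 2 * |A| := by positivity
      linarith
    rw [Finset.sum_range_succ, ← ha]
    have u6 := abs_sub (av 3 (1 / a) (pot2DL l (D v Φ)) z)
      (av 3 (1 / a) (pot2DL l (D v Φ)) z - av 3 (1 / 2 ^ (m + 1)) (pot2DL l (D v Φ)) z)
    rw [sub_sub_cancel] at u6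
    have u7 : 0 ≤ C0 * (a ^ (l.length + 1) * W + a ^ l.length * om) := by positivity
    linarith

private theorem pot2_nonneg {Φ X₁ X₂ : ℂ → ℝ} {om : ℝ} (h : NS Φ X₁ X₂ om 30) (c : ℝ) (m : ℕ)
    (z : ℂ) (a b : ℕ → ℝ) (ha : ∀ j, 0 ≤ a j) (hb : ∀ j, 0 ≤ b j) :
    0 ≤ (∫ y in ball z 1, |Φ y - c|) + ∑ j ∈ Finset.range m,
      (a j * (∫ y in ball z (1 / 2 ^ j), |Lap Φ y + dv X₁ X₂ y|) + b j * om) := by
  have om0 : 0 ≤ om := (abs_nonneg _).trans (h.bd 0 (by simp)).2.1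
  exact add_nonneg (integral_nonneg fun y => abs_nonneg _) (Finset.sum_nonneg fun j _ =>
    add_nonneg (mul_nonneg (ha j) (integral_nonneg fun y => abs_nonneg _)) (mul_nonneg (hb j) om0))

theorem pot_d1 : ∃ C : ℝ, 1 ≤ C ∧ ∀ (Φ X₁ X₂ : ℂ → ℝ) (om c : ℝ) (m : ℕ) (v z : ℂ),
    NS Φ X₁ X₂ om 30 → ‖v‖ ≤ 1 → ‖z‖ < 29 →
    |D v (Fr (1 / 2 ^ m) Φ) z| ≤ C * ((∫ y in ball z 1, |Φ y - c|) + ∑ j ∈ Finset.range m,
      (2 ^ j * (∫ y in ball z (1 / 2 ^ j), |Lap Φ y + dv X₁ X₂ y|) + om)) := by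
  obtain ⟨C1, p1, h1⟩ := pot2_gen [] 1 1 rfl
  obtain ⟨C2, p2, h2⟩ := pot2_gen [] I 1 rfl
  refine ⟨2 * (C1 + C2) + 1, by linarith, fun Φ X₁ X₂ om c m v z h hv hz => ?_⟩
  have a1 := h1 Φ X₁ X₂ om c m z h hz
  have a2 := h2 Φ X₁ X₂ om c m z h hz
  have a0 := pot2_nonneg h c m z (fun j => 2 ^ j) (fun _ => 1) (fun j => by positivity)
    fun _ => zero_le_one
  simp only [pot2DL, List.length_nil, zero_add, pow_one, pow_zero, one_mul,
    ← D_Fr h.hΦ] at a0 a1 a2
  set S := (∫ y in ball z 1, |Φ y - c|) + ∑ j ∈ Finset.range m,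
    (2 ^ j * (∫ y in ball z (1 / 2 ^ j), |Lap Φ y + dv X₁ X₂ y|) + om)
  have b1 := mul_nonneg p1 a0
  have b2 := mul_nonneg p2 a0
  have b3 := abs_D_le (L := (C1 + C2) * S) (a1.trans (by linarith)) (a2.trans (by linarith)) v
  have b4 := mul_le_mul_of_nonneg_right hv (add_nonneg b1 b2)
  linarith

theorem pot_d2 : ∃ C : ℝ, 1 ≤ C ∧ ∀ (Φ X₁ X₂ : ℂ → ℝ) (om c : ℝ) (m : ℕ) (v w z : ℂ),
    NS Φ X₁ X₂ om 30 → ‖v‖ ≤ 1 → ‖w‖ ≤ 1 → ‖z‖ < 29 →
    |D v (D w (Fr (1 / 2 ^ m) Φ)) z| ≤ C * ((∫ y in ball z 1, |Φ y - c|) +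
      ∑ j ∈ Finset.range m,
        (4 ^ j * (∫ y in ball z (1 / 2 ^ j), |Lap Φ y + dv X₁ X₂ y|) + 2 ^ j * om)) := by
  obtain ⟨C1, p1, h1⟩ := pot2_gen [1] 1 0 rfl
  obtain ⟨C2, p2, h2⟩ := pot2_gen [I] 1 0 rfl
  obtain ⟨C3, p3, h3⟩ := pot2_gen [1] I 0 rfl
  obtain ⟨C4, p4, h4⟩ := pot2_gen [I] I 0 rfl
  refine ⟨4 * (C1 + C2 + C3 + C4) + 1, by linarith, fun Φ X₁ X₂ om c m v w z h hv hw hz => ?_⟩
  have a1 := h1 Φ X₁ X₂ om c m z h hz
  have a2 := h2 Φ X₁ X₂ om c m z h hz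
  have a3 := h3 Φ X₁ X₂ om c m z h hz
  have a4 := h4 Φ X₁ X₂ om c m z h hz
  have a0 := pot2_nonneg h c m z (fun j => 4 ^ j) (fun j => 2 ^ j) (fun j => by positivity)
    fun _ => by positivity
  have e : ∀ j : ℕ, ((2 : ℝ) ^ j) ^ (1 + 1) = 4 ^ j := fun j => by
    rw [← pow_mul, mul_comm, pow_mul]
    norm_num
  simp only [pot2DL, List.length_nil, List.length_cons, zero_add, pow_one, e,
    ← D_Fr (smD h.hΦ _), ← D_Fr h.hΦ] at a0 a1 a2 a3 a4
  set S := (∫ y in ball z 1, |Φ y - c|) + ∑ j ∈ Finset.range m,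
    (4 ^ j * (∫ y in ball z (1 / 2 ^ j), |Lap Φ y + dv X₁ X₂ y|) + 2 ^ j * om)
  have b1 := mul_nonneg p1 a0
  have b2 := mul_nonneg p2 a0
  have b3 := mul_nonneg p3 a0
  have b4 := mul_nonneg p4 a0
  have sF := sm_Fr h.hΦ (1 / 2 ^ m)
  set L := (C1 + C2 + C3 + C4) * S with hL
  have L0 : 0 ≤ L := by linarith
  have d1 := abs_D_le (L := L) (a1.trans (by linarith)) (a2.trans (by linarith)) w
  have d2 := abs_D_le (L := L) (a3.trans (by linarith)) (a4.trans (by linarith)) w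
  rw [D_comm sF] at d1 d2
  have d3 := abs_D_le d1 d2 v
  have d4 := mul_le_mul_of_nonneg_right hw L0
  have d5 := mul_le_mul_of_nonneg_right hv (mul_nonneg (norm_nonneg w) L0)
  linarith

end Pool.Agent.Lib.MP_a52643_an.YS
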