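import Pool.Agent.Lib.MP_a52643_an.YS.Pot2
import Pool.Agent.Lib.MP_a52643_an.YS.Lat

/-!
Slopes and errors on the lattice.
-/

namespace Pool.Agent.Lib.MP_a52643_an.YS

open Complex Filter Topology Metric MeasureTheory Set QS YA
open scoped ContDiff

theorem pot3_mono {G : ℂ → ℝ} (hG : Continuous G) (h0 : ∀ z, 0 ≤ G z) {a b : ℂ} {r R : ℝ}
    (h : ‖a - b‖ + r ≤ R) : ∫ z in ball a r, G z ≤ ∫ z in ball b R, G z := by
  refine setIntegral_mono_set (intB hG b R) (Eventually.of_forall h0) (Eventually.of_forall ?_)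
  exact ball_subset_ball' (by rw [dist_eq_norm]; linarith)

/-- The mean value inequality on a segment. -/
theorem pot3_seg {F : ℂ → ℝ} (hF : Sm F) {z e : ℂ} {R H t : ℝ} (ht0 : 0 ≤ t) (ht : t ≤ R)
    (h : ∀ τ, 0 ≤ τ → τ ≤ R → |D e F (z + τ • e)| ≤ H) : |F (z + t • e) - F z| ≤ H * R := by
  have hH : 0 ≤ H := le_trans (abs_nonneg _) (h 0 le_rfl (ht0.trans ht))
  have key := norm_image_sub_le_of_norm_deriv_le_segment' (f := fun τ : ℝ => F (z + τ • e))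
    (f' := fun τ : ℝ => D e F (z + τ • e)) (a := 0) (b := t) (C := H)
    (fun τ _ => (line hF z e τ).hasDerivWithinAt)
    (fun τ hτ => h τ hτ.1 (hτ.2.le.trans ht)) t (right_mem_Icc.2 ht0)
  simp only [zero_smul, add_zero, sub_zero, Real.norm_eq_abs] at key
  exact key.trans (mul_le_mul_of_nonneg_left ht hH)

theorem pot3_gr (F : ℂ → ℝ) (z : ℂ) : ‖gr F z‖ ≤ |D 1 F z| + |D I F z| :=
  Complex.norm_le_abs_re_add_abs_im (gr F z)

/-- Taylor's estimate from a bound of the second derivatives on a disc. -/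
theorem pot3_taylor {F : ℂ → ℝ} (hF : Sm F) {z x : ℂ} {R H : ℝ} (hR : 0 < R)
    (h : ∀ v w y : ℂ, ‖v‖ ≤ 1 → ‖w‖ ≤ 1 → ‖y - z‖ ≤ R → |D v (D w F) y| ≤ H)
    (hx : ‖x - z‖ ≤ R) :
    F x - dt (gr F z) (x - z) ≤ F z + H * R * R ∧ gn F x ≤ 2 * ‖gr F z‖ + 2 * (H * R) := by
  set e : ℂ := (R⁻¹ : ℝ) • (x - z) with he
  have he1 : ‖e‖ ≤ 1 := by
    rw [he, norm_smul, Real.norm_eq_abs, abs_of_pos (inv_pos.2 hR), inv_mul_le_iff₀ hR]
    linarith
  have hxe : z + R • e = x := by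
    rw [he, smul_smul, mul_inv_cancel₀ hR.ne', one_smul]; ring
  have hin : ∀ τ : ℝ, 0 ≤ τ → τ ≤ R → ‖z + τ • e - z‖ ≤ R := by
    intro τ h0 h1
    rw [add_sub_cancel_left, norm_smul, Real.norm_eq_abs, abs_of_nonneg h0]
    nlinarith [norm_nonneg e]
  have hd : ∀ w : ℂ, ‖w‖ ≤ 1 → ∀ t, 0 ≤ t → t ≤ R →
      |D w F (z + t • e) - D w F z| ≤ H * R := fun w hw t h0 h1 =>
    pot3_seg (smD hF w) h0 h1 fun τ a b => h e w _ he1 hw (hin τ a b)
  constructor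
  · have key := norm_image_sub_le_of_norm_deriv_le_segment'
      (f := fun τ : ℝ => F (z + τ • e) - τ * D e F z)
      (f' := fun τ : ℝ => D e F (z + τ • e) - D e F z) (a := 0) (b := R) (C := H * R)
      (fun τ _ => by
        have h1 := (line hF z e τ).sub ((hasDerivAt_id τ).mul_const (D e F z))
        simp only [one_mul] at h1
        exact h1.hasDerivWithinAt)
      (fun τ hτ => hd e he1 τ hτ.1 hτ.2.le) R (right_mem_Icc.2 hR.le)
    simp only [zero_smul, add_zero, sub_zero, zero_mul, Real.norm_eq_abs, hxe] at key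
    have e1 : dt (gr F z) (x - z) = R * D e F z := by
      rw [D_dt, ← hxe, add_sub_cancel_left]
      simp only [dt, Complex.real_smul, mul_re, mul_im, ofReal_re, ofReal_im]
      ring
    rw [e1]
    linarith [(abs_le.1 key).2]
  · have h1 := hd 1 (by simp) R hR.le le_rfl
    have h2 := hd I (by simp) R hR.le le_rfl
    rw [hxe] at h1 h2
    have a1 : |D 1 F z| ≤ ‖gr F z‖ := Complex.abs_re_le_norm (gr F z)
    have a2 : |D I F z| ≤ ‖gr F z‖ := Complex.abs_im_le_norm (gr F z)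
    have b1 := abs_sub_abs_le_abs_sub (D 1 F x) (D 1 F z)
    have b2 := abs_sub_abs_le_abs_sub (D I F x) (D I F z)
    unfold gn
    linarith

theorem pot3_geom {a : ℝ} (ha : 2 ≤ a) (m : ℕ) : ∑ j ∈ Finset.range m, a ^ j ≤ a ^ m := by
  induction m with
  | zero => simp
  | succ m ih =>
    rw [Finset.sum_range_succ, pow_succ]
    have : 0 ≤ a ^ m := by positivity
    nlinarith

theorem pot3_lp {m : ℕ} {i : ℤ × ℤ} (hi : i ∈ sq (4 * 2 ^ m)) : ‖lp (1 / 2 ^ m) i‖ ≤ 6 := by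
  have h2 : (0 : ℝ) < 2 ^ m := by positivity
  simp only [sq, Finset.mem_product, Finset.mem_Icc] at hi
  have key : ∀ k : ℤ, -(4 * 2 ^ m) ≤ k → k ≤ 4 * 2 ^ m → |(1 / 2 ^ m : ℝ) * k| ≤ 4 := by
    intro k h1 h3
    have a1 : -(4 * 2 ^ m : ℝ) ≤ k := by exact_mod_cast h1
    have a2 : (k : ℝ) ≤ 4 * 2 ^ m := by exact_mod_cast h3
    rw [one_div, inv_mul_eq_div, abs_le, le_div_iff₀ h2, div_le_iff₀ h2]
    constructor <;> linarith
  have a := key i.1 hi.1.1 hi.1.2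
  have b := key i.2 hi.2.1 hi.2.2
  refine (sq_le_sq₀ (norm_nonneg _) (by norm_num)).1 ?_
  rw [Complex.sq_norm, Complex.normSq_apply]
  simp only [lp]
  nlinarith [abs_le.1 a, abs_le.1 b]

theorem pot3_sum {G : ℂ → ℝ} (hG : Continuous G) (h0 : ∀ z, 0 ≤ G z) {m j : ℕ} (hm : 9 ≤ m)
    (hj : j ≤ m) {B : ℝ} (hM : ∫ z in ball (0 : ℂ) 9, G z ≤ B) :
    ∑ i ∈ sq (4 * 2 ^ m), 4 ^ j * ∫ z in ball (lp (1 / 2 ^ m) i) (1 / 2 ^ j + 211 / 2 ^ m), G z ≤
      9 * 212 ^ 2 * 4 ^ m * B := by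
  have hB : 0 ≤ B := le_trans (integral_nonneg h0) hM
  have t2 : (512 : ℝ) ≤ 2 ^ m := by
    calc (512 : ℝ) = 2 ^ 9 := by norm_num
      _ ≤ 2 ^ m := pow_le_pow_right₀ (by norm_num) hm
  have t0 : (0 : ℝ) < 2 ^ m := by positivity
  have t4 : (4 : ℝ) ^ m = 2 ^ m * 2 ^ m := by rw [← mul_pow]; norm_num
  set R : ℝ := 211 / 2 ^ m with hR
  have hR0 : 0 < R := by positivity
  have hR1 : R ≤ 1 / 2 := by rw [hR, div_le_iff₀ t0]; linarith
  have hRm : 2 ^ m * R = 211 := by rw [hR]; field_simp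
  have hjm : (2 : ℝ) ^ j ≤ 2 ^ m := pow_le_pow_right₀ (by norm_num) hj
  have j0 : (0 : ℝ) < 2 ^ j := by positivity
  have j1 : (1 / 2 ^ j : ℝ) ≤ 1 := by
    rw [div_le_one j0]; exact one_le_pow₀ (by norm_num)
  have j4 : (4 : ℝ) ^ j = 2 ^ j * 2 ^ j := by rw [← mul_pow]; norm_num
  have b0 : (1 / 2 ^ m : ℝ) ≤ 1 / 2 ^ j := one_div_le_one_div_of_le j0 hjm
  have b1 := lat_sum hG h0 (s := 1 / 2 ^ m) (by positivity) (ρ := 1 / 2 ^ j + R) (R := 9)
    (by linarith) (sq (4 * 2 ^ m)) (fun i hi => by linarith [pot3_lp hi])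
  have b2 : 2 ^ j * ((1 / 2 ^ j + R) / (1 / 2 ^ m)) ≤ 212 * 2 ^ m := by
    have e : 2 ^ j * ((1 / 2 ^ j + R) / (1 / 2 ^ m)) = 2 ^ m + 2 ^ j * (2 ^ m * R) := by
      field_simp
    rw [e, hRm]
    linarith
  have b3 : 4 ^ j * ((1 / 2 ^ j + R) / (1 / 2 ^ m)) ^ 2 ≤ 212 ^ 2 * 4 ^ m := by
    have b4 := mul_self_le_mul_self (by positivity) b2
    rw [j4, t4]
    linarith
  rw [← Finset.mul_sum]
  calc _ ≤ 4 ^ j * (9 * ((1 / 2 ^ j + R) / (1 / 2 ^ m)) ^ 2 * B) := by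
        refine mul_le_mul_of_nonneg_left (b1.trans ?_) (by positivity)
        exact mul_le_mul_of_nonneg_left hM (by positivity)
    _ = 9 * (4 ^ j * ((1 / 2 ^ j + R) / (1 / 2 ^ m)) ^ 2) * B := by ring
    _ ≤ 9 * (212 ^ 2 * 4 ^ m) * B := by gcongr
    _ = _ := by ring

theorem pot3_card {m : ℕ} : ((sq (4 * 2 ^ m)).card : ℝ) ≤ 81 * 4 ^ m := by
  have t1 : (1 : ℝ) ≤ 2 ^ m := one_le_pow₀ (by norm_num)
  have t4 : (4 : ℝ) ^ m = 2 ^ m * 2 ^ m := by rw [← mul_pow]; norm_num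
  have e := card_sq (4 * 2 ^ m)
  push_cast at e
  rw [e, t4]
  nlinarith

theorem pot : ∃ C : ℝ, 1 ≤ C ∧ ∀ (m : ℕ) (Φ X₁ X₂ : ℂ → ℝ) (om ν c : ℝ) (y₀ : ℂ),
    9 ≤ m → NS Φ X₁ X₂ om 30 → 4 ^ m * om ≤ ν → (∀ z, Φ z ≤ c) → ‖y₀‖ ≤ 3 → c - ν ≤ Φ y₀ →
    (∀ y : ℂ, ‖y‖ ≤ 6 → c - C * 4 ^ m * ν ≤ Fr (1 / 2 ^ m) Φ y ∧
      ‖gr (Fr (1 / 2 ^ m) Φ) y‖ ≤ C * 2 ^ m * ν) ∧
    ∃ g : ℤ × ℤ → ℝ, (∀ i ∈ sq (4 * 2 ^ m), 0 ≤ g i ∧ g i ≤ C * ν ∧
      ∀ x, ‖x - lp (1 / 2 ^ m) i‖ ≤ 211 / 2 ^ m →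
        Φ x - dt (gr (Fr (1 / 2 ^ m) Φ) (lp (1 / 2 ^ m) i)) (x - lp (1 / 2 ^ m) i) ≤
          Fr (1 / 2 ^ m) Φ (lp (1 / 2 ^ m) i) + g i + C * om ∧
        gn (Fr (1 / 2 ^ m) Φ) x ≤
          2 * ‖gr (Fr (1 / 2 ^ m) Φ) (lp (1 / 2 ^ m) i)‖ + 2 ^ m * g i) ∧
      ∑ i ∈ sq (4 * 2 ^ m), g i ≤ C * (1 + m) * ν := by
  obtain ⟨C0, hC0, h0⟩ := ns_L1
  obtain ⟨C1, hC1, h1⟩ := pot_d1
  obtain ⟨C2, hC2, h2⟩ := pot_d2
  obtain ⟨C3, hC3, h3⟩ := Fr_sub
  have hcP : 0 < cP 3 := cP_pos 2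
  have p1 : 0 ≤ C0 / cP 3 := by positivity
  have p2 : 0 ≤ C1 * C0 := by positivity
  have p3 : 0 ≤ C2 * C0 := by positivity
  set C : ℝ := C0 / cP 3 + 6 * (C1 * C0) + 211 ^ 2 * 405000 * (C2 * C0) + C3 with hC
  refine ⟨C, by linarith, ?_⟩
  intro m Φ X₁ X₂ om ν c y₀ hm hNS hom hc hy₀ hcy
  have hom0 : 0 ≤ om := le_trans (abs_nonneg _) (hNS.bd 0 (by simp)).2.1
  have t2 : (512 : ℝ) ≤ 2 ^ m := by
    calc (512 : ℝ) = 2 ^ 9 := by norm_num
      _ ≤ 2 ^ m := pow_le_pow_right₀ (by norm_num) hm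
  have t0 : (0 : ℝ) < 2 ^ m := by positivity
  have t4 : (4 : ℝ) ^ m = 2 ^ m * 2 ^ m := by rw [← mul_pow]; norm_num
  have t24 : (2 : ℝ) ^ m ≤ 4 ^ m := pow_le_pow_left₀ (by norm_num) (by norm_num) m
  have tm : (m : ℝ) ≤ 2 ^ m := by exact_mod_cast (Nat.lt_two_pow_self (n := m)).le
  have hom2 : 2 ^ m * om ≤ ν := le_trans (mul_le_mul_of_nonneg_right t24 hom0) hom
  have hom1 : om ≤ ν := le_trans (le_mul_of_one_le_left hom0 (by linarith)) hom2
  have hν : 0 ≤ ν := hom0.trans hom1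
  obtain ⟨hA, hM⟩ := h0 Φ X₁ X₂ om ν c y₀ hNS hom1 hc hy₀ hcy
  have hΦc : Continuous Φ := hNS.hΦ.continuous
  have hAc : Continuous fun y => |Φ y - c| := (hΦc.sub continuous_const).abs
  have hGc : Continuous fun y => |Lap Φ y + dv X₁ X₂ y| :=
    ((smLap hNS.hΦ).continuous.add (smdv hNS.h1 hNS.h2).continuous).abs
  have hAle : ∀ (y : ℂ) (r : ℝ), ‖y‖ + r ≤ 10 → ∫ z in ball y r, |Φ z - c| ≤ C0 * ν :=
    fun y r h => (pot3_mono hAc (fun _ => abs_nonneg _) (by simpa using h)).trans hA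
  have hGle : ∀ (y : ℂ) (r : ℝ), ‖y‖ + r ≤ 9 →
      ∫ z in ball y r, |Lap Φ z + dv X₁ X₂ z| ≤ C0 * ν :=
    fun y r h => (pot3_mono hGc (fun _ => abs_nonneg _) (by simpa using h)).trans hM
  have hj1 : ∀ j : ℕ, (1 / 2 ^ j : ℝ) ≤ 1 := fun j => by
    rw [div_le_one (by positivity)]; exact one_le_pow₀ (by norm_num)
  have hs0 : (0 : ℝ) < 1 / 2 ^ m := by positivity
  have hCν : 0 ≤ C0 * ν := by positivity
  have hν0 : ν ≤ C0 * ν := le_mul_of_one_le_left hν hC0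
  have hF : Sm (Fr (1 / 2 ^ m) Φ) := sm_Fr hNS.hΦ _
  constructor
  · intro y hy
    constructor
    · have a1 := (Fr_abs hΦc hs0 c y).trans (hAle y _ (by linarith [hj1 m]))
      have a2 : |Fr (1 / 2 ^ m) Φ y - c| ≤ C0 / cP 3 * 4 ^ m * ν := by
        have e : C0 / cP 3 * 4 ^ m * ν = C0 * ν / (cP 3 * (1 / 2 ^ m) ^ 2) := by
          rw [t4]; field_simp
        rw [e, le_div_iff₀ (by positivity)]
        linarith
      have a3 : C0 / cP 3 * 4 ^ m * ν ≤ C * 4 ^ m * ν := by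
        gcongr; linarith
      linarith [(abs_le.1 a2).1]
    · have a1 : ∀ v : ℂ, ‖v‖ ≤ 1 → |D v (Fr (1 / 2 ^ m) Φ) y| ≤ 3 * (C1 * C0) * 2 ^ m * ν := by
        intro v hv
        refine (h1 Φ X₁ X₂ om c m v y hNS hv (by linarith)).trans ?_
        have b1 := hAle y 1 (by linarith)
        have b2 : ∑ j ∈ Finset.range m,
            (2 ^ j * (∫ z in ball y (1 / 2 ^ j), |Lap Φ z + dv X₁ X₂ z|) + om) ≤
            2 ^ m * (C0 * ν) + ν := by
          calc _ ≤ ∑ j ∈ Finset.range m, ((2 : ℝ) ^ j * (C0 * ν) + om) := by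
                refine Finset.sum_le_sum fun j _ => ?_
                have := hGle y (1 / 2 ^ j) (by linarith [hj1 j])
                gcongr
            _ = (∑ j ∈ Finset.range m, (2 : ℝ) ^ j) * (C0 * ν) + m * om := by
                rw [Finset.sum_add_distrib, Finset.sum_mul]; simp
            _ ≤ _ := by
                have := mul_le_mul_of_nonneg_right (pot3_geom (le_refl (2 : ℝ)) m) hCν
                have := mul_le_mul_of_nonneg_right tm hom0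
                linarith
        have b3 : C0 * ν ≤ 2 ^ m * (C0 * ν) := le_mul_of_one_le_left hCν (by linarith)
        calc _ ≤ C1 * (3 * (2 ^ m * (C0 * ν))) := by
              refine mul_le_mul_of_nonneg_left ?_ (by linarith)
              linarith
          _ = _ := by ring
      have a2 := a1 1 (by simp)
      have a3 := a1 I (by simp)
      have a4 : 6 * (C1 * C0) * 2 ^ m * ν ≤ C * 2 ^ m * ν := by
        gcongr; linarith
      linarith [pot3_gr (Fr (1 / 2 ^ m) Φ) y]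
  set R : ℝ := 211 / 2 ^ m with hR
  have hR0 : 0 < R := by positivity
  have hR1 : R ≤ 1 / 2 := by rw [hR, div_le_iff₀ t0]; linarith
  have hRm : 2 ^ m * R = 211 := by rw [hR]; field_simp
  have hRR : 4 ^ m * (R * R) = 211 ^ 2 := by
    rw [t4, ← hRm]; ring
  set μ : ℕ → ℤ × ℤ → ℝ := fun j i =>
    ∫ z in ball (lp (1 / 2 ^ m) i) (1 / 2 ^ j + R), |Lap Φ z + dv X₁ X₂ z| with hμ
  have hμ0 : ∀ j i, 0 ≤ μ j i := fun j i => integral_nonneg fun _ => abs_nonneg _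
  set H : ℤ × ℤ → ℝ := fun i =>
    C2 * (2 * (C0 * ν) + ∑ j ∈ Finset.range m, 4 ^ j * μ j i) with hH
  have hH0 : ∀ i, 0 ≤ H i := fun i => by
    have : 0 ≤ ∑ j ∈ Finset.range m, 4 ^ j * μ j i :=
      Finset.sum_nonneg fun j _ => mul_nonneg (by positivity) (hμ0 j i)
    simp only [hH]
    positivity
  refine ⟨fun i => H i * R * R, fun i hi => ⟨by have := hH0 i; positivity, ?_, ?_⟩, ?_⟩
  · have hl := pot3_lp hi
    have b2 : ∑ j ∈ Finset.range m, 4 ^ j * μ j i ≤ 4 ^ m * (C0 * ν) := by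
      calc _ ≤ ∑ j ∈ Finset.range m, (4 : ℝ) ^ j * (C0 * ν) := by
            refine Finset.sum_le_sum fun j _ => ?_
            have : μ j i ≤ C0 * ν := hGle _ _ (by linarith [hj1 j])
            gcongr
        _ = (∑ j ∈ Finset.range m, (4 : ℝ) ^ j) * (C0 * ν) := by rw [Finset.sum_mul]
        _ ≤ _ := mul_le_mul_of_nonneg_right (pot3_geom (by norm_num) m) hCν
    have b3 : C0 * ν ≤ 4 ^ m * (C0 * ν) := le_mul_of_one_le_left hCν (by linarith)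
    have b4 : H i ≤ C2 * (3 * (4 ^ m * (C0 * ν))) :=
      mul_le_mul_of_nonneg_left (by linarith) (by linarith)
    calc H i * R * R ≤ C2 * (3 * (4 ^ m * (C0 * ν))) * R * R := by gcongr
      _ = 4 ^ m * (R * R) * 3 * (C2 * C0) * ν := by ring
      _ ≤ C * ν := by
        rw [hRR]
        refine mul_le_mul_of_nonneg_right ?_ hν
        linarith
  · intro x hx
    have hl := pot3_lp hi
    have hnear : ∀ y : ℂ, ‖y - lp (1 / 2 ^ m) i‖ ≤ R → ‖y‖ ≤ 7 := fun y hy => by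
      have := norm_sub_norm_le y (lp (1 / 2 ^ m) i)
      linarith
    have hb : ∀ v w y : ℂ, ‖v‖ ≤ 1 → ‖w‖ ≤ 1 → ‖y - lp (1 / 2 ^ m) i‖ ≤ R →
        |D v (D w (Fr (1 / 2 ^ m) Φ)) y| ≤ H i := by
      intro v w y hv hw hy
      have hy7 := hnear y hy
      refine (h2 Φ X₁ X₂ om c m v w y hNS hv hw (by linarith)).trans ?_
      refine mul_le_mul_of_nonneg_left ?_ (by linarith)
      have b1 := hAle y 1 (by linarith)
      have b2 : ∑ j ∈ Finset.range m,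
          (4 ^ j * (∫ z in ball y (1 / 2 ^ j), |Lap Φ z + dv X₁ X₂ z|) + 2 ^ j * om) ≤
          ∑ j ∈ Finset.range m, 4 ^ j * μ j i + ν := by
        rw [Finset.sum_add_distrib, ← Finset.sum_mul]
        refine add_le_add (Finset.sum_le_sum fun j _ => ?_) ?_
        · have : ∫ z in ball y (1 / 2 ^ j), |Lap Φ z + dv X₁ X₂ z| ≤ μ j i :=
            pot3_mono hGc (fun _ => abs_nonneg _) (by linarith)
          gcongr
        · exact (mul_le_mul_of_nonneg_right (pot3_geom (le_refl (2 : ℝ)) m) hom0).trans hom2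
      linarith
    obtain ⟨a1, a2⟩ := pot3_taylor hF hR0 hb hx
    have a3 := h3 Φ X₁ X₂ om (1 / 2 ^ m) x hNS hs0.le (hj1 m) (by linarith [hnear x hx])
    have a4 : C3 * om * (1 / 2 ^ m) ≤ C * om := by
      have : C3 * om * (1 / 2 ^ m) ≤ C3 * om * 1 :=
        mul_le_mul_of_nonneg_left (hj1 m) (by positivity)
      have : C3 * om ≤ C * om := mul_le_mul_of_nonneg_right (by linarith) hom0
      linarith
    have a5 : 2 ^ m * (H i * R * R) = 211 * (H i * R) := by rw [← hRm]; ring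
    have a6 : 0 ≤ H i * R := by have := hH0 i; positivity
    constructor
    · linarith
    · linarith
  · have hcard : ((sq (4 * 2 ^ m)).card : ℝ) ≤ 81 * 4 ^ m := pot3_card
    have hsum : ∀ j ∈ Finset.range m,
        ∑ i ∈ sq (4 * 2 ^ m), 4 ^ j * μ j i ≤ 9 * 212 ^ 2 * 4 ^ m * (C0 * ν) := by
      intro j hj
      exact pot3_sum hGc (fun _ => abs_nonneg _) hm (Finset.mem_range.1 hj).le hM
    have hS : ∑ i ∈ sq (4 * 2 ^ m), H i ≤
        C2 * (81 * 4 ^ m * (2 * (C0 * ν)) + m * (9 * 212 ^ 2 * 4 ^ m * (C0 * ν))) := by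
      simp only [hH]
      rw [← Finset.mul_sum, Finset.sum_add_distrib, Finset.sum_comm]
      refine mul_le_mul_of_nonneg_left (add_le_add ?_ ?_) (by linarith)
      · rw [Finset.sum_const, nsmul_eq_mul]
        gcongr
      · simpa using Finset.sum_le_card_nsmul _ _ _ hsum
    have hm0 : (0 : ℝ) ≤ m := Nat.cast_nonneg m
    calc ∑ i ∈ sq (4 * 2 ^ m), H i * R * R = (∑ i ∈ sq (4 * 2 ^ m), H i) * R * R := by
          rw [Finset.sum_mul, Finset.sum_mul]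
      _ ≤ C2 * (81 * 4 ^ m * (2 * (C0 * ν)) + m * (9 * 212 ^ 2 * 4 ^ m * (C0 * ν))) * R * R := by
          gcongr
      _ = 4 ^ m * (R * R) * (C2 * C0) * (162 + 9 * 212 ^ 2 * m) * ν := by ring
      _ ≤ 211 ^ 2 * (C2 * C0) * (405000 * (1 + m)) * ν := by
          rw [hRR]
          gcongr
          linarith
      _ = 211 ^ 2 * 405000 * (C2 * C0) * (1 + m) * ν := by ring
      _ ≤ C * (1 + m) * ν := by
          gcongr
          linarith

end Pool.Agent.Lib.MP_a52643_an.YS
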