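import Pool.Agent.Lib.MP_a52643_an.YS.Pot3

/-!
A jump of the values forces many large slopes.
-/

namespace Pool.Agent.Lib.MP_a52643_an.YS

open Complex Filter Topology Metric MeasureTheory Set QS YA
open scoped ContDiff

theorem pot4_mono {G : ℂ → ℝ} (hG : Continuous G) (h0 : ∀ z, 0 ≤ G z) {z : ℂ} {ρ R : ℝ}
    (h : ‖z‖ + ρ ≤ R) : ∫ y in ball z ρ, G y ≤ ∫ y in ball (0 : ℂ) R, G y := by
  refine setIntegral_mono_set ((hG.continuousOn.integrableOn_compact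
    (isCompact_closedBall 0 R)).mono_set ball_subset_closedBall) (Eventually.of_forall h0)
    (LE.le.eventuallyLE (ball_subset_ball' ?_))
  rw [dist_zero_right]
  linarith

theorem pot4_ball {G : ℂ → ℝ} (h0 : ∀ z, 0 ≤ G z) {z : ℂ} {s b : ℝ} (hs : 0 ≤ s) (hb : 0 ≤ b)
    (h : ∀ y ∈ ball z s, G y ≤ b) : ∫ y in ball z s, G y ≤ 4 * s ^ 2 * b := by
  have h1 := norm_setIntegral_le_of_norm_le_const (μ := volume) (s := ball z s) (f := G) (C := b)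
    measure_ball_lt_top fun y hy => by
      rw [Real.norm_of_nonneg (h0 y)]
      exact h y hy
  have h2 : volume.real (ball z s) = s ^ 2 * Real.pi := by
    simp [Measure.real, Complex.volume_ball, hs]
  rw [h2] at h1
  refine (le_abs_self _).trans (h1.trans ?_)
  nlinarith [mul_le_mul_of_nonneg_left Real.pi_le_four (mul_nonneg hb (sq_nonneg s))]

theorem pot4_jump : ∃ C : ℝ, 1 ≤ C ∧ ∀ (Φ X₁ X₂ : ℂ → ℝ) (om d r t : ℝ) (a y₁ : ℂ),
    NS Φ X₁ X₂ om 30 → 0 < r → r ≤ t → t ≤ 1 → ‖a‖ ≤ 6 → ‖y₁ - a‖ ≤ 1 / 2 →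
    (∀ x, ‖x - a‖ ≤ 4 * t → Φ x + d ≤ Φ y₁) →
    ∃ x, ‖x - a‖ ≤ 1 / 2 ∧ cP 3 * t ^ 2 * (d - 2 * C * om) ≤ ∫ y in ball x t, gn (Fr r Φ) y := by
  obtain ⟨C, C1, hC⟩ := Fr_sub
  refine ⟨C, C1, fun Φ X₁ X₂ om d r t a y₁ h r0 rt t1 ha hy hj => ?_⟩
  have t0 : 0 < t := r0.trans_le rt
  have om0 : 0 ≤ om := (abs_nonneg _).trans (h.bd 0 (by simp)).2.1
  have sF := sm_Fr h.hΦ r
  have sG := sm_Fr sF t
  have y6 : ‖y₁‖ ≤ 7 := by linarith [norm_sub_norm_le y₁ a]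
  have co : 0 ≤ C * om := by positivity
  have h1 := Fr_mono (z := y₁) (b := C * om) h.hΦ.continuous sF.continuous t0.le fun y hy' => by
    have := hC Φ X₁ X₂ om r y h r0.le (rt.trans t1) (by linarith [norm_sub_norm_le y y₁])
    nlinarith
  have h2 := hC Φ X₁ X₂ om t y₁ h t0.le t1 (by linarith)
  have h3 : Fr t (Fr r Φ) a ≤ Φ y₁ - d := Fr_le sF.continuous t0.le fun y hy' =>
    Fr_le h.hΦ.continuous r0.le fun x hx => by
      have := hj x (by linarith [norm_sub_le_norm_sub_add_norm_sub x y a])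
      linarith
  obtain ⟨τ, hτ, h4⟩ := exists_hasDerivAt_eq_slope (fun τ : ℝ => Fr t (Fr r Φ) (a + τ • (y₁ - a)))
    (fun τ => D (y₁ - a) (Fr t (Fr r Φ)) (a + τ • (y₁ - a))) one_pos
    (fun τ _ => (line sG a (y₁ - a) τ).continuousAt.continuousWithinAt)
    fun τ _ => line sG a (y₁ - a) τ
  simp only [one_smul, zero_smul, add_zero, add_sub_cancel, sub_zero, div_one] at h4
  refine ⟨a + τ • (y₁ - a), ?_, ?_⟩
  · rw [add_sub_cancel_left, norm_smul, Real.norm_of_nonneg hτ.1.le]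
    nlinarith [hτ.1, hτ.2, norm_nonneg (y₁ - a)]
  · have h5 := Fr_abs (smD sF (y₁ - a)).continuous t0 0 (a + τ • (y₁ - a))
    rw [← D_Fr sF, h4] at h5
    simp only [sub_zero] at h5
    have h6 : d - 2 * C * om ≤ |Fr t (Fr r Φ) y₁ - Fr t (Fr r Φ) a| := by
      refine le_trans ?_ (le_abs_self _)
      nlinarith
    refine (mul_le_mul_of_nonneg_left h6 (by have : 0 < cP 3 := cP_pos 2; positivity)).trans (h5.trans ?_)
    have i : ∀ {G : ℂ → ℝ}, Continuous G → IntegrableOn G (ball (a + τ • (y₁ - a)) t) :=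
      fun hG => (hG.continuousOn.integrableOn_compact (isCompact_closedBall _ _)).mono_set
        ball_subset_closedBall
    refine setIntegral_mono (i (smD sF _).continuous.abs) (i (gn_cont sF)) fun y => ?_
    have e1 := (abs_re_le_norm (y₁ - a)).trans hy
    have e2 := (abs_im_le_norm (y₁ - a)).trans hy
    simp only [gn]
    rw [D_lin]
    refine (abs_add_le _ _).trans ?_
    rw [abs_mul, abs_mul]
    nlinarith [abs_nonneg (D 1 (Fr r Φ) y), abs_nonneg (D I (Fr r Φ) y)]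

theorem pot4_slope : ∃ C : ℝ, 1 ≤ C ∧ ∀ (m j₁ : ℕ) (Φ X₁ X₂ : ℂ → ℝ) (om ν c : ℝ) (y₀ : ℂ)
    (S : Finset (ℤ × ℤ)), j₁ ≤ m → NS Φ X₁ X₂ om 30 → 4 ^ m * om ≤ ν → (∀ z, Φ z ≤ c) →
    ‖y₀‖ ≤ 3 → c - ν ≤ Φ y₀ → (∀ i ∈ S, ‖lp (1 / 2 ^ m) i‖ ≤ 8) →
    ∃ h : ℤ × ℤ → ℝ, (∀ i, 0 ≤ h i) ∧ ∑ i ∈ S, h i ≤ C * 4 ^ m / 2 ^ j₁ * ν ∧
      ∀ i ∈ S, ‖gr (Fr (1 / 2 ^ m) Φ) (lp (1 / 2 ^ m) i)‖ ≤ C * 2 ^ j₁ * ν + h i := by
  obtain ⟨A, A1, hA⟩ := pot_d1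
  obtain ⟨B, B1, hB⟩ := ns_L1
  refine ⟨36 * A * B, by nlinarith, fun m j₁ Φ X₁ X₂ om ν c y₀ S hj h ho hc hy hν hS => ?_⟩
  have om0 : 0 ≤ om := (abs_nonneg _).trans (h.bd 0 (by simp)).2.1
  have m4 : (m : ℝ) ≤ 4 ^ m := by
    exact_mod_cast (Nat.lt_pow_self (by norm_num : 1 < 4)).le
  have o4 : (1 : ℝ) ≤ 4 ^ m := one_le_pow₀ (by norm_num)
  have on : om ≤ ν := by nlinarith
  have ν0 : 0 ≤ ν := om0.trans on
  obtain ⟨b1, b2⟩ := hB Φ X₁ X₂ om ν c y₀ h on hc hy hν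
  have cT : Continuous fun z => |Lap Φ z + dv X₁ X₂ z| :=
    ((smLap h.hΦ).continuous.add (smdv h.h1 h.h2).continuous).abs
  have j1 : ∀ j : ℕ, (1 : ℝ) / 2 ^ j ≤ 1 := fun j =>
    div_le_one_of_le₀ (one_le_pow₀ one_le_two) (by positivity)
  refine ⟨fun i => 2 * A * ∑ j ∈ Finset.Ico j₁ m,
    2 ^ j * ∫ y in ball (lp (1 / 2 ^ m) i) (1 / 2 ^ j), |Lap Φ y + dv X₁ X₂ y|,
    fun i => by positivity, ?_, fun i hi => ?_⟩
  · rw [← Finset.mul_sum, Finset.sum_comm]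
    have h1 : ∀ j ∈ Finset.Ico j₁ m, ∑ i ∈ S, 2 ^ j * ∫ y in ball (lp (1 / 2 ^ m) i) (1 / 2 ^ j),
        |Lap Φ y + dv X₁ X₂ y| ≤ 9 * 4 ^ m * (B * ν) * (1 / 2) ^ j := fun j hj' => by
      rw [← Finset.mul_sum]
      have h2 := lat_sum cT (fun _ => abs_nonneg _) (s := 1 / 2 ^ m) (ρ := 1 / 2 ^ j) (R := 9)
        (by positivity) (one_div_le_one_div_of_le (by positivity)
          (pow_le_pow_right₀ one_le_two (Finset.mem_Ico.1 hj').2.le)) S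
        fun i hi => by linarith [hS i hi, j1 j]
      refine (mul_le_mul_of_nonneg_left (h2.trans (mul_le_mul_of_nonneg_left b2
        (by positivity))) (by positivity)).trans_eq ?_
      rw [show (4 : ℝ) = 2 ^ 2 by norm_num, ← pow_mul, mul_comm 2 m, pow_mul, one_div_pow]
      field_simp
    have h2 := geom_sum_Ico_le_of_lt_one (x := (1 / 2 : ℝ)) (by norm_num) (by norm_num)
      (m := j₁) (n := m)
    refine (mul_le_mul_of_nonneg_left ((Finset.sum_le_sum h1).trans ((Finset.mul_sum _ _ _).ge.trans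
      (mul_le_mul_of_nonneg_left h2 (by positivity)))) (by positivity)).trans_eq ?_
    rw [one_div_pow]
    field_simp
    ring
  · have h0 := hS i hi
    have h1 : ∫ y in ball (lp (1 / 2 ^ m) i) 1, |Φ y - c| ≤ B * ν :=
      (pot4_mono (h.hΦ.continuous.sub continuous_const).abs (fun _ => abs_nonneg _)
        (by linarith)).trans b1
    have h2 : ∑ j ∈ Finset.range j₁, 2 ^ j * ∫ y in ball (lp (1 / 2 ^ m) i) (1 / 2 ^ j),
        |Lap Φ y + dv X₁ X₂ y| ≤ 2 ^ j₁ * (B * ν) := by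
      refine (Finset.sum_le_sum fun j _ => mul_le_mul_of_nonneg_left ((pot4_mono cT
        (fun _ => abs_nonneg _) (by linarith [j1 j])).trans b2) (by positivity)).trans ?_
      rw [← Finset.sum_mul, geom_sum_eq (by norm_num)]
      refine mul_le_mul_of_nonneg_right ?_ (by positivity)
      linarith
    have h3 : ∀ v : ℂ, ‖v‖ ≤ 1 → |D v (Fr (1 / 2 ^ m) Φ) (lp (1 / 2 ^ m) i)| ≤
        A * (B * ν + (2 ^ j₁ * (B * ν) + ∑ j ∈ Finset.Ico j₁ m,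
          2 ^ j * ∫ y in ball (lp (1 / 2 ^ m) i) (1 / 2 ^ j), |Lap Φ y + dv X₁ X₂ y|) + ν) :=
      fun v hv => by
        refine (hA Φ X₁ X₂ om c m v _ h hv (by linarith)).trans
          (mul_le_mul_of_nonneg_left ?_ (by positivity))
        rw [Finset.sum_add_distrib, ← Finset.sum_range_add_sum_Ico _ hj, Finset.sum_const,
          Finset.card_range, nsmul_eq_mul]
        nlinarith
    have h4 := norm_le_abs_re_add_abs_im (gr (Fr (1 / 2 ^ m) Φ) (lp (1 / 2 ^ m) i))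
    have h5 := h3 1 (by simp)
    have h6 := h3 I (by simp)
    have h7 : (1 : ℝ) ≤ 2 ^ j₁ := one_le_pow₀ one_le_two
    have h8 : ν ≤ B * ν := le_mul_of_one_le_left ν0 B1
    have h9 : B * ν ≤ 2 ^ j₁ * (B * ν) := le_mul_of_one_le_left (by positivity) h7
    refine (h4.trans (add_le_add h5 h6)).trans ?_
    nlinarith [mul_le_mul_of_nonneg_left (h8.trans h9) (zero_le_one.trans A1),
      mul_le_mul_of_nonneg_left h9 (zero_le_one.trans A1),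
      mul_nonneg (zero_le_one.trans A1) (ν0.trans (h8.trans h9))]

theorem pot4_a1 {P : ℝ} (h : 1 ≤ P) : (2 * (4 * P) + 1) ^ 2 ≤ 81 * (P * P) := by nlinarith

theorem pot4_a2 {P A t om ν : ℝ} (h : 1 ≤ P) (h1 : 4 * A ≤ P * t) (h2 : P * P * om ≤ ν)
    (o0 : 0 ≤ om) (t0 : 0 ≤ t) : 4 * A * om ≤ ν * t := by
  have e : P * om ≤ ν := by nlinarith [mul_nonneg (zero_le_one.trans h) o0]
  nlinarith

theorem pot4_a3 {P C η m ν : ℝ} (p0 : 0 < P) (ν0 : 0 < ν) (C1 : 1 ≤ C) (h : 9 ≤ m)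
    (h1 : m * (32 * C) ≤ η * P) : P * (C * (1 + m) * ν) ≤ η / 16 * (P * P) * ν := by
  have e2 : C * (1 + m) ≤ η / 16 * P := by nlinarith
  nlinarith [mul_le_mul_of_nonneg_left e2 (mul_pos p0 ν0).le]

theorem pot4_a4 {P s k : ℝ} (p0 : 0 < P) (h : s * P = 1) (h1 : s * k ≤ 4) : k ≤ 4 * P := by
  have := mul_le_mul_of_nonneg_right h1 p0.le
  rwa [mul_right_comm, h, one_mul] at this

open scoped Classical in
theorem pot_nc (m₁ : ℕ) : ∃ (c₁ θ : ℝ) (m₀ : ℕ), 0 < c₁ ∧ 0 < θ ∧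
    ∀ (m : ℕ) (Φ X₁ X₂ : ℂ → ℝ) (om ν c : ℝ) (y₀ a y₁ : ℂ), m₀ ≤ m → 0 < ν →
    9 ≤ m → NS Φ X₁ X₂ om 30 → 4 ^ m * om ≤ ν → (∀ z, Φ z ≤ c) → ‖y₀‖ ≤ 3 → c - ν ≤ Φ y₀ →
    |a.re| ≤ 3 → |a.im| ≤ 3 → ‖y₁ - a‖ ≤ 1 / 2 →
    (∀ x, ‖x - a‖ ≤ 1 / 2 ^ m₁ → Φ x + ν / 2 ^ (m₁ + 2) ≤ Φ y₁) →
    θ * 4 ^ m ≤ ((sq (4 * 2 ^ m)).filter fun i => |(lp (1 / 2 ^ m) i).re - a.re| ≤ 1 ∧
      |(lp (1 / 2 ^ m) i).im - a.im| ≤ 1 ∧
      c₁ * ν ≤ ‖gr (Fr (1 / 2 ^ m) Φ) (lp (1 / 2 ^ m) i)‖).card := by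
  obtain ⟨A, A1, hA⟩ := pot4_jump
  obtain ⟨B, B1, hB⟩ := pot4_slope
  obtain ⟨C, C1, hC⟩ := pot
  set t : ℝ := 1 / 2 ^ (m₁ + 2) with ht
  have t0 : 0 < t := by positivity
  have t4 : 4 * t = 1 / 2 ^ m₁ := by
    rw [ht, pow_add]
    field_simp
    norm_num
  have t1 : t ≤ 1 / 4 := by
    have : (1 : ℝ) / 2 ^ m₁ ≤ 1 := div_le_one_of_le₀ (one_le_pow₀ one_le_two) (by positivity)
    linarith
  have cp : 0 < cP 3 := cP_pos 2
  set η : ℝ := cP 3 * t ^ 3 / 2 with hη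
  have η0 : 0 < η := by positivity
  have big := tendsto_pow_atTop_atTop_of_one_lt (α := ℝ) one_lt_two
  obtain ⟨j₁, hj₁⟩ := (big.eventually_ge_atTop (32 * B / η)).exists
  obtain ⟨m₀, hm₀⟩ := eventually_atTop.1 (((big.eventually_ge_atTop (4 * A / t)).and
    ((tendsto_pow_const_div_const_pow_of_one_lt 1 (one_lt_two (α := ℝ))).eventually
      (ge_mem_nhds (show 0 < η / (32 * C) by positivity)))).and
    ((eventually_ge_atTop j₁).and (eventually_ge_atTop (m₁ + 2))))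
  refine ⟨η / (32 * 81), η / (32 * (B * 2 ^ j₁)), m₀, by positivity, by positivity,
    fun m Φ X₁ X₂ om ν c y₀ a y₁ hm ν0 m9 h ho hc hy hν a1 a2 hy₁ hj => ?_⟩
  obtain ⟨⟨k1, k2⟩, k3, k4⟩ := hm₀ m hm
  have om0 : 0 ≤ om := (abs_nonneg _).trans (h.bd 0 (by simp)).2.1
  set s : ℝ := 1 / 2 ^ m with hs
  have p0 : (0 : ℝ) < 2 ^ m := by positivity
  have s0 : 0 < s := by positivity
  have s1 : s * 2 ^ m = 1 := by
    rw [hs]
    field_simp
  have p4 : (4 : ℝ) ^ m = 2 ^ m * 2 ^ m := by rw [← mul_pow]; norm_num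
  have st : s ≤ t := one_div_le_one_div_of_le (by positivity) (pow_le_pow_right₀ one_le_two k4)
  obtain ⟨x, hx, h1⟩ := hA Φ X₁ X₂ om (ν * t) s t a y₁ h s0 st (by linarith)
    ((norm_le_abs_re_add_abs_im a).trans (by linarith)) hy₁ fun x hx => by
      have := hj x (t4 ▸ hx)
      rwa [div_eq_mul_one_div] at this
  have h2 : η * ν ≤ cP 3 * t ^ 2 * (ν * t - 2 * A * om) := by
    have e1 : 4 * A ≤ 2 ^ m * t := (div_le_iff₀ t0).1 k1
    have e3 : 4 * A * om ≤ ν * t := pot4_a2 (one_le_pow₀ one_le_two) e1 (p4 ▸ ho) om0 t0.le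
    have e4 : η * ν = cP 3 * t ^ 2 * (ν * t / 2) := by
      rw [hη]
      ring
    rw [e4]
    exact mul_le_mul_of_nonneg_left (by linarith) (by positivity)
  obtain ⟨-, g, hg, hg2⟩ := hC m Φ X₁ X₂ om ν c y₀ m9 h ho hc hy hν
  set S := (sq (4 * 2 ^ m)).filter fun i => |(lp s i).re - a.re| ≤ 1 ∧ |(lp s i).im - a.im| ≤ 1
    with hS
  have sF := sm_Fr h.hΦ s
  have idx : ∀ (k : ℤ) (b : ℝ), |b| ≤ 3 → |s * k - b| ≤ 1 →
      k ∈ Finset.Icc (-(4 * 2 ^ m : ℤ)) (4 * 2 ^ m) := fun k b hb hk => by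
    have e1 : |s * k| ≤ 4 := by linarith [abs_sub_abs_le_abs_sub (s * k) b]
    rw [abs_mul, abs_of_pos s0] at e1
    have e2 : |(k : ℝ)| ≤ 4 * 2 ^ m := pot4_a4 p0 s1 e1
    rw [Finset.mem_Icc, ← abs_le]
    exact_mod_cast e2
  have h3 := lat_le (s := s) (gn_cont sF) (gn_nonneg _) (ρ := t) x S fun z hz => by
    obtain ⟨i, i1, i2, i3⟩ := lat_cov s0 z
    have e0 : ‖z - a‖ ≤ t + 1 / 2 := by
      linarith [norm_sub_le_norm_sub_add_norm_sub z x a, (mem_ball_iff_norm.1 hz).le]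
    have e1 : |s * i.1 - a.re| ≤ 1 := by
      have := (abs_re_le_norm (z - a)).trans e0
      rw [sub_re] at this
      linarith [abs_sub_le (s * i.1) z.re a.re]
    have e2 : |s * i.2 - a.im| ≤ 1 := by
      have := (abs_im_le_norm (z - a)).trans e0
      rw [sub_im] at this
      linarith [abs_sub_le (s * i.2) z.im a.im]
    exact ⟨i, Finset.mem_filter.2 ⟨Finset.mem_product.2 ⟨idx _ _ a1 e1, idx _ _ a2 e2⟩, e1, e2⟩, i3⟩
  obtain ⟨hh, hh0, hh1, hh2⟩ := hB m j₁ Φ X₁ X₂ om ν c y₀ S k3 h ho hc hy hν fun i hi => by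
    obtain ⟨-, e1, e2⟩ := Finset.mem_filter.1 hi
    linarith [norm_le_abs_re_add_abs_im (lp s i), abs_sub_abs_le_abs_sub (lp s i).re a.re,
      abs_sub_abs_le_abs_sub (lp s i).im a.im]
  have h4 : ∀ i ∈ S, ∫ z in ball (lp s i) s, gn (Fr s Φ) z ≤ 4 * s ^ 2 * (2 * ((if
      η / (32 * 81) * ν ≤ ‖gr (Fr s Φ) (lp s i)‖ then B * 2 ^ j₁ * ν else 0) + hh i +
        η / (32 * 81) * ν) + 2 ^ m * g i) := fun i hi => by
    obtain ⟨g0, -, g1⟩ := hg i (Finset.mem_filter.1 hi).1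
    have := hh0 i
    refine pot4_ball (gn_nonneg _) s0.le (by positivity) fun y hy' => ?_
    refine (g1 y ((mem_ball_iff_norm.1 hy').le.trans ?_)).2.trans ?_
    · exact div_le_div_of_nonneg_right (by norm_num) p0.le
    · have e := hh2 i hi
      have e0 : 0 ≤ η / (32 * 81) * ν := by positivity
      split_ifs with h5
      · linarith
      · linarith [not_le.1 h5]
  have h5 := h2.trans (h1.trans (h3.trans (Finset.sum_le_sum h4)))
  rw [← Finset.mul_sum, Finset.sum_add_distrib, ← Finset.mul_sum, ← Finset.mul_sum,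
    Finset.sum_add_distrib, Finset.sum_add_distrib, ← Finset.sum_filter, Finset.sum_const,
    Finset.sum_const, nsmul_eq_mul, nsmul_eq_mul, hS, Finset.filter_filter, ← hS] at h5
  simp only [and_assoc] at h5
  have c1 : (S.card : ℝ) ≤ 81 * 4 ^ m := by
    have e1 : (S.card : ℝ) ≤ (sq ((4 * 2 ^ m : ℕ) : ℤ)).card := by
      exact_mod_cast Finset.card_filter_le _ _
    rw [card_sq] at e1
    push_cast at e1
    rw [p4]
    exact e1.trans (pot4_a1 (one_le_pow₀ one_le_two))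
  have c2 : ∑ i ∈ S, g i ≤ C * (1 + m) * ν := (Finset.sum_le_sum_of_subset_of_nonneg
    (Finset.filter_subset _ _) fun i hi _ => (hg i hi).1).trans hg2
  have c3 : B * 4 ^ m / 2 ^ j₁ * ν ≤ η / 32 * 4 ^ m * ν := by
    refine mul_le_mul_of_nonneg_right ?_ ν0.le
    rw [div_le_iff₀ η0] at hj₁
    rw [div_le_iff₀ (by positivity)]
    have e := mul_le_mul_of_nonneg_left hj₁ (pow_pos (show (0 : ℝ) < 4 by norm_num) m).le
    linarith
  have c4 : 2 ^ m * (C * (1 + m) * ν) ≤ η / 16 * 4 ^ m * ν := by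
    have e1 : (9 : ℝ) ≤ m := by exact_mod_cast m9
    rw [pow_one, div_le_div_iff₀ p0 (by positivity)] at k2
    rw [p4]
    exact pot4_a3 p0 ν0 C1 e1 k2
  generalize (((sq (4 * 2 ^ m)).filter fun i => |(lp s i).re - a.re| ≤ 1 ∧
    |(lp s i).im - a.im| ≤ 1 ∧ η / (32 * 81) * ν ≤ ‖gr (Fr s Φ) (lp s i)‖).card : ℝ) = N at h5 ⊢
  have c5 : (S.card : ℝ) * (η / (32 * 81) * ν) ≤ η / 32 * 4 ^ m * ν :=
    (mul_le_mul_of_nonneg_right c1 (by positivity)).trans_eq (by ring)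
  have c6 := (mul_le_mul_of_nonneg_left c2 p0.le).trans c4
  have c7 : η * ν * 4 ^ m ≤ 4 * (2 * (N * (B * 2 ^ j₁ * ν) + η / 32 * 4 ^ m * ν +
      η / 32 * 4 ^ m * ν) + η / 16 * 4 ^ m * ν) := by
    have e : s ^ 2 * 4 ^ m = 1 := by
      rw [p4, pow_two, mul_mul_mul_comm, s1, mul_one]
    refine (mul_le_mul_of_nonneg_right h5 (by positivity)).trans ?_
    rw [mul_right_comm, mul_assoc 4, e, mul_one]
    linarith [hh1.trans c3]
  rw [div_mul_eq_mul_div, div_le_iff₀ (by positivity)]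
  refine le_of_mul_le_mul_right ?_ ν0
  linarith

end Pool.Agent.Lib.MP_a52643_an.YS
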