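import Pool.Agent.Lib.MP_a52643_an.YS.Str
import Pool.Agent.Lib.MP_a52643_an.YS.Pot4
import Pool.Agent.Lib.MP_a52643_an.YS.Mas

/-!
One step from a square to the next generation.
-/

namespace Pool.Agent.Lib.MP_a52643_an.YS

open Complex Filter Topology Metric MeasureTheory Set QS YA
open scoped ContDiff

theorem step_dt0 (x : ℂ) : dt 0 x = 0 := by simp [dt]

theorem step_dt (g x c : ℂ) : 2 * dt ((1 / 2 : ℝ) • g) x = dt g (x - c) + dt g c := by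
  simp only [dt, smul_re, smul_im, smul_eq_mul, sub_re, sub_im]
  ring

theorem step_lp {m : ℕ} {i : ℤ × ℤ} (hi : i ∈ sq (4 * 2 ^ m)) : ‖lp (1 / 2 ^ m) i‖ ≤ 6 := by
  simp only [sq, Finset.mem_product, Finset.mem_Icc] at hi
  have h : ∀ k : ℤ, -(4 * 2 ^ m) ≤ k ∧ k ≤ 4 * 2 ^ m → (1 / 2 ^ m * (k : ℝ)) ^ 2 ≤ 16 := by
    intro k hk
    have h1 : -(4 * 2 ^ m : ℝ) ≤ k := by exact_mod_cast hk.1
    have h2 : (k : ℝ) ≤ 4 * 2 ^ m := by exact_mod_cast hk.2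
    have h3 : (0 : ℝ) < 2 ^ m := by positivity
    have h4 : 1 / 2 ^ m * (k : ℝ) ≤ 4 := by
      rw [one_div, inv_mul_le_iff₀ h3]; linarith
    have h5 : -4 ≤ 1 / 2 ^ m * (k : ℝ) := by
      rw [one_div, le_inv_mul_iff₀ h3]; linarith
    nlinarith
  refine abs_le_of_sq_le_sq' ?_ (by norm_num) |>.2
  rw [Complex.sq_norm, Complex.normSq_apply]
  have := h _ hi.1
  have := h _ hi.2
  simp only [lp]
  nlinarith

open scoped Classical in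
theorem step : ∃ C : ℝ, 1 ≤ C ∧ ∀ m₁ : ℕ, ∃ (c₁ θ : ℝ) (m₀ : ℕ), 0 < c₁ ∧ 0 < θ ∧
    ∀ (m : ℕ) (ε : ℝ), 9 ≤ m → 0 < ε → ∃ T K : ℝ, 1 ≤ T ∧ 1 ≤ K ∧
    ∀ (u V : ℂ → ℝ) (κ x ν : ℝ) (p : ℂ), Sk u V κ x 70 → 0 ≤ κ → 0 ≤ x → 0 < Ms u p 0 2 →
      nn u p 0 1 ≤ ν → T * (1 + x) ≤ ν → (K * κ ≤ ν ∨ K * κ ≤ ‖p‖) →
      (∀ y : ℂ, ‖y‖ ≤ 6 → Real.exp (-(T * ν)) * Ms u p 0 210 ≤ Ms u p y (2 / 2 ^ m)) ∧
      ∃ (q : ℤ × ℤ → ℂ) (g : ℤ × ℤ → ℝ),
        (∀ i ∈ sq (4 * 2 ^ m), nn u (p + q i) (lp (1 / 2 ^ m) i) (1 / 2 ^ m) ≤ g i + ε * ν ∧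
          ‖q i‖ ≤ T * ν ∧ 0 ≤ g i ∧ g i ≤ C * ν) ∧
        ∑ i ∈ sq (4 * 2 ^ m), g i ≤ C * (1 + m) * ν ∧
        ∀ a : ℂ, 9 ≤ m₁ → m₁ ≤ m → m₀ ≤ m → |a.re| ≤ 3 → |a.im| ≤ 3 →
          ν / 2 ^ m₁ ≤ nn u p a (1 / 2 ^ m₁) →
          θ * 4 ^ m ≤ ((sq (4 * 2 ^ m)).filter fun i => |(lp (1 / 2 ^ m) i).re - a.re| ≤ 1 ∧
            |(lp (1 / 2 ^ m) i).im - a.im| ≤ 1 ∧ c₁ * ν ≤ ‖q i‖).card := by
  obtain ⟨C, C1, hpot⟩ := pot
  refine ⟨2 * C, by linarith, fun m₁ => ?_⟩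
  obtain ⟨c₁, θ, m₀, c0, θ0, hnc⟩ := pot_nc m₁
  refine ⟨c₁, θ, m₀, c0, θ0, fun m ε hm hε => ?_⟩
  have p2 : (512 : ℝ) ≤ 2 ^ m := by
    calc (512 : ℝ) = 2 ^ 9 := by norm_num
      _ ≤ 2 ^ m := pow_le_pow_right₀ one_le_two hm
  have p4 : (4 : ℝ) ^ m = 2 ^ m * 2 ^ m := by rw [← mul_pow]; norm_num
  obtain ⟨r, hr⟩ : ∃ r : ℝ, r = 1 / 2 ^ m := ⟨_, rfl⟩
  have r0 : 0 < r := by rw [hr]; positivity
  have r1 : r * 2 ^ m = 1 := by rw [hr]; field_simp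
  have r2 : r ≤ 1 / 512 := by nlinarith
  obtain ⟨D, hD⟩ : ∃ D : ℝ, D = 4 * C * 4 ^ m := ⟨_, rfl⟩
  have D1 : 4 * C * 2 ^ m ≤ D := by
    rw [hD, p4]
    have : (2 : ℝ) ^ m * 1 ≤ 2 ^ m * 2 ^ m := by gcongr; linarith
    gcongr
    linarith
  have D2 : 4 * C ≤ D := by nlinarith
  have D0 : 0 < D := by linarith
  obtain ⟨t, t0, t1, t2⟩ : ∃ t : ℝ, 0 < t ∧ t ≤ r ∧ D * t ≤ ε / 8 :=
    ⟨min r (ε / 8 / D), by positivity, min_le_left _ _, by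
      rw [mul_comm, ← le_div_iff₀ D0]; exact min_le_right _ _⟩
  obtain ⟨M₃, hM⟩ : ∃ M₃ : ℝ, M₃ = (D + 1) / t ^ 2 := ⟨_, rfl⟩
  have M1 : M₃ * t ^ 2 = D + 1 := by rw [hM]; field_simp
  have M2 : 1 ≤ M₃ := by
    rw [hM, le_div_iff₀ (by positivity)]; nlinarith
  obtain ⟨e, e0, e1, e2⟩ : ∃ e : ℝ, 0 < e ∧ C * e ≤ ε / 8 ∧ 4 ^ m * e ≤ 1 :=
    ⟨min (ε / 8 / C) (1 / 4 ^ m), by positivity, by
      rw [mul_comm, ← le_div_iff₀ (by linarith)]; exact min_le_left _ _, by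
      rw [mul_comm, ← le_div_iff₀ (by positivity)]; exact min_le_right _ _⟩
  obtain ⟨η, η0, η1, η2⟩ : ∃ η : ℝ, 0 < η ∧ η ≤ ε / 8 ∧ η ≤ r / 2 :=
    ⟨min (ε / 8) (r / 2), by positivity, min_le_left _ _, min_le_right _ _⟩
  obtain ⟨T, K, T1, K1, hs⟩ := str M2 e0
  have B0 : 0 ≤ 2 * (600 * M₃) / η ^ 2 := by positivity
  refine ⟨T + (D + 1) + 2 * (600 * M₃) / η ^ 2, K, by linarith, K1,
    fun u V κ x ν p hS κ0 x0 h0 hn hT hK => ?_⟩
  have hu := hS.hu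
  have ν2 : T + (D + 1) + 2 * (600 * M₃) / η ^ 2 ≤ ν :=
    (le_mul_of_one_le_right (by linarith) (by linarith)).trans hT
  have ν1 : 1 ≤ ν := by linarith
  obtain ⟨X₁, X₂, hX⟩ := hs u V κ x ν p hS κ0 x0 h0 hn
    ((mul_le_mul_of_nonneg_right (by linarith) (by linarith)).trans hT) hK
  obtain ⟨N, hN⟩ : ∃ N : ℝ, N = M₃ * ν := ⟨_, rfl⟩
  rw [← hN] at hX
  have N1 : 1 ≤ N := hN ▸ one_le_mul_of_one_le_of_one_le M2 ν1
  have N2 : N * t ^ 2 = (D + 1) * ν := by rw [hN, ← M1]; ring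
  have N3 : 600 * N ≤ Real.exp (η * ν) := by
    have := exp_big (B := 600 * M₃) η0 (by linarith : 0 ≤ ν) (by linarith)
    rw [hN]; linarith
  obtain ⟨τ, τ0, τ1⟩ : ∃ τ : ℝ, 0 < τ ∧ N * τ ^ 2 = 1 :=
    ⟨1 / √N, by positivity, by
      rw [div_pow, Real.sq_sqrt (by linarith)]; field_simp⟩
  have τ2 : τ ≤ t := by
    refine abs_le_of_sq_le_sq' ?_ t0.le |>.2
    refine le_of_mul_le_mul_left ?_ (by linarith : 0 < N)
    rw [τ1, N2]; exact one_le_mul_of_one_le_of_one_le (by linarith) ν1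
  have E0 : 0 < Ms u p 0 210 := h0.trans_le (Ms_mono hu p (by simp; norm_num))
  obtain ⟨c, hc⟩ : ∃ c, c = Real.log (Ms u p 0 210) := ⟨_, rfl⟩
  have ec : Real.exp c = Ms u p 0 210 := by rw [hc, Real.exp_log E0]
  have eL : ∀ x, Lm u p N x = Real.exp (Ph u p N x) := fun x =>
    (Real.exp_log (Lm_pos hu h0 N x)).symm
  have hle : ∀ z, Ph u p N z ≤ c := fun z => hc ▸ Ph_le hu h0 (by linarith) z
  have e2ν : 2 ≤ Real.exp ν := by linarith [Real.add_one_le_exp ν]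
  have hU : ∀ (a q : ℂ) (ρ : ℝ), τ ≤ ρ → ρ ≤ 2 → ‖a‖ ≤ 6 → ∃ x, ‖x - a‖ ≤ ρ + τ ∧
      2 * Ms u (p + q) a ρ ≤ Real.exp (η * ν - 2 * dt q x + 2 * ‖q‖ * τ + Ph u p N x) := by
    intro a q ρ h1 h2 h3
    obtain ⟨x, hx, h⟩ := Lm_upp hu τ0 h1 (by linarith) τ1.le (a := a) (by linarith) p q
    refine ⟨x, hx, ?_⟩
    have h4 : (ρ / τ) ^ 2 ≤ 4 * N := by
      rw [div_pow, div_le_iff₀ (by positivity), mul_assoc, τ1]; nlinarith only [h1, h2, τ0]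
    rw [eL] at h
    rw [show η * ν - 2 * dt q x + 2 * ‖q‖ * τ + Ph u p N x =
      η * ν + (-2 * dt q x + 2 * ‖q‖ * τ) + Ph u p N x by ring, Real.exp_add, Real.exp_add]
    have h5 := mul_pos (Real.exp_pos (-2 * dt q x + 2 * ‖q‖ * τ)) (Real.exp_pos (Ph u p N x))
    rw [mul_assoc] at h ⊢
    nlinarith only [h, h4, h5, N3]
  have hL : ∀ x q : ℂ, c - D * ν ≤ Ph u p N x →
      Real.exp (-2 * dt q x - 2 * ‖q‖ * t + Ph u p N x) ≤ 2 * Ms u (p + q) x t := by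
    intro x q h
    rw [Real.exp_add, ← eL]
    refine Lm_low hu (by linarith) t0.le ?_ q
    rw [eL, ← ec, ← Real.exp_add]
    refine (mul_le_mul_of_nonneg_right e2ν (Real.exp_pos _).le).trans ?_
    rw [← Real.exp_add, Real.exp_le_exp]
    linarith
  obtain ⟨y₀, y1, y2⟩ := hU 0 0 2 (by linarith) le_rfl (by simp)
  have y3 : ‖y₀‖ ≤ 3 := by rw [sub_zero] at y1; linarith
  have y4 : c - 2 * ν ≤ Ph u p N y₀ := by
    simp only [add_zero, step_dt0, norm_zero, mul_zero, zero_mul, sub_zero] at y2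
    have h1 := (Real.log_le_iff_le_exp h0).2 ((by linarith : _ ≤ 2 * Ms u p 0 2).trans y2)
    simp only [nn, mul_one] at hn
    have : η * ν ≤ 1 * ν := mul_le_mul_of_nonneg_right (by linarith) (by linarith)
    linarith
  have om1 : 4 ^ m * (e * ν) ≤ 2 * ν := by
    rw [← mul_assoc]; exact mul_le_mul_of_nonneg_right (by linarith) (by linarith)
  obtain ⟨hF, g, hg, hsum⟩ := hpot m _ X₁ X₂ _ (2 * ν) c y₀ hm hX om1 hle y3 y4
  clear hpot hs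
  rw [← hr] at hF hg ⊢
  have cΦ := hX.hΦ.continuous
  have hF' : ∀ y : ℂ, ‖y‖ ≤ 6 → c - D / 2 * ν ≤ Fr r (Ph u p N) y ∧
      ‖gr (Fr r (Ph u p N)) y‖ ≤ D / 2 * ν ∧ ‖gr (Fr r (Ph u p N)) y‖ * r ≤ D / 2 * ν := by
    intro y hy
    obtain ⟨a1, a2⟩ := hF y hy
    refine ⟨by rw [hD]; linarith, by nlinarith only [a2, D1, ν1], ?_⟩
    have := mul_le_mul_of_nonneg_right a2 r0.le
    rw [show C * 2 ^ m * (2 * ν) * r = 2 * C * ν * (r * 2 ^ m) by ring, r1] at this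
    nlinarith only [this, D2, ν1]
  have S1 : ∀ y : ℂ, ‖y‖ ≤ 6 → Real.exp (-((D + 1) * ν)) * Ms u p 0 210 ≤ Ms u p y (2 * r) := by
    intro y hy
    obtain ⟨x, x1, x2⟩ := Fr_pt cΦ r0.le 0 y
    rw [step_dt0, sub_zero] at x2
    have h1 : c - D * ν ≤ Ph u p N x := by nlinarith only [(hF' y hy).1, x2, D0, ν1]
    have h2 := hL x 0 h1
    simp only [add_zero, step_dt0, norm_zero, mul_zero, zero_mul, sub_zero, zero_add] at h2
    have h3 : Ms u p x t ≤ Ms u p y (2 * r) := Ms_mono hu p (by linarith)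
    have h4 : Real.exp (-((D + 1) * ν)) * Ms u p 0 210 * Real.exp ν ≤ Real.exp (Ph u p N x) := by
      rw [← ec, ← Real.exp_add, ← Real.exp_add, Real.exp_le_exp]; linarith
    have h5 := mul_pos (Real.exp_pos (-((D + 1) * ν))) E0
    nlinarith only [h2, h3, h4, h5, e2ν]
  have S0 : ∀ y : ℂ, ‖y‖ ≤ 6 → 0 < Ms u p y (2 * r) := fun y hy =>
    (mul_pos (Real.exp_pos _) E0).trans_le (S1 y hy)
  refine ⟨fun y hy => ?_, fun i => (1 / 2 : ℝ) • gr (Fr r (Ph u p N)) (lp r i), g,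
    fun i hi => ?_, by linarith, fun a hm₁ hm₂ hm₀ a1 a2 ha => ?_⟩
  · rw [show (2 : ℝ) / 2 ^ m = 2 * r by rw [hr]; ring]
    refine le_trans (mul_le_mul_of_nonneg_right (Real.exp_le_exp.2 ?_) E0.le) (S1 y hy)
    exact neg_le_neg (mul_le_mul_of_nonneg_right (by linarith) (by linarith))
  · have hi6 : ‖lp r i‖ ≤ 6 := hr ▸ step_lp hi
    obtain ⟨g0, g1, g2⟩ := hg i hi
    obtain ⟨f1, f2, f3⟩ := hF' _ hi6
    beta_reduce
    generalize lp r i = a at *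
    generalize gr (Fr r (Ph u p N)) a = G at *
    have nq : ‖(1 / 2 : ℝ) • G‖ = ‖G‖ / 2 := by
      rw [norm_smul, Real.norm_of_nonneg (by norm_num)]; ring
    refine ⟨?_, by rw [nq]; nlinarith only [f2, ν1, T1, B0, D0], g0, by linarith⟩
    have k0 : 0 < Ms u (p + (1 / 2 : ℝ) • G) a (2 * r) := Ms_pos hu (S0 a hi6) _
    have k1 : 0 < Ms u (p + (1 / 2 : ℝ) • G) a (210 * r) :=
      k0.trans_le (Ms_mono hu _ (by simp; linarith))
    obtain ⟨x, x1, x2⟩ := hU a ((1 / 2 : ℝ) • G) (210 * r) (by linarith) (by linarith) hi6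
    have x3 := (g2 x (by
      rw [show (211 : ℝ) / 2 ^ m = 211 * r by rw [hr]; ring]; linarith)).1
    have x4 := (Real.log_le_iff_le_exp k1).2 ((le_mul_of_one_le_left k1.le one_le_two).trans x2)
    obtain ⟨w, w1, w2⟩ := Fr_pt cΦ r0.le G a
    have w3 := abs_dt_le G (w - a)
    have w4 := mul_le_mul_of_nonneg_left w1 (norm_nonneg G)
    have w5 := hL w ((1 / 2 : ℝ) • G) (by linarith [(abs_le.1 w3).1])
    have w6 : Ms u (p + (1 / 2 : ℝ) • G) w t ≤ Ms u (p + (1 / 2 : ℝ) • G) a (2 * r) :=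
      Ms_mono hu _ (by linarith)
    have w7 : Real.exp (-2 * dt ((1 / 2 : ℝ) • G) w - 2 * ‖(1 / 2 : ℝ) • G‖ * t + Ph u p N w) ≤
        Real.exp (η * ν) * Ms u (p + (1 / 2 : ℝ) • G) a (2 * r) := by
      nlinarith only [w5, w6, k0, N3, N1]
    rw [← Real.exp_log k0, ← Real.exp_add, Real.exp_le_exp] at w7
    have q1 := step_dt G x a
    have q2 := step_dt G w a
    have q3 : ‖G‖ * t ≤ ε / 8 * ν := by nlinarith only [f2, t2, t0, ν1, hε]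
    have q4 : ‖G‖ * τ ≤ ‖G‖ * t := mul_le_mul_of_nonneg_left τ2 (norm_nonneg G)
    have q5 : η * ν ≤ ε / 8 * ν := by gcongr
    have q6 : C * (e * ν) ≤ ε / 8 * ν := by rw [← mul_assoc]; gcongr
    have q7 : 0 ≤ ε * ν := by positivity
    rw [nq] at x4 w7
    rw [nn]
    linarith
  · have p1 : (512 : ℝ) ≤ 2 ^ m₁ := by
      calc (512 : ℝ) = 2 ^ 9 := by norm_num
        _ ≤ 2 ^ m₁ := pow_le_pow_right₀ one_le_two hm₁
    obtain ⟨s, hs⟩ : ∃ s : ℝ, s = 1 / 2 ^ m₁ := ⟨_, rfl⟩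
    have s1 : r ≤ s := by
      rw [hr, hs]
      exact one_div_le_one_div_of_le (by positivity) (pow_le_pow_right₀ one_le_two hm₂)
    have s2 : s ≤ 1 / 512 := hs ▸ one_div_le_one_div_of_le (by norm_num) p1
    have a6 : ‖a‖ ≤ 6 := (norm_le_abs_re_add_abs_im a).trans (by linarith)
    rw [div_eq_mul_one_div, ← hs, nn] at ha
    have k2 : Ms u p a (2 * r) ≤ Ms u p a (2 * s) := Ms_mono hu _ (by simp; linarith)
    have k0 := (S0 a a6).trans_le k2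
    have k1 : 0 < Ms u p a (210 * s) := k0.trans_le (Ms_mono hu _ (by simp; linarith))
    obtain ⟨y₁, x1, x2⟩ := hU a 0 (210 * s) (by linarith) (by linarith) a6
    simp only [add_zero, step_dt0, norm_zero, mul_zero, zero_mul, sub_zero] at x2
    have h := hnc m _ X₁ X₂ _ (2 * ν) c y₀ a y₁ hm₀ (by linarith) hm hX om1 hle y3 y4 a1 a2
      (by linarith) fun z hz => by
        rw [← hs] at hz
        have z1 := Lm_le hu (p := p) (N := N) (by linarith) (t := s) (by linarith) (x := z)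
          (a := a) (r := 2 * s) (by linarith)
        have z2 : Real.exp (-N * s ^ 2) ≤ Real.exp (-((D + 1) * ν)) := by
          rw [Real.exp_le_exp, ← N2]
          have : t ^ 2 ≤ s ^ 2 := by gcongr; linarith
          nlinarith only [this, N1]
        have z3 := mul_le_mul_of_nonneg_right z2 E0.le
        have z4 : Real.exp (Ph u p N z) ≤ 2 * Ms u p a (2 * s) := by
          rw [← eL]; linarith [S1 a a6]
        have z5 : Real.exp (Ph u p N z) * Ms u p a (210 * s) ≤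
            Ms u p a (2 * s) * Real.exp (η * ν + Ph u p N y₁) := by
          nlinarith only [z4, x2, k0, k1]
        rw [← Real.exp_log k0, ← Real.exp_log k1, ← Real.exp_add, ← Real.exp_add,
          Real.exp_le_exp] at z5
        have z6 : 2 * ν / 2 ^ (m₁ + 2) = ν * s / 2 := by rw [hs]; field_simp; ring
        have z7 : η * ν ≤ s / 2 * ν := by gcongr; linarith
        rw [z6]
        linarith
    rw [← hr] at h
    refine h.trans (Nat.cast_le.2 (Finset.card_le_card fun i hi => ?_))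
    rw [Finset.mem_filter] at hi ⊢
    refine ⟨hi.1, hi.2.1, hi.2.2.1, ?_⟩
    rw [norm_smul, Real.norm_of_nonneg (by norm_num)]
    linarith [hi.2.2.2]

end Pool.Agent.Lib.MP_a52643_an.YS
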