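import Pool.Agent.Lib.MP_a52643_an.YS.Gau2
import Pool.Agent.Lib.MP_a52643_an.YS.Cut

/-!
The structure of the Gaussian mass on a steep square.
-/

namespace Pool.Agent.Lib.MP_a52643_an.YS

open Complex Filter Topology Metric MeasureTheory Set QS YA
open scoped ContDiff

theorem str {M₃ ε : ℝ} (hM : 1 ≤ M₃) (hε : 0 < ε) : ∃ T K : ℝ, 1 ≤ T ∧ 1 ≤ K ∧
    ∀ (u V : ℂ → ℝ) (κ x ν : ℝ) (p : ℂ), Sk u V κ x 70 → 0 ≤ κ → 0 ≤ x → 0 < Ms u p 0 2 →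
      nn u p 0 1 ≤ ν → T * (1 + x) ≤ ν → (K * κ ≤ ν ∨ K * κ ≤ ‖p‖) →
      ∃ X₁ X₂, NS (Ph u p (M₃ * ν)) X₁ X₂ (ε * ν) 30 := by
  obtain ⟨ρ₀, δ, hρ₀, hδ, hcut⟩ := cut (C₃ := 68 * M₃ + 1) hM (by linarith) hε
  have hM0 : 0 < M₃ := by linarith
  obtain ⟨Ks, hKs, hst⟩ := steep (δ := min δ ε / M₃) (div_pos (lt_min hδ hε) hM0)
  obtain ⟨ρ, hρ, hρ1, hρ2⟩ : ∃ ρ : ℝ, 0 < ρ ∧ ρ ≤ 1 ∧ ρ ≤ ρ₀ :=
    ⟨min 1 ρ₀, lt_min one_pos hρ₀, min_le_left _ _, min_le_right _ _⟩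
  have hA : 0 ≤ 4 * Ks ^ 2 * M₃ / ρ ^ 2 := by positivity
  have hB : 0 ≤ 70 * M₃ * Ks / ρ := by positivity
  refine ⟨Ks + 4 * Ks ^ 2 * M₃ / ρ ^ 2, Ks + 70 * M₃ * Ks / ρ, by linarith, by linarith, ?_⟩
  intro u V κ x ν p hS hκ hx hm hn hT hK
  have hT1 : Ks + 4 * Ks ^ 2 * M₃ / ρ ^ 2 ≤ ν := by nlinarith
  have hxν : x ≤ ν := by nlinarith
  have hν : 0 < ν := by linarith
  have hνN : ν ≤ M₃ * ν := by nlinarith
  have hN : 0 < M₃ * ν := by positivity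
  have hs := hst u V κ x (M₃ * ν) p hS hκ hm (hn.trans hνN) (hxν.trans hνN) (by linarith)
  have hδN : min δ ε / M₃ * (M₃ * ν) = min δ ε * ν := by field_simp
  have hgr : ∀ y : ℂ, ‖y‖ < 30 → ‖(1 / 2 : ℝ) • gr (Ph u p (M₃ * ν)) y‖ ≤ 34 * (M₃ * ν) := by
    intro y hy
    rw [norm_smul, Real.norm_of_nonneg (by norm_num)]
    linarith [(hs y hy).1]
  by_cases hp : 34 * (M₃ * ν) + Ks * (κ + √(M₃ * ν)) ≤ ‖p‖
  · refine ⟨fun _ => 0, fun _ => 0, sm_Ph hS.hu hm _, contDiff_const, contDiff_const,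
      fun y hy => ⟨?_, by simp; positivity, by simp; positivity⟩⟩
    have h1 := (hs y hy).2 (by
      have := norm_sub_le (p + (1 / 2 : ℝ) • gr (Ph u p (M₃ * ν)) y)
        ((1 / 2 : ℝ) • gr (Ph u p (M₃ * ν)) y)
      rw [add_sub_cancel_right] at this
      linarith [hgr y hy])
    have h2 : min δ ε * ν ≤ ε * ν := mul_le_mul_of_nonneg_right (min_le_right _ _) hν.le
    have h3 : dv (fun _ : ℂ => (0 : ℝ)) (fun _ => 0) y = 0 := by simp [dv, D]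
    rw [hδN] at h1
    linarith
  push Not at hp
  have h1 : Ks * √(M₃ * ν) ≤ ρ * ν / 2 := by
    have h2 : 4 * Ks ^ 2 * M₃ ≤ ν * ρ ^ 2 := (div_le_iff₀ (by positivity)).1 (by linarith)
    refine le_of_sq_le_sq ?_ (by positivity)
    rw [mul_pow, Real.sq_sqrt hN.le]
    nlinarith
  have h2 : Ks * κ ≤ ρ * ν / 2 := by
    have h3 : 70 * M₃ * Ks / ρ * κ ≤ 35 * (M₃ * ν) := by
      have : ρ * ν ≤ ν := by nlinarith
      have : 0 ≤ Ks * κ := by positivity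
      rcases hK with hK | hK <;> nlinarith
    rw [div_mul_eq_mul_div, div_le_iff₀ hρ] at h3
    refine le_of_mul_le_mul_left ?_ (show 0 < 70 * M₃ by positivity)
    nlinarith
  have h3 : Ks * (κ + √(M₃ * ν)) ≤ ρ * ν := by linarith
  have h4 : ρ * ν ≤ ν := by nlinarith
  have h5 : ρ * ν ≤ ρ₀ * ν := mul_le_mul_of_nonneg_right hρ2 hν.le
  refine hcut _ p ν hν (sm_Ph hS.hu hm _) fun y hy => ⟨?_, ?_, fun h => ?_⟩
  · obtain ⟨c, -, h, -⟩ := gau hS.hu hm hN y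
    exact h
  · have := norm_add_le p ((1 / 2 : ℝ) • gr (Ph u p (M₃ * ν)) y)
    nlinarith [hgr y hy]
  · have h6 := (hs y hy).2 (by linarith)
    have h7 : min δ ε * ν ≤ δ * ν := mul_le_mul_of_nonneg_right (min_le_left _ _) hν.le
    rw [hδN] at h6
    linarith

end Pool.Agent.Lib.MP_a52643_an.YS
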