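import Pool.Agent.Lib.MP_a52643_an.YS.Tree1

/-!
Excursions, persistence and growth.
-/

namespace Pool.Agent.Lib.MP_a52643_an.YS

open Finset
open scoped Classical

variable {M J n m : ℕ} {T K c θ t₁ : ℝ} {f : ℕ → ℤ × ℤ → ℂ → ℝ} {fl : ℕ → ℝ}

theorem tree2_kid (hM : 1 ≤ M) {j : ℕ} {i i' : ℤ × ℤ} (hi : i ∈ bx (n * (M : ℤ) ^ j))
    (h : i' ∈ kids M 1 i) : i' ∈ bx (n * (M : ℤ) ^ (j + 1)) := by
  rw [← (mem_kids hM 1).1 h, up_mem_bx hM, pow_one, mul_assoc, ← pow_succ] at hi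
  exact hi

theorem tree2_tail (fl : ℕ → ℝ) {j : ℕ} (hj : j < J) :
    ∑ g ∈ Ico j J, fl g = fl j + ∑ g ∈ Ico (j + 1) J, fl g := sum_eq_sum_Ico_succ_bot hj fl

theorem tree2_mink {ι : Type} (s : Finset ι) {a : ι → ℝ} {X Y k : ℝ} (hX : 0 ≤ X) (hY : 0 ≤ Y)
    (hk : (s.card : ℝ) = k) (ha : ∀ i ∈ s, 0 ≤ a i)
    (h : ∑ i ∈ s, a i ^ (3 / 2 : ℝ) ≤ k * Y ^ (3 / 2 : ℝ)) :
    ∑ i ∈ s, (X + a i) ^ (3 / 2 : ℝ) ≤ k * (X + Y) ^ (3 / 2 : ℝ) := by
  have k0 : 0 ≤ k := hk ▸ Nat.cast_nonneg _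
  have h1 := Real.Lp_add_le_of_nonneg s (f := fun _ => X) (g := a) (p := 3 / 2) (by norm_num)
    (fun _ _ => hX) ha
  have e : ∀ Z : ℝ, 0 ≤ Z → (k * Z ^ (3 / 2 : ℝ)) ^ (1 / (3 / 2) : ℝ) =
      k ^ (1 / (3 / 2) : ℝ) * Z := fun Z hZ => by
    rw [Real.mul_rpow k0 (by positivity), ← Real.rpow_mul hZ]
    norm_num
  have h2 := Real.rpow_le_rpow (sum_nonneg fun i hi => Real.rpow_nonneg (ha i hi) _) h
    (by norm_num : (0 : ℝ) ≤ 1 / (3 / 2))
  rw [sum_const, nsmul_eq_mul, hk, e X hX] at h1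
  rw [e Y hY] at h2
  rw [← Real.rpow_le_rpow_iff (z := 1 / (3 / 2))
    (sum_nonneg fun i hi => Real.rpow_nonneg (add_nonneg hX (ha i hi)) _) (by positivity)
    (by norm_num), e _ (add_nonneg hX hY)]
  linarith

theorem tree2_fl (h : Tr M J n m T K c θ t₁ f fl) {j : ℕ} (hj : j < J) : fl j ≤ K :=
  (single_le_sum (fun g _ => h.fl0 g) (mem_range.2 hj)).trans h.fls

theorem exc (h : Tr M J n m T K c θ t₁ f fl) {t₀ : ℝ} (ht : K * (1 + T) ≤ t₀) (r : ℕ) :
    ∀ (j : ℕ) (i : ℤ × ℤ) (σ : ℂ) (a : ℝ), j + r = J → i ∈ bx (n * (M : ℤ) ^ j) → f j i σ ≤ a →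
      0 ≤ a → (r = 0 ∨ K ≤ a ∨ K ≤ ‖σ‖) →
      ∑ y ∈ (kids M r i).filter fun y => ∀ g, j < g → g < J → t₀ < f g (up M (J - g) y) 0,
        f J y 0 ^ (3 / 2 : ℝ) ≤ (M : ℝ) ^ (2 * r) *
          (T * ‖σ‖ + 2 * T ^ 2 * (a + ∑ g ∈ Ico j J, fl g)) ^ (3 / 2 : ℝ) := by
  have M1 : 1 ≤ M := by have := h.hM; omega
  have hT := h.hT
  induction r with
  | zero =>
    intro j i σ a hj hi h1 h2 _
    obtain rfl : j = J := by omega
    refine (sum_le_sum_of_subset_of_nonneg (t := {i}) (fun y hy => ?_) fun y hy _ => ?_).trans ?_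
    · rw [mem_singleton, ← (mem_kids M1 0).1 (mem_filter.1 hy).1, up_zero]
    · rw [mem_singleton.1 hy]
      exact Real.rpow_nonneg (h.pos j i le_rfl hi) _
    · simp only [sum_singleton, mul_zero, pow_zero, one_mul, Ico_self, sum_empty, add_zero]
      refine Real.rpow_le_rpow (h.pos j i le_rfl hi) ?_ (by norm_num)
      have := h.tilt j i σ le_rfl hi
      nlinarith [mul_nonneg h2 (sq_nonneg T), mul_le_mul_of_nonneg_left hT h2]
  | succ r ih =>
    intro j i σ a hj hi h1 h2 h3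
    have f0 := h.fl0 j
    obtain ⟨⟨σ', a', k1, k2, -⟩, -⟩ := h.step j i σ (a + fl j) (by omega) hi (by linarith)
      (by linarith) (h3.resolve_left (by omega) |>.imp_left fun h => by linarith)
    have t0 : 0 ≤ ∑ g ∈ Ico (j + 1) J, fl g := sum_nonneg fun g _ => h.fl0 g
    rw [sum_filter, sum_kids M1, tree2_tail fl (by omega : j < J)]
    generalize hφ : ∑ g ∈ Ico (j + 1) J, fl g = φ at t0
    have hX : 0 ≤ T * ‖σ‖ + T ^ 2 * (a + fl j) + 2 * T ^ 2 * φ := by positivity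
    have m1 := tree2_mink (kids M 1 i) (a := fun i' => 2 * T ^ 2 * a' i') hX
      (Y := 2 * T ^ 2 * ((a + fl j) / 2)) (by positivity) (card_kids M 1 i)
      (fun i' hi' => by have := (k1 i' hi').2.2; positivity) (by
        rw [Real.mul_rpow (by positivity) (by positivity), mul_left_comm]
        refine le_trans (le_of_eq ?_) (mul_le_mul_of_nonneg_left k2 (by positivity))
        rw [mul_sum]
        exact sum_congr rfl fun i' hi' => Real.mul_rpow (by positivity) (k1 i' hi').2.2)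
    refine (sum_le_sum (g := fun i' => (M : ℝ) ^ (2 * r) * (T * ‖σ‖ + T ^ 2 * (a + fl j) +
      2 * T ^ 2 * φ + 2 * T ^ 2 * a' i') ^ (3 / 2 : ℝ)) fun i' hi' => ?_).trans ?_
    · obtain ⟨b1, b2, b3⟩ := k1 i' hi'
      have hv := tree2_kid M1 hi hi'
      by_cases hs : r = 0 ∨ K ≤ a' i' ∨ K ≤ ‖σ' i'‖
      · have b4 := ih (j + 1) i' _ _ (by omega) hv b1 b3 hs
        rw [sum_filter, hφ] at b4
        refine le_trans (sum_le_sum fun y hy => ?_) (b4.trans ?_)
        · have b5 : 0 ≤ f J y 0 ^ (3 / 2 : ℝ) := by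
            refine Real.rpow_nonneg (h.pos J y le_rfl ?_) _
            rw [← (mem_kids M1 r).1 hy, up_mem_bx M1, mul_assoc, ← pow_add,
              show j + 1 + r = J by omega] at hv
            exact hv
          split_ifs with c1 c2
          exacts [le_rfl, absurd (fun g g1 g2 => c1 g (by omega) g2) c2, b5, le_rfl]
        · have b6 : ‖σ' i'‖ ≤ ‖σ‖ + T * (a + fl j) := by
            linarith [norm_le_norm_add_norm_sub' (σ' i') σ]
          refine mul_le_mul_of_nonneg_left (Real.rpow_le_rpow (by positivity) ?_ (by norm_num))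
            (by positivity)
          nlinarith
      · refine le_trans (le_of_eq (sum_eq_zero fun y hy => if_neg fun c1 => ?_))
          (mul_nonneg (by positivity) (Real.rpow_nonneg (add_nonneg hX (by positivity)) _))
        push Not at hs
        have b4 := c1 (j + 1) (by omega) (by omega)
        rw [show J - (j + 1) = r by omega, (mem_kids M1 r).1 hy] at b4
        have b5 := h.tilt (j + 1) i' (σ' i') (by omega) hv
        nlinarith [hs.2.1, hs.2.2]
    · rw [← mul_sum, show 2 * (r + 1) = 2 * r + 2 * 1 by ring, pow_add,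
        mul_assoc ((M : ℝ) ^ (2 * r))]
      refine mul_le_mul_of_nonneg_left (m1.trans (le_of_eq ?_)) (pow_nonneg (Nat.cast_nonneg _) _)
      congr 2
      ring

theorem pst (h : Tr M J n m T K c θ t₁ f fl) {s : ℝ} (hs : K ≤ s) (r : ℕ) :
    ∀ (j : ℕ) (i : ℤ × ℤ) (σ : ℂ) (a : ℝ), j + r = J → i ∈ bx (n * (M : ℤ) ^ j) → f j i σ ≤ a →
      0 ≤ a → s < ‖σ‖ →
      (((kids M r i).filter fun y =>
        ¬ ∀ g, j ≤ g → g < J → St T s f fl g (up M (J - g) y)).card : ℝ) * (‖σ‖ - s) ≤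
        (M : ℝ) ^ (2 * r) * (4 * T * (a + ∑ g ∈ Ico j J, fl g)) := by
  have M1 : 1 ≤ M := by have := h.hM; omega
  have hT := h.hT
  induction r with
  | zero =>
    intro j i σ a hj hi h1 h2 h3
    rw [filter_false_of_mem fun y _ hy => hy fun g g1 g2 => by omega]
    have t0 : 0 ≤ ∑ g ∈ Ico j J, fl g := sum_nonneg fun g _ => h.fl0 g
    simp only [card_empty, Nat.cast_zero, zero_mul]
    positivity
  | succ r ih =>
    intro j i σ a hj hi h1 h2 h3
    have f0 := h.fl0 j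
    have t0 : 0 ≤ ∑ g ∈ Ico (j + 1) J, fl g := sum_nonneg fun g _ => h.fl0 g
    rw [tree2_tail fl (by omega : j < J)]
    generalize hφ : ∑ g ∈ Ico (j + 1) J, fl g = φ at t0
    rcases le_total (‖σ‖ - s) (4 * T * (a + (fl j + φ))) with hc | hc
    · refine mul_le_mul ?_ hc (by linarith) (by positivity)
      rw [← card_kids M (r + 1) i]
      exact_mod_cast card_filter_le _ _
    obtain ⟨⟨σ', a', k1, -, k2⟩, -⟩ := h.step j i σ (a + fl j) (by omega) hi (by linarith)
      (by linarith) (.inr (by linarith))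
    have hK := h.hK
    have d0 : T * (a + fl j) ≤ T * (a + (fl j + φ)) := by gcongr; linarith
    have d1 : 0 < ‖σ‖ - s - T * (a + fl j) := by linarith
    have st : St T s f fl j i := ⟨σ, a + fl j, by linarith, by linarith, h3.le, by linarith⟩
    have k3 : (((kids M (r + 1) i).filter fun y =>
        ¬ ∀ g, j ≤ g → g < J → St T s f fl g (up M (J - g) y)).card : ℝ) *
          (‖σ‖ - s - T * (a + fl j)) ≤
        ∑ i' ∈ kids M 1 i, (M : ℝ) ^ (2 * r) * (4 * T * (a' i' + φ)) := by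
      rw [card_filter, Nat.cast_sum, sum_kids M1, sum_mul]
      refine sum_le_sum fun i' hi' => ?_
      obtain ⟨b1, b2, b3⟩ := k1 i' hi'
      have b6 : ‖σ‖ - T * (a + fl j) ≤ ‖σ' i'‖ := by
        linarith [norm_le_norm_add_norm_sub' σ (σ' i'), norm_sub_rev σ (σ' i')]
      have b4 := ih (j + 1) i' _ _ (by omega) (tree2_kid M1 hi hi') b1 b3 (by linarith)
      rw [hφ] at b4
      refine le_trans (mul_le_mul ?_ (by linarith) d1.le (Nat.cast_nonneg _)) b4
      rw [card_filter, Nat.cast_sum]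
      refine sum_le_sum fun y hy => ?_
      split_ifs with c1 c2 c2
      · exact le_rfl
      · exact Nat.cast_le.2 zero_le_one
      · refine absurd (fun g g1 g2 => ?_) c1
        rcases g1.eq_or_lt with rfl | g1
        · rw [show J - j = 1 + r by omega, ← up_up M1, (mem_kids M1 r).1 hy,
            (mem_kids M1 1).1 hi']
          exact st
        · exact c2 g g1 g2
      · exact le_rfl
    have k4 : ∑ i' ∈ kids M 1 i, (a' i' + φ) ≤ (M : ℝ) ^ 2 * ((a + fl j) / 2 + φ) := by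
      rw [sum_add_distrib, sum_const, nsmul_eq_mul, card_kids]
      linarith
    rw [← mul_sum, ← mul_sum] at k3
    have k5 := k3.trans (mul_le_mul_of_nonneg_left
      (mul_le_mul_of_nonneg_left k4 (by positivity)) (by positivity))
    refine le_of_mul_le_mul_right ?_ d1
    rw [mul_right_comm]
    refine (mul_le_mul_of_nonneg_right k5 (by linarith)).trans ?_
    have k6 : ((a + fl j) / 2 + φ) * (‖σ‖ - s) ≤
        (a + (fl j + φ)) * (‖σ‖ - s - T * (a + fl j)) := by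
      nlinarith [mul_le_mul_of_nonneg_left hc (by linarith : 0 ≤ a + fl j),
        mul_nonneg (by linarith : 0 ≤ a + fl j) (by linarith : 0 ≤ ‖σ‖ - s)]
    calc _ = (M : ℝ) ^ (2 * (r + 1)) * (4 * T) * (((a + fl j) / 2 + φ) * (‖σ‖ - s)) := by ring
      _ ≤ _ := mul_le_mul_of_nonneg_left k6 (by positivity)
      _ = _ := by ring

theorem grow (h : Tr M J n m T K c θ t₁ f fl) {t : ℝ} (ht : K ≤ t) (r : ℕ) :
    ∀ (j : ℕ) (y : ℤ × ℤ), j + r ≤ J → up M r y ∈ bx (n * (M : ℤ) ^ j) →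
      f j (up M r y) 0 ≤ t → f (j + r) y 0 ≤ T ^ r * t := by
  have M1 : 1 ≤ M := by have := h.hM; omega
  induction r with
  | zero => intro j y _ _ h1; simpa [up_zero] using h1
  | succ r ih =>
    intro j y hj hv h1
    rw [← up_up M1] at hv h1
    have h2 := ih j _ (by omega) hv h1
    have h3 : t ≤ T ^ r * t := le_mul_of_one_le_left (by linarith [h.hK]) (one_le_pow₀ h.hT)
    rw [up_mem_bx M1, mul_assoc, ← pow_add] at hv
    have h4 := near_sc_up M1 y
    have h5 := ((h.step (j + r) _ 0 _ (by omega) hv h2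
      ((tree2_fl h (by omega)).trans (by linarith)) (.inl (by linarith))).2 y
      ⟨h4.1.trans (by omega), h4.2.trans (by omega)⟩).2
    rw [norm_zero, add_zero, ← mul_assoc, ← pow_succ'] at h5
    exact h5

theorem grow' (h : Tr M J n m T K c θ t₁ f fl) {j : ℕ} {i L : ℤ × ℤ} (hj : j < J)
    (hi : i ∈ bx (n * (M : ℤ) ^ j)) (hL : near (4 * M) L (sc M 1 i)) :
    f (j + 1) L 0 ≤ T ^ (j + 1) * K := by
  have M1 : 1 ≤ M := by have := h.hM; omega
  have h1 : up M j i ∈ bx n := (up_mem_bx M1 j n).2 hi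
  have h2 := grow h le_rfl j 0 i (by omega) (by simpa using h1) (h.root _ h1)
  have h3 : K ≤ T ^ j * K := le_mul_of_one_le_left (by linarith [h.hK]) (one_le_pow₀ h.hT)
  rw [zero_add] at h2
  have h5 := ((h.step j i 0 _ hj hi h2 ((tree2_fl h hj).trans h3) (.inl h3)).2 L hL).2
  rw [norm_zero, add_zero, ← mul_assoc, ← pow_succ'] at h5
  exact h5

end Pool.Agent.Lib.MP_a52643_an.YS
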