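import Pool.Agent.Lib.MP_a52643_an.YS.Tree2

/-!
Selection of the launching squares, and their persistent sets.
-/

namespace Pool.Agent.Lib.MP_a52643_an.YS

open Finset
open scoped Classical

variable {M J n m : ℕ} {T K c θ t₁ : ℝ} {f : ℕ → ℤ × ℤ → ℂ → ℝ} {fl : ℕ → ℝ}

private theorem Tree3_bx (hM : 1 ≤ M) {j : ℕ} (hj : j ≤ J) {y : ℤ × ℤ} :
    up M (J - j) y ∈ bx (n * (M : ℤ) ^ j) ↔ y ∈ bx (n * (M : ℤ) ^ J) := by
  rw [up_mem_bx hM, mul_assoc, ← pow_add, Nat.add_sub_cancel' hj]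

private theorem Tree3_refl {D : ℤ} (hD : 0 ≤ D) (i : ℤ × ℤ) : near D i i := by
  simp [near, hD]

private theorem Tree3_up_sc (hM : 1 ≤ M) (r : ℕ) (i : ℤ × ℤ) : up M r (sc M r i) = i := by
  have h : (M : ℤ) ^ r ≠ 0 := pow_ne_zero _ (by omega)
  simp [up, sc, Int.mul_ediv_cancel_left _ h]

theorem sel (h : Tr M J n m T K c θ t₁ f fl) {t t₀ : ℝ} (h0 : K ≤ t₀) (h1 : t₀ ≤ t) {y : ℤ × ℤ}
    (hy : y ∈ bx (n * (M : ℤ) ^ J)) (hf : T ^ m * t < f J y 0) :
    ∃ j, LL M J m t t₀ f j (up M (J - j) y) ∧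
      ∀ g, j < g → g < J → t₀ < f g (up M (J - g) y) 0 := by
  have hM : 1 ≤ M := le_trans (by norm_num) h.hM
  have hMz : (0 : ℤ) ≤ M := by positivity
  have hK := h.hK
  have ht : 0 < t := by linarith
  have hTm : t ≤ T ^ m * t := le_mul_of_one_le_left ht.le (one_le_pow₀ h.hT)
  have c0 : f 0 (up M (J - 0) y) 0 ≤ t₀ := by
    refine (h.root _ ?_).trans h0
    have := (Tree3_bx (n := n) hM (Nat.zero_le J)).2 hy
    simpa using this
  obtain ⟨j₀, a1, a2, a3⟩ : ∃ j₀, j₀ ≤ J ∧ f j₀ (up M (J - j₀) y) 0 ≤ t₀ ∧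
      ∀ g, j₀ < g → g ≤ J → t₀ < f g (up M (J - g) y) 0 :=
    ⟨Nat.findGreatest (fun g => f g (up M (J - g) y) 0 ≤ t₀) J, Nat.findGreatest_le J,
      Nat.findGreatest_spec (P := fun g => f g (up M (J - g) y) 0 ≤ t₀) (Nat.zero_le J) c0,
      fun g b1 b2 => not_le.1 (Nat.findGreatest_is_greatest b1 b2)⟩
  have a4 : j₀ < J := by
    rcases a1.eq_or_lt with e | e
    · rw [e, Nat.sub_self, up_zero] at a2; linarith
    · exact e
  have ex : ∃ g, j₀ < g ∧ g ≤ J ∧ ∃ L, near (2 * M) L (up M (J - g) y) ∧ t < f g L 0 :=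
    ⟨J, a4, le_rfl, y, by rw [Nat.sub_self, up_zero]; exact Tree3_refl (by linarith) y, by linarith⟩
  obtain ⟨b1, b2, L, b3, b4⟩ := Nat.find_spec ex
  have b5 : ∀ g, j₀ < g → g < Nat.find ex → ∀ L, near (2 * M) L (up M (J - g) y) → f g L 0 ≤ t :=
    fun g d1 d2 L d3 => not_lt.1 fun d4 => Nat.find_min ex d2 ⟨d1, by omega, L, d3, d4⟩
  obtain ⟨j, hj⟩ : ∃ j, Nat.find ex = j + 1 := ⟨Nat.find ex - 1, by omega⟩
  rw [hj] at b1 b2 b3 b4 b5
  have hup : ∀ g, g ≤ j → up M (j - g) (up M (J - j) y) = up M (J - g) y := fun g hg => by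
    rw [up_up hM, show j - g + (J - j) = J - g by omega]
  have b6 : f j (up M (J - j) y) 0 ≤ t := by
    rcases (show j₀ ≤ j by omega).eq_or_lt with e | e
    · rw [← e]; exact a2.trans h1
    · exact b5 j e (by omega) _ (Tree3_refl (by linarith) _)
  refine ⟨j, ⟨?_, b6, ⟨L, ?_, b4⟩, j₀, by omega, by rw [hup j₀ (by omega)]; exact a2,
    fun g d1 d2 L' d3 => b5 g d1 (by omega) L' (by rwa [hup g d2] at d3)⟩,
    fun g d1 d2 => a3 g (by omega) d2.le⟩
  · by_contra hc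
    have d1 := grow h (h0.trans h1) (J - j) j y (by omega) ((Tree3_bx hM (by omega)).2 hy) b6
    rw [show j + (J - j) = J by omega] at d1
    have d2 : T ^ (J - j) ≤ T ^ m := pow_le_pow_right₀ h.hT (by omega)
    have d3 := mul_le_mul_of_nonneg_right d2 ht.le
    linarith
  · have d1 := near_sc_up hM (up M (J - (j + 1)) y)
    rw [up_up hM, show 1 + (J - (j + 1)) = J - j by omega] at d1
    exact near_trans b3 d1 (by linarith)

theorem hset (h : Tr M J n m T K c θ t₁ f fl) {t t₀ : ℝ} (h1 : t₁ ≤ t) (h2 : 32 * T * K ≤ c * t)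
    {j : ℕ} {P : ℤ × ℤ} (hP : LL M J m t t₀ f j P)
    (hv : ∀ y, near 4 (up M (J - j) y) P → y ∈ bx (n * (M : ℤ) ^ J)) :
    ∃ (H : Finset (ℤ × ℤ)) (L : ℤ × ℤ), θ / 2 * (M : ℝ) ^ (2 * (J - j)) ≤ H.card ∧
      t < f (j + 1) L 0 ∧ ∀ y ∈ H, near 4 (up M (J - j) y) P ∧
        near M (up M (J - (j + 1)) y) L ∧
        ∀ g, j + m < g → g ≤ J → ∀ Q, near 4 Q (up M (J - g) y) → c * t / 4 ≤ f g Q 0 := by
  have hM : 1 ≤ M := le_trans (by norm_num) h.hM
  have hM4 : (4 : ℤ) ≤ M := by exact_mod_cast h.hM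
  have hT := h.hT
  have hK := h.hK
  have hm := h.hm
  have hTK : K ≤ T * K := le_mul_of_one_le_left (by linarith) hT
  obtain ⟨hj, hf, ⟨L, hL, hl⟩, -⟩ := hP
  have hPb : P ∈ bx (n * (M : ℤ) ^ j) := by
    have := (Tree3_bx (n := n) hM (show j ≤ J by omega)).2 (hv (sc M (J - j) P)
      (by rw [Tree3_up_sc hM]; exact Tree3_refl (by norm_num) P))
    rwa [Tree3_up_sc hM] at this
  obtain ⟨S, hS, hS'⟩ := h.launch j P L t hj.le hPb h1 hf hL hl
  obtain ⟨r, hr⟩ : ∃ r, J = j + m + r := ⟨J - (j + m), by omega⟩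
  have a1 : ∀ i' ∈ S, ∀ y ∈ kids M r i', near 4 (up M (J - j) y) P ∧
      near M (up M (J - (j + 1)) y) L := by
    intro i' hi' y hy
    have e := (mem_kids hM r).1 hy
    have d1 := (hS' i' hi').1
    have d2 := near_sc hL M (m - 1)
    rw [sc_sc, show m - 1 + 1 = m by omega] at d2
    have d3 : (M : ℤ) ^ m = M * (M : ℤ) ^ (m - 1) := by
      rw [← pow_succ', show m - 1 + 1 = m by omega]
    constructor
    · rw [show J - j = m + r by omega, ← up_up hM, e]
      exact near_up_sc hM m (near_trans d1 d2 (by rw [d3]; linarith))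
    · rw [show J - (j + 1) = m - 1 + r by omega, ← up_up hM, e]
      exact near_up_sc hM (m - 1) (by rwa [d3] at d1)
  set Gd : ℤ × ℤ → Prop := fun y =>
    ∀ g, j + m ≤ g → g < J → St T (c * t / 2) f fl g (up M (J - g) y) with hGd
  have a2 : ∀ i' ∈ S, (M : ℝ) ^ (2 * r) / 2 ≤ (((kids M r i').filter Gd).card : ℝ) := by
    intro i' hi'
    obtain ⟨σ, d1, d2⟩ := (hS' i' hi').2
    have d3 : i' ∈ bx (n * (M : ℤ) ^ (j + m)) := by
      have := (Tree3_bx (n := n) hM (show j + m ≤ J by omega)).2 (hv (sc M r i')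
        (a1 i' hi' _ ((mem_kids hM r).2 (Tree3_up_sc hM r i'))).1)
      rwa [show J - (j + m) = r by omega, Tree3_up_sc hM] at this
    have hct : 0 < c * t := by linarith
    have d4 := pst h (s := c * t / 2) (by linarith) r (j + m) i' σ _ hr.symm d3 d2
      (by rw [mul_assoc]; positivity) (by linarith)
    have d5 : ∑ g ∈ Ico (j + m) J, fl g ≤ K := by
      refine le_trans (sum_le_sum_of_subset_of_nonneg ?_ (fun g _ _ => h.fl0 g)) h.fls
      intro g hg
      exact mem_range.2 (mem_Ico.1 hg).2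
    have d6 : 4 * T * (1 / (32 * T) * c * t + ∑ g ∈ Ico (j + m) J, fl g) ≤ c * t / 4 := by
      have : 4 * T * (1 / (32 * T) * c * t) = c * t / 8 := by field_simp; ring
      rw [mul_add, this]
      nlinarith [mul_le_mul_of_nonneg_left d5 (show 0 ≤ T by linarith)]
    have d7 := card_filter_add_card_filter_not (s := kids M r i') Gd
    have d8 := card_kids M r i'
    rw [← d7, Nat.cast_add] at d8
    have d9 : (((kids M r i').filter fun y => ¬ Gd y).card : ℝ) * (c * t / 2) ≤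
        (M : ℝ) ^ (2 * r) / 2 * (c * t / 2) := by
      refine (mul_le_mul_of_nonneg_left (show c * t / 2 ≤ ‖σ‖ - c * t / 2 by linarith)
        (Nat.cast_nonneg _)).trans (le_trans d4 ?_)
      refine (mul_le_mul_of_nonneg_left d6 (by positivity)).trans (le_of_eq (by ring))
    have d10 := le_of_mul_le_mul_right d9 (by linarith)
    linarith
  refine ⟨S.biUnion fun i' => (kids M r i').filter Gd, L, ?_, hl, fun y hy => ?_⟩
  · rw [card_biUnion, Nat.cast_sum]
    · have d1 := card_nsmul_le_sum S _ _ a2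
      rw [nsmul_eq_mul] at d1
      refine le_trans ?_ d1
      have d2 := mul_le_mul_of_nonneg_right hS (show 0 ≤ (M : ℝ) ^ (2 * r) / 2 by positivity)
      refine le_trans (le_of_eq ?_) d2
      rw [show 2 * (J - j) = 2 * m + 2 * r by omega, pow_add]
      ring
    · intro x _ x' _ hne
      refine disjoint_left.2 fun y d1 d2 => hne ?_
      rw [← (mem_kids hM r).1 (mem_filter.1 d1).1, ← (mem_kids hM r).1 (mem_filter.1 d2).1]
  · obtain ⟨i', hi', hy'⟩ := mem_biUnion.1 hy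
    obtain ⟨d1, d2⟩ := mem_filter.1 hy'
    refine ⟨(a1 i' hi' y d1).1, (a1 i' hi' y d1).2, fun g d3 d4 Q hQ => ?_⟩
    obtain ⟨g', rfl⟩ : ∃ g', g = g' + 1 := ⟨g - 1, by omega⟩
    obtain ⟨σ, a, e1, e2, e3, e4⟩ := d2 g' (by omega) (by omega)
    have e5 := near_sc_up hM (up M (J - (g' + 1)) y)
    rw [up_up hM, show 1 + (J - (g' + 1)) = J - g' by omega] at e5
    have e6 := ((h.step g' _ σ a (by omega) ((Tree3_bx hM (by omega)).2 (hv y (a1 i' hi' y d1).1))
      e1 e2 (Or.inr (by linarith))).2 Q (near_trans hQ e5 (by linarith))).1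
    linarith

end Pool.Agent.Lib.MP_a52643_an.YS
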