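import Pool.Agent.Lib.MP_a52643_an.YS.Tree3

/-!
The good lambda inequality.
-/

namespace Pool.Agent.Lib.MP_a52643_an.YS

open Finset
open scoped Classical

variable {M J n m : ℕ} {T K c θ t₁ : ℝ} {f : ℕ → ℤ × ℤ → ℂ → ℝ} {fl : ℕ → ℝ}

private theorem Tree4_over {m : ℕ} (B : Finset (ℕ × (ℤ × ℤ))) (w : ℕ → ℤ × ℤ)
    (h1 : ∀ q ∈ B, near 4 (w q.1) q.2)
    (h2 : ∀ q ∈ B, ∃ j₀ : ℕ, ∀ q' ∈ B, q'.1 < q.1 → q'.1 < j₀ ∧ j₀ ≤ q'.1 + m) :
    B.card ≤ 81 * (m + 1) := by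
  rcases B.eq_empty_or_nonempty with rfl | hne
  · simp
  obtain ⟨q, hq, hmax⟩ := exists_max_image B Prod.fst hne
  obtain ⟨j₀, hj⟩ := h2 q hq
  have a1 : B.image Prod.fst ⊆ insert q.1 (Ico (j₀ - m) j₀) := by
    intro g hg
    obtain ⟨q', hq', rfl⟩ := mem_image.1 hg
    rcases (hmax q' hq').eq_or_lt with e | e
    · rw [e]; exact mem_insert_self _ _
    · have := hj q' hq' e
      exact mem_insert_of_mem (mem_Ico.2 ⟨by omega, this.1⟩)
  have a2 : (B.image Prod.fst).card ≤ m + 1 := by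
    refine (card_le_card a1).trans ((card_insert_le _ _).trans ?_)
    rw [Nat.card_Ico]; omega
  have a3 : B.card ≤ 81 * (B.image Prod.fst).card := by
    refine card_le_mul_card_image B 81 (fun g _ => ?_)
    rw [← card_image_of_injOn (f := Prod.snd)]
    · refine card_near (i := w g) _ (fun P hP => ?_)
      obtain ⟨q', hq', rfl⟩ := mem_image.1 hP
      obtain ⟨b1, b2⟩ := mem_filter.1 hq'
      rw [← b2]; exact h1 q' b1
    · intro x hx y hy e
      exact Prod.ext ((mem_filter.1 hx).2.trans (mem_filter.1 hy).2.symm) e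
  exact a3.trans (Nat.mul_le_mul_left _ a2)

private theorem Tree4_bx (hM : 1 ≤ M) {j : ℕ} (hj : j ≤ J) {y : ℤ × ℤ} :
    up M (J - j) y ∈ bx (n * (M : ℤ) ^ j) ↔ y ∈ bx (n * (M : ℤ) ^ J) := by
  rw [up_mem_bx hM, mul_assoc, ← pow_add, Nat.add_sub_cancel' hj]

private theorem Tree4_share (h : Tr M J n m T K c θ t₁ f fl) {t t₀ Λ : ℝ} (h0 : K * (1 + T) ≤ t₀)
    (hK : K ≤ t) (hΛ : 0 ≤ Λ) {j : ℕ} (hj : j ≤ J) {P : ℤ × ℤ} (hP : P ∈ bx (n * (M : ℤ) ^ j))
    (hf : f j P 0 ≤ t) :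
    Λ ^ (3 / 2 : ℝ) * ((((kids M (J - j) P).filter fun y =>
        ∀ g, j < g → g < J → t₀ < f g (up M (J - g) y) 0).filter
          fun y => Λ * t ≤ f J y 0).card : ℝ) ≤
      (4 * T ^ 2) ^ (3 / 2 : ℝ) * (M : ℝ) ^ (2 * (J - j)) := by
  have hM : 1 ≤ M := le_trans (by norm_num) h.hM
  have ht : 0 < t := lt_of_lt_of_le (lt_of_lt_of_le one_pos h.hK) hK
  have e := exc h h0 (J - j) j P 0 t (by omega) hP hf ht.le (Or.inr (Or.inl hK))
  set S := (kids M (J - j) P).filter fun y => ∀ g, j < g → g < J → t₀ < f g (up M (J - g) y) 0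
    with hS
  have a1 : ((S.filter fun y => Λ * t ≤ f J y 0).card : ℝ) * (Λ * t) ^ (3 / 2 : ℝ) ≤
      ∑ y ∈ S, f J y 0 ^ (3 / 2 : ℝ) := by
    rw [← nsmul_eq_mul]
    refine (card_nsmul_le_sum _ _ _ (fun y hy => Real.rpow_le_rpow (by positivity)
      (mem_filter.1 hy).2 (by norm_num))).trans
      (sum_le_sum_of_subset_of_nonneg (filter_subset _ _) (fun y hy _ => ?_))
    refine Real.rpow_nonneg (h.pos J y le_rfl ?_) _
    rw [← Tree4_bx hM hj, (mem_kids hM _).1 (mem_filter.1 hy).1]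
    exact hP
  have a2 : ∑ g ∈ Ico j J, fl g ≤ t := by
    refine le_trans (sum_le_sum_of_subset_of_nonneg ?_ (fun g _ _ => h.fl0 g)) (h.fls.trans hK)
    intro g hg
    exact mem_range.2 (mem_Ico.1 hg).2
  have a3 : 0 ≤ ∑ g ∈ Ico j J, fl g := sum_nonneg (fun g _ => h.fl0 g)
  have a4 : (T * ‖(0 : ℂ)‖ + 2 * T ^ 2 * (t + ∑ g ∈ Ico j J, fl g)) ^ (3 / 2 : ℝ) ≤
      (4 * T ^ 2 * t) ^ (3 / 2 : ℝ) := by
    rw [norm_zero, mul_zero, zero_add]
    refine Real.rpow_le_rpow (by positivity) ?_ (by norm_num)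
    nlinarith [mul_le_mul_of_nonneg_left a2 (sq_nonneg T)]
  have a5 := (a1.trans e).trans (mul_le_mul_of_nonneg_left a4 (by positivity))
  rw [Real.mul_rpow hΛ ht.le, Real.mul_rpow (by positivity) ht.le] at a5
  have a6 : 0 < t ^ (3 / 2 : ℝ) := Real.rpow_pos_of_pos ht _
  refine le_of_mul_le_mul_right ?_ a6
  linarith

theorem good (h : Tr M J n m T K c θ t₁ f fl) {t Λ : ℝ} (h1 : t₁ ≤ t) (h2 : 32 * T * K ≤ c * t)
    (hΛ : T ^ m < Λ) {g₀ : ℕ} (hg : T ^ g₀ * K ≤ t) {R : ℤ}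
    (hR : R + 5 * (M : ℤ) ^ (J - g₀) ≤ n * (M : ℤ) ^ J) :
    Λ ^ (3 / 2 : ℝ) * (((bx R).filter fun y => Λ * t ≤ f J y 0).card : ℝ) ≤
      (4 * T ^ 2) ^ (3 / 2 : ℝ) * (2 / θ * (81 * (m + 1))) *
        (((bx (R + 5 * (M : ℤ) ^ (J - g₀))).filter fun y => c * t / 4 ≤ f J y 0).card : ℝ) := by
  have hM : 1 ≤ M := le_trans (by norm_num) h.hM
  have hT := h.hT
  have hK := h.hK
  have hc0 := h.c0
  have hc1 := h.c1
  have hθ := h.θ0
  have hTK : K ≤ T * K := le_mul_of_one_le_left (by linarith) hT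
  have hct : 0 < c * t := by linarith
  have ht : 0 < t := (pos_iff_pos_of_mul_pos hct).1 hc0
  have hct1 : c * t ≤ t := mul_le_of_le_one_left ht.le hc1
  have hTm : 1 ≤ T ^ m := one_le_pow₀ hT
  have hMz : (1 : ℤ) ≤ M := by exact_mod_cast hM
  have hsub : bx R ⊆ bx (n * (M : ℤ) ^ J) :=
    bx_mono (le_trans (le_add_of_nonneg_right (by positivity)) hR)
  set A : Finset (ℕ × (ℤ × ℤ)) := ((range J ×ˢ bx R).image
    fun p => (p.1, up M (J - p.1) p.2)).filter fun q => LL M J m t (c * t / 8) f q.1 q.2 with hA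
  set Z := (bx (R + 5 * (M : ℤ) ^ (J - g₀))).filter fun y => c * t / 4 ≤ f J y 0 with hZ
  have b0 : ∀ q ∈ A, LL M J m t (c * t / 8) f q.1 q.2 := fun q hq => (mem_filter.1 hq).2
  have b1 : ∀ q ∈ A, ∃ y ∈ bx R, q.2 = up M (J - q.1) y := by
    intro q hq
    obtain ⟨p, hp, rfl⟩ := mem_image.1 (mem_filter.1 hq).1
    exact ⟨p.2, (mem_product.1 hp).2, rfl⟩
  have b2 : ∀ q ∈ A, q.1 < J := fun q hq => by have := (b0 q hq).1; omega
  have b3 : ∀ q ∈ A, q.2 ∈ bx (n * (M : ℤ) ^ q.1) := by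
    intro q hq
    obtain ⟨y, hy, e⟩ := b1 q hq
    rw [e]; exact (Tree4_bx hM (b2 q hq).le).2 (hsub hy)
  have b4 : ∀ q ∈ A, g₀ ≤ q.1 := by
    intro q hq
    obtain ⟨L, hL, hl⟩ := (b0 q hq).2.2.1
    have d1 := grow' h (b2 q hq) (b3 q hq)
      (near_trans hL (show near 0 _ _ by simp [near]) (by linarith))
    by_contra hc
    have d2 : T ^ (q.1 + 1) ≤ T ^ g₀ := pow_le_pow_right₀ hT (by omega)
    have d3 := mul_le_mul_of_nonneg_right d2 (show 0 ≤ K by linarith)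
    linarith
  have b5 : ∀ q ∈ A, ∀ y, near 4 (up M (J - q.1) y) q.2 → y ∈ bx (R + 5 * (M : ℤ) ^ (J - g₀)) := by
    intro q hq y hy
    obtain ⟨y₀, hy₀, e⟩ := b1 q hq
    rw [e] at hy
    refine bx_mono ?_ (near_bx hM _ hy₀ hy)
    have := b4 q hq
    have d1 : (M : ℤ) ^ (J - q.1) ≤ (M : ℤ) ^ (J - g₀) := pow_le_pow_right₀ hMz (by omega)
    linarith
  have b6 := fun q (hq : q ∈ A) => hset h h1 h2 (b0 q hq) (fun y hy => bx_mono hR (b5 q hq y hy))
  choose! H L hH hL hy using b6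
  have b7 : ∀ q ∈ A, H q ⊆ Z := by
    intro q hq y hyH
    obtain ⟨d1, -, d3⟩ := hy q hq y hyH
    refine mem_filter.2 ⟨b5 q hq y d1, d3 J (b0 q hq).1 le_rfl y ?_⟩
    rw [Nat.sub_self, up_zero]; simp [near]
  have b8 : ∀ y, (A.filter fun q => y ∈ H q).card ≤ 81 * (m + 1) := by
    intro y
    refine Tree4_over _ (fun g => up M (J - g) y)
      (fun q hq => (hy q (mem_filter.1 hq).1 y (mem_filter.1 hq).2).1) (fun q hq => ?_)
    obtain ⟨hqA, hqy⟩ := mem_filter.1 hq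
    obtain ⟨j₀, d1, d2, d3⟩ := (b0 q hqA).2.2.2
    have d4 := (hy q hqA y hqy).1
    have d5 := b2 q hqA
    have d6 : ∀ g, g ≤ q.1 → near 4 (up M (J - g) y) (up M (q.1 - g) q.2) := by
      intro g hg'
      have := near_up hM d4 (q.1 - g)
      rwa [up_up hM, show q.1 - g + (J - q.1) = J - g by omega] at this
    refine ⟨j₀, fun q' hq' hlt => ?_⟩
    obtain ⟨hqA', hqy'⟩ := mem_filter.1 hq'
    obtain ⟨-, e2, e3⟩ := hy q' hqA' y hqy'
    constructor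
    · by_contra hc
      have hM4 : (4 : ℤ) ≤ M := by exact_mod_cast h.hM
      have := d3 (q'.1 + 1) (by omega) (by omega) (L q')
        (near_trans (near_symm e2) (d6 _ (by omega)) (by linarith))
      linarith [hL q' hqA']
    · by_contra hc
      have := e3 j₀ (by omega) (by omega) _ (near_symm (d6 j₀ d1))
      linarith
  have b9 : ∑ q ∈ A, (H q).card ≤ Z.card * (81 * (m + 1)) := by
    have d1 : ∑ q ∈ A, (H q).card = ∑ q ∈ A, (Z.bipartiteAbove (fun q y => y ∈ H q) q).card := by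
      refine sum_congr rfl (fun q hq => ?_)
      congr 1
      ext y
      rw [mem_bipartiteAbove]
      exact ⟨fun e => ⟨b7 q hq e, e⟩, fun e => e.2⟩
    rw [d1, sum_card_bipartiteAbove_eq_sum_card_bipartiteBelow, ← smul_eq_mul]
    refine sum_le_card_nsmul _ _ _ (fun y _ => le_trans (card_le_card (fun q hq => ?_)) (b8 y))
    exact mem_filter.2 (mem_bipartiteBelow _ |>.1 hq)
  have b10 : ((bx R).filter fun y => Λ * t ≤ f J y 0) ⊆ A.biUnion fun q =>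
      ((kids M (J - q.1) q.2).filter fun y =>
        ∀ g, q.1 < g → g < J → c * t / 8 < f g (up M (J - g) y) 0).filter
          fun y => Λ * t ≤ f J y 0 := by
    intro y hyY
    obtain ⟨d1, d2⟩ := mem_filter.1 hyY
    obtain ⟨j, d3, d4⟩ := sel h (t := t) (t₀ := c * t / 8) (by linarith) (by linarith) (hsub d1)
      (lt_of_lt_of_le (mul_lt_mul_of_pos_right hΛ ht) d2)
    refine mem_biUnion.2 ⟨(j, up M (J - j) y), mem_filter.2 ⟨mem_image.2 ⟨(j, y), mem_product.2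
      ⟨mem_range.2 (by have := d3.1; omega), d1⟩, rfl⟩, d3⟩, mem_filter.2 ⟨mem_filter.2
        ⟨(mem_kids hM _).2 rfl, d4⟩, d2⟩⟩
  have hΛ0 : 0 ≤ Λ := by linarith
  have b11 : (((bx R).filter fun y => Λ * t ≤ f J y 0).card : ℝ) ≤ ∑ q ∈ A,
      ((((kids M (J - q.1) q.2).filter fun y =>
        ∀ g, q.1 < g → g < J → c * t / 8 < f g (up M (J - g) y) 0).filter
          fun y => Λ * t ≤ f J y 0).card : ℝ) := by
    exact_mod_cast (card_le_card b10).trans card_biUnion_le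
  have b12 : ∑ q ∈ A, ((H q).card : ℝ) ≤ Z.card * (81 * (m + 1)) := by exact_mod_cast b9
  have hp : 0 ≤ (4 * T ^ 2) ^ (3 / 2 : ℝ) := by positivity
  calc _ ≤ _ := mul_le_mul_of_nonneg_left b11 (by positivity)
    _ ≤ ∑ q ∈ A, (4 * T ^ 2) ^ (3 / 2 : ℝ) * (2 / θ) * ((H q).card : ℝ) := by
      rw [mul_sum]
      refine sum_le_sum (fun q hq => ?_)
      refine (Tree4_share h (by linarith) (by linarith) hΛ0 (b2 q hq).le (b3 q hq)
        (b0 q hq).2.1).trans ?_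
      rw [mul_assoc]
      refine mul_le_mul_of_nonneg_left ?_ hp
      have := mul_le_mul_of_nonneg_left (hH q hq) (show 0 ≤ 2 / θ by positivity)
      refine le_trans (le_of_eq ?_) this
      field_simp
    _ ≤ (4 * T ^ 2) ^ (3 / 2 : ℝ) * (2 / θ) * (Z.card * (81 * (m + 1))) := by
      rw [← mul_sum]
      exact mul_le_mul_of_nonneg_left b12 (by positivity)
    _ = _ := by ring

end Pool.Agent.Lib.MP_a52643_an.YS
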