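import Pool.Agent.Lib.MP_a52643_an.YS.Car

/-!
The uncertainty inequality for functions with compact support.
-/

namespace Pool.Agent.Lib.MP_a52643_an.YS

open Complex Filter Topology Metric MeasureTheory Set QS YA
open scoped ContDiff

/-- Continuous functions vanishing outside the unit disc. -/
def Unc1Ok (f : ℂ → ℝ) : Prop := Continuous f ∧ ∀ z, 1 ≤ ‖z‖ → f z = 0

theorem Unc1Ok.int {f : ℂ → ℝ} (h : Unc1Ok f) : Integrable f := int_out h.1 h.2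

theorem Unc1Ok.mul {f g : ℂ → ℝ} (h : Unc1Ok f) (hg : Continuous g) :
    Unc1Ok fun z => g z * f z :=
  ⟨hg.mul h.1, fun z hz => by simp only [h.2 z hz, mul_zero]⟩

theorem Unc1Ok.mul' {f g : ℂ → ℝ} (h : Unc1Ok f) (hg : Continuous g) :
    Unc1Ok fun z => f z * g z :=
  ⟨h.1.mul hg, fun z hz => by simp only [h.2 z hz, zero_mul]⟩

theorem Unc1Ok.add {f g : ℂ → ℝ} (h : Unc1Ok f) (hg : Unc1Ok g) :
    Unc1Ok fun z => f z + g z :=
  ⟨h.1.add hg.1, fun z hz => by simp only [h.2 z hz, hg.2 z hz, add_zero]⟩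

theorem Unc1Ok.sq {f : ℂ → ℝ} (h : Unc1Ok f) : Unc1Ok fun z => f z ^ 2 :=
  ⟨h.1.pow 2, fun z hz => by simp only [h.2 z hz]; norm_num⟩

theorem unc1_le5 {f f1 f2 f3 f4 f5 : ℂ → ℝ} (h : Unc1Ok f) (h1 : Unc1Ok f1) (h2 : Unc1Ok f2)
    (h3 : Unc1Ok f3) (h4 : Unc1Ok f4) (h5 : Unc1Ok f5) (c c1 c2 c3 c4 c5 : ℝ)
    (hp : ∀ z, ‖z‖ < 1 →
      c * f z ≤ c1 * f1 z + c2 * f2 z + c3 * f3 z + c4 * f4 z + c5 * f5 z) :
    c * ∫ z, f z ≤ c1 * (∫ z, f1 z) + c2 * (∫ z, f2 z) + c3 * (∫ z, f3 z) + c4 * (∫ z, f4 z) +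
      c5 * ∫ z, f5 z := by
  have i1 := h1.int.const_mul c1
  have i2 := h2.int.const_mul c2
  have i3 := h3.int.const_mul c3
  have i4 := h4.int.const_mul c4
  have i5 := h5.int.const_mul c5
  have i12 : Integrable fun z => c1 * f1 z + c2 * f2 z := i1.add i2
  have i13 : Integrable fun z => c1 * f1 z + c2 * f2 z + c3 * f3 z := i12.add i3
  have i14 : Integrable fun z => c1 * f1 z + c2 * f2 z + c3 * f3 z + c4 * f4 z := i13.add i4
  have i15 : Integrable fun z => c1 * f1 z + c2 * f2 z + c3 * f3 z + c4 * f4 z + c5 * f5 z :=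
    i14.add i5
  have k : ∫ z, c * f z ≤
      ∫ z, (c1 * f1 z + c2 * f2 z + c3 * f3 z + c4 * f4 z + c5 * f5 z) := by
    refine integral_mono (h.int.const_mul c) i15 fun z => ?_
    rcases lt_or_ge ‖z‖ 1 with hz | hz
    · exact hp z hz
    · simp only [h.2 z hz, h1.2 z hz, h2.2 z hz, h3.2 z hz, h4.2 z hz, h5.2 z hz, mul_zero,
        add_zero, le_refl]
  rw [integral_add i14 i5, integral_add i13 i4, integral_add i12 i3, integral_add i1 i2] at k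
  simpa only [integral_const_mul] using k

theorem unc1_le3 {f f1 f2 f3 : ℂ → ℝ} (h : Unc1Ok f) (h1 : Unc1Ok f1) (h2 : Unc1Ok f2)
    (h3 : Unc1Ok f3) (c c1 c2 c3 : ℝ)
    (hp : ∀ z, ‖z‖ < 1 → c * f z ≤ c1 * f1 z + c2 * f2 z + c3 * f3 z) :
    c * ∫ z, f z ≤ c1 * (∫ z, f1 z) + c2 * (∫ z, f2 z) + c3 * ∫ z, f3 z := by
  have := unc1_le5 h h1 h2 h3 h h c c1 c2 c3 0 0 fun z hz => by linarith [hp z hz]
  linarith

theorem unc1_le2 {f f1 f2 : ℂ → ℝ} (h : Unc1Ok f) (h1 : Unc1Ok f1) (h2 : Unc1Ok f2)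
    (c c1 c2 : ℝ) (hp : ∀ z, ‖z‖ < 1 → c * f z ≤ c1 * f1 z + c2 * f2 z) :
    c * ∫ z, f z ≤ c1 * (∫ z, f1 z) + c2 * ∫ z, f2 z := by
  have := unc1_le3 h h1 h2 h c c1 c2 0 fun z hz => by linarith [hp z hz]
  linarith

theorem unc1_le1 {f f1 : ℂ → ℝ} (h : Unc1Ok f) (h1 : Unc1Ok f1)
    (c c1 : ℝ) (hp : ∀ z, ‖z‖ < 1 → c * f z ≤ c1 * f1 z) :
    c * ∫ z, f z ≤ c1 * ∫ z, f1 z := by
  have := unc1_le2 h h1 h c c1 0 fun z hz => by linarith [hp z hz]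
  linarith

theorem unc1_nsq (b : ℂ) (N : ℝ) (z : ℂ) :
    ‖b + N • z‖ ^ 2 = (b.re + N * z.re) ^ 2 + (b.im + N * z.im) ^ 2 := by
  rw [Complex.sq_norm, Complex.normSq_apply]
  simp
  ring

theorem unc1_Dw (F : ℂ → ℝ) (b : ℂ) (N : ℝ) (z : ℂ) :
    D (b + N • z) F z = (b.re + N * z.re) * D 1 F z + (b.im + N * z.im) * D I F z := by
  rw [D_lin]
  simp

theorem unc1_sq (z : ℂ) : ‖z‖ ^ 2 = z.re ^ 2 + z.im ^ 2 := by
  rw [Complex.sq_norm, Complex.normSq_apply]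
  ring

theorem unc1_D_dt (q v : ℂ) (c : ℝ) : D v (fun z => dt q z + c) = fun _ => dt q v := by
  funext z
  have h : HasFDerivAt (fun z : ℂ => dt q z + c) (q.re • reCLM + q.im • imCLM) z :=
    ((reCLM.hasFDerivAt.const_mul q.re).add (imCLM.hasFDerivAt.const_mul q.im)).add_const c
  unfold D
  rw [h.fderiv]
  simp [dt]

theorem unc1_D_dt0 (q v : ℂ) : D v (dt q) = fun _ => dt q v := by
  simpa using unc1_D_dt q v 0

theorem unc1_D_sq (q v : ℂ) :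
    D v (fun z => dt q z * dt q z) = fun z => 2 * dt q v * dt q z := by
  rw [D_mul (sm_dt q) (sm_dt q), unc1_D_dt0]
  funext z
  ring

theorem unc1_Lap_sq (q z : ℂ) : Lap (fun z => dt q z * dt q z) z = 2 * ‖q‖ ^ 2 := by
  simp only [Lap, unc1_D_sq, D_cmul (sm_dt q), unc1_D_dt0, unc1_sq]
  simp [dt]
  ring

theorem unc1_dv (b z : ℂ) :
    dv (fun z => (dt b z + 1) * dt 1 z) (fun z => (dt b z + 1) * dt I z) z = 3 * dt b z + 2 := by
  have h : Sm fun z => dt b z + 1 := (sm_dt b).add contDiff_const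
  simp only [dv, D_mul h (sm_dt _), unc1_D_dt, unc1_D_dt0]
  simp [dt]
  ring

theorem unc1_young {η ι : ℝ} (h0 : 0 < η) (h : η * ι = 1) (x y : ℝ) :
    (x + y) ^ 2 ≤ (1 + η) * x ^ 2 + (1 + ι) * y ^ 2 := by
  have hι : 0 < ι := by
    by_contra hc
    nlinarith
  have k : 0 ≤ ι * (η * x - y) ^ 2 := by positivity
  have e : ι * (η * x - y) ^ 2 = (η * ι) * η * x ^ 2 - 2 * (η * ι) * x * y + ι * y ^ 2 := by ring
  rw [e, h] at k
  nlinarith

theorem unc1_par {N β η ι : ℝ} (hN : 1 ≤ N) (η0 : 0 < η) (η1 : η ≤ 1 / 4) (hι : η * ι = 1)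
    (hβ : 21 * N ^ 2 ≤ η * β) : 4 ≤ ι ∧ 1 ≤ N ^ 2 ∧ N ≤ N ^ 2 ∧ 0 < β ∧ 21 * N ^ 2 ≤ β ∧
      β ≤ β ^ 2 ∧ N ^ 4 ≤ β ^ 2 ∧ N ^ 2 ≤ N ^ 4 ∧ N ≤ N ^ 4 ∧ 1 ≤ (1 + η) * (1 + 2 * η) ∧
      (1 + η) * ((1 + η) * (1 + 2 * η)) ≤ 1 + 11 * η := by
  have ι0 : 0 < ι := by
    by_contra hc
    nlinarith
  have ι4 : 4 ≤ ι := by nlinarith
  have N2 : 1 ≤ N ^ 2 := by nlinarith
  have NN : N ≤ N ^ 2 := by nlinarith
  have β0 : 0 < β := by
    by_contra hc
    nlinarith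
  have hβ' : 21 * N ^ 2 ≤ β := by nlinarith
  have N4 : N ^ 2 ≤ N ^ 4 := by nlinarith
  have h1 : N ^ 2 ≤ β := by linarith
  have h2 := pow_le_pow_left₀ (sq_nonneg N) h1 2
  have h3 : η * η ≤ η := by nlinarith
  have h4 : η * (η * η) ≤ η := by nlinarith
  refine ⟨ι4, N2, NN, β0, hβ', by nlinarith, by linarith, N4, by linarith, by nlinarith,
    by linarith⟩

theorem unc1_arith {N β η ι m m2 e G fe tfe w y p Q α a2 s2 t2 tG u1 u2 u3 u6 : ℝ}
    (hN : 1 ≤ N) (η0 : 0 < η) (η1 : η ≤ 1 / 4) (hι : η * ι = 1) (hβ : 21 * N ^ 2 ≤ η * β)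
    (m0 : 0 ≤ m) (e0 : 0 ≤ e) (G0 : 0 ≤ G) (s0 : 0 ≤ s2) (t0 : 0 ≤ t2)
    (F1 : fe = -G + u1) (F2 : Q = 2 * N * G + 2 * N * u2 - u3)
    (F3 : (2 - η) * β ^ 2 * m ≤ u1 + u2) (F4 : u3 ≤ 2 * η * β ^ 2 * m)
    (F4' : β ^ 2 * m ≤ 4 * u2) (F5 : 4 * Q ≤ p) (F6 : α ≤ p - 2 * Q)
    (F7 : p ≤ (1 + η) * (16 * N ^ 2) * y + (1 + ι) * e) (F7' : p ≤ 32 * N ^ 2 * y + 2 * e)
    (F8 : y ≤ s2 + β * m + w) (F9 : β ^ 2 * w ≤ (1 + η) * tG + (1 + ι) * a2)
    (F10 : tfe = -tG + u6) (F11 : u6 ≤ (1 + 2 * η) * β ^ 2 * t2 + β ^ 2 * m)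
    (F12 : -N ^ 2 * tfe ≤ β ^ 2 * N ^ 4 * m + β ^ 2 * e)
    (F13 : N * fe ≤ N ^ 2 * m + e) (F13' : -fe ≤ m + e) (F13'' : u1 ≤ 5 * β ^ 2 * m)
    (F14 : 4 * a2 ≤ 3 * α + 12 * N ^ 2 * w + 12 * N ^ 2 * m) (F15 : w ≤ G)
    (F16 : s2 ≤ β ^ 2 * m2 - t2) (F17 : s2 ≤ β ^ 2 * m) :
    (1 - 17 * η) * N * β ^ 2 * m ≤ N ^ 2 * β ^ 2 * m2 + 121 * ι * e := by
  obtain ⟨ι4, N2, NN, β0, hβ', ββ, N4, N24, N14, c1, c2⟩ := unc1_par hN η0 η1 hι hβ
  have N0 : 0 ≤ N := by linarith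
  have ι0 : 0 ≤ ι := by linarith
  have β1 : 1 ≤ β := by linarith
  have mB : β * m ≤ β ^ 2 * m := mul_le_mul_of_nonneg_right ββ m0
  have mβ : 1 * m ≤ β * m := mul_le_mul_of_nonneg_right β1 m0
  have B0 : 0 ≤ β ^ 2 * m := by positivity
  have NB : 1 * (β ^ 2 * m) ≤ N * (β ^ 2 * m) := mul_le_mul_of_nonneg_right hN B0
  have ηB := mul_le_mul_of_nonneg_left NB η0.le
  have k1 : N ^ 2 * (β * m) ≤ η * (N * (β ^ 2 * m)) := by
    have h1 : N ≤ η * β := by linarith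
    have h2 : 0 ≤ N * (β * m) := by positivity
    have h3 := mul_le_mul_of_nonneg_right h1 h2
    linarith
  have k2 : N ^ 2 * m ≤ η * (N * (β ^ 2 * m)) := by
    have h2 := mul_le_mul_of_nonneg_left mβ (sq_nonneg N)
    linarith
  have low : (16 - 24 * η) * (N * (β ^ 2 * m)) - 8 * e ≤ p := by
    have h1 := mul_le_mul_of_nonneg_left F3 N0
    have h2 : N * fe = N * (-G + u1) := by rw [F1]
    linarith
  have Q0 : 0 ≤ Q := by
    have h1 : 0 ≤ N * G := by positivity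
    have h2 := mul_le_mul_of_nonneg_left F4' N0
    have h5 := mul_le_mul_of_nonneg_right η1 B0
    linarith
  have hG : G ≤ 6 * (β ^ 2 * m) + e := by linarith
  have hy : y ≤ 8 * (β ^ 2 * m) + e := by linarith
  have Ne : 1 * e ≤ N ^ 2 * e := mul_le_mul_of_nonneg_right N2 e0
  have ha : a2 ≤ 213 * (N ^ 2 * (β ^ 2 * m)) + 29 * (N ^ 2 * e) := by
    have h1 := mul_le_mul_of_nonneg_left hy (sq_nonneg N)
    have h2 := mul_le_mul_of_nonneg_left (F15.trans hG) (sq_nonneg N)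
    have h3 := mul_le_mul_of_nonneg_left (mβ.trans mB) (sq_nonneg N)
    linarith
  have htG : N ^ 2 * tG ≤
      β ^ 2 * ((1 + 2 * η) * (N ^ 2 * t2) + 2 * (N ^ 4 * m) + e) := by
    have h1 := mul_le_mul_of_nonneg_left F11 (sq_nonneg N)
    have h2 : N ^ 2 * tfe = N ^ 2 * (-tG + u6) := by rw [F10]
    have h3 := mul_le_mul_of_nonneg_right N24 B0
    linarith
  have ha' : N ^ 2 * a2 ≤ β ^ 2 * (213 * (N ^ 4 * m) + 29 * e) := by
    have h1 := mul_le_mul_of_nonneg_left ha (sq_nonneg N)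
    have h2 : N ^ 4 * e ≤ β ^ 2 * e := mul_le_mul_of_nonneg_right N4 e0
    linarith
  have hw : N ^ 2 * w ≤ (1 + η) * ((1 + 2 * η) * (N ^ 2 * t2) + 2 * (N ^ 4 * m) + e) +
      (1 + ι) * (213 * (N ^ 4 * m) + 29 * e) := by
    have h1 := mul_le_mul_of_nonneg_left F9 (sq_nonneg N)
    have h2 := mul_le_mul_of_nonneg_left htG (show 0 ≤ 1 + η by linarith)
    have h3 := mul_le_mul_of_nonneg_left ha' (show 0 ≤ 1 + ι by linarith)
    refine le_of_mul_le_mul_left ?_ (show 0 < β ^ 2 by positivity)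
    linarith
  have k3 : 430 * (ι * (N ^ 4 * m)) ≤ η * (N * (β ^ 2 * m)) := by
    have h1 : (21 * N ^ 2) ^ 2 ≤ (η * β) ^ 2 := pow_le_pow_left₀ (by positivity) hβ 2
    have h2 : 0 ≤ ι * m := by positivity
    have h3 := mul_le_mul_of_nonneg_right h1 h2
    have h4 : (η * β) ^ 2 * (ι * m) = (η * ι) * (η * (β ^ 2 * m)) := by ring
    rw [h4, hι] at h3
    have h5 : 0 ≤ ι * (N ^ 4 * m) := by positivity
    linarith
  have R0 : 0 ≤ N ^ 4 * m := by positivity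
  have ιR := mul_le_mul_of_nonneg_right ι4 R0
  have ιe := mul_le_mul_of_nonneg_right ι4 e0
  have ηR := mul_le_mul_of_nonneg_right η1 R0
  have ηe := mul_le_mul_of_nonneg_right η1 e0
  have hw' : N ^ 2 * w ≤
      (1 + η) * (1 + 2 * η) * (N ^ 2 * t2) + η * (N * (β ^ 2 * m)) + 40 * (ι * e) := by
    linarith
  have hs : 1 * (N ^ 2 * s2) ≤ (1 + η) * (1 + 2 * η) * (N ^ 2 * s2) :=
    mul_le_mul_of_nonneg_right c1 (by positivity)
  have hst : N ^ 2 * s2 + N ^ 2 * t2 ≤ N ^ 2 * β ^ 2 * m2 := by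
    have := mul_le_mul_of_nonneg_left F16 (sq_nonneg N)
    linarith
  have A0 : 0 ≤ N ^ 2 * β ^ 2 * m2 := le_trans (by positivity) hst
  have hy' : N ^ 2 * y ≤ (1 + η) * (1 + 2 * η) * (N ^ 2 * β ^ 2 * m2) +
      2 * (η * (N * (β ^ 2 * m))) + 40 * (ι * e) := by
    have h1 := mul_le_mul_of_nonneg_left F8 (sq_nonneg N)
    have h2 := mul_le_mul_of_nonneg_left hst (show 0 ≤ (1 + η) * (1 + 2 * η) by linarith)
    linarith
  have M0 : 0 ≤ η * (N * (β ^ 2 * m)) := by positivity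
  have Z0 : 0 ≤ ι * e := by positivity
  have up : p ≤ 16 * ((1 + 11 * η) * (N ^ 2 * β ^ 2 * m2)) + 40 * (η * (N * (β ^ 2 * m))) +
      802 * (ι * e) := by
    have h1 := mul_le_mul_of_nonneg_left hy' (show 0 ≤ 16 * (1 + η) by linarith)
    have h3 := mul_le_mul_of_nonneg_right c2 A0
    have h4 := mul_le_mul_of_nonneg_right η1 M0
    have h5 := mul_le_mul_of_nonneg_right η1 Z0
    linarith
  refine le_of_mul_le_mul_left ?_ (show 0 < 1 + 11 * η by linarith)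
  have h2 : 0 ≤ η * (η * (N * (β ^ 2 * m))) := by positivity
  have h3 : 0 ≤ η * (ι * e) := by positivity
  linarith

theorem unc1_up (b : ℂ) {N : ℝ} (c : ℝ) (hc : |c| ≤ N) {z : ℂ} (hz : ‖z‖ < 1) :
    ‖b + c • z‖ ≤ ‖b‖ + N ∧ ‖b‖ - N ≤ ‖b + c • z‖ := by
  have h1 : ‖c • z‖ ≤ N := by
    rw [norm_smul, Real.norm_eq_abs]
    have := mul_le_mul_of_nonneg_left hz.le (abs_nonneg c)
    linarith
  have h2 := norm_add_le b (c • z)
  have h3 := norm_sub_le (b + c • z) (c • z)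
  rw [add_sub_cancel_right] at h3
  constructor <;> linarith

theorem unc1_DV (V : ℂ → ℝ) (v z : ℂ) : D v V z ≤ ‖v‖ * gn V z := by
  rw [D_lin, gn, mul_add]
  have h1 : v.re * D 1 V z ≤ ‖v‖ * |D 1 V z| := (le_abs_self _).trans (by
    rw [abs_mul]; exact mul_le_mul_of_nonneg_right (abs_re_le_norm v) (abs_nonneg _))
  have h2 : v.im * D I V z ≤ ‖v‖ * |D I V z| := (le_abs_self _).trans (by
    rw [abs_mul]; exact mul_le_mul_of_nonneg_right (abs_im_le_norm v) (abs_nonneg _))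
  linarith

theorem unc1_split {η ι : ℝ} (h0 : 0 < η) (h : η * ι = 1) {β b1 b2 x y p q : ℝ}
    (hb : β ^ 2 = b1 ^ 2 + b2 ^ 2) (hβ : 0 < β) (hz : x ^ 2 + y ^ 2 ≤ 1) :
    β ^ 2 * (x * p + y * q) ^ 2 ≤ (1 + η) * ((-b2 * x + b1 * y) * (-b2 * x + b1 * y) *
      (p ^ 2 + q ^ 2)) + (1 + ι) * (b1 * p + b2 * q) ^ 2 := by
  have hι : 0 < ι := by
    by_contra hc
    nlinarith
  have k := unc1_young h0 h ((-b2 * x + b1 * y) * (-b2 * p + b1 * q))
    ((b1 * x + b2 * y) * (b1 * p + b2 * q))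
  have e : (-b2 * x + b1 * y) * (-b2 * p + b1 * q) + (b1 * x + b2 * y) * (b1 * p + b2 * q) =
      β ^ 2 * (x * p + y * q) := by rw [hb]; ring
  have h1 : (-b2 * p + b1 * q) ^ 2 ≤ β ^ 2 * (p ^ 2 + q ^ 2) := by
    rw [hb]
    nlinarith [sq_nonneg (b1 * p + b2 * q)]
  have h2 : (b1 * x + b2 * y) ^ 2 ≤ β ^ 2 := by
    have h3 := mul_le_mul_of_nonneg_left hz (sq_nonneg β)
    have h4 : (b1 * x + b2 * y) ^ 2 + (-b2 * x + b1 * y) ^ 2 = β ^ 2 * (x ^ 2 + y ^ 2) := by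
      rw [hb]; ring
    nlinarith [sq_nonneg (-b2 * x + b1 * y)]
  have h5 := mul_le_mul_of_nonneg_left h1
    (show 0 ≤ (1 + η) * (-b2 * x + b1 * y) ^ 2 by positivity)
  have h6 := mul_le_mul_of_nonneg_left h2
    (show 0 ≤ (1 + ι) * (b1 * p + b2 * q) ^ 2 by positivity)
  rw [e] at k
  refine le_of_mul_le_mul_left ?_ (show 0 < β ^ 2 by positivity)
  linarith

theorem unc1_core {F V : ℂ → ℝ} {b : ℂ} {N η ι : ℝ} (hF : Sm F) (hV : Sm V)
    (h0 : ∀ z, 1 ≤ ‖z‖ → F z = 0) (hN : 1 ≤ N) (η0 : 0 < η) (η1 : η ≤ 1 / 4) (hι : η * ι = 1)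
    (hβ : 21 * N ^ 2 ≤ η * ‖b‖)
    (hb : ∀ z, ‖z‖ < 1 → |V z| ≤ η * ‖b‖ ^ 2 ∧ gn V z ≤ η * ‖b‖) :
    (1 - 17 * η) * N * ‖b‖ ^ 2 * ∫ z, F z ^ 2 ≤ N ^ 2 * ‖b‖ ^ 2 * (∫ z, ‖z‖ ^ 2 * F z ^ 2) +
      121 * ι * ∫ z, (So b N V F z + Ao b N F z) ^ 2 := by
  obtain ⟨ι4, N2, NN, β0, hβ', ββ, N4, N24, N14, -, -⟩ := unc1_par hN η0 η1 hι hβ
  have N0 : 0 ≤ N := by linarith
  have aN : |N| ≤ N := (abs_of_nonneg N0).le
  have aN' : |(-N)| ≤ N := by rw [abs_neg]; exact aN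
  have ηβ : η * ‖b‖ ^ 2 ≤ 1 / 4 * ‖b‖ ^ 2 := mul_le_mul_of_nonneg_right η1 (sq_nonneg _)
  have cV := hV.continuous
  have cVx := (smD hV 1).continuous
  have cVy := (smD hV I).continuous
  have cs := (sm_dt b).continuous
  have ct := (sm_dt (I * b)).continuous
  have oF : Unc1Ok F := ⟨hF.continuous, h0⟩
  have ox : Unc1Ok (D 1 F) := ⟨(smD hF 1).continuous, D_out hF h0 1⟩
  have oy : Unc1Ok (D I F) := ⟨(smD hF I).continuous, D_out hF h0 I⟩
  have oL : Unc1Ok (Lap F) :=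
    Unc1Ok.add (f := D 1 (D 1 F)) (g := D I (D I F))
      ⟨(smD (smD hF 1) 1).continuous, D_out (smD hF 1) ox.2 1⟩
      ⟨(smD (smD hF I) I).continuous, D_out (smD hF I) oy.2 I⟩
  have oG : Unc1Ok (Gr F) := ox.sq.add oy.sq
  have oS : ∀ c : ℝ, Unc1Ok (So b c V F) := fun c =>
    oL.add (oF.mul (g := fun z => ‖b + c • z‖ ^ 2 + V z) (by fun_prop))
  have oA : ∀ c : ℝ, Unc1Ok (Ao b c F) := fun c => by
    have e : Ao b c F = fun z => 2 * ((b.re + c * z.re) * D 1 F z + (b.im + c * z.im) * D I F z) +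
        2 * c * F z := by
      funext z
      rw [Ao, unc1_Dw]
    rw [e]
    exact (((ox.mul (g := fun z => b.re + c * z.re) (by fun_prop)).add
      (oy.mul (g := fun z => b.im + c * z.im) (by fun_prop))).mul
        (g := fun _ => 2) continuous_const).add (oF.mul (g := fun _ => 2 * c) continuous_const)
  have oE := (oS N).add (oA N)
  have oP := (oS (-N)).add (oA (-N))
  have oQ := (oA (-N)).mul (oS (-N)).1
  have oW := (ox.mul continuous_re).add (oy.mul continuous_im)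
  have oa := (ox.mul (g := fun _ => b.re) continuous_const).add
    (oy.mul (g := fun _ => b.im) continuous_const)
  have oY := (oF.mul (g := fun z => dt b z + 1) (by fun_prop)).add oW
  have om := oF.sq
  have om2 := om.mul (g := fun z => ‖z‖ ^ 2) (by fun_prop)
  have ofe := oE.mul oF.1
  have otfe := oE.mul (g := fun z => dt (I * b) z * dt (I * b) z * F z)
    ((ct.mul ct).mul oF.1)
  have os2 := om.mul (g := fun z => dt b z * dt b z) (cs.mul cs)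
  have ot2 := om.mul (g := fun z => dt (I * b) z * dt (I * b) z) (ct.mul ct)
  have otG := oG.mul (g := fun z => dt (I * b) z * dt (I * b) z) (ct.mul ct)
  have ou1 := om.mul (g := fun z => ‖b + N • z‖ ^ 2 + V z) (by fun_prop)
  have ou2 := om.mul (g := fun z => ‖b + (-N) • z‖ ^ 2) (by fun_prop)
  have ou3 := om.mul (g := fun z => D (b + (-N) • z) V z) (by
    simp only [unc1_Dw]
    fun_prop)
  have ou4 := (((ox.mul (g := fun z => (dt b z + 1) * dt 1 z)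
    ((cs.add continuous_const).mul (sm_dt 1).continuous)).add
      (oy.mul (g := fun z => (dt b z + 1) * dt I z)
        ((cs.add continuous_const).mul (sm_dt I).continuous))).mul oF.1)
  have ou5 := om.mul (g := fun z => 3 * dt b z + 2) (by fun_prop)
  have ou6 := om.mul (g := fun z => dt (I * b) z * dt (I * b) z * (‖b + N • z‖ ^ 2 + V z) +
    2 * ‖I * b‖ ^ 2 / 2 - 2 * dt (I * b) (b + N • z) * dt (I * b) z) (by
      unfold dt
      fun_prop)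
  have hbs := unc1_sq b
  have es : ∀ z, dt b z = b.re * z.re + b.im * z.im := fun z => rfl
  have et : ∀ z, dt (I * b) z = -b.im * z.re + b.re * z.im := fun z => by simp [dt]
  have est : ∀ z, dt b z * dt b z + dt (I * b) z * dt (I * b) z = ‖b‖ ^ 2 * ‖z‖ ^ 2 := fun z => by
    rw [es, et, hbs, unc1_sq z]; ring
  have z1 : ∀ z : ℂ, ‖z‖ < 1 → ‖z‖ ^ 2 ≤ 1 := fun z hz =>
    pow_le_one₀ (norm_nonneg z) hz.le
  have bz : ∀ z : ℂ, ‖z‖ < 1 → ‖b‖ ^ 2 * ‖z‖ ^ 2 ≤ ‖b‖ ^ 2 := fun z hz => by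
    have := mul_le_mul_of_nonneg_left (z1 z hz) (sq_nonneg ‖b‖)
    linarith
  have eP : ∀ z, So b (-N) V F z + Ao b (-N) F z = (So b N V F z + Ao b N F z) +
      -(4 * N) * ((dt b z + 1) * F z + (z.re * D 1 F z + z.im * D I F z)) := fun z => by
    simp only [So, Ao, unc1_nsq, unc1_Dw, es]
    ring
  have wup : ∀ z : ℂ, ‖z‖ < 1 → ‖b + N • z‖ ^ 2 + V z ≤ (1 + 2 * η) * ‖b‖ ^ 2 := fun z hz => by
    have h1 := pow_le_pow_left₀ (norm_nonneg _) (unc1_up b N aN hz).1 2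
    have h2 := (le_abs_self _).trans (hb z hz).1
    have h3 : 3 * N ≤ η * ‖b‖ := by linarith
    have h4 := mul_le_mul_of_nonneg_right h3 β0.le
    have h5 : N * N ≤ N * ‖b‖ := mul_le_mul_of_nonneg_left (by linarith) N0
    linarith
  have F1 := en hF hV (g := fun _ => 1) contDiff_const (Or.inl h0) b N
  have d1 : ∀ v z : ℂ, D v (fun _ : ℂ => (1 : ℝ)) z = 0 := fun v z => by simp [D]
  have d2 : ∀ z : ℂ, Lap (fun _ : ℂ => (1 : ℝ)) z = 0 := fun z => by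
    have e : ∀ v : ℂ, D v (fun _ : ℂ => (1 : ℝ)) = fun _ => 0 := fun v => funext (d1 v)
    have e0 : ∀ v : ℂ, D v (fun _ : ℂ => (0 : ℝ)) z = 0 := fun v => by simp [D]
    simp only [Lap, e, e0, add_zero]
  simp only [one_mul, d1, d2, zero_div, add_zero, sub_zero] at F1
  have F2 := car hF hV h0 b (-N)
  have F10 := en hF hV (g := fun z => dt (I * b) z * dt (I * b) z)
    ((sm_dt _).mul (sm_dt _)) (Or.inl h0) b N
  simp only [unc1_Lap_sq, unc1_D_sq] at F10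
  have Ft := tra hF (X₁ := fun z => (dt b z + 1) * dt 1 z) (X₂ := fun z => (dt b z + 1) * dt I z)
    (((sm_dt b).add contDiff_const).mul (sm_dt 1))
    (((sm_dt b).add contDiff_const).mul (sm_dt I)) h0
  simp only [unc1_dv] at Ft
  have F3 := unc1_le2 om ou1 ou2 ((2 - η) * ‖b‖ ^ 2) 1 1 fun z hz => by
    have h1 := neg_le_of_abs_le (hb z hz).1
    have h2 : (2 - η) * ‖b‖ ^ 2 ≤ ‖b + N • z‖ ^ 2 + V z + ‖b + (-N) • z‖ ^ 2 := by
      rw [unc1_nsq, unc1_nsq]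
      have h3 := sq_nonneg (N * z.re)
      have h4 := sq_nonneg (N * z.im)
      linarith
    have h3 := mul_le_mul_of_nonneg_right h2 (sq_nonneg (F z))
    linarith
  have F4 := unc1_le1 ou3 om 1 (2 * η * ‖b‖ ^ 2) fun z hz => by
    have h1 := unc1_DV V (b + (-N) • z) z
    have h2 : ‖b + (-N) • z‖ ≤ 2 * ‖b‖ := by linarith [(unc1_up b (-N) aN' hz).1]
    have h3 : ‖b + (-N) • z‖ * gn V z ≤ 2 * ‖b‖ * (η * ‖b‖) :=
      mul_le_mul h2 (hb z hz).2 (by unfold gn; positivity) (by positivity)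
    have h4 := mul_le_mul_of_nonneg_right (h1.trans h3) (sq_nonneg (F z))
    linarith
  have F4' := unc1_le1 om ou2 (‖b‖ ^ 2) 4 fun z hz => by
    have h2 : ‖b‖ ≤ 2 * ‖b + (-N) • z‖ := by linarith [(unc1_up b (-N) aN' hz).2]
    have h3 := pow_le_pow_left₀ β0.le h2 2
    have h4 := mul_le_mul_of_nonneg_right h3 (sq_nonneg (F z))
    linarith
  have F5 := unc1_le1 oQ oP.sq 4 1 fun z _ => by
    have := sq_nonneg (So b (-N) V F z - Ao b (-N) F z)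
    linarith
  have F6 := unc1_le2 (oA (-N)).sq oP.sq oQ 1 1 (-2) fun z _ => by
    have := sq_nonneg (So b (-N) V F z)
    linarith
  have F7 : ∀ {η ι : ℝ}, 0 < η → η * ι = 1 → _ := fun {η ι} h1 h2 =>
    unc1_le2 oP.sq oY.sq oE.sq 1 ((1 + η) * (16 * N ^ 2)) (1 + ι) fun z _ => by
      have := unc1_young h1 h2
        (-(4 * N) * ((dt b z + 1) * F z + (z.re * D 1 F z + z.im * D I F z)))
        (So b N V F z + Ao b N F z)
      rw [eP]
      linarith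
  have F7a := F7 η0 hι
  have F7b := F7 one_pos (one_mul 1)
  have F8 := unc1_le5 oY.sq os2 om oW.sq ou4 ou5 1 1 ‖b‖ 1 2 1 fun z hz => by
    have h1 := neg_le_of_abs_le (abs_dt_le b z)
    have h2 := mul_le_mul_of_nonneg_left hz.le β0.le
    have h3 : 0 ≤ ‖b‖ + dt b z + 1 := by linarith
    have h4 := mul_nonneg h3 (sq_nonneg (F z))
    have e1 : dt 1 z = z.re := by simp [dt]
    have e2 : dt I z = z.im := by simp [dt]
    rw [e1, e2]
    linarith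
  have F9 := unc1_le2 oW.sq otG oa.sq (‖b‖ ^ 2) (1 + η) (1 + ι) fun z hz => by
    have h1 := z1 z hz
    rw [unc1_sq] at h1
    rw [et]
    exact unc1_split η0 hι hbs β0 h1
  have F11 := unc1_le2 ou6 ot2 om 1 ((1 + 2 * η) * ‖b‖ ^ 2) (‖b‖ ^ 2) fun z hz => by
    have h1 := mul_le_mul_of_nonneg_left (wup z hz)
      (mul_nonneg (mul_self_nonneg (dt (I * b) z)) (sq_nonneg (F z)))
    have e1 : dt (I * b) (b + N • z) = N * dt (I * b) z := by
      rw [et, et]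
      simp
      ring
    have e2 : ‖I * b‖ = ‖b‖ := by simp
    have h2 := mul_nonneg N0 (mul_nonneg (mul_self_nonneg (dt (I * b) z)) (sq_nonneg (F z)))
    rw [e1, e2]
    linarith
  have F12 := unc1_le2 otfe om oE.sq (-N ^ 2) (‖b‖ ^ 2 * N ^ 4) (‖b‖ ^ 2) fun z hz => by
    generalize So b N V F z + Ao b N F z = E
    have h1 : dt (I * b) z * dt (I * b) z ≤ ‖b‖ ^ 2 := by
      linarith [est z, bz z hz, mul_self_nonneg (dt b z)]
    have h2 : -N ^ 2 * (F z * E) ≤ N ^ 4 * F z ^ 2 + E ^ 2 := by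
      have h3 := sq_nonneg (N ^ 2 * F z + E)
      have h4 := sq_nonneg (N ^ 2 * F z)
      have h5 := sq_nonneg E
      linarith
    have h3 := mul_le_mul_of_nonneg_left h2 (mul_self_nonneg (dt (I * b) z))
    have h4 := mul_le_mul_of_nonneg_right h1 (show 0 ≤ N ^ 4 * F z ^ 2 + E ^ 2 by positivity)
    linarith
  have F13 := unc1_le2 ofe om oE.sq N (N ^ 2) 1 fun z _ => by
    generalize So b N V F z + Ao b N F z = E
    have h3 := sq_nonneg (N * F z - E)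
    have h4 := sq_nonneg (N * F z)
    have h5 := sq_nonneg E
    linarith
  have F13' := unc1_le2 ofe om oE.sq (-1) 1 1 fun z _ => by
    generalize So b N V F z + Ao b N F z = E
    have h3 := sq_nonneg (F z + E)
    have h4 := sq_nonneg (F z)
    have h5 := sq_nonneg E
    linarith
  have F13'' := unc1_le1 ou1 om 1 (5 * ‖b‖ ^ 2) fun z hz => by
    have h1 : ‖b + N • z‖ ^ 2 + V z ≤ 5 * ‖b‖ ^ 2 := by linarith [wup z hz, sq_nonneg ‖b‖]
    have h4 := mul_le_mul_of_nonneg_right h1 (sq_nonneg (F z))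
    linarith
  have F14 := unc1_le3 oa.sq (oA (-N)).sq oW.sq om 4 3 (12 * N ^ 2) (12 * N ^ 2) fun z _ => by
    have e : Ao b (-N) F z = 2 * (b.re * D 1 F z + b.im * D I F z) -
        2 * N * (z.re * D 1 F z + z.im * D I F z) - 2 * N * F z := by
      rw [Ao, unc1_Dw]; ring
    rw [e]
    generalize b.re * D 1 F z + b.im * D I F z = a
    generalize z.re * D 1 F z + z.im * D I F z = W
    have h1 := sq_nonneg (2 * a - 2 * N * W - 2 * N * F z - 2 * N * W)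
    have h2 := sq_nonneg (2 * a - 2 * N * W - 2 * N * F z - 2 * N * F z)
    have h3 := sq_nonneg (2 * N * W - 2 * N * F z)
    linarith
  have F15 := unc1_le1 oW.sq oG 1 1 fun z hz => by
    have h1 := mul_le_mul_of_nonneg_right (z1 z hz) (Gr_nonneg F z)
    have h2 := sq_nonneg (z.re * D I F z - z.im * D 1 F z)
    rw [unc1_sq] at h1
    unfold Gr at h1 ⊢
    linarith
  have F16 := unc1_le2 os2 om2 ot2 1 (‖b‖ ^ 2) (-1) fun z _ => by
    have h1 : (dt b z * dt b z + dt (I * b) z * dt (I * b) z) * F z ^ 2 =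
        ‖b‖ ^ 2 * ‖z‖ ^ 2 * F z ^ 2 := by rw [est z]
    linarith
  have F17 := unc1_le1 os2 om 1 (‖b‖ ^ 2) fun z hz => by
    have h1 : dt b z * dt b z ≤ ‖b‖ ^ 2 := by
      linarith [est z, bz z hz, mul_self_nonneg (dt (I * b) z)]
    have h4 := mul_le_mul_of_nonneg_right h1 (sq_nonneg (F z))
    linarith
  refine unc1_arith (G := ∫ z, Gr F z) (w := ∫ z, (z.re * D 1 F z + z.im * D I F z) ^ 2)
    (y := ∫ z, ((dt b z + 1) * F z + (z.re * D 1 F z + z.im * D I F z)) ^ 2)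
    (p := ∫ z, (So b (-N) V F z + Ao b (-N) F z) ^ 2)
    (Q := ∫ z, So b (-N) V F z * Ao b (-N) F z) (α := ∫ z, Ao b (-N) F z ^ 2)
    (s2 := ∫ z, dt b z * dt b z * F z ^ 2)
    (t2 := ∫ z, dt (I * b) z * dt (I * b) z * F z ^ 2)
    (u2 := ∫ z, ‖b + (-N) • z‖ ^ 2 * F z ^ 2) (u3 := ∫ z, D (b + (-N) • z) V z * F z ^ 2)
    hN η0 η1 hι hβ (integral_nonneg fun z => sq_nonneg _) (integral_nonneg fun z => sq_nonneg _)
    (integral_nonneg fun z => Gr_nonneg F z)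
    (integral_nonneg fun z => mul_nonneg (mul_self_nonneg _) (sq_nonneg _))
    (integral_nonneg fun z => mul_nonneg (mul_self_nonneg _) (sq_nonneg _))
    F1 (by linarith) (by linarith) (by linarith) F4' (by linarith) (by linarith) (by linarith)
    (by linarith) (by linarith) F9 F10 (by linarith) F12 (by linarith) (by linarith)
    (by linarith) F14 (by linarith) (by linarith) (by linarith)

theorem unc1 {δ : ℝ} (hδ : 0 < δ) : ∃ C : ℝ, 1 ≤ C ∧ ∀ N : ℝ, 1 ≤ N → ∃ K : ℝ, 1 ≤ K ∧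
    ∀ (F V : ℂ → ℝ) (b : ℂ), Sm F → Sm V → (∀ z, 1 ≤ ‖z‖ → F z = 0) → K ≤ ‖b‖ →
      (∀ z, ‖z‖ < 1 → K * |V z| ≤ ‖b‖ ^ 2 ∧ K * gn V z ≤ ‖b‖) →
      (1 - δ) * N * ‖b‖ ^ 2 * ∫ z, F z ^ 2 ≤ N ^ 2 * ‖b‖ ^ 2 * (∫ z, ‖z‖ ^ 2 * F z ^ 2) +
        C * ∫ z, (So b N V F z + Ao b N F z) ^ 2 := by
  obtain ⟨η, η0, η1, η2⟩ : ∃ η : ℝ, 0 < η ∧ η ≤ 1 / 4 ∧ 17 * η ≤ δ :=
    ⟨min (1 / 4) (δ / 17), lt_min (by norm_num) (by positivity), min_le_left _ _, by
      have := min_le_right (1 / 4 : ℝ) (δ / 17)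
      linarith⟩
  obtain ⟨ι, hι⟩ : ∃ ι, η * ι = 1 := ⟨η⁻¹, mul_inv_cancel₀ η0.ne'⟩
  have ι0 : 0 < ι := by
    by_contra hc
    nlinarith
  have ι4 : 4 ≤ ι := by nlinarith
  refine ⟨121 * ι, by linarith, fun N hN => ?_⟩
  have N2 : 1 ≤ N ^ 2 := by nlinarith
  refine ⟨21 * N ^ 2 * ι, by nlinarith, fun F V b hF hV h0 hK hb => ?_⟩
  have eK : η * (21 * N ^ 2 * ι) = 21 * N ^ 2 := by
    rw [show η * (21 * N ^ 2 * ι) = 21 * N ^ 2 * (η * ι) by ring, hι, mul_one]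
  have hβ : 21 * N ^ 2 ≤ η * ‖b‖ := by
    rw [← eK]
    exact mul_le_mul_of_nonneg_left hK η0.le
  have key : ∀ x B : ℝ, 0 ≤ x → 21 * N ^ 2 * ι * x ≤ B → x ≤ η * B := fun x B hx h => by
    have h1 := mul_le_mul_of_nonneg_left h η0.le
    rw [← mul_assoc, eK] at h1
    have h2 := mul_le_mul_of_nonneg_right N2 hx
    linarith
  have h := unc1_core hF hV h0 hN η0 η1 hι hβ fun z hz =>
    ⟨key _ _ (abs_nonneg _) (hb z hz).1, key _ _ (by unfold gn; positivity) (hb z hz).2⟩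
  have m0 : 0 ≤ N * ‖b‖ ^ 2 * ∫ z, F z ^ 2 :=
    mul_nonneg (by positivity) (integral_nonneg fun z => sq_nonneg _)
  have h2 := mul_le_mul_of_nonneg_right η2 m0
  linarith

end Pool.Agent.Lib.MP_a52643_an.YS
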